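import Mathlib

set_option autoImplicit false

namespace Pool.Agent.Helper949.DD

open Finset

/-- the number of distinct distances of a configuration -/
noncomputable def numDist {k n : ℕ} (X : Fin n → EuclideanSpace ℝ (Fin k)) : ℕ :=
  Set.ncard {r : ℝ | ∃ i j : Fin n, i < j ∧ r = dist (X i) (X j)}

/-- the value set `D_k(n)` -/
def D (k n : ℕ) : Set ℕ :=
  {m | ∃ X : Fin n → EuclideanSpace ℝ (Fin k), Function.Injective X ∧ numDist X = m}

/-- squared length of an integer vector -/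
def Q {k : ℕ} (x : Fin k → ℤ) : ℤ := ∑ i, x i ^ 2

lemma Q_nonneg {k : ℕ} (x : Fin k → ℤ) : 0 ≤ Q x := Finset.sum_nonneg (fun _ _ => sq_nonneg _)

lemma Q_pos {k : ℕ} (x : Fin k → ℤ) (hx : x ≠ 0) : 0 < Q x := by
  obtain ⟨i, hi⟩ := Function.ne_iff.mp hx
  apply Finset.sum_pos' (fun _ _ => sq_nonneg _)
  exact ⟨i, mem_univ i, by have : x i ≠ 0 := hi; positivity⟩

/-- integer points give elements of `D k n` -/
lemma mem_D {k n : ℕ} (S : Finset (Fin k → ℤ)) (hS : S.card = n) :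
    Set.ncard {q : ℤ | ∃ x ∈ S, ∃ y ∈ S, x ≠ y ∧ q = Q (x - y)} ∈ D k n := by
  classical
  let e : S ≃ Fin n := S.equivFinOfCardEq hS
  let Φ : (Fin k → ℤ) → EuclideanSpace ℝ (Fin k) := fun x => WithLp.toLp 2 (fun j => (x j : ℝ))
  have hdist : ∀ x y, dist (Φ x) (Φ y) = √((Q (x - y) : ℤ) : ℝ) := by
    intro x y
    rw [EuclideanSpace.dist_eq]
    congr 1
    simp only [Q, Pi.sub_apply]
    push_cast
    apply Finset.sum_congr rfl
    intro i _
    rw [Real.dist_eq, sq_abs]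
  have hΦ : Function.Injective Φ := by
    intro x y h
    funext j
    have h1 := congrArg (fun z : EuclideanSpace ℝ (Fin k) => z j) h
    simpa [Φ] using h1
  refine ⟨fun i => Φ (e.symm i).1, ?_, ?_⟩
  · intro i j h
    exact e.symm.injective (Subtype.ext (hΦ h))
  · have hset : {r : ℝ | ∃ i j : Fin n, i < j ∧ r = dist (Φ (e.symm i).1) (Φ (e.symm j).1)} =
        (fun q : ℤ => √(q : ℝ)) '' {q : ℤ | ∃ x ∈ S, ∃ y ∈ S, x ≠ y ∧ q = Q (x - y)} := by
      ext r
      constructor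
      · rintro ⟨i, j, hij, rfl⟩
        refine ⟨_, ⟨(e.symm i).1, (e.symm i).2, (e.symm j).1, (e.symm j).2, ?_, rfl⟩, ?_⟩
        · intro h
          exact hij.ne (e.symm.injective (Subtype.ext h))
        · exact (hdist _ _).symm
      · rintro ⟨q, ⟨x, hx, y, hy, hxy, rfl⟩, rfl⟩
        rcases lt_trichotomy (e ⟨x, hx⟩) (e ⟨y, hy⟩) with h | h | h
        · refine ⟨_, _, h, ?_⟩
          simp only [Equiv.symm_apply_apply]
          exact (hdist _ _).symm
        · exact absurd (congrArg Subtype.val (e.injective h)) hxy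
        · refine ⟨_, _, h, ?_⟩
          simp only [Equiv.symm_apply_apply]
          rw [dist_comm]
          exact (hdist _ _).symm
    unfold numDist
    rw [hset]
    apply Set.InjOn.ncard_image
    rintro a ⟨x, _, y, _, _, rfl⟩ b ⟨x', _, y', _, _, rfl⟩ h
    have h1 := (Real.sqrt_inj (by exact_mod_cast Q_nonneg _) (by exact_mod_cast Q_nonneg _)).mp h
    exact_mod_cast h1

/-- sorted non-negative vectors with at most four nonzero entries -/
def Sorted {k : ℕ} (x : Fin k → ℤ) : Prop :=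
  (∀ i j : Fin k, i ≤ j → x j ≤ x i) ∧ (∀ i, 0 ≤ x i) ∧ ∀ i : Fin k, 4 ≤ i.val → x i = 0

lemma sum_eq_four {k : ℕ} (f : Fin k → ℤ) (hf : ∀ i : Fin k, 4 ≤ i.val → f i = 0) :
    ∑ i, f i = ∑ i ∈ univ.filter (fun i : Fin k => i.val < 4), f i := by
  symm
  apply Finset.sum_subset (Finset.subset_univ _)
  intro i _ hi
  apply hf
  simpa using hi

lemma card_four (k : ℕ) : (univ.filter (fun i : Fin k => i.val < 4)).card ≤ 4 := by
  have : (univ.filter (fun i : Fin k => i.val < 4)).card ≤ (Finset.range 4).card := by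
    apply Finset.card_le_card_of_injOn (fun i => i.val)
    · intro i hi
      simp at hi
      simpa using hi
    · intro i _ j _ h
      exact Fin.ext h
  simpa using this

lemma sorted_Q_le {k : ℕ} (hk : 0 < k) (x : Fin k → ℤ) (hx : Sorted x) :
    Q x ≤ (∑ i, x i) * x ⟨0, hk⟩ := by
  unfold Q
  rw [Finset.sum_mul]
  apply Finset.sum_le_sum
  intro i _
  have h1 : x i ≤ x ⟨0, hk⟩ := hx.1 _ _ (by simp [Fin.le_def])
  have h2 := hx.2.1 i
  nlinarith

lemma sorted_Q_le4 {k : ℕ} (hk : 0 < k) (x : Fin k → ℤ) (hx : Sorted x) :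
    Q x ≤ 4 * x ⟨0, hk⟩ ^ 2 := by
  unfold Q
  rw [sum_eq_four _ (fun i hi => by rw [hx.2.2 i hi]; ring)]
  have h1 : ∀ i ∈ univ.filter (fun i : Fin k => i.val < 4), x i ^ 2 ≤ x ⟨0, hk⟩ ^ 2 := by
    intro i _
    have h1 : x i ≤ x ⟨0, hk⟩ := hx.1 _ _ (by simp [Fin.le_def])
    have h2 := hx.2.1 i
    nlinarith
  have h2 := Finset.sum_le_card_nsmul _ _ _ h1
  rw [nsmul_eq_mul] at h2
  have h3 : ((univ.filter (fun i : Fin k => i.val < 4)).card : ℤ) ≤ 4 := by
    exact_mod_cast card_four k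
  have h4 := sq_nonneg (x ⟨0, hk⟩)
  nlinarith

lemma inner_ge {k : ℕ} (hk : 0 < k) (x y : Fin k → ℤ) (hx : ∀ i, 0 ≤ x i) (hy : ∀ i, 0 ≤ y i) :
    x ⟨0, hk⟩ * y ⟨0, hk⟩ ≤ ∑ i, x i * y i :=
  Finset.single_le_sum (f := fun i => x i * y i) (fun i _ => mul_nonneg (hx i) (hy i)) (mem_univ _)

lemma cheb {k : ℕ} (x y : Fin k → ℤ) (hx : Sorted x) (hy : Sorted y) :
    (∑ i, x i) * (∑ i, y i) ≤ 4 * ∑ i, x i * y i := by
  rw [sum_eq_four x hx.2.2, sum_eq_four y hy.2.2,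
    sum_eq_four (fun i => x i * y i) (fun i hi => by rw [hx.2.2 i hi]; ring)]
  have hm : MonovaryOn x y (univ.filter (fun i : Fin k => i.val < 4) : Finset (Fin k)) := by
    intro i _ j _ hij
    rcases le_total i j with h | h
    · exact absurd (hy.1 i j h) (not_le.mpr hij)
    · exact hx.1 j i h
  have h1 := hm.sum_mul_sum_le_card_mul_sum
  have h3 : ((univ.filter (fun i : Fin k => i.val < 4)).card : ℤ) ≤ 4 := by
    exact_mod_cast card_four k
  have h4 : 0 ≤ ∑ i ∈ univ.filter (fun i : Fin k => i.val < 4), x i * y i :=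
    Finset.sum_nonneg (fun i _ => mul_nonneg (hx.2.1 i) (hy.2.1 i))
  nlinarith

lemma Q_sub {k : ℕ} (x y : Fin k → ℤ) : Q (x - y) = Q x + Q y - 2 * ∑ i, x i * y i := by
  unfold Q
  rw [Finset.mul_sum, ← Finset.sum_add_distrib, ← Finset.sum_sub_distrib]
  apply Finset.sum_congr rfl
  intro i _
  simp only [Pi.sub_apply]
  ring

lemma Q_sub_comm {k : ℕ} (x y : Fin k → ℤ) : Q (x - y) = Q (y - x) := by
  unfold Q
  apply Finset.sum_congr rfl
  intro i _
  simp only [Pi.sub_apply]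
  ring

lemma sorted_sub_aux {k : ℕ} (hk : 0 < k) (x y : Fin k → ℤ) (hx : Sorted x) (hy : Sorted y)
    (h : Q y ≤ Q x) : Q (x - y) ≤ Q x := by
  rw [Q_sub]
  have h1 := cheb x y hx hy
  have h2 := inner_ge hk x y hx.2.1 hy.2.1
  have h3 := sorted_Q_le hk x hx
  have h4 := sorted_Q_le hk y hy
  have h5 := Q_nonneg x
  have h6 := Q_nonneg y
  have hx0 := hx.2.1 ⟨0, hk⟩
  have hy0 := hy.2.1 ⟨0, hk⟩
  have hsx : 0 ≤ ∑ i, x i := Finset.sum_nonneg (fun i _ => hx.2.1 i)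
  have hsy : 0 ≤ ∑ i, y i := Finset.sum_nonneg (fun i _ => hy.2.1 i)
  set P := ∑ i, x i * y i with hP
  set a := x ⟨0, hk⟩
  set b := y ⟨0, hk⟩
  set sx := ∑ i, x i
  set sy := ∑ i, y i
  have hab : 0 ≤ a * b := mul_nonneg hx0 hy0
  have hP0 : 0 ≤ P := le_trans hab h2
  -- 4 P^2 ≥ Q x * Q y
  have h7 : Q x * Q y ≤ 4 * P ^ 2 := by
    calc Q x * Q y ≤ (sx * a) * (sy * b) := mul_le_mul h3 h4 h6 (mul_nonneg hsx hx0)
      _ = (sx * sy) * (a * b) := by ring
      _ ≤ (4 * P) * P := mul_le_mul h1 h2 hab (by linarith)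
      _ = 4 * P ^ 2 := by ring
  have h8 : Q y ^ 2 ≤ (2 * P) ^ 2 := by nlinarith
  have h9 : Q y ≤ 2 * P := abs_le_of_sq_le_sq' h8 (by linarith) |>.2
  linarith

lemma sorted_sub {k : ℕ} (hk : 0 < k) (x y : Fin k → ℤ) (hx : Sorted x) (hy : Sorted y) (e : ℤ)
    (hxe : Q x ≤ e) (hye : Q y ≤ e) : Q (x - y) ≤ e := by
  rcases le_total (Q y) (Q x) with h | h
  · exact le_trans (sorted_sub_aux hk x y hx hy h) hxe
  · rw [Q_sub_comm]
    exact le_trans (sorted_sub_aux hk y x hy hx h) hye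

/-- the box -/
def InBox {k : ℕ} (hk : 0 < k) (L : ℤ) (x : Fin k → ℤ) : Prop :=
  (∀ i, 0 ≤ x i) ∧ L ≤ x ⟨0, hk⟩ ∧ x ⟨0, hk⟩ ≤ 2 * L ∧ ∀ i, i ≠ ⟨0, hk⟩ → x i ≤ L

lemma box_Q {k : ℕ} (hk : 0 < k) (L : ℤ) (x : Fin k → ℤ) (hL : 0 ≤ L) (hx : InBox hk L x) :
    Q x ≤ (k + 3) * L ^ 2 := by
  classical
  unfold Q
  rw [← Finset.add_sum_erase _ _ (mem_univ (⟨0, hk⟩ : Fin k))]
  have h1 : ∀ i ∈ univ.erase (⟨0, hk⟩ : Fin k), x i ^ 2 ≤ L ^ 2 := by
    intro i hi
    have := hx.2.2.2 i (Finset.ne_of_mem_erase hi)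
    have := hx.1 i
    nlinarith
  have h2 := Finset.sum_le_card_nsmul _ _ _ h1
  rw [nsmul_eq_mul, Finset.card_erase_of_mem (mem_univ _), Finset.card_univ, Fintype.card_fin] at h2
  have h3 : ((k - 1 : ℕ) : ℤ) = k - 1 := by
    rw [Nat.cast_sub hk]; norm_num
  rw [h3] at h2
  have h4 := hx.2.2.1
  have h5 := hx.1 ⟨0, hk⟩
  nlinarith

lemma box_sub_sorted {k : ℕ} (hk : 0 < k) (L e : ℤ) (x y : Fin k → ℤ) (hL : 0 ≤ L)
    (hLe : 2 * (k + 3) ^ 2 * L ^ 2 ≤ e) (hx : InBox hk L x) (hy : Sorted y) (hye : Q y ≤ e) :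
    Q (x - y) ≤ e := by
  rw [Q_sub]
  have h1 := box_Q hk L x hL hx
  have h2 := inner_ge hk x y hx.1 hy.2.1
  have h3 := sorted_Q_le4 hk y hy
  have hx0 := hx.1 ⟨0, hk⟩
  have hy0 := hy.2.1 ⟨0, hk⟩
  have hkz : (1 : ℤ) ≤ k := by exact_mod_cast hk
  rcases le_total (((k + 3) * L) ^ 2) (Q y) with h | h
  · have h4 : ((k + 3) * L) ^ 2 ≤ (2 * y ⟨0, hk⟩) ^ 2 := by nlinarith
    have h5 : (k + 3) * L ≤ 2 * y ⟨0, hk⟩ := abs_le_of_sq_le_sq' h4 (by linarith) |>.2
    have h6 := hx.2.1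
    have h7 : (k + 3) * L ^ 2 ≤ 2 * (x ⟨0, hk⟩ * y ⟨0, hk⟩) := by
      have : L * ((k + 3) * L) ≤ x ⟨0, hk⟩ * (2 * y ⟨0, hk⟩) :=
        mul_le_mul h6 h5 (by positivity) hx0
      nlinarith
    linarith
  · have h4 : 0 ≤ ∑ i, x i * y i := le_trans (mul_nonneg hx0 hy0) h2
    have h5 : (k + 3) * L ^ 2 ≤ (k + 3) ^ 2 * L ^ 2 := by
      have : 0 ≤ L ^ 2 := sq_nonneg L
      nlinarith
    nlinarith

lemma box_sub_box {k : ℕ} (hk : 0 < k) (L e : ℤ) (x y : Fin k → ℤ) (hL : 0 ≤ L)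
    (hLe : 2 * (k + 3) ^ 2 * L ^ 2 ≤ e) (hx : InBox hk L x) (hy : InBox hk L y) :
    Q (x - y) ≤ e := by
  rw [Q_sub]
  have h1 := box_Q hk L x hL hx
  have h1' := box_Q hk L y hL hy
  have h2 := inner_ge hk x y hx.1 hy.1
  have hx0 := hx.1 ⟨0, hk⟩
  have hy0 := hy.1 ⟨0, hk⟩
  have hkz : (1 : ℤ) ≤ k := by exact_mod_cast hk
  have h4 : 0 ≤ ∑ i, x i * y i := le_trans (mul_nonneg hx0 hy0) h2
  have h6 : (k + 3 : ℤ) ≤ (k + 3) ^ 2 := by nlinarith
  have h5 : (k + 3) * L ^ 2 ≤ (k + 3) ^ 2 * L ^ 2 := mul_le_mul_of_nonneg_right h6 (sq_nonneg L)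
  linarith

/-- sort a vector of naturals -/
lemma exists_antitone (q : ℕ) (f : Fin q → ℕ) :
    ∃ g : Fin q → ℕ, Antitone g ∧ ∑ i, g i ^ 2 = ∑ i, f i ^ 2 := by
  refine ⟨fun i => f (Tuple.sort f (Fin.rev i)), ?_, ?_⟩
  · intro i j hij
    exact Tuple.monotone_sort f (Fin.rev_le_rev.mpr hij)
  · have h1 := Equiv.sum_comp Fin.revPerm (fun i => f (Tuple.sort f i) ^ 2)
    have h2 := Equiv.sum_comp (Tuple.sort f) (fun i => f i ^ 2)
    exact h1.trans h2

/-- pad a sorted vector by zeros -/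
lemma exists_sorted {k : ℕ} (q : ℕ) (hq : q ≤ k) (hq4 : q ≤ 4) (f : Fin q → ℕ) :
    ∃ x : Fin k → ℤ, Sorted x ∧ Q x = ((∑ i, f i ^ 2 : ℕ) : ℤ) := by
  obtain ⟨g, hg, hs⟩ := exists_antitone q f
  refine ⟨fun i => if h : i.val < q then (g ⟨i.val, h⟩ : ℤ) else 0, ⟨?_, ?_, ?_⟩, ?_⟩
  · intro i j hij
    by_cases hj : j.val < q
    · have hi : i.val < q := lt_of_le_of_lt hij hj
      simp only [hi, hj, dite_true]
      exact_mod_cast hg (show (⟨i.val, hi⟩ : Fin q) ≤ ⟨j.val, hj⟩ from hij)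
    · simp only [hj, dite_false]
      split_ifs
      · positivity
      · exact le_refl _
  · intro i
    dsimp only
    split_ifs
    · positivity
    · exact le_refl _
  · intro i hi
    have : ¬ i.val < q := by omega
    simp [this]
  · rw [← hs]
    unfold Q
    rw [Fin.sum_univ_eq_sum_range (fun j => (if h : j < q then (g ⟨j, h⟩ : ℤ) else 0) ^ 2) k]
    rw [← Finset.sum_subset (Finset.range_mono hq)]
    · rw [Finset.sum_range]
      push_cast
      apply Finset.sum_congr rfl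
      intro i _
      simp
    · intro j _ hj
      have : ¬ j < q := by simpa using hj
      simp [this]

/-- the set of squared distances of `ℤ^k` -/
def E (k : ℕ) : Set ℕ := {e | ∃ v : Fin k → ℤ, v ≠ 0 ∧ Q v = e}

lemma exists_sorted_of_mem_E {k : ℕ} (e : ℕ) (he : e ∈ E k) :
    ∃ x : Fin k → ℤ, Sorted x ∧ Q x = e := by
  rcases le_total k 4 with hk | hk
  · obtain ⟨v, _, hv⟩ := he
    obtain ⟨x, hx, hQ⟩ := exists_sorted k le_rfl hk (fun i => (v i).natAbs)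
    refine ⟨x, hx, ?_⟩
    rw [hQ, ← hv]
    unfold Q
    push_cast
    apply Finset.sum_congr rfl
    intro i _
    exact sq_abs _
  · obtain ⟨a, b, c, d, h⟩ := Nat.sum_four_squares e
    obtain ⟨x, hx, hQ⟩ := exists_sorted (k := k) 4 hk le_rfl ![a, b, c, d]
    refine ⟨x, hx, ?_⟩
    rw [hQ, ← h]
    simp [Fin.sum_univ_four]

/-- number of squared distances of `ℤ^k` up to `e` -/
noncomputable def F (k e : ℕ) : ℕ :=
  by classical exact ((Finset.Icc 1 e).filter (fun j => j ∈ E k)).card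

lemma sorted_zero {k : ℕ} : Sorted (0 : Fin k → ℤ) := by
  refine ⟨fun i j _ => le_refl _, fun i => le_refl _, fun i _ => rfl⟩

lemma lattice_main {k : ℕ} (hk : 0 < k) (e n L : ℕ) (hL : 2 * (k + 3) ^ 2 * L ^ 2 ≤ e)
    (hn : n ≤ (L + 1) ^ k) (hF : F k e + 1 ≤ n) : F k e ∈ D k n := by
  classical
  set V : Finset ℕ := (Finset.Icc 1 e).filter (fun j => j ∈ E k) with hV
  have hFV : F k e = V.card := by
    unfold F
    rw [hV]
  have hLz : 2 * ((k : ℤ) + 3) ^ 2 * (L : ℤ) ^ 2 ≤ (e : ℤ) := by exact_mod_cast hL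
  have hL0 : (0 : ℤ) ≤ L := by positivity
  let B : Finset (Fin k → ℤ) :=
    Fintype.piFinset (fun i => if i = ⟨0, hk⟩ then Finset.Icc (L : ℤ) (2 * L) else Finset.Icc 0 (L : ℤ))
  have hB : ∀ x ∈ B, InBox hk L x := by
    intro x hx
    have h := Fintype.mem_piFinset.mp hx
    have h0 := h ⟨0, hk⟩
    simp only [if_true, Finset.mem_Icc] at h0
    have h1 : ∀ i, i ≠ ⟨0, hk⟩ → 0 ≤ x i ∧ x i ≤ L := by
      intro i hi
      have := h i
      simpa [hi] using this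
    refine ⟨?_, h0.1, h0.2, fun i hi => (h1 i hi).2⟩
    intro i
    by_cases hi : i = ⟨0, hk⟩
    · rw [hi]; linarith [h0.1]
    · exact (h1 i hi).1
  have hBcard : B.card = (L + 1) ^ k := by
    rw [Fintype.card_piFinset]
    have : ∀ i : Fin k, (if i = ⟨0, hk⟩ then Finset.Icc (L : ℤ) (2 * L)
        else Finset.Icc 0 (L : ℤ)).card = L + 1 := by
      intro i
      split_ifs
      · rw [Int.card_Icc]; omega
      · rw [Int.card_Icc]; omega
    rw [Finset.prod_congr rfl (fun i _ => this i)]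
    simp
  let G : Finset (Fin k → ℤ) :=
    (Fintype.piFinset (fun _ => Finset.Icc (0 : ℤ) e)).filter (fun x => Sorted x ∧ Q x ≤ e)
  have hG : ∀ x, x ∈ G ↔ Sorted x ∧ Q x ≤ e := by
    intro x
    simp only [G, Finset.mem_filter, Fintype.mem_piFinset, Finset.mem_Icc, and_iff_right_iff_imp]
    rintro ⟨h1, h2⟩ i
    refine ⟨h1.2.1 i, ?_⟩
    have h3 : x i ^ 2 ≤ Q x := Finset.single_le_sum (f := fun i => x i ^ 2)
      (fun i _ => sq_nonneg _) (mem_univ i)
    have h4 := h1.2.1 i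
    nlinarith
  have hrep : ∀ j ∈ V, ∃ x : Fin k → ℤ, Sorted x ∧ Q x = j := by
    intro j hj
    exact exists_sorted_of_mem_E j (Finset.mem_filter.mp hj).2
  choose! y hy using hrep
  have hVle : ∀ j ∈ V, 1 ≤ j ∧ j ≤ e := fun j hj => Finset.mem_Icc.mp (Finset.mem_filter.mp hj).1
  have hsub : insert 0 (V.image y) ⊆ B ∪ G := by
    intro x hx
    rw [Finset.mem_insert] at hx
    apply Finset.mem_union_right
    rw [hG]
    rcases hx with rfl | hx
    · refine ⟨sorted_zero, ?_⟩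
      have : Q (0 : Fin k → ℤ) = 0 := by simp [Q]
      rw [this]; positivity
    · obtain ⟨j, hj, rfl⟩ := Finset.mem_image.mp hx
      refine ⟨(hy j hj).1, ?_⟩
      rw [(hy j hj).2]
      exact_mod_cast (hVle j hj).2
  have hc1 : (insert 0 (V.image y)).card ≤ n := by
    have h1 := Finset.card_insert_le (0 : Fin k → ℤ) (V.image y)
    have h2 : (V.image y).card ≤ V.card := Finset.card_image_le
    omega
  have hc2 : n ≤ (B ∪ G).card := by
    have := Finset.card_le_card (Finset.subset_union_left (s₁ := B) (s₂ := G))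
    omega
  obtain ⟨S, hS1, hS2, hS3⟩ := Finset.exists_subsuperset_card_eq hsub hc1 hc2
  have hmem := mem_D S hS3
  have hdiam : ∀ x ∈ S, ∀ z ∈ S, Q (x - z) ≤ e := by
    intro x hx z hz
    have hx' := hS2 hx
    have hz' := hS2 hz
    rw [Finset.mem_union, hG] at hx' hz'
    rcases hx' with hx' | hx' <;> rcases hz' with hz' | hz'
    · exact box_sub_box hk L e x z hL0 hLz (hB x hx') (hB z hz')
    · exact box_sub_sorted hk L e x z hL0 hLz (hB x hx') hz'.1 hz'.2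
    · rw [Q_sub_comm]
      exact box_sub_sorted hk L e z x hL0 hLz (hB z hz') hx'.1 hx'.2
    · exact sorted_sub hk x z hx'.1 hz'.1 e hx'.2 hz'.2
  have hset : {q : ℤ | ∃ x ∈ S, ∃ z ∈ S, x ≠ z ∧ q = Q (x - z)} = (fun j : ℕ => (j : ℤ)) '' (V : Set ℕ) := by
    ext q
    constructor
    · rintro ⟨x, hx, z, hz, hxz, rfl⟩
      have h1 : 0 < Q (x - z) := Q_pos _ (sub_ne_zero.mpr hxz)
      have h2 := hdiam x hx z hz
      refine ⟨(Q (x - z)).toNat, ?_, Int.toNat_of_nonneg h1.le⟩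
      rw [Finset.mem_coe, hV, Finset.mem_filter, Finset.mem_Icc]
      refine ⟨by omega, x - z, sub_ne_zero.mpr hxz, (Int.toNat_of_nonneg h1.le).symm⟩
    · rintro ⟨j, hj, rfl⟩
      refine ⟨y j, hS1 (Finset.mem_insert_of_mem (Finset.mem_image_of_mem y hj)), 0,
        hS1 (Finset.mem_insert_self _ _), ?_, ?_⟩
      · intro h0
        have h1 := (hy j hj).2
        rw [h0] at h1
        have : Q (0 : Fin k → ℤ) = 0 := by simp [Q]
        rw [this] at h1
        have h2 := (hVle j hj).1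
        have h3 : j = 0 := by exact_mod_cast h1.symm
        omega
      · rw [sub_zero]
        exact (hy j hj).2.symm
  rw [hset, Set.InjOn.ncard_image (fun a _ b _ h => by exact_mod_cast h), Set.ncard_coe_finset] at hmem
  rw [hFV]
  exact hmem

lemma F_zero (k : ℕ) : F k 0 = 0 := by
  unfold F
  simp

lemma F_succ (k e : ℕ) : F k (e + 1) ≤ F k e + 1 := by
  classical
  unfold F
  have : (Finset.Icc 1 (e + 1)).filter (fun j => j ∈ E k) ⊆
      insert (e + 1) ((Finset.Icc 1 e).filter (fun j => j ∈ E k)) := by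
    intro j hj
    simp only [Finset.mem_filter, Finset.mem_Icc, Finset.mem_insert] at hj ⊢
    rcases eq_or_ne j (e + 1) with h | h
    · exact Or.inl h
    · exact Or.inr ⟨by omega, hj.2⟩
  exact le_trans (Finset.card_le_card this) (Finset.card_insert_le _ _)

lemma F_mono (k : ℕ) : Monotone (F k) := by
  classical
  intro a b hab
  unfold F
  apply Finset.card_le_card
  intro j hj
  simp only [Finset.mem_filter, Finset.mem_Icc] at hj ⊢
  exact ⟨by omega, hj.2⟩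

lemma F_le (k e : ℕ) : F k e ≤ e := by
  induction e with
  | zero => rw [F_zero]
  | succ e ih => have := F_succ k e; omega

lemma F_sq {k : ℕ} (hk : 0 < k) (N : ℕ) : N ≤ F k (N ^ 2) := by
  classical
  unfold F
  have : (Finset.Icc 1 N).image (fun j => j ^ 2) ⊆ (Finset.Icc 1 (N ^ 2)).filter (fun j => j ∈ E k) := by
    intro q hq
    obtain ⟨j, hj, rfl⟩ := Finset.mem_image.mp hq
    rw [Finset.mem_Icc] at hj
    rw [Finset.mem_filter, Finset.mem_Icc]
    refine ⟨⟨Nat.one_le_pow _ _ hj.1, Nat.pow_le_pow_left hj.2 2⟩, Pi.single ⟨0, hk⟩ (j : ℤ), ?_, ?_⟩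
    · intro h
      have := congrFun h ⟨0, hk⟩
      simp at this
      omega
    · unfold Q
      rw [Finset.sum_eq_single (⟨0, hk⟩ : Fin k)]
      · simp
      · intro i _ hi
        simp [hi]
      · intro h; exact absurd (mem_univ _) h
  have h2 := Finset.card_le_card this
  rw [Finset.card_image_of_injective _ (fun a b h => Nat.pow_left_injective (by norm_num : 2 ≠ 0) h)] at h2
  simpa using h2

lemma exists_F_eq {k : ℕ} (hk : 0 < k) (m : ℕ) : ∃ e, F k e = m := by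
  have hex : ∃ e, m ≤ F k e := ⟨m ^ 2, F_sq hk m⟩
  classical
  refine ⟨Nat.find hex, le_antisymm ?_ (Nat.find_spec hex)⟩
  rcases Nat.eq_zero_or_pos (Nat.find hex) with h | h
  · rw [h, F_zero]; omega
  · obtain ⟨e, he⟩ : ∃ e, Nat.find hex = e + 1 := ⟨Nat.find hex - 1, by omega⟩
    have h1 : ¬ m ≤ F k e := Nat.find_min hex (by omega)
    rw [he]
    have := F_succ k e
    omega

end Pool.Agent.Helper949.DD
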