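import Mathlib
import Pool.Agent.Helper949.DD

set_option autoImplicit false

/-! The Bannai–Bannai–Stanton bound for `s`-distance sets (proof of Petrov and Pohoata). -/

namespace Pool.Agent.Helper949.DD

open Finset

/-- monomial attached to a multiset of `Option (Fin k)` -/
noncomputable def mon {k : ℕ} (x : Fin k → ℝ) (σ : Multiset (Option (Fin k))) : ℝ :=
  (σ.map (fun o => o.elim 1 x)).prod

lemma mon_add {k : ℕ} (x : Fin k → ℝ) (σ τ : Multiset (Option (Fin k))) :
    mon x (σ + τ) = mon x σ * mon x τ := by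
  simp [mon]

lemma mon_replicate {k : ℕ} (x : Fin k → ℝ) (n : ℕ) (o : Option (Fin k)) :
    mon x (Multiset.replicate n o) = (o.elim 1 x) ^ n := by
  simp [mon]

lemma mon_sum {k : ℕ} (x : Fin k → ℝ) (α : Fin k → ℕ) (T : Finset (Fin k)) :
    mon x (∑ a ∈ T, Multiset.replicate (α a) (some a)) = ∏ a ∈ T, x a ^ α a := by
  classical
  induction T using Finset.induction_on with
  | empty => simp [mon]
  | insert a T ha ih =>
    rw [Finset.sum_insert ha, Finset.prod_insert ha, mon_add, ih, mon_replicate]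
    rfl

lemma exists_mon {k s : ℕ} (α : Fin k → ℕ) (hα : ∑ a, α a ≤ s) :
    ∃ σ : Sym (Option (Fin k)) s, ∀ x : Fin k → ℝ, mon x σ.1 = ∏ a, x a ^ α a := by
  refine ⟨⟨∑ a, Multiset.replicate (α a) (some a) + Multiset.replicate (s - ∑ a, α a) none, ?_⟩, ?_⟩
  · rw [Multiset.card_add, Multiset.card_replicate, Multiset.card_sum]
    simp only [Multiset.card_replicate]
    omega
  · intro x
    rw [mon_add, mon_sum, mon_replicate]
    simp

theorem bbs {k n s : ℕ} (Y : Fin n → EuclideanSpace ℝ (Fin k)) (hY : Function.Injective Y)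
    (h : numDist Y ≤ s) : n ≤ (k + s).choose s := by
  classical
  by_contra hcon
  push Not at hcon
  -- a nonzero function orthogonal to all polynomials of degree at most `s`
  let T : (Fin n → ℝ) →ₗ[ℝ] (Sym (Option (Fin k)) s → ℝ) :=
    LinearMap.pi fun σ => ∑ i, mon (Y i) σ.1 • LinearMap.proj i
  have hker : LinearMap.ker T ≠ ⊥ := by
    apply LinearMap.ker_ne_bot_of_finrank_lt
    rw [Module.finrank_fintype_fun_eq_card, Module.finrank_fintype_fun_eq_card, Fintype.card_fin,
      Sym.card_sym_eq_choose, Fintype.card_option, Fintype.card_fin]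
    have : k + 1 + s - 1 = k + s := by omega
    rw [this]
    exact hcon
  obtain ⟨f, hf, hf0⟩ := Submodule.exists_mem_ne_zero_of_ne_bot hker
  have hfσ : ∀ σ : Sym (Option (Fin k)) s, ∑ i, f i * mon (Y i) σ.1 = 0 := by
    intro σ
    have h1 := congrFun (LinearMap.mem_ker.mp hf) σ
    simp only [T, LinearMap.pi_apply, LinearMap.sum_apply, LinearMap.smul_apply,
      LinearMap.proj_apply, smul_eq_mul, Pi.zero_apply] at h1
    rw [← h1]
    apply Finset.sum_congr rfl
    intro i _
    ring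
  have horth : ∀ α : Fin k → ℕ, ∑ a, α a ≤ s → ∑ i, f i * ∏ a, (Y i) a ^ α a = 0 := by
    intro α hα
    obtain ⟨σ, hσ⟩ := exists_mon α hα
    rw [← hfσ σ]
    apply Finset.sum_congr rfl
    intro i _
    rw [hσ]
  -- the polynomial
  have hfin : {r : ℝ | ∃ i j : Fin n, i < j ∧ r = dist (Y i) (Y j)}.Finite := by
    apply Set.Finite.subset (Set.finite_range (fun p : Fin n × Fin n => dist (Y p.1) (Y p.2)))
    rintro r ⟨i, j, _, rfl⟩
    exact ⟨(i, j), rfl⟩
  set Δ : Finset ℝ := hfin.toFinset with hΔ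
  have hΔcard : Δ.card ≤ s := by
    unfold numDist at h
    rw [Set.ncard_eq_toFinset_card _ hfin] at h
    exact h
  have hΔmem : ∀ i j, i ≠ j → dist (Y i) (Y j) ∈ Δ := by
    intro i j hij
    rw [hΔ, Set.Finite.mem_toFinset]
    rcases lt_or_gt_of_ne hij with h | h
    · exact ⟨i, j, h, rfl⟩
    · exact ⟨j, i, h, dist_comm _ _⟩
  have hΔpos : ∀ r ∈ Δ, r ≠ 0 := by
    intro r hr
    rw [hΔ, Set.Finite.mem_toFinset] at hr
    obtain ⟨i, j, hij, rfl⟩ := hr
    exact dist_ne_zero.mpr (fun h => hij.ne (hY h))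
  let P : MvPolynomial (Fin k ⊕ Fin k) ℝ := ∏ r ∈ Δ,
    ((∑ a, (MvPolynomial.X (Sum.inl a) - MvPolynomial.X (Sum.inr a)) ^ 2) - MvPolynomial.C (r ^ 2))
  have hdeg : P.totalDegree ≤ 2 * s := by
    refine (MvPolynomial.totalDegree_finsetProd _ _).trans ?_
    have h1 : ∀ r ∈ Δ, ((∑ a : Fin k, ((MvPolynomial.X (Sum.inl a) : MvPolynomial (Fin k ⊕ Fin k) ℝ)
        - MvPolynomial.X (Sum.inr a)) ^ 2) - MvPolynomial.C (r ^ 2)).totalDegree ≤ 2 := by
      intro r _
      refine (MvPolynomial.totalDegree_sub_C_le _ _).trans ?_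
      refine MvPolynomial.totalDegree_finsetSum_le ?_
      intro a _
      refine (MvPolynomial.totalDegree_pow _ _).trans ?_
      have h2 : ((MvPolynomial.X (Sum.inl a) : MvPolynomial (Fin k ⊕ Fin k) ℝ)
        - MvPolynomial.X (Sum.inr a)).totalDegree ≤ 1 := by
        refine (MvPolynomial.totalDegree_sub _ _).trans ?_
        rw [MvPolynomial.totalDegree_X, MvPolynomial.totalDegree_X]
        exact le_rfl
      omega
    calc ∑ r ∈ Δ, _ ≤ ∑ _r ∈ Δ, 2 := Finset.sum_le_sum h1
      _ = Δ.card * 2 := by rw [Finset.sum_const, smul_eq_mul]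
      _ ≤ 2 * s := by omega
  have heval : ∀ i j, MvPolynomial.eval (Sum.elim (fun a => (Y i) a) (fun a => (Y j) a)) P
      = ∏ r ∈ Δ, (dist (Y i) (Y j) ^ 2 - r ^ 2) := by
    intro i j
    simp only [P, map_prod, map_sub, map_sum, map_pow, MvPolynomial.eval_X, MvPolynomial.eval_C,
      Sum.elim_inl, Sum.elim_inr]
    rw [EuclideanSpace.dist_eq, Real.sq_sqrt (Finset.sum_nonneg (fun _ _ => sq_nonneg _))]
    simp only [Real.dist_eq, sq_abs]
  set c : ℝ := ∏ r ∈ Δ, (0 - r ^ 2) with hc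
  have hc0 : c ≠ 0 := by
    rw [hc]
    apply Finset.prod_ne_zero_iff.mpr
    intro r hr
    have := pow_pos (lt_of_le_of_ne (sq_nonneg r) (Ne.symm (pow_ne_zero 2 (hΔpos r hr)))) 1
    rw [pow_one] at this
    linarith
  have hsum1 : ∑ i, ∑ j, f i * f j *
      MvPolynomial.eval (Sum.elim (fun a => (Y i) a) (fun a => (Y j) a)) P = c * ∑ i, f i ^ 2 := by
    rw [Finset.mul_sum]
    apply Finset.sum_congr rfl
    intro i _
    rw [Finset.sum_eq_single i]
    · rw [heval, dist_self, hc]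
      simp only [ne_eq, OfNat.ofNat_ne_zero, not_false_eq_true, zero_pow]
      ring
    · intro j _ hij
      have h7 : ∏ r ∈ Δ, (dist (Y i) (Y j) ^ 2 - r ^ 2) = 0 :=
        Finset.prod_eq_zero (hΔmem i j (Ne.symm hij)) (sub_self _)
      rw [heval, h7, mul_zero]
    · intro h; exact absurd (mem_univ _) h
  have hsum2 : ∑ i, ∑ j, f i * f j *
      MvPolynomial.eval (Sum.elim (fun a => (Y i) a) (fun a => (Y j) a)) P = 0 := by
    have h1 : ∀ i j, f i * f j *
        MvPolynomial.eval (Sum.elim (fun a => (Y i) a) (fun a => (Y j) a)) P =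
        ∑ m ∈ P.support, P.coeff m * ((f i * ∏ a, (Y i) a ^ m (Sum.inl a)) *
          (f j * ∏ a, (Y j) a ^ m (Sum.inr a))) := by
      intro i j
      rw [MvPolynomial.eval_eq', Finset.mul_sum]
      apply Finset.sum_congr rfl
      intro m _
      rw [Fintype.prod_sum_type]
      simp only [Sum.elim_inl, Sum.elim_inr]
      ring
    simp only [h1]
    have h2 : ∑ i, ∑ j, ∑ m ∈ P.support, P.coeff m * ((f i * ∏ a, (Y i) a ^ m (Sum.inl a)) *
          (f j * ∏ a, (Y j) a ^ m (Sum.inr a))) =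
        ∑ m ∈ P.support, P.coeff m * ((∑ i, f i * ∏ a, (Y i) a ^ m (Sum.inl a)) *
          (∑ j, f j * ∏ a, (Y j) a ^ m (Sum.inr a))) := by
      have h3 : ∀ i, ∑ j, ∑ m ∈ P.support, P.coeff m * ((f i * ∏ a, (Y i) a ^ m (Sum.inl a)) *
          (f j * ∏ a, (Y j) a ^ m (Sum.inr a))) =
          ∑ m ∈ P.support, ∑ j, P.coeff m * ((f i * ∏ a, (Y i) a ^ m (Sum.inl a)) *
          (f j * ∏ a, (Y j) a ^ m (Sum.inr a))) := fun i => Finset.sum_comm
      simp only [h3]
      rw [Finset.sum_comm]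
      apply Finset.sum_congr rfl
      intro m _
      rw [Finset.sum_mul_sum, Finset.mul_sum]
      apply Finset.sum_congr rfl
      intro i _
      rw [Finset.mul_sum]
    rw [h2]
    apply Finset.sum_eq_zero
    intro m hm
    have h3 : ∑ a, m (Sum.inl a) + ∑ a, m (Sum.inr a) ≤ 2 * s := by
      have h4 := MvPolynomial.le_totalDegree hm
      rw [Finsupp.sum_fintype _ _ (fun _ => rfl), Fintype.sum_sum_type] at h4
      exact h4.trans hdeg
    rcases le_or_gt (∑ a, m (Sum.inl a)) s with h4 | h4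
    · rw [horth (fun a => m (Sum.inl a)) h4]
      ring
    · rw [horth (fun a => m (Sum.inr a)) (by omega)]
      ring
  rw [hsum2] at hsum1
  have h5 : ∑ i, f i ^ 2 = 0 := by
    rcases mul_eq_zero.mp hsum1.symm with h | h
    · exact absurd h hc0
    · exact h
  apply hf0
  funext i
  have h6 := (Finset.sum_eq_zero_iff_of_nonneg (fun i _ => sq_nonneg (f i))).mp h5 i (mem_univ i)
  simpa using h6

end Pool.Agent.Helper949.DD
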