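import Mathlib

namespace Pool.Agent.Helper949.CC

open Finset

/-- The number of complete subgraphs of `G`: nonempty sets of pairwise adjacent vertices. -/
noncomputable def completeCount {V : Type} (G : SimpleGraph V) : ℕ :=
  Set.ncard {S : Finset V | S.Nonempty ∧ G.IsClique (S : Set V)}

/-- The set `S_n` of values of `completeCount` on graphs with vertex set `Fin n`. -/
def possibleCounts (n : ℕ) : Set ℕ :=
  {m | ∃ G : SimpleGraph (Fin n), completeCount G = m}

/-- `F(n)`, the number of possible values. -/
noncomputable def numCounts (n : ℕ) : ℕ := (possibleCounts n).ncard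

open Classical in
/-- All cliques including the empty one. -/
noncomputable def allCount {V : Type} [Fintype V] (G : SimpleGraph V) : ℕ :=
  ((univ : Finset (Finset V)).filter (fun S : Finset V => G.IsClique (S : Set V))).card

lemma completeCount_add_one {V : Type} [Fintype V] (G : SimpleGraph V) :
    completeCount G + 1 = allCount G := by
  classical
  unfold completeCount allCount
  have h1 : {S : Finset V | S.Nonempty ∧ G.IsClique (S : Set V)} =
      (((univ : Finset (Finset V)).filter (fun S : Finset V => G.IsClique (S : Set V))).erase ∅ :
        Finset (Finset V)) := by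
    ext S
    simp only [Set.mem_ofPred_eq, Finset.coe_erase, Finset.coe_filter, Finset.mem_univ, true_and,
      Set.mem_sdiff, Set.mem_singleton_iff, Finset.nonempty_iff_ne_empty]
    tauto
  rw [h1, Set.ncard_coe_finset, Finset.card_erase_of_mem (by simp)]
  have : 0 < ((univ : Finset (Finset V)).filter (fun S : Finset V => G.IsClique (S : Set V))).card := by
    apply Finset.card_pos.2
    exact ⟨∅, by simp⟩
  omega

lemma allCount_comap {V W : Type} [Fintype V] [Fintype W] (e : V ≃ W) (G : SimpleGraph W) :
    allCount (G.comap e) = allCount G := by
  classical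
  unfold allCount
  apply Finset.card_bij (fun S _ => S.map e.toEmbedding)
  · intro S hS
    simp only [Finset.mem_filter, Finset.mem_univ, true_and] at hS ⊢
    intro x hx y hy hxy
    simp only [Finset.coe_map, Set.mem_image, Finset.mem_coe] at hx hy
    obtain ⟨a, ha, rfl⟩ := hx
    obtain ⟨b, hb, rfl⟩ := hy
    have hab : a ≠ b := fun h => hxy (by rw [h])
    exact hS ha hb hab
  · intro S _ T _ h
    exact Finset.map_injective _ h
  · intro T hT
    refine ⟨T.map e.symm.toEmbedding, ?_, ?_⟩
    · simp only [Finset.mem_filter, Finset.mem_univ, true_and] at hT ⊢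
      intro x hx y hy hxy
      simp only [Finset.coe_map, Set.mem_image, Finset.mem_coe] at hx hy
      obtain ⟨a, ha, rfl⟩ := hx
      obtain ⟨b, hb, rfl⟩ := hy
      have hab : a ≠ b := fun h => hxy (by rw [h])
      have := hT ha hb hab
      simpa using this
    · ext x
      simp

section Join

variable {R C : Type} [Fintype R] [Fintype C]

open Classical in
/-- Sum over cliques `T` of `K` of two to the number of `v` with `T ⊆ A v`. -/
noncomputable def val (K : SimpleGraph C) (A : R → Finset C) : ℕ :=
  ∑ T ∈ (univ : Finset (Finset C)).filter (fun T : Finset C => K.IsClique (T : Set C)),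
    2 ^ ((univ : Finset R).filter (fun v => T ⊆ A v)).card

open Classical in
/-- The part of `val` from nonempty cliques. -/
noncomputable def valNE (K : SimpleGraph C) (A : R → Finset C) : ℕ :=
  ∑ T ∈ (univ : Finset (Finset C)).filter (fun T : Finset C => T.Nonempty ∧ K.IsClique (T : Set C)),
    2 ^ ((univ : Finset R).filter (fun v => T ⊆ A v)).card

lemma val_eq (K : SimpleGraph C) (A : R → Finset C) :
    val K A = 2 ^ (Fintype.card R) + valNE K A := by
  classical
  unfold val valNE
  have h1 : (univ : Finset (Finset C)).filter (fun T : Finset C => K.IsClique (T : Set C)) =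
      insert ∅ ((univ : Finset (Finset C)).filter
        (fun T : Finset C => T.Nonempty ∧ K.IsClique (T : Set C))) := by
    ext T
    simp only [Finset.mem_filter, Finset.mem_univ, true_and, Finset.mem_insert]
    constructor
    · intro h
      by_cases hT : T = ∅
      · exact Or.inl hT
      · exact Or.inr ⟨Finset.nonempty_iff_ne_empty.2 hT, h⟩
    · rintro (rfl | h)
      · simp
      · exact h.2
  rw [h1, Finset.sum_insert (by simp)]
  simp

/-- The graph on `R ⊕ C` in which `R` is a clique, `C` induces `K`, and `u : R` is adjacent
to the elements of `A u`. -/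
def joinG (K : SimpleGraph C) (A : R → Finset C) : SimpleGraph (R ⊕ C) where
  Adj x y := match x, y with
    | .inl u, .inl v => u ≠ v
    | .inl u, .inr y => y ∈ A u
    | .inr x, .inl v => x ∈ A v
    | .inr x, .inr y => K.Adj x y
  symm := ⟨by
    rintro (u | x) (v | y) h
    · exact fun h' => h h'.symm
    · exact h
    · exact h
    · exact h.symm⟩
  loopless := ⟨by
    rintro (u | x) h
    · exact h rfl
    · exact K.loopless.irrefl x h⟩

lemma allCount_joinG (K : SimpleGraph C) (A : R → Finset C) :
    allCount (joinG K A) = val K A := by
  classical
  unfold allCount val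
  have key : ∀ S : Finset (R ⊕ C), (joinG K A).IsClique (S : Set (R ⊕ C)) ↔
      (K.IsClique (S.toRight : Set C) ∧ S.toLeft ⊆ univ.filter (fun v => S.toRight ⊆ A v)) := by
    intro S
    constructor
    · intro h
      refine ⟨?_, ?_⟩
      · intro x hx y hy hxy
        have hx' : Sum.inr x ∈ S := by simpa using hx
        have hy' : Sum.inr y ∈ S := by simpa using hy
        have := h (Finset.mem_coe.2 hx') (Finset.mem_coe.2 hy') (by simpa using hxy)
        exact this
      · intro u hu
        simp only [Finset.mem_filter, Finset.mem_univ, true_and]
        intro x hx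
        have hx' : Sum.inr x ∈ S := by simpa using hx
        have hu' : Sum.inl u ∈ S := by simpa using hu
        have := h (Finset.mem_coe.2 hu') (Finset.mem_coe.2 hx') (by simp)
        exact this
    · rintro ⟨h1, h2⟩
      rintro (u | x) hx (v | y) hy hxy
      · show u ≠ v
        simpa using hxy
      · show y ∈ A u
        have hu : u ∈ S.toLeft := by simpa using hx
        have hy' : y ∈ S.toRight := by simpa using hy
        have := h2 hu
        simp only [Finset.mem_filter, Finset.mem_univ, true_and] at this
        exact this hy'
      · show x ∈ A v
        have hu : v ∈ S.toLeft := by simpa using hy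
        have hy' : x ∈ S.toRight := by simpa using hx
        have := h2 hu
        simp only [Finset.mem_filter, Finset.mem_univ, true_and] at this
        exact this hy'
      · show K.Adj x y
        have hx' : x ∈ S.toRight := by simpa using hx
        have hy' : y ∈ S.toRight := by simpa using hy
        exact h1 (Finset.mem_coe.2 hx') (Finset.mem_coe.2 hy') (by simpa using hxy)
  have h2 : ((univ : Finset (Finset (R ⊕ C))).filter
      (fun S : Finset (R ⊕ C) => (joinG K A).IsClique (S : Set (R ⊕ C)))).card =
      (((univ : Finset (Finset C)).filter (fun T : Finset C => K.IsClique (T : Set C))).sigma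
        (fun T => (univ.filter (fun v => T ⊆ A v)).powerset)).card := by
    apply Finset.card_bij (fun S _ => ⟨S.toRight, S.toLeft⟩)
    · intro S hS
      simp only [Finset.mem_filter, Finset.mem_univ, true_and] at hS
      rw [key] at hS
      simp only [Finset.mem_sigma, Finset.mem_filter, Finset.mem_univ, true_and,
        Finset.mem_powerset]
      exact hS
    · intro S _ T _ h
      simp only [Sigma.mk.injEq] at h
      obtain ⟨h1, h2⟩ := h
      have h2' := eq_of_heq h2
      ext x
      rcases x with x | x
      · rw [← Finset.mem_toLeft, ← Finset.mem_toLeft, h2']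
      · rw [← Finset.mem_toRight, ← Finset.mem_toRight, h1]
    · rintro ⟨T, U⟩ h
      simp only [Finset.mem_sigma, Finset.mem_filter, Finset.mem_univ, true_and,
        Finset.mem_powerset] at h
      refine ⟨U.disjSum T, ?_, ?_⟩
      · simp only [Finset.mem_filter, Finset.mem_univ, true_and]
        rw [key]
        simpa using h
      · simp
  rw [Finset.card_sigma] at h2
  simp only [Finset.card_powerset] at h2
  convert h2 using 1
  apply congrArg Finset.card
  ext S
  simp

end Join

end Pool.Agent.Helper949.CC
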