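import Pool.Agent.Helper949.CC9

namespace Pool.Agent.Helper949.CC

open Finset

lemma noChain_of {n k μ ℓ X0 : ℕ} (hk : 1 ≤ k) (hμ : 1 ≤ μ) (hℓ : 1 ≤ ℓ)
    (hX1 : 6 * k * (200 * k ^ 2) ≤ X0)
    (hX2 : ((Nat.log 2 n + 1) * (4 * μ) + 1) * (6 * k * k + 1) ≤ X0)
    (hX3 : 24 * k * ℓ ≤ X0) (hn : 4 * μ * X0 ≤ n)
    (hmain : 2 * Real.logb 2 (((Nat.log 2 n + 1) * (4 * μ) + 1 : ℕ) : ℝ) * k <
      (Real.logb 2 n - Real.logb 2 ((4 * μ * X0 : ℕ) : ℝ)) ^ 2) : NoChain n k μ ℓ := by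
  intro c d hc6 hanti hd0 hdn hdk hB hA
  set Γ : ℕ := (Nat.log 2 n + 1) * (4 * μ) + 1 with hΓ
  set β : ℝ := Real.logb 2 (Γ : ℝ) with hβ
  have hX0pos : 0 < X0 := by
    have : 0 < 24 * k * ℓ := by positivity
    omega
  have hΓ2 : 2 ≤ Γ := by
    rw [hΓ]
    have : 1 ≤ (Nat.log 2 n + 1) * (4 * μ) := Nat.mul_pos (by omega) (by omega)
    omega
  have hΓpos : (0 : ℝ) < Γ := by
    have : 0 < Γ := by omega
    exact_mod_cast this
  have hβ1 : 1 ≤ β := by
    rw [hβ, Real.le_logb_iff_rpow_le (by norm_num) hΓpos, Real.rpow_one]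
    exact_mod_cast hΓ2
  set Sf : ℕ → ℕ := fun j => ∑ x ∈ Finset.Ico j c, d x with hSf
  have F1 : ∀ j, Sf j ≤ 6 * k * d j := by
    intro j
    have h1 : ∀ x ∈ Finset.Ico j c, d x ≤ d j := fun x hx => hanti (Finset.mem_Ico.1 hx).1
    have h2 := Finset.sum_le_card_nsmul _ _ _ h1
    rw [Nat.card_Ico, smul_eq_mul] at h2
    refine h2.trans ?_
    apply Nat.mul_le_mul_right
    omega
  have F2 : ∀ j κ, Sf j ≤ (κ + 1) * d j + Sf (j + 1 + κ) := by
    intro j κ
    have hsub : Finset.Ico j c ⊆ Finset.Ico j (j + 1 + κ) ∪ Finset.Ico (j + 1 + κ) c := by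
      intro x hx
      rw [Finset.mem_union, Finset.mem_Ico, Finset.mem_Ico]
      rw [Finset.mem_Ico] at hx
      omega
    have h1 : Sf j ≤ ∑ x ∈ Finset.Ico j (j + 1 + κ) ∪ Finset.Ico (j + 1 + κ) c, d x :=
      Finset.sum_le_sum_of_subset hsub
    have h2 := Finset.sum_union_inter (s₁ := Finset.Ico j (j + 1 + κ))
      (s₂ := Finset.Ico (j + 1 + κ) c) (f := d)
    have h3 : ∑ x ∈ Finset.Ico j (j + 1 + κ), d x ≤ (κ + 1) * d j := by
      have h4 : ∀ x ∈ Finset.Ico j (j + 1 + κ), d x ≤ d j :=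
        fun x hx => hanti (Finset.mem_Ico.1 hx).1
      have h5 := Finset.sum_le_card_nsmul _ _ _ h4
      rw [Nat.card_Ico, smul_eq_mul] at h5
      have : j + 1 + κ - j = κ + 1 := by omega
      rwa [this] at h5
    have h6 : Sf (j + 1 + κ) = ∑ x ∈ Finset.Ico (j + 1 + κ) c, d x := rfl
    omega
  have F3 : ∀ j < c, 200 * k ^ 2 ≤ d j →
      d j < 4 * μ * Sf (j + 1 + Nat.log 2 (d j / (4 * ℓ))) := by
    intro j hj hdj
    have h1 := hB j hj hdj
    rw [Nat.div_lt_iff_lt_mul (by omega)] at h1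
    rw [mul_comm (4 * μ)]
    exact h1
  have F4 : ∀ j, Nat.log 2 (d j / (4 * ℓ)) ≤ Nat.log 2 n := by
    intro j
    apply Nat.log_mono_right
    exact (Nat.div_le_self _ _).trans (hdn j)
  have F5 : ∀ j, d j < 4 * ℓ * 2 ^ (Nat.log 2 (d j / (4 * ℓ)) + 1) := by
    intro j
    have h1 := Nat.lt_pow_succ_log_self (b := 2) (by norm_num) (d j / (4 * ℓ))
    rw [Nat.div_lt_iff_lt_mul (by omega)] at h1
    rw [mul_comm]
    exact h1
  have F6 : ∀ j < c, 200 * k ^ 2 ≤ d j →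
      Sf j ≤ Γ * Sf (j + 1 + Nat.log 2 (d j / (4 * ℓ))) := by
    intro j hj hdj
    have h1 := F2 j (Nat.log 2 (d j / (4 * ℓ)))
    have h2 := F3 j hj hdj
    have h3 := F4 j
    set κ := Nat.log 2 (d j / (4 * ℓ))
    have h4 : (κ + 1) * d j ≤ (Nat.log 2 n + 1) * (4 * μ * Sf (j + 1 + κ)) :=
      Nat.mul_le_mul (by omega) h2.le
    calc Sf j ≤ (κ + 1) * d j + Sf (j + 1 + κ) := h1
      _ ≤ (Nat.log 2 n + 1) * (4 * μ * Sf (j + 1 + κ)) + Sf (j + 1 + κ) :=
        Nat.add_le_add_right h4 _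
      _ = Γ * Sf (j + 1 + κ) := by rw [hΓ]; ring
  have hX0R : (0 : ℝ) < X0 := by exact_mod_cast hX0pos
  have claim : ∀ N j, c - j = N → X0 ≤ Sf j →
      (j : ℝ) + (Real.logb 2 (Sf j) - Real.logb 2 X0) ^ 2 / (2 * β) ≤ k := by
    intro N
    induction N using Nat.strong_induction_on with
    | _ N ih =>
    intro j hjN hXj
    have hSpos : 0 < Sf j := by omega
    have hjc : j < c := by
      by_contra hcon
      have : Sf j = 0 := by
        simp only [hSf]
        rw [Finset.Ico_eq_empty (by omega), Finset.sum_empty]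
      omega
    have hdj : 200 * k ^ 2 ≤ d j := by
      have h1 := F1 j
      have h2 : 6 * k * (200 * k ^ 2) ≤ 6 * k * d j := by omega
      exact Nat.le_of_mul_le_mul_left h2 (by omega)
    have h6 := F6 j hjc hdj
    have h5 := F5 j
    set κ := Nat.log 2 (d j / (4 * ℓ)) with hκ
    set j' := j + 1 + κ with hj'
    have hS'pos : 0 < Sf j' := by
      by_contra hcon
      have : Sf j' = 0 := by omega
      rw [this] at h6
      omega
    have hS'R : (0 : ℝ) < Sf j' := by exact_mod_cast hS'pos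
    have hSR : (0 : ℝ) < Sf j := by exact_mod_cast hSpos
    have hj'k : j' ≤ k := by
      by_contra hcon
      push Not at hcon
      have h1 : Sf j' ≤ 6 * k * k := by
        refine (F1 j').trans ?_
        apply Nat.mul_le_mul_left
        exact (hanti hcon.le).trans hdk
      have h2 : Γ * (6 * k * k + 1) ≤ Γ * Sf j' := by omega
      have h3 := Nat.le_of_mul_le_mul_left h2 (by omega)
      omega
    have hy0 : 0 ≤ Real.logb 2 (Sf j) - Real.logb 2 X0 := by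
      rw [sub_nonneg]
      apply Real.logb_le_logb_of_le (by norm_num) hX0R
      exact_mod_cast hXj
    have hyκ : Real.logb 2 (Sf j) - Real.logb 2 X0 ≤ (κ : ℝ) + 1 := by
      have h1 : Sf j ≤ X0 * 2 ^ (κ + 1) := by
        calc Sf j ≤ 6 * k * d j := F1 j
          _ ≤ 6 * k * (4 * ℓ * 2 ^ (κ + 1)) := Nat.mul_le_mul_left _ h5.le
          _ = 24 * k * ℓ * 2 ^ (κ + 1) := by ring
          _ ≤ X0 * 2 ^ (κ + 1) := Nat.mul_le_mul_right _ hX3
      have h2 : (Sf j : ℝ) ≤ X0 * 2 ^ (κ + 1) := by exact_mod_cast h1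
      have h3 : Real.logb 2 (Sf j) ≤ Real.logb 2 ((X0 : ℝ) * 2 ^ (κ + 1)) :=
        Real.logb_le_logb_of_le (by norm_num) hSR h2
      rw [Real.logb_mul hX0R.ne' (by positivity), Real.logb_pow,
        Real.logb_self_eq_one (by norm_num)] at h3
      push_cast at h3
      linarith
    set y := Real.logb 2 (Sf j) - Real.logb 2 X0 with hy
    have hj'R : (j' : ℝ) = j + (κ + 1) := by
      rw [hj']
      push_cast
      ring
    have hj'kR : (j' : ℝ) ≤ k := by exact_mod_cast hj'k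
    have hβpos : 0 < β := by linarith
    by_cases hcase : y ≤ 2 * β
    · have h1 : y ^ 2 / (2 * β) ≤ y := by
        rw [div_le_iff₀ (by positivity)]
        nlinarith
      linarith
    · push Not at hcase
      have h7 : Real.logb 2 (Sf j) - β ≤ Real.logb 2 (Sf j') := by
        have h8 : (Sf j : ℝ) ≤ Γ * Sf j' := by exact_mod_cast h6
        have h9 : Real.logb 2 (Sf j) ≤ Real.logb 2 ((Γ : ℝ) * Sf j') :=
          Real.logb_le_logb_of_le (by norm_num) hSR h8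
        rw [Real.logb_mul hΓpos.ne' hS'R.ne'] at h9
        linarith
      have hX' : X0 ≤ Sf j' := by
        have h8 : Real.logb 2 (X0 : ℝ) ≤ Real.logb 2 (Sf j') := by linarith
        have h9 := (Real.logb_le_logb (b := 2) (by norm_num) hX0R hS'R).1 h8
        exact_mod_cast h9
      have h10 := ih (c - j') (by omega) j' rfl hX'
      have h11 : (y - β) ^ 2 ≤ (Real.logb 2 (Sf j') - Real.logb 2 X0) ^ 2 := by
        apply pow_le_pow_left₀
        · linarith
        · linarith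
      have h12 : (y - β) ^ 2 / (2 * β) ≤
          (Real.logb 2 (Sf j') - Real.logb 2 X0) ^ 2 / (2 * β) :=
        div_le_div_of_nonneg_right h11 (by positivity)
      have h13 : y ^ 2 / (2 * β) ≤ y + (y - β) ^ 2 / (2 * β) := by
        have : y + (y - β) ^ 2 / (2 * β) = y ^ 2 / (2 * β) + β / 2 := by
          field_simp
          ring
        rw [this]
        linarith
      linarith
  -- conclusion
  have hA' : n < 4 * μ * Sf (Nat.log 2 (n / (4 * ℓ))) := by
    rw [Nat.div_lt_iff_lt_mul (by omega)] at hA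
    rw [mul_comm (4 * μ)]
    exact hA
  set j0 := Nat.log 2 (n / (4 * ℓ)) with hj0
  have hXS : X0 ≤ Sf j0 := by
    have h1 : 4 * μ * X0 ≤ 4 * μ * Sf j0 := by omega
    exact Nat.le_of_mul_le_mul_left h1 (by omega)
  have h1 := claim _ j0 rfl hXS
  have hμR : (0 : ℝ) < μ := by exact_mod_cast hμ
  have hSR : (0 : ℝ) < Sf j0 := by
    have : 0 < Sf j0 := by omega
    exact_mod_cast this
  have hnpos : 0 < n := by
    have : 0 < 4 * μ * X0 := by positivity
    omega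
  have hnR : (0 : ℝ) < n := by exact_mod_cast hnpos
  have h2 : Real.logb 2 n - Real.logb 2 ((4 * μ * X0 : ℕ) : ℝ) ≤
      Real.logb 2 (Sf j0) - Real.logb 2 X0 := by
    have h3 : (n : ℝ) ≤ 4 * μ * Sf j0 := by exact_mod_cast hA'.le
    have h4 : Real.logb 2 n ≤ Real.logb 2 (4 * μ * Sf j0) :=
      Real.logb_le_logb_of_le (by norm_num) hnR h3
    rw [Real.logb_mul (by positivity) hSR.ne'] at h4
    push_cast
    rw [Real.logb_mul (by positivity) hX0R.ne']
    linarith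
  have h5 : 0 ≤ Real.logb 2 n - Real.logb 2 ((4 * μ * X0 : ℕ) : ℝ) := by
    rw [sub_nonneg]
    apply Real.logb_le_logb_of_le (by norm_num)
    · have : 0 < 4 * μ * X0 := by positivity
      exact_mod_cast this
    · exact_mod_cast hn
  have h6 : (Real.logb 2 n - Real.logb 2 ((4 * μ * X0 : ℕ) : ℝ)) ^ 2 ≤
      (Real.logb 2 (Sf j0) - Real.logb 2 X0) ^ 2 := pow_le_pow_left₀ h5 h2 2
  have h7 : (Real.logb 2 (Sf j0) - Real.logb 2 X0) ^ 2 / (2 * β) ≤ k := by
    have : (0 : ℝ) ≤ j0 := by positivity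
    linarith
  rw [div_le_iff₀ (by linarith)] at h7
  have h8 : 2 * β * k = k * (2 * β) := by ring
  rw [h8] at hmain
  linarith

lemma upper_nat {n k μ ℓ X0 : ℕ} (hk : 1 ≤ k) (hμ : 6 * k ≤ 2 ^ μ)
    (hℓ : (n + 1) * 512 ≤ 2 ^ ℓ) (hnk : n + 1 ≤ 2 ^ k) (hℓk : 4 * ℓ ≤ 200 * k ^ 2)
    (hD : 200 * k ^ 2 ≤ n)
    (hX1 : 6 * k * (200 * k ^ 2) ≤ X0)
    (hX2 : ((Nat.log 2 n + 1) * (4 * μ) + 1) * (6 * k * k + 1) ≤ X0)
    (hX3 : 24 * k * ℓ ≤ X0) (hn : 4 * μ * X0 ≤ n)
    (hmain : 2 * Real.logb 2 (((Nat.log 2 n + 1) * (4 * μ) + 1 : ℕ) : ℝ) * k <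
      (Real.logb 2 n - Real.logb 2 ((4 * μ * X0 : ℕ) : ℝ)) ^ 2) :
    numCounts n ≤ 2 ^ (n - k + 1) := by
  have hμ1 : 1 ≤ μ := by
    rcases Nat.eq_zero_or_pos μ with h | h
    · subst h
      simp at hμ
      omega
    · exact h
  have hℓ1 : 1 ≤ ℓ := by
    rcases Nat.eq_zero_or_pos ℓ with h | h
    · subst h
      simp at hℓ
      omega
    · exact h
  exact upper_of_noChain hk hμ hℓ hnk hℓk hD (noChain_of hk hμ1 hℓ1 hX1 hX2 hX3 hn hmain)

end Pool.Agent.Helper949.CC
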