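import Pool.Agent.Helper949.CC10

namespace Pool.Agent.Helper949.CC

open Finset Filter Topology

/-- binary logarithm of `n` as a real -/
noncomputable def Lg (n : ℕ) : ℝ := Real.logb 2 n

/-- iterated binary logarithm -/
noncomputable def LLg (n : ℕ) : ℝ := Real.logb 2 (Real.logb 2 n)

lemma tendsto_logb_atTop : Tendsto (fun x : ℝ => Real.logb 2 x) atTop atTop :=
  Real.tendsto_logb_atTop (by norm_num)

lemma tendsto_Lg : Tendsto Lg atTop atTop :=
  tendsto_logb_atTop.comp tendsto_natCast_atTop_atTop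

lemma tendsto_LLg : Tendsto LLg atTop atTop :=
  tendsto_logb_atTop.comp tendsto_Lg

lemma tendsto_logb_div : Tendsto (fun x : ℝ => Real.logb 2 x / x) atTop (𝓝 0) := by
  have h1 : Tendsto (fun x : ℝ => Real.log x / x) atTop (𝓝 0) := by
    have := Real.isLittleO_log_id_atTop.tendsto_div_nhds_zero
    simpa using this
  have h2 := h1.div_const (Real.log 2)
  rw [zero_div] at h2
  refine h2.congr (fun x => ?_)
  unfold Real.logb
  ring

/-- eventually `C * (logb 2 x)^j... ≤ x` in the form used below -/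
lemma eventually_mul_logb_le (C : ℝ) (hC : 0 < C) :
    ∀ᶠ x : ℝ in atTop, C * Real.logb 2 x ≤ x := by
  have h1 : ∀ᶠ x : ℝ in atTop, Real.logb 2 x / x < 1 / C :=
    tendsto_logb_div.eventually (gt_mem_nhds (by positivity))
  filter_upwards [h1, eventually_gt_atTop 0] with x hx hx0
  rw [div_lt_div_iff₀ hx0 hC] at hx
  linarith

lemma main_ineq (ε : ℝ) (hε : 0 < ε) :
    ∀ᶠ L : ℝ in atTop, 2 * (Real.logb 2 L + 1 + 2 * Real.logb 2 (Real.logb 2 L)) *
      ((1 / 2 - ε / 2) * (L ^ 2 / Real.logb 2 L)) <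
        (L - (23 + 7 * Real.logb 2 L)) ^ 2 ∧ 23 + 7 * Real.logb 2 L < L := by
  have h1 : Tendsto (fun u : ℝ => (1 - ε) * (1 + 1 / u + 2 * (Real.logb 2 u / u))) atTop
      (𝓝 ((1 - ε) * (1 + 0 + 2 * 0))) := by
    apply Tendsto.const_mul
    apply Tendsto.add
    · apply Tendsto.add tendsto_const_nhds
      exact tendsto_const_nhds.div_atTop tendsto_id
    · exact tendsto_logb_div.const_mul 2
  have h1' : Tendsto (fun L : ℝ => (1 - ε) * (1 + 1 / Real.logb 2 L +
      2 * (Real.logb 2 (Real.logb 2 L) / Real.logb 2 L))) atTop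
      (𝓝 ((1 - ε) * (1 + 0 + 2 * 0))) := h1.comp tendsto_logb_atTop
  have h2 : Tendsto (fun L : ℝ => (1 - (23 * (1 / L) + 7 * (Real.logb 2 L / L))) ^ 2) atTop
      (𝓝 ((1 - (23 * 0 + 7 * 0)) ^ 2)) := by
    apply Tendsto.pow
    apply Tendsto.sub tendsto_const_nhds
    apply Tendsto.add
    · apply Tendsto.const_mul
      exact tendsto_const_nhds.div_atTop tendsto_id
    · exact tendsto_logb_div.const_mul 7
  have h3 : ∀ᶠ L : ℝ in atTop, (1 - ε) * (1 + 1 / Real.logb 2 L +
      2 * (Real.logb 2 (Real.logb 2 L) / Real.logb 2 L)) < 1 - ε / 2 := by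
    apply h1'.eventually_lt_const
    linarith
  have h4 : ∀ᶠ L : ℝ in atTop, 1 - ε / 2 <
      (1 - (23 * (1 / L) + 7 * (Real.logb 2 L / L))) ^ 2 := by
    apply h2.eventually_const_lt
    norm_num
    linarith
  have h5 : Tendsto (fun L : ℝ => 23 * (1 / L) + 7 * (Real.logb 2 L / L)) atTop
      (𝓝 (23 * 0 + 7 * 0)) := by
    apply Tendsto.add
    · apply Tendsto.const_mul
      exact tendsto_const_nhds.div_atTop tendsto_id
    · exact tendsto_logb_div.const_mul 7
  have h6 : ∀ᶠ L : ℝ in atTop, 23 * (1 / L) + 7 * (Real.logb 2 L / L) < 1 := by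
    apply h5.eventually_lt_const
    norm_num
  filter_upwards [h3, h4, h6, eventually_gt_atTop 0,
    tendsto_logb_atTop.eventually (eventually_gt_atTop 0)] with L g3 g4 g6 hL hu
  have hlt := g3.trans g4
  constructor
  · have e1 : 2 * (Real.logb 2 L + 1 + 2 * Real.logb 2 (Real.logb 2 L)) *
      ((1 / 2 - ε / 2) * (L ^ 2 / Real.logb 2 L)) = ((1 - ε) * (1 + 1 / Real.logb 2 L +
      2 * (Real.logb 2 (Real.logb 2 L) / Real.logb 2 L))) * L ^ 2 := by
      field_simp
    have e2 : (L - (23 + 7 * Real.logb 2 L)) ^ 2 =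
        (1 - (23 * (1 / L) + 7 * (Real.logb 2 L / L))) ^ 2 * L ^ 2 := by
      rw [← mul_pow]
      congr 1
      field_simp
    rw [e1, e2]
    exact mul_lt_mul_of_pos_right hlt (by positivity)
  · have e3 : (23 * (1 / L) + 7 * (Real.logb 2 L / L)) * L = 23 + 7 * Real.logb 2 L := by
      field_simp
    have := mul_lt_mul_of_pos_right g6 hL
    rw [e3, one_mul] at this
    exact this

lemma Ln_bounds {n : ℕ} (hn : 1 ≤ n) (hL : 1 ≤ Lg n) :
    Lg n ≤ ((Nat.log 2 n + 1 : ℕ) : ℝ) ∧ ((Nat.log 2 n + 1 : ℕ) : ℝ) ≤ 2 * Lg n := by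
  have hnR : (0 : ℝ) < n := by exact_mod_cast hn
  unfold Lg at *
  constructor
  · rw [Real.logb_le_iff_le_rpow (by norm_num) hnR, Real.rpow_natCast]
    have := Nat.lt_pow_succ_log_self (b := 2) (by norm_num) n
    exact_mod_cast this.le
  · have h1 : ((Nat.log 2 n : ℕ) : ℝ) ≤ Real.logb 2 n := by
      rw [Real.le_logb_iff_rpow_le (by norm_num) hnR, Real.rpow_natCast]
      exact_mod_cast Nat.pow_log_le_self 2 (by omega)
    push_cast
    linarith

lemma upper_asymp (ε : ℝ) (hε : 0 < ε) (hε1 : ε < 1) :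
    ∀ᶠ n : ℕ in atTop, (numCounts n : ℝ) ≤
      2 ^ ((n : ℝ) - (1 / 2 - ε) * (Lg n ^ 2 / LLg n)) := by
  have hmain := tendsto_Lg.eventually (main_ineq ε hε)
  have hL64 := tendsto_Lg.eventually (eventually_ge_atTop (64 : ℝ))
  have hu64 := tendsto_LLg.eventually (eventually_ge_atTop (64 : ℝ))
  -- 10u+35 ≤ u^2 fine for u ≥ 64
  -- k is large: (1/2-ε/2) L^2/u ≥ 2L+2
  have hLu : ∀ᶠ n : ℕ in atTop, (8 / (1 - ε)) * LLg n ≤ Lg n :=
    tendsto_Lg.eventually (eventually_mul_logb_le (8 / (1 - ε)) (by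
      have : 0 < 1 - ε := by linarith
      positivity))
  have hLu2 : ∀ᶠ n : ℕ in atTop, (4 / ε) * LLg n ≤ Lg n :=
    tendsto_Lg.eventually (eventually_mul_logb_le (4 / ε) (by positivity))
  have hnL : ∀ᶠ n : ℕ in atTop, 33600 * (2 * Lg n) ^ 7 ≤ (n : ℝ) := by
    have h1 : ∀ᶠ L : ℝ in atTop, 33600 * (2 * L) ^ 7 ≤ (2 : ℝ) ^ L := by
      have h2 : ∀ᶠ L : ℝ in atTop, 23 + 7 * Real.logb 2 L < L := by
        filter_upwards [main_ineq ε hε] with L hL
        exact hL.2
      filter_upwards [h2, eventually_gt_atTop 0] with L hL hL0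
      have h3 : (33600 : ℝ) * (2 * L) ^ 7 ≤ 2 ^ (23 : ℝ) * L ^ 7 := by
        have : (2 : ℝ) ^ (23 : ℝ) = 8388608 := by
          rw [show (23 : ℝ) = ((23 : ℕ) : ℝ) by norm_num, Real.rpow_natCast]
          norm_num
        rw [this, mul_pow]
        have : 0 < L ^ 7 := by positivity
        nlinarith
      have h4 : (2 : ℝ) ^ (23 : ℝ) * L ^ 7 = 2 ^ (23 + 7 * Real.logb 2 L) := by
        rw [Real.rpow_add (by norm_num), mul_comm (7 : ℝ), Real.rpow_mul (by norm_num),
          Real.rpow_logb (by norm_num) (by norm_num) hL0]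
        congr 1
        rw [show (7 : ℝ) = ((7 : ℕ) : ℝ) by norm_num, Real.rpow_natCast]
      rw [h4] at h3
      refine h3.trans ?_
      exact Real.rpow_le_rpow_of_exponent_le (by norm_num) hL.le
    filter_upwards [tendsto_Lg.eventually h1, eventually_gt_atTop 0] with n hn hn0
    have hnR : (0 : ℝ) < n := by exact_mod_cast hn0
    have h5 : (2 : ℝ) ^ (Lg n) = n := by
      unfold Lg
      exact Real.rpow_logb (by norm_num) (by norm_num) hnR
    rwa [h5] at hn
  filter_upwards [hmain, hL64, hu64, hLu, hLu2, hnL, eventually_ge_atTop 1] with n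
    hmain hL hu hLu hLu2 hnL hn1
  have hnR : (0 : ℝ) < n := by exact_mod_cast hn1
  have hu0 : 0 < LLg n := by linarith
  have hL0 : 0 < Lg n := by linarith
  have hueq : LLg n = Real.logb 2 (Lg n) := rfl
  rw [← hueq] at hmain
  obtain ⟨hmain1, hmain2⟩ := hmain
  obtain ⟨hLn1, hLn2⟩ := Ln_bounds hn1 (by linarith)
  set Ln : ℕ := Nat.log 2 n + 1 with hLn
  set k : ℕ := ⌊(1 / 2 - ε / 2) * (Lg n ^ 2 / LLg n)⌋₊ with hk
  have hkle : (k : ℝ) ≤ (1 / 2 - ε / 2) * (Lg n ^ 2 / LLg n) := by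
    apply Nat.floor_le
    apply mul_nonneg
    · linarith
    · positivity
  have hkge : (1 / 2 - ε / 2) * (Lg n ^ 2 / LLg n) - 1 < k := Nat.sub_one_lt_floor _
  -- bounds on k
  have hkL : (k : ℝ) ≤ Lg n ^ 2 := by
    refine hkle.trans ?_
    have h1 : Lg n ^ 2 / LLg n ≤ Lg n ^ 2 := div_le_self (by positivity) (by linarith)
    have h2 : 0 ≤ Lg n ^ 2 / LLg n := by positivity
    nlinarith
  have hkLn : k ≤ Ln ^ 2 := by
    have : (k : ℝ) ≤ (Ln : ℝ) ^ 2 := hkL.trans (pow_le_pow_left₀ hL0.le hLn1 2)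
    exact_mod_cast this
  have hkbig : 2 * Lg n + 2 ≤ (k : ℝ) := by
    have h1 : (1 / 2 - ε / 2) * (Lg n ^ 2 / LLg n) ≥ 4 * Lg n := by
      have h1ε : 0 < 1 - ε := by linarith
      have h2 : 8 * LLg n ≤ (1 - ε) * Lg n := by
        rw [div_mul_eq_mul_div, div_le_iff₀ h1ε] at hLu
        linarith
      have h3 : (1 / 2 - ε / 2) * (Lg n ^ 2 / LLg n) = ((1 - ε) * Lg n) * Lg n / (2 * LLg n) := by
        field_simp
      rw [h3, ge_iff_le, le_div_iff₀ (by positivity)]
      nlinarith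
    linarith
  have hLnk : Ln ≤ k := by
    have : (Ln : ℝ) ≤ k := by linarith
    exact_mod_cast this
  have hLn64 : 64 ≤ Ln := by
    have : (64 : ℝ) ≤ Ln := by linarith
    exact_mod_cast this
  have hk1 : 1 ≤ k := by omega
  set μ : ℕ := 2 * Nat.log 2 Ln + 5 with hμ
  set ℓ : ℕ := Ln + 9 with hℓ
  set X0 : ℕ := 1200 * Ln ^ 6 with hX0
  have hlogLn : Nat.log 2 Ln ≤ Ln := Nat.log_le_self _ _
  clear_value X0 ℓ μ k Ln
  have hμ7 : μ ≤ 7 * Ln := by omega
  have hμ2 : 6 * k ≤ 2 ^ μ := by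
    have h1 := Nat.lt_pow_succ_log_self (b := 2) (by norm_num) Ln
    have h2 : 2 ^ μ = 8 * (2 ^ (Nat.log 2 Ln).succ) ^ 2 := by
      rw [hμ, Nat.succ_eq_add_one, ← pow_mul]
      rw [show (8 : ℕ) = 2 ^ 3 by norm_num, ← pow_add]
      congr 1
      ring
    rw [h2]
    have h3 : Ln ^ 2 ≤ (2 ^ (Nat.log 2 Ln).succ) ^ 2 := Nat.pow_le_pow_left h1.le 2
    omega
  have hℓ2 : (n + 1) * 512 ≤ 2 ^ ℓ := by
    have h1 := Nat.lt_pow_succ_log_self (b := 2) (by norm_num) n
    have h2 : 2 ^ ℓ = 2 ^ (Nat.log 2 n).succ * 512 := by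
      rw [hℓ, hLn, pow_add]
      norm_num
    rw [h2]
    exact Nat.mul_le_mul_right _ h1
  have hnk : n + 1 ≤ 2 ^ k := by
    have h1 := Nat.lt_pow_succ_log_self (b := 2) (by norm_num) n
    calc n + 1 ≤ 2 ^ (Nat.log 2 n).succ := h1
      _ ≤ 2 ^ k := Nat.pow_le_pow_right (by norm_num) (by
          rw [Nat.succ_eq_add_one]
          omega)
  have hnLn : 33600 * Ln ^ 7 ≤ n := by
    have h1 : (33600 : ℝ) * (Ln : ℝ) ^ 7 ≤ n := by
      refine le_trans ?_ hnL
      have : (Ln : ℝ) ^ 7 ≤ (2 * Lg n) ^ 7 := pow_le_pow_left₀ (by positivity) hLn2 7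
      linarith
    exact_mod_cast h1
  have hpow : ∀ a b : ℕ, a ≤ b → Ln ^ a ≤ Ln ^ b := fun a b hab =>
    Nat.pow_le_pow_right (by omega) hab
  have hk2 : k ^ 2 ≤ Ln ^ 4 := by
    calc k ^ 2 ≤ (Ln ^ 2) ^ 2 := Nat.pow_le_pow_left hkLn 2
      _ = Ln ^ 4 := by ring
  have hfin := upper_nat (n := n) (k := k) (μ := μ) (ℓ := ℓ) (X0 := X0) hk1 hμ2 hℓ2 hnk
    (by
      have : Ln ≤ k ^ 2 := by nlinarith
      omega)
    (by
      have := hpow 4 7 (by norm_num)
      omega)
    (by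
      calc 6 * k * (200 * k ^ 2) = 1200 * (k * k ^ 2) := by ring
        _ ≤ 1200 * (Ln ^ 2 * Ln ^ 4) := Nat.mul_le_mul_left _ (Nat.mul_le_mul hkLn hk2)
        _ = X0 := by rw [hX0]; ring)
    (by
      calc ((Nat.log 2 n + 1) * (4 * μ) + 1) * (6 * k * k + 1)
          = (Ln * (4 * μ) + 1) * (6 * k ^ 2 + 1) := by rw [hLn]; ring
        _ ≤ (Ln * (4 * (7 * Ln)) + 1) * (6 * Ln ^ 4 + 1) := by
            apply Nat.mul_le_mul
            · apply Nat.add_le_add_right
              apply Nat.mul_le_mul_left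
              omega
            · omega
        _ ≤ X0 := by
            rw [hX0]
            have h1 : Ln * (4 * (7 * Ln)) + 1 ≤ 29 * Ln ^ 2 := by nlinarith
            have h2 : 6 * Ln ^ 4 + 1 ≤ 7 * Ln ^ 4 := by
              have : 1 ≤ Ln ^ 4 := Nat.one_le_pow _ _ (by omega)
              omega
            calc (Ln * (4 * (7 * Ln)) + 1) * (6 * Ln ^ 4 + 1) ≤ (29 * Ln ^ 2) * (7 * Ln ^ 4) :=
                  Nat.mul_le_mul h1 h2
              _ = 203 * Ln ^ 6 := by ring
              _ ≤ 1200 * Ln ^ 6 := Nat.mul_le_mul_right _ (by norm_num))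
    (by
      calc 24 * k * ℓ ≤ 24 * Ln ^ 2 * (10 * Ln) := by
            apply Nat.mul_le_mul
            · omega
            · omega
        _ = 240 * Ln ^ 3 := by ring
        _ ≤ 1200 * Ln ^ 6 := Nat.mul_le_mul (by norm_num) (hpow 3 6 (by norm_num))
        _ = X0 := hX0.symm)
    (by
      calc 4 * μ * X0 ≤ 4 * (7 * Ln) * (1200 * Ln ^ 6) := by
            rw [hX0]
            apply Nat.mul_le_mul_right
            omega
        _ = 33600 * Ln ^ 7 := by ring
        _ ≤ n := hnLn)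
    (by
      have hLnR : (0 : ℝ) < Ln := by linarith
      have hlogLnR : Real.logb 2 Ln ≤ LLg n + 1 := by
        have h1 : Real.logb 2 (Ln : ℝ) ≤ Real.logb 2 (2 * Lg n) :=
          Real.logb_le_logb_of_le (by norm_num) hLnR hLn2
        rw [Real.logb_mul (by norm_num) hL0.ne', Real.logb_self_eq_one (by norm_num)] at h1
        rw [hueq]
        linarith
      have hμR : (μ : ℝ) ≤ 2 * LLg n + 7 := by
        have h1 : ((Nat.log 2 Ln : ℕ) : ℝ) ≤ Real.logb 2 Ln := by
          rw [Real.le_logb_iff_rpow_le (by norm_num) hLnR, Real.rpow_natCast]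
          exact_mod_cast Nat.pow_log_le_self 2 (by omega)
        rw [hμ]
        push_cast
        linarith
      have hμpos : (0 : ℝ) < μ := by
        rw [hμ]
        positivity
      -- log Γ
      have hΓ : Real.logb 2 ((((Nat.log 2 n + 1) * (4 * μ) + 1 : ℕ)) : ℝ) ≤
          LLg n + 1 + 2 * Real.logb 2 (LLg n) := by
        have h1 : (((Nat.log 2 n + 1) * (4 * μ) + 1 : ℕ) : ℝ) ≤ (2 * Lg n) * (LLg n) ^ 2 := by
          have h2 : (((Nat.log 2 n + 1) * (4 * μ) + 1 : ℕ) : ℝ) = (Ln : ℝ) * (4 * μ) + 1 := by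
            rw [hLn]
            push_cast
            ring
          rw [h2]
          have h3 : (Ln : ℝ) * (4 * μ) + 1 ≤ (Ln : ℝ) * (5 * μ) := by
            have h31 : (1 : ℝ) ≤ Ln * μ := by
              have a1 : (1 : ℝ) ≤ Ln := by linarith
              have a2 : (1 : ℝ) ≤ μ := by
                have : 1 ≤ μ := by omega
                exact_mod_cast this
              nlinarith
            linarith
          have h4 : 5 * (μ : ℝ) ≤ (LLg n) ^ 2 := by nlinarith
          calc (Ln : ℝ) * (4 * μ) + 1 ≤ (Ln : ℝ) * (5 * μ) := h3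
            _ ≤ (2 * Lg n) * (LLg n) ^ 2 := mul_le_mul hLn2 h4 (by positivity) (by positivity)
        have h5 : (0 : ℝ) < (((Nat.log 2 n + 1) * (4 * μ) + 1 : ℕ) : ℝ) := by
          have : 0 < (Nat.log 2 n + 1) * (4 * μ) + 1 := by omega
          exact_mod_cast this
        have h6 := Real.logb_le_logb_of_le (b := 2) (by norm_num) h5 h1
        rw [Real.logb_mul (by positivity) (by positivity), Real.logb_mul (by norm_num) hL0.ne',
          Real.logb_self_eq_one (by norm_num), Real.logb_pow] at h6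
        rw [hueq] at *
        push_cast at h6 ⊢
        linarith
      have hΓnn : 0 ≤ LLg n + 1 + 2 * Real.logb 2 (LLg n) := by
        have : 0 ≤ Real.logb 2 (LLg n) := Real.logb_nonneg (by norm_num) (by linarith)
        linarith
      have hX : Real.logb 2 ((4 * μ * X0 : ℕ) : ℝ) ≤ 23 + 7 * LLg n := by
        have h1 : ((4 * μ * X0 : ℕ) : ℝ) ≤ 2 ^ 16 * (Ln : ℝ) ^ 7 := by
          have h2 : 4 * μ * X0 ≤ 2 ^ 16 * Ln ^ 7 := by
            calc 4 * μ * X0 ≤ 4 * (7 * Ln) * (1200 * Ln ^ 6) := by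
                  rw [hX0]
                  apply Nat.mul_le_mul_right
                  omega
              _ = 33600 * Ln ^ 7 := by ring
              _ ≤ 2 ^ 16 * Ln ^ 7 := Nat.mul_le_mul_right _ (by norm_num)
          exact_mod_cast h2
        have h3 : (0 : ℝ) < ((4 * μ * X0 : ℕ) : ℝ) := by
          have : 0 < 4 * μ * X0 := by
            rw [hX0]
            have a1 : 0 < μ := by omega
            have a2 : 0 < Ln := by omega
            positivity
          exact_mod_cast this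
        have h4 := Real.logb_le_logb_of_le (b := 2) (by norm_num) h3 h1
        rw [Real.logb_mul (by positivity) (by positivity), Real.logb_pow, Real.logb_pow,
          Real.logb_self_eq_one (by norm_num)] at h4
        push_cast at h4 ⊢
        linarith
      have hLX : Lg n - (23 + 7 * LLg n) ≤
          Real.logb 2 n - Real.logb 2 ((4 * μ * X0 : ℕ) : ℝ) := by
        have : Lg n = Real.logb 2 n := rfl
        rw [← this]
        linarith
      have h10 : (Lg n - (23 + 7 * LLg n)) ^ 2 ≤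
          (Real.logb 2 n - Real.logb 2 ((4 * μ * X0 : ℕ) : ℝ)) ^ 2 :=
        pow_le_pow_left₀ (by linarith) hLX 2
      refine lt_of_le_of_lt ?_ (lt_of_lt_of_le hmain1 h10)
      have hk0 : (0 : ℝ) ≤ k := by positivity
      calc 2 * Real.logb 2 ((((Nat.log 2 n + 1) * (4 * μ) + 1 : ℕ)) : ℝ) * k
          ≤ 2 * (LLg n + 1 + 2 * Real.logb 2 (LLg n)) * k := by
            apply mul_le_mul_of_nonneg_right _ hk0
            linarith
        _ ≤ 2 * (LLg n + 1 + 2 * Real.logb 2 (LLg n)) *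
            ((1 / 2 - ε / 2) * (Lg n ^ 2 / LLg n)) := by
            apply mul_le_mul_of_nonneg_left hkle
            linarith)
  -- conclusion
  have hkn : k ≤ n := by
    have h1 := hpow 4 7 (by norm_num)
    have h2 : k ≤ k ^ 2 := by nlinarith
    omega
  have hfinR : (numCounts n : ℝ) ≤ (2 : ℝ) ^ (n - k + 1) := by exact_mod_cast hfin
  refine hfinR.trans ?_
  rw [← Real.rpow_natCast]
  apply Real.rpow_le_rpow_of_exponent_le (by norm_num)
  push_cast [Nat.cast_sub hkn]
  have h3 : 2 ≤ (ε / 2) * (Lg n ^ 2 / LLg n) := by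
    have h4 : (ε / 2) * (Lg n ^ 2 / LLg n) = (ε * Lg n) * Lg n / (2 * LLg n) := by
      field_simp
    have h5 : 4 * LLg n ≤ ε * Lg n := by
      rw [div_mul_eq_mul_div, div_le_iff₀ hε] at hLu2
      linarith
    rw [h4, le_div_iff₀ (by positivity)]
    nlinarith
  nlinarith

end Pool.Agent.Helper949.CC
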