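import Pool.Agent.Helper949.CC11

namespace Pool.Agent.Helper949.CC

open Finset Filter Topology

lemma exists_gadget (ρ : ℝ) (hρ : 1 < ρ) :
    ∃ (h q w : ℕ) (α : Fin q → Finset (Fin h)), Function.Injective α ∧ (∀ b, (α b).card = w) ∧
      4 ≤ q ∧ h ≤ q ∧ (h : ℝ) ≤ ρ * Real.logb 2 q := by
  have hρ0 : 0 < ρ := by linarith
  have h1 : ∀ᶠ x : ℝ in atTop, (ρ / (ρ - 1)) * Real.logb 2 x ≤ x :=
    eventually_mul_logb_le _ (by
      have : 0 < ρ - 1 := by linarith
      positivity)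
  have h2 : ∀ᶠ t : ℕ in atTop, (ρ / (ρ - 1)) * Real.logb 2 (2 * (t : ℝ)) ≤ 2 * (t : ℝ) := by
    have h3 : Tendsto (fun t : ℕ => 2 * (t : ℝ)) atTop atTop :=
      (tendsto_natCast_atTop_atTop).const_mul_atTop (by norm_num)
    exact h3.eventually h1
  obtain ⟨t, ht2, ht⟩ := ((eventually_ge_atTop 2).and h2).exists
  have hq1 : 4 ^ t ≤ 2 * t * Nat.centralBinom t :=
    Nat.four_pow_le_two_mul_self_mul_centralBinom t (by omega)
  have h2t : 2 * t ≤ 2 ^ t := by
    have : ∀ t : ℕ, 1 ≤ t → 2 * t ≤ 2 ^ t := by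
      intro t ht
      induction t, ht using Nat.le_induction with
      | base => norm_num
      | succ k hk ih =>
        rw [pow_succ]
        omega
    exact this t (by omega)
  have hhq : 2 * t ≤ Nat.centralBinom t := by
    have h4 : (2 * t) * (2 * t) ≤ 4 ^ t := by
      calc (2 * t) * (2 * t) ≤ 2 ^ t * 2 ^ t := Nat.mul_le_mul h2t h2t
        _ = 4 ^ t := by
            rw [← mul_pow]
            norm_num
    have h5 : (2 * t) * (2 * t) ≤ 2 * t * Nat.centralBinom t := h4.trans hq1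
    exact Nat.le_of_mul_le_mul_left h5 (by omega)
  have hcard : (Finset.powersetCard t (univ : Finset (Fin (2 * t)))).card =
      Nat.centralBinom t := by
    rw [Finset.card_powersetCard, Finset.card_univ, Fintype.card_fin, Nat.centralBinom]
  let e := (Finset.equivFinOfCardEq hcard).symm
  refine ⟨2 * t, Nat.centralBinom t, t, fun b => (e b : Finset (Fin (2 * t))), ?_, ?_, ?_, hhq, ?_⟩
  · intro a b hab
    exact e.injective (Subtype.ext hab)
  · intro b
    exact (Finset.mem_powersetCard.1 (e b).2).2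
  · omega
  · have htR : (0 : ℝ) < 2 * (t : ℝ) := by
      have : (2 : ℝ) ≤ t := by exact_mod_cast ht2
      linarith
    have hqR : (0 : ℝ) < (Nat.centralBinom t : ℝ) := by
      have : 0 < Nat.centralBinom t := Nat.centralBinom_pos t
      exact_mod_cast this
    have h6 : ((2 : ℝ) ^ (2 * t)) ≤ (2 * (t : ℝ)) * (Nat.centralBinom t : ℝ) := by
      have : (4 : ℝ) ^ t ≤ 2 * t * Nat.centralBinom t := by exact_mod_cast hq1
      rw [pow_mul]
      norm_num
      exact this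
    have h7 := Real.logb_le_logb_of_le (b := 2) (by norm_num) (by positivity) h6
    rw [Real.logb_pow, Real.logb_self_eq_one (by norm_num),
      Real.logb_mul htR.ne' hqR.ne'] at h7
    have hρ1 : 0 < ρ - 1 := by linarith
    rw [div_mul_eq_mul_div, div_le_iff₀ hρ1] at ht
    push_cast at h7 ⊢
    nlinarith

lemma lower_asymp (ε : ℝ) (hε : 0 < ε) (hε1 : ε ≤ 1) :
    ∀ᶠ n : ℕ in atTop, (2 : ℝ) ^ ((n : ℝ) - (1 / 2 + ε) * (Lg n ^ 2 / LLg n)) ≤
      (numCounts n : ℝ) := by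
  set δ : ℝ := ε / 16 with hδ
  have hδ0 : 0 < δ := by rw [hδ]; positivity
  have hδ1 : δ ≤ 1 / 16 := by rw [hδ]; linarith
  obtain ⟨h, q, w, α, hinj, hw, hq4, hhq, hρ⟩ := exists_gadget (1 + δ) (by linarith)
  set γ : ℝ := Real.logb 2 q with hγ
  have hqR : (4 : ℝ) ≤ q := by exact_mod_cast hq4
  have hγ2 : 2 ≤ γ := by
    rw [hγ, Real.le_logb_iff_rpow_le (by norm_num) (by linarith),
      show (2 : ℝ) ^ (2 : ℝ) = 4 by norm_num]
    exact hqR
  have hγ0 : 0 < γ := by linarith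
  have e1 := tendsto_Lg.eventually (eventually_ge_atTop (γ / δ))
  have e2 := tendsto_LLg.eventually (eventually_ge_atTop (γ / δ))
  have e3 := tendsto_Lg.eventually (eventually_ge_atTop (64 : ℝ))
  have e4 := tendsto_LLg.eventually (eventually_ge_atTop (64 : ℝ))
  have e5 : ∀ᶠ L : ℝ in atTop, ((1 + 2 * q + h) * (2 / ε)) * Real.logb 2 L ≤ L ^ δ := by
    have h1 : Tendsto (fun x : ℝ => Real.log x / x ^ δ) atTop (𝓝 0) :=
      (isLittleO_log_rpow_atTop hδ0).tendsto_div_nhds_zero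
    have h2 := h1.const_mul (((1 + 2 * q + h) * (2 / ε)) / Real.log 2)
    rw [mul_zero] at h2
    have h3 := h2.eventually_lt_const (show (0 : ℝ) < 1 by norm_num)
    filter_upwards [h3, eventually_gt_atTop 0] with x hx hx0
    have hx1 : 0 < x ^ δ := by positivity
    have hlog2 : 0 < Real.log 2 := Real.log_pos (by norm_num)
    have h4 : ((1 + 2 * q + h) * (2 / ε)) * Real.logb 2 x =
        (((1 + 2 * q + h) * (2 / ε)) / Real.log 2 * (Real.log x / x ^ δ)) * x ^ δ := by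
      unfold Real.logb
      field_simp
    rw [h4]
    nlinarith
  have e5' := tendsto_Lg.eventually e5
  have e6 : ∀ᶠ n : ℕ in atTop, (Lg n) ^ 2 ≤ (n : ℝ) := by
    have h1 : ∀ᶠ L : ℝ in atTop, 2 * Real.logb 2 L ≤ L :=
      eventually_mul_logb_le 2 (by norm_num)
    filter_upwards [tendsto_Lg.eventually h1, e3, eventually_gt_atTop 0] with n hn hL hn0
    have hnR : (0 : ℝ) < n := by exact_mod_cast hn0
    have hL0 : 0 < Lg n := by linarith
    have h5 : (2 : ℝ) ^ (Lg n) = n := by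
      unfold Lg
      exact Real.rpow_logb (by norm_num) (by norm_num) hnR
    have h6 : (2 : ℝ) ^ (2 * Real.logb 2 (Lg n)) = (Lg n) ^ 2 := by
      rw [mul_comm, Real.rpow_mul (by norm_num), Real.rpow_logb (by norm_num) (by norm_num) hL0]
      norm_num
    rw [← h6]
    calc (2 : ℝ) ^ (2 * Real.logb 2 (Lg n)) ≤ 2 ^ (Lg n) :=
          Real.rpow_le_rpow_of_exponent_le (by norm_num) hn
      _ = n := h5
  filter_upwards [e1, e2, e3, e4, e5', e6, eventually_ge_atTop 1] with n e1 e2 e3 e4 e5 e6 hn1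
  have hnR : (0 : ℝ) < n := by exact_mod_cast hn1
  have hL0 : 0 < Lg n := by linarith
  have hu0 : 0 < LLg n := by linarith
  have hueq : LLg n = Real.logb 2 (Lg n) := rfl
  rw [← hueq] at e5
  set x : ℕ := Nat.log q n + 1 with hx
  set s0 : ℕ := ⌊(1 - δ) * LLg n / γ⌋₊ with hs0
  have hnx : n ≤ q ^ x := (Nat.lt_pow_succ_log_self (by omega) n).le
  have hxR : (x : ℝ) ≤ (1 + δ) * Lg n / γ := by
    have h1 : ((Nat.log q n : ℕ) : ℝ) * γ ≤ Lg n := by
      have h2 : (q : ℝ) ^ (Nat.log q n) ≤ n := by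
        exact_mod_cast Nat.pow_log_le_self q (by omega)
      have h3 := Real.logb_le_logb_of_le (b := 2) (by norm_num) (by positivity) h2
      rw [Real.logb_pow] at h3
      exact h3
    have h4 : ((Nat.log q n : ℕ) : ℝ) ≤ Lg n / γ := by
      rw [le_div_iff₀ hγ0]
      exact h1
    have h5 : 1 ≤ δ * Lg n / γ := by
      rw [le_div_iff₀ hγ0, one_mul]
      rw [div_le_iff₀ hδ0] at e1
      linarith
    rw [hx]
    push_cast
    have h6 : (1 + δ) * Lg n / γ = Lg n / γ + δ * Lg n / γ := by ring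
    rw [h6]
    linarith
  have hs0R : (1 - 2 * δ) * LLg n / γ ≤ s0 := by
    have h1 : (1 - δ) * LLg n / γ < s0 + 1 := Nat.lt_floor_add_one _
    have h5 : 1 ≤ δ * LLg n / γ := by
      rw [le_div_iff₀ hγ0, one_mul]
      rw [div_le_iff₀ hδ0] at e2
      linarith
    have h6 : (1 - δ) * LLg n / γ = (1 - 2 * δ) * LLg n / γ + δ * LLg n / γ := by ring
    linarith
  have hs0R' : (s0 : ℝ) ≤ (1 - δ) * LLg n / γ := by
    apply Nat.floor_le
    have : 0 ≤ 1 - δ := by linarith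
    positivity
  have hs0pos : (0 : ℝ) < s0 := by
    refine lt_of_lt_of_le ?_ hs0R
    have : 0 < 1 - 2 * δ := by linarith
    positivity
  have hs01 : 1 ≤ s0 := by exact_mod_cast hs0pos
  have hqs : (q : ℝ) ^ (s0 + 1) ≤ q * Lg n ^ (1 - δ) := by
    have h1 : (q : ℝ) ^ s0 ≤ Lg n ^ (1 - δ) := by
      have h2 : (q : ℝ) ^ s0 = 2 ^ (γ * s0) := by
        rw [Real.rpow_mul (by norm_num), hγ, Real.rpow_logb (by norm_num) (by norm_num)
          (by linarith), Real.rpow_natCast]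
      have h3 : Lg n ^ (1 - δ) = 2 ^ ((1 - δ) * LLg n) := by
        rw [mul_comm, Real.rpow_mul (by norm_num), hueq,
          Real.rpow_logb (by norm_num) (by norm_num) hL0]
      rw [h2, h3]
      apply Real.rpow_le_rpow_of_exponent_le (by norm_num)
      rw [le_div_iff₀ hγ0] at hs0R'
      linarith
    rw [pow_succ, mul_comm]
    exact mul_le_mul_of_nonneg_left h1 (by linarith)
  set B : ℕ := (2 * x * q ^ (s0 + 1) + h * x ^ 2) / (2 * s0) + 1 with hB
  have hBle : 2 * x * q ^ (s0 + 1) + h * x ^ 2 ≤ 2 * s0 * B :=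
    (Nat.lt_mul_div_succ _ (by omega)).le
  have hBR : (B : ℝ) ≤ (x * q ^ (s0 + 1)) / s0 + h * x ^ 2 / (2 * s0) + 1 := by
    rw [hB]
    push_cast
    have h1 : ((((2 * x * q ^ (s0 + 1) + h * x ^ 2) / (2 * s0) : ℕ)) : ℝ) ≤
        ((2 * x * q ^ (s0 + 1) + h * x ^ 2 : ℕ) : ℝ) / ((2 * s0 : ℕ) : ℝ) := Nat.cast_div_le
    push_cast at h1
    have h2 : (2 * (x : ℝ) * q ^ (s0 + 1) + h * x ^ 2) / (2 * s0) =
        (x * q ^ (s0 + 1)) / s0 + h * x ^ 2 / (2 * s0) := by
      field_simp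
    rw [h2] at h1
    linarith
  have hhR : (0 : ℝ) ≤ h := by positivity
  have hxL : (x : ℝ) ≤ Lg n := by
    refine hxR.trans ?_
    rw [div_le_iff₀ hγ0]
    nlinarith
  -- main term
  have hmain : (h : ℝ) * x ^ 2 / (2 * s0) ≤ (1 / 2 + ε / 2) * (Lg n ^ 2 / LLg n) := by
    have hd : 0 < 1 - 2 * δ := by linarith
    have h1 : (h : ℝ) * x ^ 2 / (2 * s0) ≤
        ((1 + δ) * γ) * ((1 + δ) * Lg n / γ) ^ 2 / (2 * ((1 - 2 * δ) * LLg n / γ)) := by
      apply div_le_div₀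
      · positivity
      · apply mul_le_mul hρ _ (by positivity) (by positivity)
        exact pow_le_pow_left₀ (by positivity) hxR 2
      · positivity
      · linarith
    refine h1.trans ?_
    have h2 : ((1 + δ) * γ) * ((1 + δ) * Lg n / γ) ^ 2 / (2 * ((1 - 2 * δ) * LLg n / γ)) =
        ((1 + δ) ^ 3 / (2 * (1 - 2 * δ))) * (Lg n ^ 2 / LLg n) := by
      field_simp
    rw [h2]
    apply mul_le_mul_of_nonneg_right _ (by positivity)
    rw [div_le_iff₀ (by positivity)]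
    have h3 : ε = 16 * δ := by rw [hδ]; ring
    rw [h3]
    nlinarith [mul_pos hδ0 hδ0, mul_pos (mul_pos hδ0 hδ0) hδ0]
  -- remainder
  have hL2δ : ∀ a : ℝ, a ≤ 2 - δ → Lg n ^ a ≤ Lg n ^ (2 - δ) := fun a ha =>
    Real.rpow_le_rpow_of_exponent_le (by linarith) ha
  have hr1 : (1 : ℝ) ≤ Lg n ^ (2 - δ) := by
    have := hL2δ 0 (by linarith)
    rwa [Real.rpow_zero] at this
  have hr2 : Lg n ≤ Lg n ^ (2 - δ) := by
    have := hL2δ 1 (by linarith)
    rwa [Real.rpow_one] at this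
  have hr3 : Lg n ^ (1 - δ) ≤ Lg n ^ (2 - δ) := hL2δ _ (by linarith)
  have hr4 : (x : ℝ) * q ^ (s0 + 1) / s0 ≤ q * Lg n ^ (2 - δ) := by
    have h1 : (x : ℝ) * q ^ (s0 + 1) / s0 ≤ x * q ^ (s0 + 1) := by
      apply div_le_self (by positivity)
      exact_mod_cast hs01
    refine h1.trans ?_
    calc (x : ℝ) * q ^ (s0 + 1) ≤ Lg n * (q * Lg n ^ (1 - δ)) :=
          mul_le_mul hxL hqs (by positivity) hL0.le
      _ = q * (Lg n ^ (1 : ℝ) * Lg n ^ (1 - δ)) := by rw [Real.rpow_one]; ring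
      _ = q * Lg n ^ (2 - δ) := by
          rw [← Real.rpow_add hL0]
          congr 2
          ring
  have hrest : 1 + (x : ℝ) * q ^ (s0 + 1) / s0 + h * x + q ^ (s0 + 1) ≤
      (ε / 2) * (Lg n ^ 2 / LLg n) := by
    have h1 : 1 + (x : ℝ) * q ^ (s0 + 1) / s0 + h * x + q ^ (s0 + 1) ≤
        (1 + 2 * q + h) * Lg n ^ (2 - δ) := by
      have h2 : (h : ℝ) * x ≤ h * Lg n ^ (2 - δ) :=
        mul_le_mul_of_nonneg_left (hxL.trans hr2) hhR
      have h3 : (q : ℝ) ^ (s0 + 1) ≤ q * Lg n ^ (2 - δ) :=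
        hqs.trans (mul_le_mul_of_nonneg_left hr3 (by linarith))
      nlinarith
    refine h1.trans ?_
    have h4 : Lg n ^ (2 - δ) * Lg n ^ δ = Lg n ^ 2 := by
      rw [← Real.rpow_add hL0]
      norm_num
    rw [← mul_div_assoc, le_div_iff₀ hu0, ← h4]
    have h5 : (1 + 2 * q + h) * LLg n ≤ (ε / 2) * Lg n ^ δ := by
      have h6 : (1 + 2 * (q : ℝ) + h) * LLg n =
          (ε / 2) * (((1 + 2 * q + h) * (2 / ε)) * LLg n) := by
        field_simp
      rw [h6]
      exact mul_le_mul_of_nonneg_left e5 (by linarith)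
    have h7 : 0 ≤ Lg n ^ (2 - δ) := by linarith
    calc (1 + 2 * (q : ℝ) + h) * Lg n ^ (2 - δ) * LLg n
        = Lg n ^ (2 - δ) * ((1 + 2 * (q : ℝ) + h) * LLg n) := by ring
      _ ≤ Lg n ^ (2 - δ) * ((ε / 2) * Lg n ^ δ) := mul_le_mul_of_nonneg_left h5 h7
      _ = ε / 2 * (Lg n ^ (2 - δ) * Lg n ^ δ) := by ring
  have htotal : (B : ℝ) + h * x + q ^ (s0 + 1) ≤ (1 / 2 + ε) * (Lg n ^ 2 / LLg n) := by
    have : (1 / 2 + ε) * (Lg n ^ 2 / LLg n) = (1 / 2 + ε / 2) * (Lg n ^ 2 / LLg n) +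
        (ε / 2) * (Lg n ^ 2 / LLg n) := by ring
    rw [this]
    linarith
  have hnbig : (1 / 2 + ε) * (Lg n ^ 2 / LLg n) ≤ n := by
    refine le_trans ?_ e6
    have h1 : (1 / 2 + ε) * (Lg n ^ 2 / LLg n) = Lg n ^ 2 * ((1 / 2 + ε) / LLg n) := by ring
    rw [h1]
    have h2 : (1 / 2 + ε) / LLg n ≤ 1 := by
      rw [div_le_one hu0]
      linarith
    nlinarith [sq_nonneg (Lg n)]
  have hsumN : B + h * x + q ^ (s0 + 1) ≤ n := by
    have h1 : ((B + h * x + q ^ (s0 + 1) : ℕ) : ℝ) ≤ n := by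
      push_cast
      linarith
    exact_mod_cast h1
  have hfin := lower_nat α hinj hw hq4 hhq s0 hs01 hnx hBle (by omega)
  have hfinR : (2 : ℝ) ^ (n - B - h * x - q ^ (s0 + 1)) ≤ (numCounts n : ℝ) := by
    exact_mod_cast hfin
  refine le_trans ?_ hfinR
  rw [← Real.rpow_natCast 2 (n - B - h * x - q ^ (s0 + 1))]
  apply Real.rpow_le_rpow_of_exponent_le (by norm_num)
  have h8 : n - B - h * x - q ^ (s0 + 1) = n - (B + h * x + q ^ (s0 + 1)) := by omega
  rw [h8, Nat.cast_sub hsumN]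
  push_cast
  linarith

/-- Main theorem -/
theorem main : Tendsto (fun n : ℕ => ((n : ℝ) - Real.logb 2 (numCounts n)) *
    Real.logb 2 (Real.logb 2 n) / (Real.logb 2 n) ^ 2) atTop (𝓝 (1 / 2)) := by
  rw [Metric.tendsto_atTop']
  intro ε0 hε0
  set ε : ℝ := min (ε0 / 2) (1 / 2) with hε
  have hεpos : 0 < ε := lt_min (by linarith) (by norm_num)
  have hε1 : ε < 1 := lt_of_le_of_lt (min_le_right _ _) (by norm_num)
  have hεε0 : ε < ε0 := lt_of_le_of_lt (min_le_left _ _) (by linarith)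
  have h := (lower_asymp ε hεpos hε1.le).and ((upper_asymp ε hεpos hε1).and
    ((tendsto_Lg.eventually (eventually_gt_atTop 0)).and
      (tendsto_LLg.eventually (eventually_gt_atTop 0))))
  obtain ⟨N, hN⟩ := eventually_atTop.1 h
  refine ⟨N, fun n hn => ?_⟩
  obtain ⟨h1, h2, h3, h4⟩ := hN n hn.le
  have hF : (0 : ℝ) < numCounts n := lt_of_lt_of_le (by positivity) h1
  have h5 : (n : ℝ) - (1 / 2 + ε) * (Lg n ^ 2 / LLg n) ≤ Real.logb 2 (numCounts n) := by
    rw [Real.le_logb_iff_rpow_le (by norm_num) hF]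
    exact h1
  have h6 : Real.logb 2 (numCounts n) ≤ (n : ℝ) - (1 / 2 - ε) * (Lg n ^ 2 / LLg n) := by
    rw [Real.logb_le_iff_le_rpow (by norm_num) hF]
    exact h2
  have e1 : Real.logb 2 (Real.logb 2 (n : ℝ)) = LLg n := rfl
  have e2 : Real.logb 2 (n : ℝ) = Lg n := rfl
  rw [e1, e2, Real.dist_eq, abs_lt]
  have e3 : ((n : ℝ) - Real.logb 2 (numCounts n)) * LLg n / Lg n ^ 2 - 1 / 2 =
      (((n : ℝ) - Real.logb 2 (numCounts n)) - (1 / 2) * (Lg n ^ 2 / LLg n)) *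
        (LLg n / Lg n ^ 2) := by
    field_simp
  have e4 : ε * (Lg n ^ 2 / LLg n) * (LLg n / Lg n ^ 2) = ε := by
    field_simp
  have e5 : 0 < LLg n / Lg n ^ 2 := by positivity
  rw [e3]
  constructor
  · have h7 : -(ε * (Lg n ^ 2 / LLg n)) ≤
        ((n : ℝ) - Real.logb 2 (numCounts n)) - (1 / 2) * (Lg n ^ 2 / LLg n) := by linarith
    have h8 := mul_le_mul_of_nonneg_right h7 e5.le
    rw [neg_mul, e4] at h8
    linarith
  · have h7 : ((n : ℝ) - Real.logb 2 (numCounts n)) - (1 / 2) * (Lg n ^ 2 / LLg n) ≤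
        ε * (Lg n ^ 2 / LLg n) := by linarith
    have h8 := mul_le_mul_of_nonneg_right h7 e5.le
    rw [e4] at h8
    linarith

end Pool.Agent.Helper949.CC
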