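import Pool.Agent.Helper949.CC12

namespace Pool.Agent.Helper949.CC

open Finset

lemma cst_unfold {R Z : Type} [Fintype R] [Fintype Z] [DecidableEq Z] (ζ : R → Finset Z) :
    cst ζ = ∑ T ∈ (univ : Finset (Finset Z)).filter (fun T : Finset Z => T.Nonempty),
      2 ^ ((univ : Finset R).filter (fun v => T ⊆ ζ v)).card := by
  unfold cst
  apply Finset.sum_congr
  · ext T
    simp
  · intro T _
    congr 2
    ext v
    simp

lemma Om_unfold {R Z : Type} [Fintype R] [Fintype Z] [DecidableEq Z] (ζ : R → Finset Z)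
    (N : Finset R) :
    Om ζ N = ∑ T : Finset Z, 2 ^ (N.filter (fun v => T ⊆ ζ v)).card := by
  unfold Om
  apply Finset.sum_congr rfl
  intro T _
  congr 2
  ext v
  simp

section Bound

variable {l h q w : ℕ} (α : Fin q → Finset (Fin h))

lemma switch_miss (hhalf : ∀ x : Fin h, q ≤ 2 * ((univ : Finset (Fin q)).filter
    (fun b => x ∉ α b)).card) (z : Fin l × Fin h) :
    q ^ l ≤ 2 * ((univ : Finset (Fin (q ^ l))).filter
      (fun i => z ∉ tau α (finFunctionFinEquiv.symm i))).card := by
  classical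
  obtain ⟨i0, x⟩ := z
  have h1 : ((univ : Finset (Fin (q ^ l))).filter
      (fun i => (i0, x) ∉ tau α (finFunctionFinEquiv.symm i))).card =
      ((univ : Finset (Fin l → Fin q)).filter (fun a => x ∉ α (a i0))).card := by
    apply Finset.card_bij (fun i _ => finFunctionFinEquiv.symm i)
    · intro i hi
      simp only [Finset.mem_filter, Finset.mem_univ, true_and, tau] at hi ⊢
      exact hi
    · intro i _ j _ hij
      exact finFunctionFinEquiv.symm.injective hij
    · intro a ha
      refine ⟨finFunctionFinEquiv a, ?_, by simp⟩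
      simp only [Finset.mem_filter, Finset.mem_univ, true_and, tau] at ha ⊢
      simpa using ha
  have h2 : ((univ : Finset (Fin l → Fin q)).filter (fun a => x ∉ α (a i0))) =
      Fintype.piFinset (fun i => if i = i0 then (univ.filter (fun b => x ∉ α b)) else univ) := by
    ext a
    simp only [Finset.mem_filter, Finset.mem_univ, true_and, Fintype.mem_piFinset]
    constructor
    · intro ha i
      split_ifs with hi
      · rw [Finset.mem_filter]
        rw [hi]
        exact ⟨Finset.mem_univ _, ha⟩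
      · exact Finset.mem_univ _
    · intro ha
      have := ha i0
      rw [if_pos rfl, Finset.mem_filter] at this
      exact this.2
  rw [h1, h2, Fintype.card_piFinset]
  rw [← Finset.mul_prod_erase _ _ (Finset.mem_univ i0), if_pos rfl]
  have h3 : ∏ i ∈ univ.erase i0, (if i = i0 then
      ((univ : Finset (Fin q)).filter (fun b => x ∉ α b)) else univ).card = q ^ (l - 1) := by
    have : ∀ i ∈ (univ : Finset (Fin l)).erase i0, (if i = i0 then
      ((univ : Finset (Fin q)).filter (fun b => x ∉ α b)) else univ).card = q := by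
      intro i hi
      rw [if_neg (Finset.ne_of_mem_erase hi)]
      simp
    rw [Finset.prod_congr rfl this, Finset.prod_const, Finset.card_erase_of_mem (Finset.mem_univ _)]
    simp
  rw [h3]
  have hl : 0 < l := i0.pos
  have h4 : q ^ l = q * q ^ (l - 1) := by
    rw [← pow_succ']
    congr 1
    omega
  rw [h4, ← mul_assoc]
  exact Nat.mul_le_mul_right _ (hhalf x)

lemma cst_le (hhalf : ∀ x : Fin h, q ≤ 2 * ((univ : Finset (Fin q)).filter
    (fun b => x ∉ α b)).card) (hlh : 2 * (l * h) ≤ q ^ l) (f r : ℕ)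
    (hcard : Fintype.card (Fin (q ^ l) ⊕ (Ut l q ⊕ ((Fin l × Fin h) ⊕ Fin f))) = r) :
    cst (zeta (l := l) α f) ≤ 2 ^ r := by
  rw [cst_unfold]
  have hterm : ∀ T ∈ (univ : Finset (Finset (Fin l × Fin h))).filter
      (fun T : Finset (Fin l × Fin h) => T.Nonempty),
      2 ^ ((univ : Finset (Fin (q ^ l) ⊕ (Ut l q ⊕ ((Fin l × Fin h) ⊕ Fin f)))).filter
        (fun v => T ⊆ zeta α f v)).card * 2 ^ (l * h) ≤ 2 ^ r := by
    intro T hT
    rw [Finset.mem_filter] at hT
    obtain ⟨z, hz⟩ := hT.2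
    have h1 := switch_miss α hhalf z
    have h2 : ((univ : Finset (Fin (q ^ l) ⊕ (Ut l q ⊕ ((Fin l × Fin h) ⊕ Fin f)))).filter
        (fun v => T ⊆ zeta α f v)).card + ((univ : Finset (Fin (q ^ l))).filter
      (fun i => z ∉ tau α (finFunctionFinEquiv.symm i))).card ≤ r := by
      rw [← hcard, ← Finset.card_univ]
      have h3 : (((univ : Finset (Fin (q ^ l))).filter
        (fun i => z ∉ tau α (finFunctionFinEquiv.symm i))).map
          (Function.Embedding.inl (β := (Ut l q ⊕ ((Fin l × Fin h) ⊕ Fin f))))).card =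
          ((univ : Finset (Fin (q ^ l))).filter
        (fun i => z ∉ tau α (finFunctionFinEquiv.symm i))).card := Finset.card_map _
      rw [← h3, ← Finset.card_union_of_disjoint]
      · exact Finset.card_le_card (Finset.subset_univ _)
      · rw [Finset.disjoint_left]
        intro v hv hv'
        rw [Finset.mem_filter] at hv
        rw [Finset.mem_map] at hv'
        obtain ⟨i, hi, rfl⟩ := hv'
        rw [Finset.mem_filter] at hi
        apply hi.2
        have := hv.2 hz
        simpa [zeta] using this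
    rw [← pow_add]
    apply Nat.pow_le_pow_right (by norm_num)
    omega
  have h5 := Finset.sum_le_card_nsmul _ _ _ hterm
  rw [← Finset.sum_mul, smul_eq_mul] at h5
  have h6 : ((univ : Finset (Finset (Fin l × Fin h))).filter
      (fun T : Finset (Fin l × Fin h) => T.Nonempty)).card ≤ 2 ^ (l * h) := by
    refine (Finset.card_filter_le _ _).trans ?_
    rw [Finset.card_univ, Fintype.card_finset, Fintype.card_prod, Fintype.card_fin,
      Fintype.card_fin]
  have h7 := h5.trans (Nat.mul_le_mul_right _ h6)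
  rw [mul_comm (2 ^ (l * h))] at h7
  exact Nat.le_of_mul_le_mul_right h7 (Nat.pow_pos (by norm_num))

lemma Om_le {R Z : Type} [Fintype R] [Fintype Z] (ζ : R → Finset Z) (N : Finset R) :
    Om ζ N ≤ 2 ^ (Fintype.card R) + cst ζ := by
  classical
  rw [Om_unfold, cst_unfold]
  have h1 : (univ : Finset (Finset Z)) = insert ∅ ((univ : Finset (Finset Z)).filter
      (fun T : Finset Z => T.Nonempty)) := by
    ext T
    simp only [Finset.mem_univ, Finset.mem_insert, Finset.mem_filter, true_and, true_iff]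
    exact Finset.eq_empty_or_nonempty T
  have h2 : ∑ T : Finset Z, 2 ^ (N.filter (fun v => T ⊆ ζ v)).card =
      ∑ T ∈ insert ∅ ((univ : Finset (Finset Z)).filter
      (fun T : Finset Z => T.Nonempty)), 2 ^ (N.filter (fun v => T ⊆ ζ v)).card := by
    rw [← h1]
  rw [h2, Finset.sum_insert (by simp)]
  apply Nat.add_le_add
  · apply Nat.pow_le_pow_right (by norm_num)
    exact (Finset.card_filter_le _ _).trans (Finset.card_le_univ _)
  · apply Finset.sum_le_sum
    intro T _
    apply Nat.pow_le_pow_right (by norm_num)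
    apply Finset.card_le_card
    intro v hv
    simp only [Finset.mem_filter, Finset.mem_univ, true_and] at hv ⊢
    exact hv.2

lemma window_step' (hinj : Function.Injective α) (hw : ∀ b, (α b).card = w)
    (hhalf : ∀ x : Fin h, q ≤ 2 * ((univ : Finset (Fin q)).filter (fun b => x ∉ α b)).card)
    (hlh : 2 * (l * h) ≤ q ^ l) {r P m : ℕ}
    (hm : 0 < m) (hP : l * (h - w) ≤ P)
    (hr : P + m * q ^ l + Fintype.card (Ut l q) + l * h ≤ r) :
    ∃ (Y : ℕ → Finset ℕ) (c : ℕ), (∀ j < m, Cst (Y j) (P + j * q ^ l) ∧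
      Dist (Y j) (P + (j + 1) * q ^ l) ∧ (Y j).card = 2 ^ (q ^ l) ∧
      P + j * q ^ l ≤ P + (j + 1) * q ^ l) ∧
      ∀ y : Fin m → ℕ, (∀ j : Fin m, y j ∈ Y j) →
        (c + ∑ j, y j ∈ VS r (m + l * h) ∧ c + ∑ j, y j ≤ (1 + 2 * m) * 2 ^ r) := by
  classical
  have hqm : q ^ l ≤ m * q ^ l := Nat.le_mul_of_pos_left _ hm
  obtain ⟨f, hf⟩ : ∃ f, r = q ^ l + (Fintype.card (Ut l q) + (l * h + f)) :=
    ⟨r - (q ^ l + (Fintype.card (Ut l q) + l * h)), by omega⟩
  have hmq : (m - 1) * q ^ l + q ^ l = m * q ^ l := by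
    rw [← Nat.succ_mul]
    congr 1
    omega
  have hcard : Fintype.card (Fin (q ^ l) ⊕ (Ut l q ⊕ ((Fin l × Fin h) ⊕ Fin f))) = r := by
    rw [Fintype.card_sum, Fintype.card_sum, Fintype.card_sum, Fintype.card_fin,
      Fintype.card_prod, Fintype.card_fin, Fintype.card_fin, Fintype.card_fin, hf]
  set τ : Fin (q ^ l) → Finset (Fin l × Fin h) :=
    fun i => tau α (finFunctionFinEquiv.symm i) with hτ
  have hanti : ∀ i j, τ i ⊆ τ j → i = j := by
    intro i j hij
    have := tau_anti α hinj hw _ _ hij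
    exact finFunctionFinEquiv.symm.injective this
  have h1 : ∀ i, E0 α (τ i) = l * (h - w) + i := by
    intro i
    rw [hτ]
    simp only
    rw [E0_tau α hinj hw]
    congr 1
    rw [← finFunctionFinEquiv_apply, Equiv.apply_symm_apply]
  have h2 : ∀ i T, T ⊂ τ i → l * (h - w) + i < E0 α T := by
    intro i T hT
    rw [← h1 i]
    exact E0_lt α _ T hT
  let t : ℕ → ℕ := fun j => P + j * q ^ l - l * (h - w)
  have ht : ∀ j, t j + l * (h - w) = P + j * q ^ l := by
    intro j
    simp only [t]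
    omega
  have htf : ∀ j < m, t j ≤ f := by
    intro j hj
    simp only [t]
    have : j * q ^ l ≤ (m - 1) * q ^ l := Nat.mul_le_mul_right _ (by omega)
    omega
  have hcst := cst_le α hhalf hlh f r hcard
  refine ⟨fun j => univ.image (fun s => Osum (q ^ l) τ (E0 α) (t j) s),
    cst (zeta (l := l) α f), ?_, ?_⟩
  · intro j hj
    refine ⟨?_, ?_, ?_, ?_⟩
    · intro x hx y hy
      simp only [Finset.mem_image, Finset.mem_univ, true_and] at hx hy
      obtain ⟨s, rfl⟩ := hx
      obtain ⟨s', rfl⟩ := hy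
      rw [← ht]
      exact core_cst (q ^ l) τ (E0 α) (l * (h - w)) h1 h2 (t j) s s'
    · intro x hx y hy hxy
      simp only [Finset.mem_image, Finset.mem_univ, true_and] at hx hy
      obtain ⟨s, rfl⟩ := hx
      obtain ⟨s', rfl⟩ := hy
      rw [show P + (j + 1) * q ^ l = t j + l * (h - w) + q ^ l by rw [ht]; ring] at hxy
      rw [core_inj (q ^ l) τ hanti (E0 α) (l * (h - w)) h1 h2 (t j) s s' hxy]
    · rw [Finset.card_image_of_injective, Finset.card_univ, Fintype.card_finset, Fintype.card_fin]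
      intro s s' hss
      simp only at hss
      apply core_inj (q ^ l) τ hanti (E0 α) (l * (h - w)) h1 h2 (t j) s s'
      rw [hss]
    · rw [add_mul]
      omega
  · intro y hy
    have hy' : ∀ j : Fin m, ∃ s, Osum (q ^ l) τ (E0 α) (t j) s = y j := by
      intro j
      have := hy j
      simpa using this
    choose s hs using hy'
    have hv := VS_window m (zeta α f) (fun j => nbr f (t j) (s j))
    rw [hcard, Fintype.card_prod, Fintype.card_fin, Fintype.card_fin] at hv
    have e0 : ∀ j : Fin m, Om (zeta α f) (nbr f (t j) (s j)) = y j := by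
      intro j
      rw [Om_eq α f (t j) (htf j j.isLt), hs]
    have e : ∑ j : Fin m, Om (zeta α f) (nbr f (t j) (s j)) = ∑ j, y j :=
      Finset.sum_congr rfl (fun j _ => e0 j)
    refine ⟨?_, ?_⟩
    · rw [e] at hv
      exact hv
    · have hy2 : ∀ j ∈ (univ : Finset (Fin m)), y j ≤ 2 * 2 ^ r := by
        intro j _
        rw [← e0 j]
        refine (Om_le _ _).trans ?_
        rw [hcard]
        omega
      have h3 := Finset.sum_le_card_nsmul _ _ _ hy2
      rw [Finset.card_univ, Fintype.card_fin, smul_eq_mul] at h3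
      calc cst (zeta (l := l) α f) + ∑ j, y j ≤ 2 ^ r + m * (2 * 2 ^ r) := Nat.add_le_add hcst h3
        _ = (1 + 2 * m) * 2 ^ r := by ring

end Bound

/-- values in `VS r K` bounded by `M * 2^r`, distinct mod `2^P`, equal mod `2^P0`, and
`2^(P-P0)` in number -/
def AchB (r K P P0 M : ℕ) : Prop :=
  ∃ X : Finset ℕ, (∀ x ∈ X, x ∈ VS r K ∧ x ≤ M * 2 ^ r) ∧ Dist X P ∧ Cst X P0 ∧
    X.card = 2 ^ (P - P0) ∧ P0 ≤ P

lemma AchB_init (r P : ℕ) : AchB r 0 P P 0 := by
  refine ⟨{0}, ?_, ?_, ?_, by simp, le_refl _⟩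
  · intro x hx
    rw [Finset.mem_singleton] at hx
    subst hx
    exact ⟨VS_zero r, by simp⟩
  · intro x hx y hy _
    rw [Finset.mem_singleton] at hx hy
    rw [hx, hy]
  · intro x hx y hy
    rw [Finset.mem_singleton] at hx hy
    rw [hx, hy]

lemma AchB_step {l h q w : ℕ} (α : Fin q → Finset (Fin h)) (hinj : Function.Injective α)
    (hw : ∀ b, (α b).card = w)
    (hhalf : ∀ x : Fin h, q ≤ 2 * ((univ : Finset (Fin q)).filter (fun b => x ∉ α b)).card)
    (hlh : 2 * (l * h) ≤ q ^ l) {r K P P0 M m : ℕ} (hA : AchB r K P P0 M)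
    (hm : 0 < m) (hP : l * (h - w) ≤ P)
    (hr : P + m * q ^ l + Fintype.card (Ut l q) + l * h ≤ r) :
    AchB r (K + (m + l * h)) (P + m * q ^ l) P0 (M + (1 + 2 * m)) := by
  obtain ⟨X, h1, h2, h3, h4, h5⟩ := hA
  obtain ⟨Y, c, hY, hV⟩ := window_step' α hinj hw hhalf hlh hm hP hr
  have hX1 : Dist (X.image (fun x => x + c)) ((fun j => P + j * q ^ l) 0) := by
    intro x hx y hy hxy
    obtain ⟨a, ha, rfl⟩ := Finset.mem_image.1 hx
    obtain ⟨b, hb, rfl⟩ := Finset.mem_image.1 hy
    simp only [zero_mul, add_zero] at hxy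
    rw [h2 a ha b hb (Nat.ModEq.add_right_cancel' c hxy)]
  obtain ⟨X', k1, k2, k3⟩ := iterate Y (fun j => P + j * q ^ l) (q ^ l)
    (X.image (fun x => x + c)) hX1 m hY
  refine ⟨X', ?_, k1, ?_, ?_, by omega⟩
  · intro x hx
    obtain ⟨x0, hx0, y, hy, rfl⟩ := k3 x hx
    obtain ⟨a, ha, rfl⟩ := Finset.mem_image.1 hx0
    obtain ⟨g1, g2⟩ := h1 a ha
    obtain ⟨g3, g4⟩ := hV y hy
    rw [add_assoc]
    refine ⟨VS_add g1 g3, ?_⟩
    calc a + (c + ∑ j, y j) ≤ M * 2 ^ r + (1 + 2 * m) * 2 ^ r := Nat.add_le_add g2 g4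
      _ = (M + (1 + 2 * m)) * 2 ^ r := by ring
  · intro x hx y hy
    obtain ⟨x0, hx0, u, hu, rfl⟩ := k3 x hx
    obtain ⟨y0, hy0, v, hv, rfl⟩ := k3 y hy
    obtain ⟨a, ha, rfl⟩ := Finset.mem_image.1 hx0
    obtain ⟨b, hb, rfl⟩ := Finset.mem_image.1 hy0
    apply Nat.ModEq.add
    · exact (h3 a ha b hb).add_right c
    · have hsum : ∀ s : Finset (Fin m), ∑ j ∈ s, u j ≡ ∑ j ∈ s, v j [MOD 2 ^ P0] := by
        intro s
        induction s using Finset.induction_on with
        | empty => simp; rfl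
        | insert j s hj ih =>
          rw [Finset.sum_insert hj, Finset.sum_insert hj]
          apply Nat.ModEq.add _ ih
          have := (hY j j.isLt).1 (u j) (hu j) (v j) (hv j)
          exact this.of_dvd (pow_dvd_pow 2 (by omega))
      exact hsum univ
  · rw [k2, Finset.card_image_of_injective _ (add_left_injective c), h4, ← pow_add]
    congr 1
    omega

lemma runB {h q w : ℕ} (α : Fin q → Finset (Fin h)) (hinj : Function.Injective α)
    (hw : ∀ b, (α b).card = w)
    (hhalf : ∀ x : Fin h, q ≤ 2 * ((univ : Finset (Fin q)).filter (fun b => x ∉ α b)).card)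
    (hq : 4 ≤ q) (hh : 2 * h ≤ q) (s0 : ℕ) (hs0 : 1 ≤ s0) :
    ∀ x r K P P0 M : ℕ, AchB r K P P0 M → h * x ≤ P → P ≤ r → r ≤ P + q ^ x →
      ∃ K' P' M' : ℕ, AchB r K' P' P0 M' ∧ P ≤ P' ∧ P' ≤ r ∧ r ≤ P' + q ^ (s0 + 1) ∧
        K ≤ K' ∧ 2 * s0 * (K' - K) ≤ 2 * x * q ^ (s0 + 1) + h * x ^ 2 ∧
        M' ≤ M + x * (3 * q ^ (s0 + 1)) := by
  intro x
  induction x using Nat.strong_induction_on with
  | _ x ih =>
  intro r K P P0 M hA hP hPr hrx
  by_cases hx : x ≤ s0 + 1
  · refine ⟨K, P, M, hA, le_refl _, hPr, ?_, le_refl _, by simp, by omega⟩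
    have : q ^ x ≤ q ^ (s0 + 1) := Nat.pow_le_pow_right (by omega) hx
    omega
  · push Not at hx
    obtain ⟨l, hl1, hxl⟩ : ∃ l, 1 ≤ l ∧ x = l + 1 + s0 := ⟨x - 1 - s0, by omega, by omega⟩
    have hxm : h * (l + 1) ≤ P := le_trans (Nat.mul_le_mul_left _ (by omega)) hP
    have hlt : l + 1 < x := by omega
    have hmono : 2 * (l + 1) * q ^ (s0 + 1) + h * (l + 1) ^ 2 ≤
        2 * x * q ^ (s0 + 1) + h * x ^ 2 := by
      apply Nat.add_le_add
      · apply Nat.mul_le_mul_right
        omega
      · apply Nat.mul_le_mul_left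
        exact Nat.pow_le_pow_left (by omega) 2
    have hMx : (l + 1) * (3 * q ^ (s0 + 1)) + 3 * q ^ (s0 + 1) ≤ x * (3 * q ^ (s0 + 1)) := by
      rw [← Nat.succ_mul]
      apply Nat.mul_le_mul_right
      omega
    by_cases hr : r ≤ P + q ^ (l + 1)
    · obtain ⟨K', P', M', g1, g2, g3, g4, g5, g6, g7⟩ :=
        ih (l + 1) hlt r K P P0 M hA hxm hPr hr
      exact ⟨K', P', M', g1, g2, g3, g4, g5, g6.trans hmono, by omega⟩
    · push Not at hr
      have ht := window_total (h := h) hq (by omega) hl1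
      have hlh : 2 * (l * h) ≤ q ^ l := by
        have := mul_le_pow_aux (h := 2 * h) (q := q) (l := l) (by omega) hh hl1
        calc 2 * (l * h) = l * (2 * h) := by ring
          _ ≤ q ^ l := this
      set V := q ^ l with hV
      have hVpos : 0 < V := by rw [hV]; positivity
      set U := Fintype.card (Ut l q) with hU
      obtain ⟨m, hm⟩ : ∃ m, m = (r - P - U - l * h) / V := ⟨_, rfl⟩
      have hm1 : m * V ≤ r - P - U - l * h := by
        rw [hm]
        exact Nat.div_mul_le_self _ _
      have hm2 : r - P - U - l * h < (m + 1) * V := by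
        rw [hm, mul_comm (_ + 1) V]
        exact Nat.lt_mul_div_succ _ hVpos
      have hmpos : 0 < m := by
        rw [hm]
        apply Nat.div_pos _ hVpos
        omega
      have hstep := AchB_step (l := l) α hinj hw hhalf (by rw [← hV]; exact hlh) hA hmpos
        (P := P) (by
          have : l * (h - w) ≤ h * (l + 1) := by
            calc l * (h - w) ≤ l * h := Nat.mul_le_mul_left _ (Nat.sub_le _ _)
              _ = h * l := mul_comm _ _
              _ ≤ h * (l + 1) := Nat.mul_le_mul_left _ (by omega)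
          omega) (r := r) (by
          show P + m * V + U + l * h ≤ r
          omega)
      rw [← hV] at hstep
      have hm3 : (m + 1) * V = m * V + V := by ring
      obtain ⟨K', P', M', g1, g2, g3, g4, g5, g6, g7⟩ := ih (l + 1) hlt r (K + (m + l * h))
        (P + m * V) P0 (M + (1 + 2 * m)) hstep (by omega) (by omega) (by omega)
      have hmq : m ≤ q ^ (s0 + 1) := by
        have h1 : m * V ≤ q ^ x := by omega
        have h2 : q ^ x = q ^ (s0 + 1) * V := by
          rw [hV, ← pow_add, hxl]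
          congr 1
          ring
        rw [h2] at h1
        exact Nat.le_of_mul_le_mul_right h1 hVpos
      refine ⟨K', P', M', g1, by omega, g3, g4, by omega, ?_, ?_⟩
      · have e1 : K' - K = (K' - (K + (m + l * h))) + (m + l * h) := by omega
        rw [e1, mul_add]
        have h5 : 2 * s0 * (m + l * h) ≤ 2 * s0 * q ^ (s0 + 1) + 2 * s0 * (l * h) := by
          rw [mul_add]
          exact Nat.add_le_add_right (Nat.mul_le_mul_left _ hmq) _
        calc 2 * s0 * (K' - (K + (m + l * h))) + 2 * s0 * (m + l * h)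
            ≤ (2 * (l + 1) * q ^ (s0 + 1) + h * (l + 1) ^ 2) +
              (2 * s0 * q ^ (s0 + 1) + 2 * s0 * (l * h)) := Nat.add_le_add g6 h5
          _ = 2 * (l + 1 + s0) * q ^ (s0 + 1) + h * ((l + 1) ^ 2 + 2 * s0 * l) := by ring
          _ ≤ 2 * x * q ^ (s0 + 1) + h * x ^ 2 := by
            rw [hxl]
            apply Nat.add_le_add_left
            apply Nat.mul_le_mul_left
            nlinarith
      · omega

end Pool.Agent.Helper949.CC
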