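import Pool.Agent.Helper949.CC13

namespace Pool.Agent.Helper949.CC

open Finset

/-- `y` is a sum of exactly `B` powers of two with exponents at most `r` -/
def Pw (r B y : ℕ) : Prop :=
  ∃ s : Multiset ℕ, s.card = B ∧ (∀ a ∈ s, a ≤ r) ∧ (s.map (fun a => 2 ^ a)).sum = y

lemma VS_pow {r a : ℕ} (ha : a ≤ r) : 2 ^ a ∈ VS r 1 := by
  classical
  refine ⟨Fin 1, inferInstance, ⊥, fun v => if (v : ℕ) < a then {0} else ∅, by simp, ?_⟩
  unfold valNE
  rw [Finset.sum_eq_single ({0} : Finset (Fin 1))]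
  · congr 1
    have h1 : ∀ v : Fin r, (({0} : Finset (Fin 1)) ⊆ if (v : ℕ) < a then {0} else ∅) ↔
        (v : ℕ) < a := by
      intro v
      split_ifs with hv
      · simp [hv]
      · simp [hv]
    have h2 : ((univ : Finset (Fin r)).filter (fun v : Fin r => (v : ℕ) < a)).card = a := by
      rw [Fin.card_filter_val_lt]
      omega
    refine Eq.trans ?_ h2
    apply congrArg Finset.card
    ext v
    simp only [Finset.mem_filter, Finset.mem_univ, true_and]
    exact h1 v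
  · intro T hT hT'
    exfalso
    apply hT'
    simp only [Finset.mem_filter, Finset.mem_univ, true_and] at hT
    obtain ⟨⟨x, hx⟩, _⟩ := hT
    ext y
    have hy : y = x := Subsingleton.elim _ _
    have h0 : y = 0 := Subsingleton.elim _ _
    subst hy
    simp [h0] at hx ⊢
    exact hx
  · intro h
    exfalso
    apply h
    simp

lemma Pw_VS {r B y : ℕ} (h : Pw r B y) : y ∈ VS r B := by
  obtain ⟨s, rfl, hs, rfl⟩ := h
  induction s using Multiset.induction_on with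
  | empty => simpa using VS_zero r
  | cons a s ih =>
    rw [Multiset.map_cons, Multiset.sum_cons, Multiset.card_cons, add_comm s.card 1]
    exact VS_add (VS_pow (hs a (Multiset.mem_cons_self a s)))
      (ih (fun b hb => hs b (Multiset.mem_cons_of_mem hb)))

lemma Pw_add {r B B' y y' : ℕ} (h : Pw r B y) (h' : Pw r B' y') : Pw r (B + B') (y + y') := by
  obtain ⟨s, rfl, hs, rfl⟩ := h
  obtain ⟨t, rfl, ht, rfl⟩ := h'
  refine ⟨s + t, by simp, ?_, by simp⟩
  intro a ha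
  rcases Multiset.mem_add.1 ha with h | h
  · exact hs a h
  · exact ht a h

lemma Pw_split {r B y : ℕ} (h : Pw r B y) (hB : B < y) : Pw r (B + 1) y := by
  obtain ⟨s, rfl, hs, rfl⟩ := h
  have hex : ∃ a ∈ s, 1 ≤ a := by
    by_contra hcon
    push Not at hcon
    have h1 : (s.map (fun a => 2 ^ a)) = s.map (fun _ => 1) := by
      apply Multiset.map_congr rfl
      intro a ha
      have : a = 0 := by
        have := hcon a ha
        omega
      rw [this, pow_zero]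
    rw [h1] at hB
    simp at hB
  obtain ⟨a, ha, ha1⟩ := hex
  obtain ⟨t, rfl⟩ := Multiset.exists_cons_of_mem ha
  obtain ⟨b, rfl⟩ := Nat.exists_eq_add_of_le ha1
  have hbr : 1 + b ≤ r := hs _ (Multiset.mem_cons_self _ _)
  refine ⟨b ::ₘ b ::ₘ t, by simp, ?_, ?_⟩
  · intro c hc
    rw [Multiset.mem_cons, Multiset.mem_cons] at hc
    rcases hc with rfl | rfl | hc
    · omega
    · omega
    · exact hs c (Multiset.mem_cons_of_mem hc)
  · simp only [Multiset.map_cons, Multiset.sum_cons]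
    rw [add_comm 1 b, pow_succ]
    ring

lemma Pw_mono {r B B' y : ℕ} (h : Pw r B y) (hB : B ≤ B') (hy : B' ≤ y) : Pw r B' y := by
  induction B', hB using Nat.le_induction with
  | base => exact h
  | succ k hk ih => exact Pw_split (ih (by omega)) (by omega)

lemma Pw_bits {r : ℕ} : ∀ k, k ≤ r + 1 → ∀ y < 2 ^ k, ∃ B ≤ k, Pw r B y := by
  intro k
  induction k with
  | zero =>
    intro _ y hy
    have : y = 0 := by simpa using hy
    subst this
    exact ⟨0, le_refl _, 0, by simp, by simp, by simp⟩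
  | succ k ih =>
    intro hk y hy
    by_cases h : y < 2 ^ k
    · obtain ⟨B, hB, hP⟩ := ih (by omega) y h
      exact ⟨B, by omega, hP⟩
    · push Not at h
      have h2 : 2 ^ (k + 1) = 2 ^ k + 2 ^ k := by ring
      obtain ⟨B, hB, hP⟩ := ih (by omega) (y - 2 ^ k) (by omega)
      refine ⟨B + 1, by omega, ?_⟩
      have h1 : Pw r 1 (2 ^ k) := ⟨{k}, by simp, by simp; omega, by simp⟩
      have := Pw_add hP h1
      rwa [Nat.sub_add_cancel h] at this

lemma Pw_shift {r B y P : ℕ} (h : Pw r B y) : Pw (r + P) B (2 ^ P * y) := by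
  obtain ⟨s, rfl, hs, rfl⟩ := h
  refine ⟨s.map (fun a => a + P), by simp, ?_, ?_⟩
  · intro a ha
    rw [Multiset.mem_map] at ha
    obtain ⟨b, hb, rfl⟩ := ha
    have := hs b hb
    omega
  · rw [Multiset.map_map, ← Multiset.sum_map_mul_left]
    congr 1
    apply Multiset.map_congr rfl
    intro a _
    simp only [Function.comp]
    rw [pow_add, mul_comm]

lemma Pw_top (r t : ℕ) : Pw r t (t * 2 ^ r) := by
  refine ⟨Multiset.replicate t r, by simp, ?_, by simp⟩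
  intro a ha
  rw [Multiset.eq_of_mem_replicate ha]

lemma Pw_exists {r P P0 y : ℕ} (hP : P ≤ r) (hP0 : P0 ≤ P) (hy : y % 2 ^ P < 2 ^ P0) :
    ∃ B ≤ P0 + (r - P) + y / 2 ^ r, Pw r B y := by
  obtain ⟨B1, hB1, h1⟩ := Pw_bits (r := r) P0 (by omega) (y % 2 ^ P) hy
  have hmid : (y % 2 ^ r) / 2 ^ P < 2 ^ (r - P) := by
    rw [Nat.div_lt_iff_lt_mul (by positivity), ← pow_add]
    have : r - P + P = r := by omega
    rw [this]
    exact Nat.mod_lt _ (by positivity)
  obtain ⟨B2, hB2, h2⟩ := Pw_bits (r := r - P) (r - P) (by omega) ((y % 2 ^ r) / 2 ^ P) hmid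
  have h2' := Pw_shift (P := P) h2
  have e : r - P + P = r := by omega
  rw [e] at h2'
  have h3 := Pw_top r (y / 2 ^ r)
  refine ⟨B1 + B2 + y / 2 ^ r, by omega, ?_⟩
  have h4 := Pw_add (Pw_add h1 h2') h3
  have e2 : y % 2 ^ P + 2 ^ P * (y % 2 ^ r / 2 ^ P) + y / 2 ^ r * 2 ^ r = y := by
    have e3 : (y % 2 ^ r) % 2 ^ P = y % 2 ^ P := Nat.mod_mod_of_dvd _ (pow_dvd_pow 2 hP)
    have e4 := Nat.mod_add_div (y % 2 ^ r) (2 ^ P)
    rw [e3] at e4
    rw [e4]
    have := Nat.mod_add_div y (2 ^ r)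
    rw [mul_comm] at this
    exact this
  rwa [e2] at h4

lemma cover {X : Finset ℕ} {P P0 : ℕ} (hD : Dist X P) (hC : Cst X P0)
    (hcard : X.card = 2 ^ (P - P0)) (hP : P0 ≤ P) {x0 : ℕ} (hx0 : x0 ∈ X) (t : ℕ)
    (ht : t ≡ x0 [MOD 2 ^ P0]) : ∃ x ∈ X, x ≡ t [MOD 2 ^ P] := by
  set S : Finset ℕ := (range (2 ^ (P - P0))).image (fun k => x0 % 2 ^ P0 + 2 ^ P0 * k) with hS
  have hin : ∀ u : ℕ, u ≡ x0 [MOD 2 ^ P0] → u % 2 ^ P ∈ S := by
    intro u hu
    rw [hS, Finset.mem_image]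
    refine ⟨(u % 2 ^ P) / 2 ^ P0, ?_, ?_⟩
    · rw [Finset.mem_range, Nat.div_lt_iff_lt_mul (by positivity), ← pow_add]
      have : P - P0 + P0 = P := by omega
      rw [this]
      exact Nat.mod_lt _ (by positivity)
    · have h1 : (u % 2 ^ P) % 2 ^ P0 = u % 2 ^ P0 := Nat.mod_mod_of_dvd _ (pow_dvd_pow 2 hP)
      have h2 : u % 2 ^ P0 = x0 % 2 ^ P0 := hu
      rw [← h2, ← h1]
      exact Nat.mod_add_div _ _
  have hsub : X.image (fun x => x % 2 ^ P) ⊆ S := by
    intro y hy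
    rw [Finset.mem_image] at hy
    obtain ⟨x, hx, rfl⟩ := hy
    exact hin x (hC x hx x0 hx0)
  have hinj : (X.image (fun x => x % 2 ^ P)).card = 2 ^ (P - P0) := by
    rw [Finset.card_image_of_injOn, hcard]
    intro x hx y hy hxy
    exact hD x hx y hy hxy
  have hScard : S.card ≤ 2 ^ (P - P0) := by
    rw [hS]
    refine Finset.card_image_le.trans ?_
    rw [Finset.card_range]
  have heq := Finset.eq_of_subset_of_card_le hsub (by rw [hinj]; exact hScard)
  have h3 := hin t ht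
  rw [← heq, Finset.mem_image] at h3
  obtain ⟨x, hx, hxt⟩ := h3
  exact ⟨x, hx, hxt⟩

lemma large_value {h q w : ℕ} (α : Fin q → Finset (Fin h)) (hinj : Function.Injective α)
    (hw : ∀ b, (α b).card = w)
    (hhalf : ∀ x : Fin h, q ≤ 2 * ((univ : Finset (Fin q)).filter (fun b => x ∉ α b)).card)
    (hq : 4 ≤ q) (hh : 2 * h ≤ q) (s0 : ℕ) (hs0 : 1 ≤ s0)
    {n x B0 M0 r g : ℕ} (hn : n ≤ q ^ x) (hM0 : M0 = x * (3 * q ^ (s0 + 1)))
    (hB : 2 * x * q ^ (s0 + 1) + h * x ^ 2 ≤ 2 * s0 * B0)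
    (hg1 : (M0 + 2) * 2 ^ r ≤ g) (hg2 : g < (M0 + 2) * 2 ^ (r + 1))
    (hr1 : h * x ≤ r) (hr2 : n ≤ 2 ^ r)
    (hr3 : r + (B0 + h * x + q ^ (s0 + 1) + 2 * M0 + 4) ≤ n) :
    g - 1 ∈ possibleCounts n := by
  obtain ⟨K', P', M', g1, g2, g3, g4, g5, g6, g7⟩ := runB α hinj hw hhalf hq hh s0 hs0 x r 0
    (h * x) (h * x) 0 (AchB_init _ _) (le_refl _) hr1 (by omega)
  have hK : K' ≤ B0 := by
    have : 2 * s0 * K' ≤ 2 * s0 * B0 := by
      rw [Nat.sub_zero] at g6
      exact g6.trans hB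
    exact Nat.le_of_mul_le_mul_left this (by omega)
  have hM' : M' ≤ M0 := by omega
  obtain ⟨X, h1, h2, h3, h4, h5⟩ := g1
  set P0 := h * x with hP0
  have hXne : X.Nonempty := by
    rw [← Finset.card_pos, h4]
    positivity
  obtain ⟨x0, hx0⟩ := hXne
  have hbound : ∀ y ∈ X, y + 2 * 2 ^ r ≤ g := by
    intro y hy
    have := (h1 y hy).2
    calc y + 2 * 2 ^ r ≤ M' * 2 ^ r + 2 * 2 ^ r := Nat.add_le_add_right this _
      _ ≤ M0 * 2 ^ r + 2 * 2 ^ r := Nat.add_le_add_right (Nat.mul_le_mul_right _ hM') _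
      _ = (M0 + 2) * 2 ^ r := by ring
      _ ≤ g := hg1
  have hb0 := hbound x0 hx0
  set low := (g - 2 ^ r - x0) % 2 ^ P0 with hlow
  have hlow1 : low < 2 ^ P0 := Nat.mod_lt _ (by positivity)
  have hlow2 : low ≤ g - 2 ^ r - x0 := Nat.mod_le _ _
  have ht : g - 2 ^ r - low ≡ x0 [MOD 2 ^ P0] := by
    have e1 : g - 2 ^ r - low = x0 + 2 ^ P0 * ((g - 2 ^ r - x0) / 2 ^ P0) := by
      have := Nat.mod_add_div (g - 2 ^ r - x0) (2 ^ P0)
      rw [← hlow] at this
      omega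
    rw [e1]
    unfold Nat.ModEq
    simp
  obtain ⟨x1, hx1, hx1t⟩ := cover h2 h3 h4 h5 hx0 _ ht
  have hb1 := hbound x1 hx1
  set y := g - 2 ^ r - x1 with hy
  have hlowP : low < 2 ^ P' := lt_of_lt_of_le hlow1 (Nat.pow_le_pow_right (by norm_num) h5)
  have hymod : y % 2 ^ P' < 2 ^ P0 := by
    have e1 : x1 + y ≡ (g - 2 ^ r - low) + low [MOD 2 ^ P'] := by
      have : x1 + y = (g - 2 ^ r - low) + low := by omega
      rw [this]
    have e2 : y ≡ low [MOD 2 ^ P'] := Nat.ModEq.add_left_cancel hx1t e1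
    have e3 : y % 2 ^ P' = low := by
      rw [e2]
      exact Nat.mod_eq_of_lt hlowP
    rw [e3]
    exact hlow1
  obtain ⟨B, hB1, hPw⟩ := Pw_exists g3 h5 hymod
  have hydiv : y / 2 ^ r < 2 * M0 + 4 := by
    rw [Nat.div_lt_iff_lt_mul (by positivity)]
    calc y ≤ g := by omega
      _ < (M0 + 2) * 2 ^ (r + 1) := hg2
      _ = (2 * M0 + 4) * 2 ^ r := by rw [pow_succ]; ring
  have hPw2 : Pw r (n - r - K') y := Pw_mono hPw (by omega) (by omega)
  have hmem := VS_add (h1 x1 hx1).1 (Pw_VS hPw2)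
  have hposs := VS_possible hmem
  have e1 : r + (K' + (n - r - K')) = n := by omega
  have e2 : 2 ^ r + (x1 + y) - 1 = g - 1 := by omega
  rwa [e1, e2] at hposs

lemma small_value {n f R : ℕ} (hf : n ≤ f) (hfR : f < 2 ^ R) (hR : 3 * R + 2 ≤ n) :
    f ∈ possibleCounts n := by
  have hex : ∃ r, 1 ≤ r ∧ 2 ^ r ≤ f - n + 1 + r ∧ f - n + 2 + r < 2 ^ (r + 1) := by
    by_contra hcon
    push Not at hcon
    have hall : ∀ r, 1 ≤ r → 2 ^ r ≤ f - n + 1 + r := by
      intro r hr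
      induction r, hr using Nat.le_induction with
      | base => omega
      | succ k hk ih =>
        have := hcon k hk ih
        omega
    have h1 := hall (R + 1) (by omega)
    have h2 : R < 2 ^ R := Nat.lt_two_pow_self
    rw [pow_succ] at h1
    omega
  obtain ⟨r, hr1, hr2, hr3⟩ := hex
  have hrR : r ≤ R := by
    by_contra hcon
    push Not at hcon
    have hmono : ∀ r, R + 1 ≤ r → 2 ^ R + r + 1 ≤ 2 ^ r + 1 := by
      intro r hr
      induction r, hr using Nat.le_induction with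
      | base =>
        have h2 : R < 2 ^ R := Nat.lt_two_pow_self
        rw [pow_succ]
        omega
      | succ k hk ih =>
        rw [pow_succ]
        have : 1 ≤ 2 ^ k := Nat.one_le_two_pow
        omega
    have := hmono r hcon
    omega
  set y := f + 1 - 2 ^ r with hy
  have h2r : 2 ^ r ≤ 2 ^ R := Nat.pow_le_pow_right (by norm_num) hrR
  have hpos : 1 ≤ 2 ^ r := Nat.one_le_two_pow
  have hylow : n - r ≤ y := by omega
  have hyup : y < 2 ^ r + (n - r) := by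
    have : 2 ^ (r + 1) = 2 * 2 ^ r := by rw [pow_succ]; ring
    omega
  obtain ⟨B, hB1, hPw⟩ := Pw_exists (r := r) (P := r) (P0 := r) (y := y) (le_refl _) (le_refl _)
    (Nat.mod_lt _ (by positivity))
  have hdiv : y / 2 ^ r ≤ 1 + (n - r) / 2 := by
    have h2le : 2 ≤ 2 ^ r := by
      calc 2 = 2 ^ 1 := by norm_num
        _ ≤ 2 ^ r := Nat.pow_le_pow_right (by norm_num) hr1
    have h3 : y / 2 ^ r ≤ (2 ^ r + (n - r)) / 2 ^ r := Nat.div_le_div_right hyup.le
    rw [Nat.add_div_of_dvd_right (dvd_refl _), Nat.div_self (by positivity)] at h3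
    have h4 : (n - r) / 2 ^ r ≤ (n - r) / 2 := Nat.div_le_div_left h2le (by norm_num)
    omega
  have hPw2 : Pw r (n - r) y := Pw_mono hPw (by omega) hylow
  have hposs := VS_possible (Pw_VS hPw2)
  have e1 : r + (n - r) = n := by omega
  have e2 : 2 ^ r + y - 1 = f := by omega
  rwa [e1, e2] at hposs

lemma interval_nat {h q w : ℕ} (α : Fin q → Finset (Fin h)) (hinj : Function.Injective α)
    (hw : ∀ b, (α b).card = w)
    (hhalf : ∀ x : Fin h, q ≤ 2 * ((univ : Finset (Fin q)).filter (fun b => x ∉ α b)).card)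
    (hq : 4 ≤ q) (hh : 2 * h ≤ q) (s0 : ℕ) (hs0 : 1 ≤ s0)
    {n x B0 M0 R a : ℕ} (hn : n ≤ q ^ x) (hM0 : M0 = x * (3 * q ^ (s0 + 1)))
    (hB : 2 * x * q ^ (s0 + 1) + h * x ^ 2 ≤ 2 * s0 * B0)
    (hloss : B0 + h * x + q ^ (s0 + 1) + 2 * M0 + 4 ≤ n)
    (hR : 3 * R + 2 ≤ n) (ha1 : h * x ≤ a) (ha2 : n ≤ 2 ^ a)
    (ha3 : (M0 + 2) * 2 ^ a ≤ 2 ^ R) {f : ℕ} (hf1 : n ≤ f)
    (hf2 : f + 1 ≤ 2 ^ (n - (B0 + h * x + q ^ (s0 + 1) + 2 * M0 + 4))) :
    f ∈ possibleCounts n := by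
  by_cases hfR : f < 2 ^ R
  · exact small_value hf1 hfR hR
  · push Not at hfR
    set r := Nat.log 2 ((f + 1) / (M0 + 2)) with hr
    have hge : (M0 + 2) * 2 ^ a ≤ f + 1 := by omega
    have hq0 : (f + 1) / (M0 + 2) ≠ 0 := by
      apply Nat.ne_of_gt
      apply Nat.div_pos _ (by omega)
      have : 1 ≤ 2 ^ a := Nat.one_le_two_pow
      nlinarith
    have hg1 : (M0 + 2) * 2 ^ r ≤ f + 1 := by
      have h1 : 2 ^ r ≤ (f + 1) / (M0 + 2) := Nat.pow_log_le_self 2 hq0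
      calc (M0 + 2) * 2 ^ r ≤ (M0 + 2) * ((f + 1) / (M0 + 2)) := Nat.mul_le_mul_left _ h1
        _ ≤ f + 1 := Nat.mul_div_le _ _
    have hg2 : f + 1 < (M0 + 2) * 2 ^ (r + 1) := by
      have h1 : (f + 1) / (M0 + 2) < 2 ^ (r + 1) := Nat.lt_pow_succ_log_self (by norm_num) _
      rw [Nat.div_lt_iff_lt_mul (by omega)] at h1
      rw [mul_comm]
      exact h1
    have har : a ≤ r := by
      have h1 : (M0 + 2) * 2 ^ a < (M0 + 2) * 2 ^ (r + 1) := lt_of_le_of_lt hge hg2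
      have h2 := Nat.lt_of_mul_lt_mul_left h1
      have h3 := (Nat.pow_lt_pow_iff_right (a := 2) (by norm_num)).1 h2
      omega
    have h2a : 2 ^ a ≤ 2 ^ r := Nat.pow_le_pow_right (by norm_num) har
    have hrn : 2 ^ r ≤ 2 ^ (n - (B0 + h * x + q ^ (s0 + 1) + 2 * M0 + 4)) := by
      refine le_trans ?_ (hg1.trans hf2)
      exact Nat.le_mul_of_pos_left _ (by omega)
    have hrn2 := (Nat.pow_le_pow_iff_right (a := 2) (by norm_num)).1 hrn
    have := large_value α hinj hw hhalf hq hh s0 hs0 hn hM0 hB hg1 hg2 (by omega) (by omega)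
      (by omega)
    simpa using this

end Pool.Agent.Helper949.CC
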