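import Pool.Agent.Helper949.CC1

namespace Pool.Agent.Helper949.CC

open Finset

/-- values of `valNE` over `r` elements of `R` and `K` elements of `C` -/
def VS (r K : ℕ) : Set ℕ :=
  {x | ∃ (C : Type) (_ : Fintype C) (Kg : SimpleGraph C) (A : Fin r → Finset C),
    Fintype.card C = K ∧ valNE Kg A = x}

lemma VS_of_type {R C : Type} [Fintype R] [Fintype C] (Kg : SimpleGraph C) (A : R → Finset C) :
    valNE Kg A ∈ VS (Fintype.card R) (Fintype.card C) := by
  classical
  refine ⟨C, inferInstance, Kg, fun v => A ((Fintype.equivFin R).symm v), rfl, ?_⟩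
  unfold valNE
  apply Finset.sum_congr rfl
  intro T _
  congr 1
  apply Finset.card_bij (fun v _ => (Fintype.equivFin R).symm v)
  · intro v hv
    simpa using hv
  · intro v _ w _ h
    exact (Fintype.equivFin R).symm.injective h
  · intro v hv
    exact ⟨Fintype.equivFin R v, by simpa using hv, by simp⟩

lemma VS_zero (r : ℕ) : 0 ∈ VS r 0 := by
  classical
  refine ⟨Fin 0, inferInstance, ⊥, fun _ => ∅, by simp, ?_⟩
  unfold valNE
  apply Finset.sum_eq_zero
  intro T hT
  simp only [Finset.mem_filter, Finset.mem_univ, true_and] at hT
  obtain ⟨⟨x, _⟩, _⟩ := hT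
  exact x.elim0

lemma VS_one (r : ℕ) : 1 ∈ VS r 1 := by
  classical
  refine ⟨Fin 1, inferInstance, ⊥, fun _ => ∅, by simp, ?_⟩
  unfold valNE
  rw [Finset.sum_eq_single ({0} : Finset (Fin 1))]
  · simp
  · intro T hT hT'
    exfalso
    apply hT'
    simp only [Finset.mem_filter, Finset.mem_univ, true_and] at hT
    obtain ⟨⟨x, hx⟩, _⟩ := hT
    ext y
    have hy : y = x := Subsingleton.elim _ _
    have h0 : y = 0 := Subsingleton.elim _ _
    subst hy
    simp [h0] at hx ⊢
    exact hx
  · intro h
    exfalso
    apply h
    simp

/-- disjoint union of graphs -/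
def sumG {C D : Type} (K : SimpleGraph C) (L : SimpleGraph D) : SimpleGraph (C ⊕ D) where
  Adj x y := match x, y with
    | .inl u, .inl v => K.Adj u v
    | .inl _, .inr _ => False
    | .inr _, .inl _ => False
    | .inr x, .inr y => L.Adj x y
  symm := ⟨by
    rintro (u | x) (v | y) h
    · exact K.adj_symm h
    · exact h
    · exact h
    · exact L.adj_symm h⟩
  loopless := ⟨by
    rintro (u | x) h
    · exact K.loopless.irrefl u h
    · exact L.loopless.irrefl x h⟩

lemma valNE_sumG {R C D : Type} [Fintype R] [Fintype C] [Fintype D]
    (K : SimpleGraph C) (L : SimpleGraph D) (A : R → Finset C) (B : R → Finset D) :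
    valNE (sumG K L) (fun v => (A v).disjSum (B v)) = valNE K A + valNE L B := by
  classical
  unfold valNE
  have hsplit : (univ : Finset (Finset (C ⊕ D))).filter
      (fun T : Finset (C ⊕ D) => T.Nonempty ∧ (sumG K L).IsClique (T : Set (C ⊕ D))) =
      (((univ : Finset (Finset C)).filter
        (fun T : Finset C => T.Nonempty ∧ K.IsClique (T : Set C))).image
          (fun T => T.disjSum ∅)) ∪
      (((univ : Finset (Finset D)).filter
        (fun T : Finset D => T.Nonempty ∧ L.IsClique (T : Set D))).image
          (fun T => (∅ : Finset C).disjSum T)) := by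
    ext T
    simp only [Finset.mem_filter, Finset.mem_univ, true_and, Finset.mem_union, Finset.mem_image]
    constructor
    · rintro ⟨⟨x, hx⟩, hcl⟩
      rcases x with x | x
      · left
        have hr : T.toRight = ∅ := by
          rw [Finset.eq_empty_iff_forall_notMem]
          intro y hy
          have hy' : Sum.inr y ∈ T := by simpa using hy
          exact hcl (Finset.mem_coe.2 hx) (Finset.mem_coe.2 hy') (by simp)
        refine ⟨T.toLeft, ⟨⟨x, by simpa using hx⟩, ?_⟩, ?_⟩
        · intro a ha b hb hab
          have ha' : Sum.inl a ∈ T := by simpa using ha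
          have hb' : Sum.inl b ∈ T := by simpa using hb
          exact hcl (Finset.mem_coe.2 ha') (Finset.mem_coe.2 hb') (by simpa using hab)
        · rw [← hr, Finset.toLeft_disjSum_toRight]
      · right
        have hr : T.toLeft = ∅ := by
          rw [Finset.eq_empty_iff_forall_notMem]
          intro y hy
          have hy' : Sum.inl y ∈ T := by simpa using hy
          exact hcl (Finset.mem_coe.2 hx) (Finset.mem_coe.2 hy') (by simp)
        refine ⟨T.toRight, ⟨⟨x, by simpa using hx⟩, ?_⟩, ?_⟩
        · intro a ha b hb hab
          have ha' : Sum.inr a ∈ T := by simpa using ha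
          have hb' : Sum.inr b ∈ T := by simpa using hb
          exact hcl (Finset.mem_coe.2 ha') (Finset.mem_coe.2 hb') (by simpa using hab)
        · rw [← hr, Finset.toLeft_disjSum_toRight]
    · rintro (⟨U, ⟨⟨x, hx⟩, hU⟩, rfl⟩ | ⟨U, ⟨⟨x, hx⟩, hU⟩, rfl⟩)
      · refine ⟨⟨Sum.inl x, by simpa using hx⟩, ?_⟩
        rintro (a | a) ha (b | b) hb hab
        · exact hU (by simpa using ha) (by simpa using hb) (by simpa using hab)
        · simp at hb
        · simp at ha
        · simp at ha
      · refine ⟨⟨Sum.inr x, by simpa using hx⟩, ?_⟩
        rintro (a | a) ha (b | b) hb hab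
        · simp at ha
        · simp at ha
        · simp at hb
        · exact hU (by simpa using ha) (by simpa using hb) (by simpa using hab)
  refine (Finset.sum_congr (Eq.trans (by ext T; simp) hsplit) (fun _ _ => rfl)).trans ?_
  rw [Finset.sum_union, Finset.sum_image, Finset.sum_image]
  · congr 1
    · apply Finset.sum_congr rfl
      intro T _
      congr 2
      ext v
      simp only [Finset.mem_filter, Finset.mem_univ, true_and]
      constructor
      · intro h x hx
        have := h (Finset.inl_mem_disjSum.2 hx)
        simpa using this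
      · intro h x hx
        rcases x with x | x
        · simp at hx ⊢
          exact h hx
        · simp at hx
    · apply Finset.sum_congr rfl
      intro T _
      congr 2
      ext v
      simp only [Finset.mem_filter, Finset.mem_univ, true_and]
      constructor
      · intro h x hx
        have := h (Finset.inr_mem_disjSum.2 hx)
        simpa using this
      · intro h x hx
        rcases x with x | x
        · simp at hx
        · simp at hx ⊢
          exact h hx
  · intro S _ T _ h
    simpa only [Finset.toRight_disjSum] using congrArg Finset.toRight h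
  · intro S _ T _ h
    simpa only [Finset.toLeft_disjSum] using congrArg Finset.toLeft h
  · rw [Finset.disjoint_left]
    intro T hT hT'
    simp only [Finset.mem_filter, Finset.mem_univ, true_and, Finset.mem_image] at hT hT'
    obtain ⟨U, ⟨⟨x, hx⟩, hU⟩, rfl⟩ := hT
    obtain ⟨W, ⟨⟨y, hy⟩, hW⟩, h⟩ := hT'
    have := congrArg Finset.toRight h
    simp only [Finset.toRight_disjSum] at this
    rw [this] at hy
    simp at hy

lemma VS_add {r K1 K2 x y : ℕ} (hx : x ∈ VS r K1) (hy : y ∈ VS r K2) :
    x + y ∈ VS r (K1 + K2) := by
  obtain ⟨C, iC, Kg, A, hC, rfl⟩ := hx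
  obtain ⟨D, iD, Lg, B, hD, rfl⟩ := hy
  refine ⟨C ⊕ D, inferInstance, sumG Kg Lg, fun v => (A v).disjSum (B v), ?_, ?_⟩
  · rw [Fintype.card_sum, hC, hD]
  · exact valNE_sumG Kg Lg A B

lemma VS_pad {r K x : ℕ} (hx : x ∈ VS r K) (j : ℕ) : x + j ∈ VS r (K + j) := by
  induction j with
  | zero => simpa using hx
  | succ j ih =>
    have := VS_add ih (VS_one r)
    simpa [add_assoc] using this

lemma VS_possible {r K x : ℕ} (hx : x ∈ VS r K) :
    2 ^ r + x - 1 ∈ possibleCounts (r + K) := by
  classical
  obtain ⟨C, iC, Kg, A, hC, rfl⟩ := hx
  have hcard : Fintype.card (Fin r ⊕ C) = r + K := by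
    rw [Fintype.card_sum, hC, Fintype.card_fin]
  let e : Fin (r + K) ≃ Fin r ⊕ C := (Fintype.equivFinOfCardEq hcard).symm
  refine ⟨(joinG Kg A).comap e, ?_⟩
  have h1 := completeCount_add_one ((joinG Kg A).comap e)
  rw [allCount_comap, allCount_joinG, val_eq, Fintype.card_fin] at h1
  omega

section Window

variable {R Z : Type} [Fintype R] [Fintype Z]

open Classical in
/-- constant contribution of a window -/
noncomputable def cst (ζ : R → Finset Z) : ℕ :=
  ∑ T ∈ (univ : Finset (Finset Z)).filter (fun T : Finset Z => T.Nonempty),
    2 ^ ((univ : Finset R).filter (fun v => T ⊆ ζ v)).card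

open Classical in
/-- contribution of one `y` vertex -/
noncomputable def Om (ζ : R → Finset Z) (N : Finset R) : ℕ :=
  ∑ T : Finset Z, 2 ^ (N.filter (fun v => T ⊆ ζ v)).card

/-- graph of a window -/
def winG (m : ℕ) (Z : Type) : SimpleGraph (Fin m ⊕ Z) where
  Adj x y := match x, y with
    | .inl _, .inl _ => False
    | .inl _, .inr _ => True
    | .inr _, .inl _ => True
    | .inr x, .inr y => x ≠ y
  symm := ⟨by
    rintro (u | x) (v | y) h
    · exact h
    · exact h
    · exact h
    · exact fun h' => h h'.symm⟩
  loopless := ⟨by
    rintro (u | x) h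
    · exact h
    · exact h rfl⟩

lemma valNE_winG (m : ℕ) (ζ : R → Finset Z) (N : Fin m → Finset R) :
    ∃ A : R → Finset (Fin m ⊕ Z), valNE (winG m Z) A = cst ζ + ∑ j, Om ζ (N j) := by
  classical
  refine ⟨fun v => ((univ : Finset (Fin m)).filter (fun j => v ∈ N j)).disjSum (ζ v), ?_⟩
  unfold valNE
  have hsplit : (univ : Finset (Finset (Fin m ⊕ Z))).filter
      (fun T : Finset (Fin m ⊕ Z) => T.Nonempty ∧ (winG m Z).IsClique (T : Set (Fin m ⊕ Z))) =
      (((univ : Finset (Finset Z)).filter
        (fun T : Finset Z => T.Nonempty)).image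
          (fun T => (∅ : Finset (Fin m)).disjSum T)) ∪
      (((univ : Finset (Fin m × Finset Z))).image
          (fun p => ({p.1} : Finset (Fin m)).disjSum p.2)) := by
    ext T
    simp only [Finset.mem_filter, Finset.mem_univ, true_and, Finset.mem_union, Finset.mem_image]
    constructor
    · rintro ⟨⟨x, hx⟩, hcl⟩
      by_cases hl : T.toLeft = ∅
      · left
        refine ⟨T.toRight, ?_, ?_⟩
        · rcases x with x | x
          · exfalso
            have : x ∈ T.toLeft := by simpa using hx
            rw [hl] at this
            simp at this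
          · exact ⟨x, by simpa using hx⟩
        · rw [← hl, Finset.toLeft_disjSum_toRight]
      · right
        obtain ⟨j, hj⟩ := Finset.nonempty_iff_ne_empty.2 hl
        have hj' : Sum.inl j ∈ T := by simpa using hj
        have : T.toLeft = {j} := by
          ext i
          simp only [Finset.mem_singleton]
          constructor
          · intro hi
            by_contra hij
            have hi' : Sum.inl i ∈ T := by simpa using hi
            exact hcl (Finset.mem_coe.2 hi') (Finset.mem_coe.2 hj') (by simpa using hij)
          · rintro rfl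
            exact hj
        refine ⟨(j, T.toRight), ?_⟩
        simp only
        rw [← this, Finset.toLeft_disjSum_toRight]
    · rintro (⟨U, ⟨x, hx⟩, rfl⟩ | ⟨⟨j, U⟩, rfl⟩)
      · refine ⟨⟨Sum.inr x, by simpa using hx⟩, ?_⟩
        rintro (a | a) ha (b | b) hb hab
        · simp at ha
        · simp at ha
        · simp at hb
        · simpa [winG] using hab
      · refine ⟨⟨Sum.inl j, by simp⟩, ?_⟩
        rintro (a | a) ha (b | b) hb hab
        · simp at ha hb
          simp [ha, hb] at hab
        · simp [winG]
        · simp [winG]
        · simpa [winG] using hab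
  refine (Finset.sum_congr (Eq.trans (by ext T; simp) hsplit) (fun _ _ => rfl)).trans ?_
  rw [Finset.sum_union, Finset.sum_image, Finset.sum_image]
  · congr 1
    · unfold cst
      apply Finset.sum_congr rfl
      intro T _
      congr 2
      ext v
      simp only [Finset.mem_filter, Finset.mem_univ, true_and]
      constructor
      · intro h x hx
        have := h (Finset.inr_mem_disjSum.2 hx)
        simpa using this
      · intro h x hx
        rcases x with x | x
        · simp at hx
        · simp at hx ⊢
          exact h hx
    · rw [Fintype.sum_prod_type]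
      apply Finset.sum_congr rfl
      intro j _
      unfold Om
      apply Finset.sum_congr rfl
      intro T _
      congr 2
      ext v
      simp only [Finset.mem_filter, Finset.mem_univ, true_and]
      constructor
      · intro h
        constructor
        · have := h (Finset.inl_mem_disjSum.2 (Finset.mem_singleton_self j))
          simpa using this
        · intro x hx
          have := h (Finset.inr_mem_disjSum.2 hx)
          simpa using this
      · rintro ⟨h1, h2⟩ x hx
        rcases x with x | x
        · simp at hx ⊢
          rw [hx]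
          exact h1
        · simp at hx ⊢
          exact h2 hx
  · rintro ⟨j, S⟩ _ ⟨i, T⟩ _ h
    have h1 := congrArg Finset.toRight h
    have h2 := congrArg Finset.toLeft h
    simp at h1 h2
    rw [h1, h2]
  · intro S _ T _ h
    simpa only [Finset.toRight_disjSum] using congrArg Finset.toRight h
  · rw [Finset.disjoint_left]
    intro T hT hT'
    simp only [Finset.mem_filter, Finset.mem_univ, true_and, Finset.mem_image] at hT hT'
    obtain ⟨U, ⟨x, hx⟩, rfl⟩ := hT
    obtain ⟨⟨j, W⟩, h⟩ := hT'
    have := congrArg Finset.toLeft h
    simp only [Finset.toLeft_disjSum] at this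
    simp at this

lemma VS_window (m : ℕ) (ζ : R → Finset Z) (N : Fin m → Finset R) :
    cst ζ + ∑ j, Om ζ (N j) ∈ VS (Fintype.card R) (m + Fintype.card Z) := by
  obtain ⟨A, hA⟩ := valNE_winG m ζ N
  rw [← hA]
  have := VS_of_type (winG m Z) A
  simpa [Fintype.card_sum] using this

end Window

end Pool.Agent.Helper949.CC
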