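import Pool.Agent.Helper949.CC2

namespace Pool.Agent.Helper949.CC

open Finset
open scoped Pointwise

/-- elements of `X` are pairwise incongruent mod `2^P` -/
def Dist (X : Finset ℕ) (P : ℕ) : Prop := ∀ x ∈ X, ∀ y ∈ X, x ≡ y [MOD 2 ^ P] → x = y

/-- elements of `Y` are all congruent mod `2^P` -/
def Cst (Y : Finset ℕ) (P : ℕ) : Prop := ∀ x ∈ Y, ∀ y ∈ Y, x ≡ y [MOD 2 ^ P]

lemma comb {X Y : Finset ℕ} {P P' : ℕ} (hX : Dist X P) (hY : Cst Y P) (hY' : Dist Y P')
    (h : P ≤ P') : Dist (X + Y) P' ∧ (X + Y).card = X.card * Y.card := by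
  have key : ∀ x ∈ X, ∀ y ∈ Y, ∀ x' ∈ X, ∀ y' ∈ Y, x + y ≡ x' + y' [MOD 2 ^ P'] →
      x = x' ∧ y = y' := by
    intro x hx y hy x' hx' y' hy' hxy
    have h1 : x + y ≡ x' + y' [MOD 2 ^ P] := hxy.of_dvd (pow_dvd_pow 2 h)
    have h2 : x ≡ x' [MOD 2 ^ P] := Nat.ModEq.add_right_cancel (hY y hy y' hy') h1
    have h3 : x = x' := hX x hx x' hx' h2
    subst h3
    refine ⟨rfl, hY' y hy y' hy' ?_⟩
    exact Nat.ModEq.add_left_cancel' x hxy
  constructor
  · intro a ha b hb hab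
    obtain ⟨x, hx, y, hy, rfl⟩ := Finset.mem_add.1 ha
    obtain ⟨x', hx', y', hy', rfl⟩ := Finset.mem_add.1 hb
    obtain ⟨h1, h2⟩ := key x hx y hy x' hx' y' hy' hab
    rw [h1, h2]
  · rw [Finset.card_add_iff]
    rintro ⟨x, y⟩ hxy ⟨x', y'⟩ hxy' heq
    simp only [Finset.coe_product, Set.mem_prod, Finset.mem_coe] at hxy hxy'
    simp only at heq
    obtain ⟨h1, h2⟩ := key x hxy.1 y hxy.2 x' hxy'.1 y' hxy'.2 (by rw [heq])
    rw [h1, h2]

lemma iterate (Y : ℕ → Finset ℕ) (p : ℕ → ℕ) (V : ℕ) (X : Finset ℕ) (hX : Dist X (p 0)) :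
    ∀ m : ℕ, (∀ j < m, Cst (Y j) (p j) ∧ Dist (Y j) (p (j + 1)) ∧ (Y j).card = 2 ^ V ∧
      p j ≤ p (j + 1)) →
    ∃ X' : Finset ℕ, Dist X' (p m) ∧ X'.card = X.card * 2 ^ (m * V) ∧
      ∀ x ∈ X', ∃ x0 ∈ X, ∃ y : Fin m → ℕ, (∀ j : Fin m, y j ∈ Y j) ∧ x = x0 + ∑ j, y j := by
  intro m
  induction m with
  | zero =>
    intro _
    exact ⟨X, hX, by simp, fun x hx => ⟨x, hx, fun _ => 0, fun j => j.elim0, by simp⟩⟩
  | succ m ih =>
    intro hm
    obtain ⟨X', h1, h2, h3⟩ := ih (fun j hj => hm j (by omega))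
    obtain ⟨g1, g2, g3, g4⟩ := hm m (by omega)
    obtain ⟨k1, k2⟩ := comb h1 g1 g2 g4
    refine ⟨X' + Y m, k1, ?_, ?_⟩
    · rw [k2, h2, g3, mul_assoc, ← pow_add]
      congr 2
      ring
    · intro x hx
      obtain ⟨a, ha, b, hb, rfl⟩ := Finset.mem_add.1 hx
      obtain ⟨x0, hx0, y, hy, rfl⟩ := h3 a ha
      refine ⟨x0, hx0, Fin.snoc (α := fun _ => ℕ) y b, ?_, ?_⟩
      · intro j
        refine Fin.lastCases ?_ (fun i => ?_) j
        · simpa using hb
        · simpa using hy i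
      · rw [Fin.sum_univ_castSucc]
        simp [add_assoc]

section Core

variable {Z : Type} [Fintype Z]

open Classical in
/-- value of one `y` vertex in terms of the set `s` of toggled switch vertices -/
noncomputable def Osum (V : ℕ) (τ : Fin V → Finset Z) (E : Finset Z → ℕ) (t : ℕ)
    (s : Finset (Fin V)) : ℕ :=
  ∑ T : Finset Z, 2 ^ ((s.filter (fun i => T ⊆ τ i)).card + E T + t)

lemma core_aux (V : ℕ) (τ : Fin V → Finset Z) (hanti : ∀ i j, τ i ⊆ τ j → i = j)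
    (E : Finset Z → ℕ) (δ : ℕ) (h1 : ∀ i, E (τ i) = δ + i)
    (h2 : ∀ i T, T ⊂ τ i → δ + i < E T) (t : ℕ) (s s' : Finset (Fin V)) (i : Fin V)
    (hi : i ∈ s) (hi' : i ∉ s') (hmin : ∀ j, j < i → (j ∈ s ↔ j ∈ s')) :
    ((2 : ℤ) ^ (t + δ + i + 1)) ∣ (Osum V τ E t s : ℤ) - Osum V τ E t s' - 2 ^ (t + δ + i) := by
  classical
  unfold Osum
  push_cast
  rw [← Finset.add_sum_erase _ _ (Finset.mem_univ (τ i)),
    ← Finset.add_sum_erase _ (fun T => (2:ℤ) ^ ((s'.filter (fun i => T ⊆ τ i)).card + E T + t))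
      (Finset.mem_univ (τ i))]
  have e1 : (s.filter (fun j => τ i ⊆ τ j)) = {i} := by
    ext j
    simp only [Finset.mem_filter, Finset.mem_singleton]
    constructor
    · rintro ⟨_, h⟩
      exact (hanti i j h).symm
    · rintro rfl
      exact ⟨hi, Finset.Subset.refl _⟩
  have e2 : (s'.filter (fun j => τ i ⊆ τ j)) = ∅ := by
    ext j
    simp only [Finset.mem_filter, Finset.notMem_empty, iff_false]
    rintro ⟨hj, h⟩
    rw [← hanti i j h] at hj
    exact hi' hj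
  rw [e1, e2, h1, Finset.card_singleton, Finset.card_empty]
  have hsum : ((2 : ℤ) ^ (t + δ + i + 1)) ∣
      ∑ T ∈ univ.erase (τ i), ((2:ℤ) ^ ((s.filter (fun i => T ⊆ τ i)).card + E T + t) -
        2 ^ ((s'.filter (fun i => T ⊆ τ i)).card + E T + t)) := by
    apply Finset.dvd_sum
    intro T hT
    have hT' : T ≠ τ i := Finset.ne_of_mem_erase hT
    by_cases hcase : ∃ j, i ≤ j ∧ T ⊆ τ j
    · obtain ⟨j, hij, hj⟩ := hcase
      have hE : δ + i + 1 ≤ E T := by
        by_cases hTj : T = τ j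
        · rw [hTj, h1]
          have : i ≠ j := fun h => hT' (by rw [hTj, h])
          have : i < j := lt_of_le_of_ne hij this
          have : (i : ℕ) < j := this
          omega
        · have := h2 j T ⟨hj, fun h => hTj (Finset.Subset.antisymm hj h)⟩
          have h' : (i : ℕ) ≤ j := hij
          omega
      apply dvd_sub
      · apply pow_dvd_pow
        omega
      · apply pow_dvd_pow
        omega
    · push Not at hcase
      have : s.filter (fun j => T ⊆ τ j) = s'.filter (fun j => T ⊆ τ j) := by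
        ext j
        simp only [Finset.mem_filter]
        constructor
        · rintro ⟨hj, hTj⟩
          have hji : j < i := by
            by_contra h
            exact hcase j (not_lt.1 h) hTj
          exact ⟨(hmin j hji).1 hj, hTj⟩
        · rintro ⟨hj, hTj⟩
          have hji : j < i := by
            by_contra h
            exact hcase j (not_lt.1 h) hTj
          exact ⟨(hmin j hji).2 hj, hTj⟩
      rw [this, sub_self]
      exact dvd_zero _
  rw [Finset.sum_sub_distrib] at hsum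
  have e3 : ((2:ℤ) ^ (1 + (δ + (i:ℕ)) + t)) = 2 ^ (t + δ + i + 1) := by
    congr 1
    ring
  have e4 : ((2:ℤ) ^ (0 + (δ + (i:ℕ)) + t)) = 2 ^ (t + δ + i) := by
    congr 1
    ring
  rw [e3, e4]
  obtain ⟨c, hc⟩ := hsum
  refine ⟨c, ?_⟩
  rw [show (2:ℤ) ^ (t + δ + i + 1) = 2 ^ (t + δ + i) * 2 from pow_succ _ _] at hc ⊢
  linarith

lemma core_inj (V : ℕ) (τ : Fin V → Finset Z) (hanti : ∀ i j, τ i ⊆ τ j → i = j)
    (E : Finset Z → ℕ) (δ : ℕ) (h1 : ∀ i, E (τ i) = δ + i)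
    (h2 : ∀ i T, T ⊂ τ i → δ + i < E T) (t : ℕ) (s s' : Finset (Fin V))
    (h : Osum V τ E t s ≡ Osum V τ E t s' [MOD 2 ^ (t + δ + V)]) : s = s' := by
  classical
  by_contra hne
  have hne' : (symmDiff s s').Nonempty := by
    rw [Finset.nonempty_iff_ne_empty]
    intro h0
    exact hne (symmDiff_eq_bot.1 h0)
  set i := (symmDiff s s').min' hne' with hi
  have hmem := Finset.min'_mem (symmDiff s s') hne'
  rw [← hi] at hmem
  have hmin : ∀ j, j < i → (j ∈ s ↔ j ∈ s') := by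
    intro j hj
    have hj' : j ∉ symmDiff s s' := by
      intro hmj
      have := Finset.min'_le _ _ hmj
      rw [← hi] at this
      exact absurd hj (not_lt.2 this)
    rw [Finset.mem_symmDiff] at hj'
    tauto
  have hdvd : ((2 : ℤ) ^ (t + δ + i + 1)) ∣ (Osum V τ E t s : ℤ) - Osum V τ E t s' := by
    have h' := (Nat.modEq_iff_dvd.1 h.symm)
    push_cast at h'
    refine dvd_trans (pow_dvd_pow 2 ?_) h'
    have := i.isLt
    omega
  rw [Finset.mem_symmDiff] at hmem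
  have hpow : ¬ ((2 : ℤ) ^ (t + δ + i + 1)) ∣ 2 ^ (t + δ + i) := by
    intro hd
    have := (Nat.pow_dvd_pow_iff_le_right (x := 2) (by norm_num)).1
      (by exact_mod_cast hd : 2 ^ (t + δ + (i:ℕ) + 1) ∣ 2 ^ (t + δ + (i:ℕ)))
    omega
  rcases hmem with ⟨ha, hb⟩ | ⟨ha, hb⟩
  · have hc := core_aux V τ hanti E δ h1 h2 t s s' i ha hb hmin
    exact hpow ((dvd_sub_right hdvd).1 hc)
  · have hc := core_aux V τ hanti E δ h1 h2 t s' s i ha hb (fun j hj => (hmin j hj).symm)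
    have hdvd' : ((2 : ℤ) ^ (t + δ + i + 1)) ∣ (Osum V τ E t s' : ℤ) - Osum V τ E t s := by
      rw [← neg_sub]
      exact (dvd_neg).2 hdvd
    exact hpow ((dvd_sub_right hdvd').1 hc)

lemma core_cst (V : ℕ) (τ : Fin V → Finset Z)
    (E : Finset Z → ℕ) (δ : ℕ) (h1 : ∀ i, E (τ i) = δ + i)
    (h2 : ∀ i T, T ⊂ τ i → δ + i < E T) (t : ℕ) (s s' : Finset (Fin V)) :
    Osum V τ E t s ≡ Osum V τ E t s' [MOD 2 ^ (t + δ)] := by
  classical
  apply Nat.ModEq.symm
  rw [Nat.modEq_iff_dvd]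
  unfold Osum
  push_cast
  rw [← Finset.sum_sub_distrib]
  apply Finset.dvd_sum
  intro T _
  by_cases hcase : ∃ j, T ⊆ τ j
  · obtain ⟨j, hj⟩ := hcase
    have hE : δ ≤ E T := by
      by_cases hTj : T = τ j
      · rw [hTj, h1]
        omega
      · have := h2 j T ⟨hj, fun h => hTj (Finset.Subset.antisymm hj h)⟩
        omega
    apply dvd_sub
    · apply pow_dvd_pow
      omega
    · apply pow_dvd_pow
      omega
  · push Not at hcase
    have e : ∀ s : Finset (Fin V), s.filter (fun j => T ⊆ τ j) = ∅ := by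
      intro s
      ext j
      simp only [Finset.mem_filter, Finset.notMem_empty, iff_false]
      rintro ⟨_, h⟩
      exact hcase j h
    rw [e, e, sub_self]
    exact dvd_zero _

end Core

end Pool.Agent.Helper949.CC
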