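import Pool.Agent.Helper949.CC3

namespace Pool.Agent.Helper949.CC

open Finset

section Gadget

variable {l h q w : ℕ} (α : Fin q → Finset (Fin h))

/-- the clique attached to an address -/
def tau (a : Fin l → Fin q) : Finset (Fin l × Fin h) :=
  univ.filter (fun z => z.2 ∈ α (a z.1))

/-- index type of the address base vertices -/
abbrev Ut (l q : ℕ) : Type := (i : Fin l) × (b : Fin q) × Fin (b * q ^ (i : ℕ))

/-- neighbourhoods of the address base vertices -/
def zU (u : Ut l q) : Finset (Fin l × Fin h) :=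
  univ.filter (fun z => z.1 ≠ u.1 ∨ z.2 ∈ α u.2.1)

/-- base count -/
def E0 (T : Finset (Fin l × Fin h)) : ℕ :=
  ((univ : Finset (Ut l q)).filter (fun u => T ⊆ zU α u)).card +
    ((univ : Finset (Fin l × Fin h)).filter (fun z => z ∉ T)).card

lemma tau_anti (hinj : Function.Injective α) (hw : ∀ b, (α b).card = w)
    (a b : Fin l → Fin q) (hab : tau α a ⊆ tau α b) : a = b := by
  funext i
  apply hinj
  apply Finset.eq_of_subset_of_card_le
  · intro x hx
    have : (i, x) ∈ tau α a := by simp [tau, hx]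
    have := hab this
    simpa [tau] using this
  · rw [hw, hw]

lemma card_Ut : 2 * Fintype.card (Ut l q) = q * (q ^ l - 1) := by
  have h1 : Fintype.card (Ut l q) = ∑ i : Fin l, ∑ b : Fin q, (b : ℕ) * q ^ (i : ℕ) := by
    simp [Fintype.card_sigma]
  rw [h1]
  have h2 : ∀ i : Fin l, ∑ b : Fin q, (b : ℕ) * q ^ (i : ℕ) = (∑ b ∈ range q, b) * q ^ (i:ℕ) := by
    intro i
    rw [← Finset.sum_mul, Fin.sum_univ_eq_sum_range (fun b => b) q]
  simp_rw [h2]
  rw [Finset.mul_sum]
  have h3 : ∀ i : Fin l, 2 * ((∑ b ∈ range q, b) * q ^ (i:ℕ)) = q * (q - 1) * q ^ (i : ℕ) := by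
    intro i
    rw [← Finset.sum_range_id_mul_two q]
    ring
  simp_rw [h3]
  rw [← Finset.mul_sum, Fin.sum_univ_eq_sum_range (fun i => q ^ i) l, mul_assoc]
  congr 1
  rcases Nat.eq_zero_or_pos q with h0 | h0
  · subst h0
    rcases Nat.eq_zero_or_pos l with h0 | h0
    · subst h0; simp
    · simp [Nat.pos_iff_ne_zero.1 h0]
  · obtain ⟨p, rfl⟩ := Nat.exists_eq_add_of_lt h0
    simp only [zero_add, Nat.add_sub_cancel]
    have key : ∀ l : ℕ, p * ∑ i ∈ range l, (p + 1) ^ i + 1 = (p + 1) ^ l := by
      intro l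
      induction l with
      | zero => simp
      | succ l ih =>
        rw [Finset.sum_range_succ, mul_add, pow_succ, ← ih]
        ring
    have := key l
    omega

lemma E0_tau (hinj : Function.Injective α) (hw : ∀ b, (α b).card = w) (a : Fin l → Fin q) :
    E0 α (tau α a) = l * (h - w) + ∑ i, (a i : ℕ) * q ^ (i : ℕ) := by
  have h1 : ∀ u : Ut l q, (tau α a ⊆ zU α u) ↔ a u.1 = u.2.1 := by
    rintro ⟨i, b, t⟩
    constructor
    · intro hs
      apply hinj
      apply Finset.eq_of_subset_of_card_le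
      · intro x hx
        have hx' : (i, x) ∈ tau α a := by simp [tau, hx]
        have := hs hx'
        simpa [zU] using this
      · rw [hw, hw]
    · intro hab z hz
      simp only [tau, Finset.mem_filter, Finset.mem_univ, true_and] at hz
      simp only [zU, Finset.mem_filter, Finset.mem_univ, true_and]
      by_cases hzi : z.1 = i
      · right
        simp only at hab
        rw [hzi, hab] at hz
        exact hz
      · left
        exact hzi
  unfold E0
  simp_rw [h1]
  rw [add_comm]
  congr 1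
  · rw [Finset.card_filter, Fintype.sum_prod_type]
    have : ∀ i : Fin l, ∑ x : Fin h, (if (i, x) ∉ tau α a then 1 else 0) = h - w := by
      intro i
      rw [← Finset.card_filter]
      have e : (univ.filter (fun x : Fin h => (i, x) ∉ tau α a)) = (α (a i))ᶜ := by
        ext x
        simp [tau]
      rw [e, Finset.card_compl, hw, Fintype.card_fin]
    rw [Finset.sum_congr rfl (fun i _ => this i)]
    simp
  · rw [Finset.card_filter, Fintype.sum_sigma]
    apply Finset.sum_congr rfl
    intro i _
    rw [Fintype.sum_sigma]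
    rw [Finset.sum_eq_single (a i)]
    · simp
    · intro b _ hb
      simp [Ne.symm hb]
    · simp

lemma E0_lt (a : Fin l → Fin q) (T : Finset (Fin l × Fin h)) (hT : T ⊂ tau α a) :
    E0 α (tau α a) < E0 α T := by
  unfold E0
  apply Nat.add_lt_add_of_le_of_lt
  · apply Finset.card_le_card
    intro u hu
    simp only [Finset.mem_filter, Finset.mem_univ, true_and] at hu ⊢
    exact hT.1.trans hu
  · apply Finset.card_lt_card
    rw [Finset.ssubset_iff_of_subset]
    · obtain ⟨z, hz, hz'⟩ := Finset.exists_of_ssubset hT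
      exact ⟨z, by simpa using hz', by simpa using hz⟩
    · intro z hz
      simp only [Finset.mem_filter, Finset.mem_univ, true_and] at hz ⊢
      exact fun h' => hz (hT.1 h')

/-- neighbourhoods in the address part of the full gadget -/
def zeta (f : ℕ) : Fin (q ^ l) ⊕ (Ut l q ⊕ ((Fin l × Fin h) ⊕ Fin f)) →
    Finset (Fin l × Fin h) :=
  Sum.elim (fun i => tau α (finFunctionFinEquiv.symm i))
    (Sum.elim (zU α) (Sum.elim (fun z => univ.erase z) (fun _ => univ)))

/-- neighbourhood of a `y` vertex in the full gadget -/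
def nbr (f t : ℕ) (s : Finset (Fin (q ^ l))) :
    Finset (Fin (q ^ l) ⊕ (Ut l q ⊕ ((Fin l × Fin h) ⊕ Fin f))) :=
  s.disjSum (univ.disjSum (univ.disjSum (univ.filter (fun k : Fin f => (k : ℕ) < t))))

lemma Om_eq (f t : ℕ) (ht : t ≤ f) (s : Finset (Fin (q ^ l))) :
    Om (zeta α f) (nbr f t s) =
      Osum (q ^ l) (fun i => tau α (finFunctionFinEquiv.symm i)) (E0 α) t s := by
  classical
  unfold Om Osum
  apply Finset.sum_congr rfl
  intro T _
  congr 1
  rw [Finset.card_filter]
  unfold nbr
  rw [Finset.sum_disjSum, Finset.sum_disjSum, Finset.sum_disjSum]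
  unfold E0
  rw [Finset.card_filter, Finset.card_filter, Finset.card_filter, add_assoc, add_assoc]
  refine congrArg₂ (· + ·) ?_ (congrArg₂ (· + ·) ?_ (congrArg₂ (· + ·) ?_ ?_))
  · apply Finset.sum_congr rfl
    intro z _
    simp only [zeta, Sum.elim_inl]
    congr
  · apply Finset.sum_congr rfl
    intro z _
    simp only [zeta, Sum.elim_inl, Sum.elim_inr]
    congr
  · apply Finset.sum_congr rfl
    intro z _
    have e1 : (T ⊆ zeta α f (Sum.inr (Sum.inr (Sum.inl z)))) ↔ z ∉ T := by
      simp only [zeta, Sum.elim_inr, Sum.elim_inl]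
      rw [Finset.subset_erase]
      simp
    simp only [e1]
  · have : ∀ k : Fin f, (T ⊆ zeta α f (Sum.inr (Sum.inr (Sum.inr k)))) := by
      intro k
      simp [zeta]
    simp only [this, if_true, Finset.sum_const, smul_eq_mul, mul_one]
    rw [Fin.card_filter_val_lt]
    omega

lemma window_step (hinj : Function.Injective α) (hw : ∀ b, (α b).card = w) {r P m : ℕ}
    (hm : 0 < m) (hP : l * (h - w) ≤ P)
    (hr : P + m * q ^ l + Fintype.card (Ut l q) + l * h ≤ r) :
    ∃ (Y : ℕ → Finset ℕ) (c : ℕ), (∀ j < m, Cst (Y j) (P + j * q ^ l) ∧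
      Dist (Y j) (P + (j + 1) * q ^ l) ∧ (Y j).card = 2 ^ (q ^ l) ∧
      P + j * q ^ l ≤ P + (j + 1) * q ^ l) ∧
      ∀ y : Fin m → ℕ, (∀ j : Fin m, y j ∈ Y j) → c + ∑ j, y j ∈ VS r (m + l * h) := by
  classical
  have hqm : q ^ l ≤ m * q ^ l := Nat.le_mul_of_pos_left _ hm
  obtain ⟨f, hf⟩ : ∃ f, r = q ^ l + (Fintype.card (Ut l q) + (l * h + f)) :=
    ⟨r - (q ^ l + (Fintype.card (Ut l q) + l * h)), by omega⟩
  have hmq : (m - 1) * q ^ l + q ^ l = m * q ^ l := by
    rw [← Nat.succ_mul]
    congr 1
    omega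
  have hcard : Fintype.card (Fin (q ^ l) ⊕ (Ut l q ⊕ ((Fin l × Fin h) ⊕ Fin f))) = r := by
    rw [Fintype.card_sum, Fintype.card_sum, Fintype.card_sum, Fintype.card_fin,
      Fintype.card_prod, Fintype.card_fin, Fintype.card_fin, Fintype.card_fin, hf]
  set τ : Fin (q ^ l) → Finset (Fin l × Fin h) :=
    fun i => tau α (finFunctionFinEquiv.symm i) with hτ
  have hanti : ∀ i j, τ i ⊆ τ j → i = j := by
    intro i j hij
    have := tau_anti α hinj hw _ _ hij
    exact finFunctionFinEquiv.symm.injective this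
  have h1 : ∀ i, E0 α (τ i) = l * (h - w) + i := by
    intro i
    rw [hτ]
    simp only
    rw [E0_tau α hinj hw]
    congr 1
    rw [← finFunctionFinEquiv_apply, Equiv.apply_symm_apply]
  have h2 : ∀ i T, T ⊂ τ i → l * (h - w) + i < E0 α T := by
    intro i T hT
    rw [← h1 i]
    exact E0_lt α _ T hT
  let t : ℕ → ℕ := fun j => P + j * q ^ l - l * (h - w)
  have ht : ∀ j, t j + l * (h - w) = P + j * q ^ l := by
    intro j
    simp only [t]
    omega
  have htf : ∀ j < m, t j ≤ f := by
    intro j hj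
    simp only [t]
    have : j * q ^ l ≤ (m - 1) * q ^ l := Nat.mul_le_mul_right _ (by omega)
    omega
  refine ⟨fun j => univ.image (fun s => Osum (q ^ l) τ (E0 α) (t j) s), cst (zeta (l := l) α f), ?_, ?_⟩
  · intro j hj
    refine ⟨?_, ?_, ?_, ?_⟩
    · intro x hx y hy
      simp only [Finset.mem_image, Finset.mem_univ, true_and] at hx hy
      obtain ⟨s, rfl⟩ := hx
      obtain ⟨s', rfl⟩ := hy
      rw [← ht]
      exact core_cst (q ^ l) τ (E0 α) (l * (h - w)) h1 h2 (t j) s s'
    · intro x hx y hy hxy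
      simp only [Finset.mem_image, Finset.mem_univ, true_and] at hx hy
      obtain ⟨s, rfl⟩ := hx
      obtain ⟨s', rfl⟩ := hy
      rw [show P + (j + 1) * q ^ l = t j + l * (h - w) + q ^ l by rw [ht]; ring] at hxy
      rw [core_inj (q ^ l) τ hanti (E0 α) (l * (h - w)) h1 h2 (t j) s s' hxy]
    · rw [Finset.card_image_of_injective, Finset.card_univ, Fintype.card_finset, Fintype.card_fin]
      intro s s' hss
      simp only at hss
      apply core_inj (q ^ l) τ hanti (E0 α) (l * (h - w)) h1 h2 (t j) s s'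
      rw [hss]
    · rw [add_mul]
      omega
  · intro y hy
    have hy' : ∀ j : Fin m, ∃ s, Osum (q ^ l) τ (E0 α) (t j) s = y j := by
      intro j
      have := hy j
      simpa using this
    choose s hs using hy'
    have hv := VS_window m (zeta α f) (fun j => nbr f (t j) (s j))
    rw [hcard, Fintype.card_prod, Fintype.card_fin, Fintype.card_fin] at hv
    have e : ∑ j : Fin m, Om (zeta α f) (nbr f (t j) (s j)) = ∑ j, y j := by
      apply Finset.sum_congr rfl
      intro j _
      rw [Om_eq α f (t j) (htf j j.isLt), hs]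
    rw [e] at hv
    exact hv

end Gadget

end Pool.Agent.Helper949.CC
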