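import Pool.Agent.Helper949.CC4

namespace Pool.Agent.Helper949.CC

open Finset

/-- `2^N` values, pairwise distinct mod `2^P`, realised with `r` clique vertices and `K` others -/
def Ach (r K P N : ℕ) : Prop :=
  ∃ X : Finset ℕ, (∀ x ∈ X, x ∈ VS r K) ∧ Dist X P ∧ X.card = 2 ^ N

lemma Ach_init (r P : ℕ) : Ach r 0 P 0 := by
  refine ⟨{0}, ?_, ?_, by simp⟩
  · intro x hx
    rw [Finset.mem_singleton] at hx
    subst hx
    exact VS_zero r
  · intro x hx y hy _
    rw [Finset.mem_singleton] at hx hy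
    rw [hx, hy]

lemma Ach_pad {r K P N : ℕ} (hA : Ach r K P N) (j : ℕ) : Ach r (K + j) P N := by
  obtain ⟨X, h1, h2, h3⟩ := hA
  refine ⟨X.image (fun x => x + j), ?_, ?_, ?_⟩
  · intro x hx
    obtain ⟨y, hy, rfl⟩ := Finset.mem_image.1 hx
    exact VS_pad (h1 y hy) j
  · intro x hx y hy hxy
    obtain ⟨a, ha, rfl⟩ := Finset.mem_image.1 hx
    obtain ⟨b, hb, rfl⟩ := Finset.mem_image.1 hy
    rw [h2 a ha b hb (Nat.ModEq.add_right_cancel' j hxy)]
  · rw [Finset.card_image_of_injective _ (add_left_injective j), h3]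

lemma Ach_step {l h q w : ℕ} (α : Fin q → Finset (Fin h)) (hinj : Function.Injective α)
    (hw : ∀ b, (α b).card = w) {r K P N m : ℕ} (hA : Ach r K P N)
    (hm : 0 < m) (hP : l * (h - w) ≤ P)
    (hr : P + m * q ^ l + Fintype.card (Ut l q) + l * h ≤ r) :
    Ach r (K + (m + l * h)) (P + m * q ^ l) (N + m * q ^ l) := by
  obtain ⟨X, h1, h2, h3⟩ := hA
  obtain ⟨Y, c, hY, hV⟩ := window_step α hinj hw hm hP hr
  have hX1 : Dist (X.image (fun x => x + c)) ((fun j => P + j * q ^ l) 0) := by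
    intro x hx y hy hxy
    obtain ⟨a, ha, rfl⟩ := Finset.mem_image.1 hx
    obtain ⟨b, hb, rfl⟩ := Finset.mem_image.1 hy
    simp only [zero_mul, add_zero] at hxy
    rw [h2 a ha b hb (Nat.ModEq.add_right_cancel' c hxy)]
  obtain ⟨X', k1, k2, k3⟩ := iterate Y (fun j => P + j * q ^ l) (q ^ l)
    (X.image (fun x => x + c)) hX1 m hY
  refine ⟨X', ?_, k1, ?_⟩
  · intro x hx
    obtain ⟨x0, hx0, y, hy, rfl⟩ := k3 x hx
    obtain ⟨a, ha, rfl⟩ := Finset.mem_image.1 hx0
    rw [add_assoc]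
    exact VS_add (h1 a ha) (hV y hy)
  · rw [k2, Finset.card_image_of_injective _ (add_left_injective c), h3, ← pow_add]

lemma possibleCounts_finite (n : ℕ) : (possibleCounts n).Finite := by
  have : possibleCounts n = Set.range (fun G : SimpleGraph (Fin n) => completeCount G) := rfl
  rw [this]
  exact Set.finite_range _

lemma Ach_final {r K P N : ℕ} (hA : Ach r K P N) : 2 ^ N ≤ numCounts (r + K) := by
  obtain ⟨X, h1, h2, h3⟩ := hA
  unfold numCounts
  rw [← h3]
  have hinj : Set.InjOn (fun x : ℕ => 2 ^ r + x - 1) X := by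
    intro x _ y _ hxy
    have : 0 < 2 ^ r := by positivity
    simp only at hxy
    omega
  rw [← Finset.card_image_of_injOn hinj, ← Set.ncard_coe_finset]
  apply Set.ncard_le_ncard _ (possibleCounts_finite _)
  intro z hz
  rw [Finset.mem_coe, Finset.mem_image] at hz
  obtain ⟨x, hx, rfl⟩ := hz
  exact VS_possible (h1 x hx)

lemma mul_le_pow_aux {h q l : ℕ} (hq : 2 ≤ q) (hh : h ≤ q) (hl : 1 ≤ l) : l * h ≤ q ^ l := by
  obtain ⟨k, rfl⟩ := Nat.exists_eq_add_of_le hl
  have h1 : 1 + k ≤ q ^ k := by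
    have : k < q ^ k := Nat.lt_pow_self (by omega)
    omega
  calc (1 + k) * h ≤ q ^ k * q := Nat.mul_le_mul h1 hh
    _ = q ^ (1 + k) := by rw [add_comm, pow_succ]

lemma window_total {h q l : ℕ} (hq : 4 ≤ q) (hh : h ≤ q) (hl : 1 ≤ l) :
    q ^ l + Fintype.card (Ut l q) + l * h ≤ q ^ (l + 1) := by
  have h1 := card_Ut (l := l) (q := q)
  have h2 := mul_le_pow_aux (h := h) (q := q) (l := l) (by omega) hh hl
  have h3 : q * (q ^ l - 1) ≤ q ^ (l + 1) := by
    rw [pow_succ, mul_comm]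
    exact Nat.mul_le_mul_right _ (Nat.sub_le _ _)
  have h4 : 4 * q ^ l ≤ q ^ (l + 1) := by
    rw [pow_succ, mul_comm]
    exact Nat.mul_le_mul_left _ hq
  omega

lemma run {h q w : ℕ} (α : Fin q → Finset (Fin h)) (hinj : Function.Injective α)
    (hw : ∀ b, (α b).card = w) (hq : 4 ≤ q) (hh : h ≤ q) (s0 : ℕ) (hs0 : 1 ≤ s0) :
    ∀ x r K P N : ℕ, Ach r K P N → h * x ≤ P → P ≤ r → r ≤ P + q ^ x →
      ∃ K' P' : ℕ, Ach r K' P' (N + (P' - P)) ∧ P ≤ P' ∧ P' ≤ r ∧ r ≤ P' + q ^ (s0 + 1) ∧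
        K ≤ K' ∧ 2 * s0 * (K' - K) ≤ 2 * x * q ^ (s0 + 1) + h * x ^ 2 := by
  intro x
  induction x using Nat.strong_induction_on with
  | _ x ih =>
  intro r K P N hA hP hPr hrx
  by_cases hx : x ≤ s0 + 1
  · refine ⟨K, P, by simpa using hA, le_refl _, hPr, ?_, le_refl _, by simp⟩
    have : q ^ x ≤ q ^ (s0 + 1) := Nat.pow_le_pow_right (by omega) hx
    omega
  · push Not at hx
    obtain ⟨l, hl1, hxl⟩ : ∃ l, 1 ≤ l ∧ x = l + 1 + s0 := ⟨x - 1 - s0, by omega, by omega⟩
    have hxm : h * (l + 1) ≤ P := le_trans (Nat.mul_le_mul_left _ (by omega)) hP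
    have hlt : l + 1 < x := by omega
    have hmono : 2 * (l + 1) * q ^ (s0 + 1) + h * (l + 1) ^ 2 ≤
        2 * x * q ^ (s0 + 1) + h * x ^ 2 := by
      apply Nat.add_le_add
      · apply Nat.mul_le_mul_right
        omega
      · apply Nat.mul_le_mul_left
        exact Nat.pow_le_pow_left (by omega) 2
    by_cases hr : r ≤ P + q ^ (l + 1)
    · obtain ⟨K', P', g1, g2, g3, g4, g5, g6⟩ := ih (l + 1) hlt r K P N hA hxm hPr hr
      exact ⟨K', P', g1, g2, g3, g4, g5, g6.trans hmono⟩
    · push Not at hr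
      have ht := window_total (h := h) hq hh hl1
      set V := q ^ l with hV
      have hVpos : 0 < V := by rw [hV]; positivity
      set U := Fintype.card (Ut l q) with hU
      obtain ⟨m, hm⟩ : ∃ m, m = (r - P - U - l * h) / V := ⟨_, rfl⟩
      have hm1 : m * V ≤ r - P - U - l * h := by
        rw [hm]
        exact Nat.div_mul_le_self _ _
      have hm2 : r - P - U - l * h < (m + 1) * V := by
        rw [hm, mul_comm (_ + 1) V]
        exact Nat.lt_mul_div_succ _ hVpos
      have hmpos : 0 < m := by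
        rw [hm]
        apply Nat.div_pos _ hVpos
        omega
      have hstep := Ach_step (l := l) α hinj hw hA hmpos
        (P := P) (by
          have : l * (h - w) ≤ h * (l + 1) := by
            calc l * (h - w) ≤ l * h := Nat.mul_le_mul_left _ (Nat.sub_le _ _)
              _ = h * l := mul_comm _ _
              _ ≤ h * (l + 1) := Nat.mul_le_mul_left _ (by omega)
          omega) (r := r) (by
          show P + m * V + U + l * h ≤ r
          omega)
      rw [← hV] at hstep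
      have hm3 : (m + 1) * V = m * V + V := by ring
      obtain ⟨K', P', g1, g2, g3, g4, g5, g6⟩ := ih (l + 1) hlt r (K + (m + l * h))
        (P + m * V) (N + m * V) hstep (by omega) (by omega) (by omega)
      refine ⟨K', P', ?_, by omega, g3, g4, by omega, ?_⟩
      · have e : N + m * V + (P' - (P + m * V)) = N + (P' - P) := by omega
        rw [e] at g1
        exact g1
      · have hmq : m ≤ q ^ (s0 + 1) := by
          have h1 : m * V ≤ q ^ x := by omega
          have h2 : q ^ x = q ^ (s0 + 1) * V := by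
            rw [hV, ← pow_add, hxl]
            congr 1
            ring
          rw [h2] at h1
          exact Nat.le_of_mul_le_mul_right h1 hVpos
        have e1 : K' - K = (K' - (K + (m + l * h))) + (m + l * h) := by omega
        rw [e1, mul_add]
        have h5 : 2 * s0 * (m + l * h) ≤ 2 * s0 * q ^ (s0 + 1) + 2 * s0 * (l * h) := by
          rw [mul_add]
          exact Nat.add_le_add_right (Nat.mul_le_mul_left _ hmq) _
        calc 2 * s0 * (K' - (K + (m + l * h))) + 2 * s0 * (m + l * h)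
            ≤ (2 * (l + 1) * q ^ (s0 + 1) + h * (l + 1) ^ 2) +
              (2 * s0 * q ^ (s0 + 1) + 2 * s0 * (l * h)) := Nat.add_le_add g6 h5
          _ = 2 * (l + 1 + s0) * q ^ (s0 + 1) + h * ((l + 1) ^ 2 + 2 * s0 * l) := by ring
          _ ≤ 2 * x * q ^ (s0 + 1) + h * x ^ 2 := by
            rw [hxl]
            apply Nat.add_le_add_left
            apply Nat.mul_le_mul_left
            nlinarith

lemma lower_nat {h q w : ℕ} (α : Fin q → Finset (Fin h)) (hinj : Function.Injective α)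
    (hw : ∀ b, (α b).card = w) (hq : 4 ≤ q) (hh : h ≤ q) (s0 : ℕ) (hs0 : 1 ≤ s0)
    {n x B : ℕ} (hn : n ≤ q ^ x) (hB : 2 * x * q ^ (s0 + 1) + h * x ^ 2 ≤ 2 * s0 * B)
    (hBn : B + h * x ≤ n) :
    2 ^ (n - B - h * x - q ^ (s0 + 1)) ≤ numCounts n := by
  obtain ⟨K', P', g1, g2, g3, g4, g5, g6⟩ := run α hinj hw hq hh s0 hs0 x (n - B) 0 (h * x) 0
    (Ach_init _ _) (le_refl _) (by omega) (by omega)
  have hK : K' ≤ B := by
    have : 2 * s0 * K' ≤ 2 * s0 * B := by
      rw [Nat.sub_zero] at g6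
      exact g6.trans hB
    exact Nat.le_of_mul_le_mul_left this (by omega)
  have h1 := Ach_final (Ach_pad g1 (B - K'))
  have e : n - B + (K' + (B - K')) = n := by omega
  rw [e] at h1
  refine le_trans ?_ h1
  apply Nat.pow_le_pow_right (by norm_num)
  omega

end Pool.Agent.Helper949.CC
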