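import Pool.Agent.Helper949.CC5

namespace Pool.Agent.Helper949.CC

open Finset

section Matching

variable {V : Type} [Fintype V]

open Classical in
/-- number of cliques contained in `S` -/
noncomputable def cl (G : SimpleGraph V) (S : Finset V) : ℕ :=
  (S.powerset.filter (fun T : Finset V => G.IsClique (T : Set V))).card

lemma cl_le (G : SimpleGraph V) (S : Finset V) : cl G S ≤ 2 ^ S.card := by
  classical
  unfold cl
  exact (Finset.card_filter_le _ _).trans (by rw [Finset.card_powerset])

lemma cl_univ (G : SimpleGraph V) : cl G univ = allCount G := by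
  classical
  unfold cl allCount
  apply congrArg Finset.card
  ext T
  simp

open Classical in
lemma cl_step (G : SimpleGraph V) (S : Finset V) (u v : V) (hu : u ∈ S) (hv : v ∈ S)
    (huv : u ≠ v) (hadj : ¬ G.Adj u v) : cl G S ≤ 3 * cl G ((S.erase u).erase v) := by
  set S' := (S.erase u).erase v with hS'
  have h1 : ∀ a : V, (a = u ∨ a = v) →
      ((S.powerset.filter (fun T : Finset V => G.IsClique (T : Set V))).filter
        (fun T => a ∈ T)).card ≤ cl G S' := by
    intro a ha
    unfold cl
    apply Finset.card_le_card_of_injOn (fun T => T.erase a)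
    · intro T hT
      simp only [Finset.coe_filter, Finset.mem_filter, Finset.mem_powerset,
        Set.mem_ofPred_eq] at hT ⊢
      obtain ⟨⟨hTS, hTc⟩, haT⟩ := hT
      refine ⟨?_, ?_⟩
      · intro x hx
        rw [Finset.mem_erase] at hx
        rw [hS', Finset.mem_erase, Finset.mem_erase]
        rcases ha with rfl | rfl
        · refine ⟨?_, hx.1, hTS hx.2⟩
          rintro rfl
          exact hadj (hTc (Finset.mem_coe.2 haT) (Finset.mem_coe.2 hx.2) huv)
        · refine ⟨hx.1, ?_, hTS hx.2⟩
          rintro rfl
          exact hadj (hTc (Finset.mem_coe.2 hx.2) (Finset.mem_coe.2 haT) huv)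
      · exact hTc.subset (by
          intro x hx
          rw [Finset.mem_coe, Finset.mem_erase] at hx
          exact hx.2)
    · intro T hT T' hT' heq
      simp only [Finset.coe_filter, Finset.mem_filter, Finset.mem_powerset,
        Set.mem_ofPred_eq] at hT hT'
      simp only at heq
      rw [← Finset.insert_erase hT.2, ← Finset.insert_erase hT'.2, heq]
  have h2 : S.powerset.filter (fun T : Finset V => G.IsClique (T : Set V)) ⊆
      (S'.powerset.filter (fun T : Finset V => G.IsClique (T : Set V))) ∪
      ((S.powerset.filter (fun T : Finset V => G.IsClique (T : Set V))).filter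
        (fun T => u ∈ T)) ∪
      ((S.powerset.filter (fun T : Finset V => G.IsClique (T : Set V))).filter
        (fun T => v ∈ T)) := by
    intro T hT
    rw [Finset.mem_union, Finset.mem_union, Finset.mem_filter (p := fun T => u ∈ T),
      Finset.mem_filter (p := fun T => v ∈ T)]
    by_cases h1 : u ∈ T
    · exact Or.inl (Or.inr ⟨hT, h1⟩)
    · by_cases h2 : v ∈ T
      · exact Or.inr ⟨hT, h2⟩
      · left; left
        rw [Finset.mem_filter, Finset.mem_powerset] at hT ⊢
        refine ⟨?_, hT.2⟩
        intro x hx
        rw [hS', Finset.mem_erase, Finset.mem_erase]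
        exact ⟨fun h => h2 (h ▸ hx), fun h => h1 (h ▸ hx), hT.1 hx⟩
  have h3 := Finset.card_le_card h2
  have h4 := (h3.trans (Finset.card_union_le _ _)).trans
    (Nat.add_le_add_right (Finset.card_union_le _ _) _)
  have h5 := h1 u (Or.inl rfl)
  have h6 := h1 v (Or.inr rfl)
  have h7 : cl G S = (S.powerset.filter (fun T : Finset V => G.IsClique (T : Set V))).card := rfl
  have h8 : cl G S' = (S'.powerset.filter (fun T : Finset V => G.IsClique (T : Set V))).card := rfl
  rw [h7]
  omega

open Classical in
lemma exists_cover (G : SimpleGraph V) : ∀ (N : ℕ) (S : Finset V), S.card = N →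
    ∃ (W : Finset V) (ν : ℕ), W ⊆ S ∧ W.card = 2 * ν ∧
      G.IsClique ((S \ W : Finset V) : Set V) ∧ 4 ^ ν * cl G S ≤ 3 ^ ν * 2 ^ S.card := by
  intro N
  induction N using Nat.strong_induction_on with
  | _ N ih =>
  intro S hS
  by_cases hc : G.IsClique (S : Set V)
  · refine ⟨∅, 0, by simp, by simp, by simpa using hc, ?_⟩
    simpa using cl_le G S
  · unfold SimpleGraph.IsClique at hc
    rw [Set.Pairwise] at hc
    push Not at hc
    obtain ⟨u, hu, v, hv, huv, hadj⟩ := hc
    rw [Finset.mem_coe] at hu hv
    have hvu : v ∈ S.erase u := Finset.mem_erase.2 ⟨huv.symm, hv⟩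
    have hcard : ((S.erase u).erase v).card + 2 = S.card := by
      have h1 := Finset.card_erase_add_one hvu
      have h2 := Finset.card_erase_add_one hu
      omega
    obtain ⟨W, ν, h1, h2, h3, h4⟩ := ih ((S.erase u).erase v).card (by omega) _ rfl
    have huW : u ∉ W := fun h => by
      have := h1 h
      simp at this
    have hvW : v ∉ insert u W := fun h => by
      rw [Finset.mem_insert] at h
      rcases h with h | h
      · exact huv h.symm
      · have := h1 h
        simp at this
    refine ⟨insert v (insert u W), ν + 1, ?_, ?_, ?_, ?_⟩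
    · intro x hx
      rw [Finset.mem_insert, Finset.mem_insert] at hx
      rcases hx with rfl | rfl | hx
      · exact hv
      · exact hu
      · have := h1 hx
        rw [Finset.mem_erase, Finset.mem_erase] at this
        exact this.2.2
    · rw [Finset.card_insert_of_notMem hvW, Finset.card_insert_of_notMem huW, h2]
      ring
    · have : S \ (insert v (insert u W)) = ((S.erase u).erase v) \ W := by
        ext x
        simp only [Finset.mem_sdiff, Finset.mem_insert, Finset.mem_erase]
        tauto
      rw [this]
      exact h3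
    · have h5 := cl_step G S u v hu hv huv hadj
      calc 4 ^ (ν + 1) * cl G S ≤ 4 ^ (ν + 1) * (3 * cl G ((S.erase u).erase v)) :=
            Nat.mul_le_mul_left _ h5
        _ = 12 * (4 ^ ν * cl G ((S.erase u).erase v)) := by ring
        _ ≤ 12 * (3 ^ ν * 2 ^ ((S.erase u).erase v).card) := Nat.mul_le_mul_left _ h4
        _ = 3 ^ (ν + 1) * 2 ^ S.card := by
          rw [← hcard]
          ring

end Matching

/-- number of `v` missing `x` -/
def dg {r c : ℕ} (A : Fin r → Finset (Fin c)) (x : Fin c) : ℕ :=
  ((univ : Finset (Fin r)).filter (fun v => x ∉ A v)).card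

open Classical in
lemma exists_repr {n c : ℕ} (G : SimpleGraph (Fin n)) (W : Finset (Fin n)) (hc : W.card = c)
    (hW : ∀ x ∉ W, ∀ y ∉ W, x ≠ y → G.Adj x y) :
    ∃ (K : SimpleGraph (Fin c)) (A : Fin (n - c) → Finset (Fin c)),
      Antitone (dg A) ∧ val K A = allCount G := by
  subst hc
  -- equivalences
  have hc2 : Fintype.card {x // x ∉ W} = n - W.card := by
    rw [Fintype.card_subtype_compl, Fintype.card_fin]
    congr 1
    simp
  let e2 : Fin (n - W.card) ≃ {x // x ∉ W} := (Fintype.equivFinOfCardEq hc2).symm
  have hc1 : Fintype.card {x // x ∈ W} = W.card := by simp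
  let e1 : Fin W.card ≃ {x // x ∈ W} := (Fintype.equivFinOfCardEq hc1).symm
  let d' : Fin W.card → ℕ := fun x =>
    ((univ : Finset (Fin (n - W.card))).filter (fun v => ¬ G.Adj (e2 v) (e1 x))).card
  let σ : Equiv.Perm (Fin W.card) := Tuple.sort (fun x => OrderDual.toDual (d' x))
  have hσ : Monotone ((fun x => OrderDual.toDual (d' x)) ∘ σ) := Tuple.monotone_sort _
  let e : Fin (n - W.card) ⊕ Fin W.card ≃ Fin n :=
    ((Equiv.sumCongr e2 (σ.trans e1)).trans (Equiv.sumComm _ _)).trans
      (Equiv.sumCompl (fun x => x ∈ W))
  have he1 : ∀ x, e (Sum.inr x) = (e1 (σ x) : Fin n) := by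
    intro x
    simp [e]
  have he2 : ∀ v, e (Sum.inl v) = (e2 v : Fin n) := by
    intro x
    simp [e]
  refine ⟨G.comap (fun x => e (Sum.inr x)),
    fun v => univ.filter (fun x => G.Adj (e (Sum.inl v)) (e (Sum.inr x))), ?_, ?_⟩
  · intro x y hxy
    have h1 := hσ hxy
    have h2 : d' (σ y) ≤ d' (σ x) := h1
    have h3 : ∀ x, dg (fun v => univ.filter (fun x => G.Adj (e (Sum.inl v)) (e (Sum.inr x)))) x =
        d' (σ x) := by
      intro x
      unfold dg
      simp only [d']
      apply congrArg Finset.card
      ext v
      simp only [Finset.mem_filter, Finset.mem_univ, true_and, he1, he2]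
    rw [h3, h3]
    exact h2
  · rw [← allCount_joinG, ← allCount_comap e G]
    congr 1
    ext a b
    rcases a with a | a <;> rcases b with b | b
    · show a ≠ b ↔ G.Adj (e (Sum.inl a)) (e (Sum.inl b))
      constructor
      · intro hab
        apply hW
        · rw [he2]
          exact (e2 a).2
        · rw [he2]
          exact (e2 b).2
        · intro h
          exact hab (Sum.inl_injective (e.injective h))
      · rintro h rfl
        exact G.loopless.irrefl _ h
    · show b ∈ _ ↔ G.Adj (e (Sum.inl a)) (e (Sum.inr b))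
      simp
    · show a ∈ _ ↔ G.Adj (e (Sum.inr a)) (e (Sum.inl b))
      simp [G.adj_comm]
    · rfl

end Pool.Agent.Helper949.CC
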