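import Pool.Agent.Helper949.CC6

namespace Pool.Agent.Helper949.CC

open Finset

lemma val_unfold {R C : Type} [Fintype R] [Fintype C] [DecidableEq C] (K : SimpleGraph C)
    [DecidablePred (fun T : Finset C => K.IsClique (T : Set C))] (A : R → Finset C) :
    val K A = ∑ T ∈ (univ : Finset (Finset C)).filter (fun T : Finset C => K.IsClique (T : Set C)),
      2 ^ ((univ : Finset R).filter (fun v => T ⊆ A v)).card := by
  unfold val
  apply Finset.sum_congr
  · ext T
    simp
  · intro T _
    congr 2
    ext v
    simp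

section Count

variable {c r : ℕ}

/-- indices at least `q` -/
def Iq (c q : ℕ) : Finset (Fin c) := univ.filter (fun x => q ≤ (x : ℕ))

open Classical in
/-- the truncated count as a function of the type multiplicities -/
noncomputable def Phi (K : SimpleGraph (Fin c)) (q : ℕ) (nf : Finset (Fin c) → ℕ) : ℕ :=
  ∑ T ∈ (univ : Finset (Finset (Fin c))).filter
      (fun T : Finset (Fin c) => K.IsClique (T : Set (Fin c)) ∧ T ⊆ Iq c q),
    2 ^ (∑ B ∈ (univ : Finset (Finset (Fin c))).filter (fun B => Disjoint B T), nf B)

/-- type multiplicities -/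
def nfun (A : Fin r → Finset (Fin c)) (q : ℕ) (B : Finset (Fin c)) : ℕ :=
  ((univ : Finset (Fin r)).filter (fun v => Iq c q \ A v = B)).card

lemma nfun_sum (A : Fin r → Finset (Fin c)) (q : ℕ) (T : Finset (Fin c)) (hT : T ⊆ Iq c q) :
    ((univ : Finset (Fin r)).filter (fun v => T ⊆ A v)).card =
      ∑ B ∈ (univ : Finset (Finset (Fin c))).filter (fun B => Disjoint B T), nfun A q B := by
  rw [Finset.card_eq_sum_card_fiberwise (f := fun v => Iq c q \ A v)
    (t := (univ : Finset (Finset (Fin c))).filter (fun B => Disjoint B T))]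
  · apply Finset.sum_congr rfl
    intro B hB
    simp only [Finset.mem_filter, Finset.mem_univ, true_and] at hB
    unfold nfun
    apply congrArg Finset.card
    ext v
    simp only [Finset.mem_filter, Finset.mem_univ, true_and]
    constructor
    · rintro ⟨_, h⟩
      exact h
    · intro h
      refine ⟨?_, h⟩
      intro x hx
      by_contra hxA
      have : x ∈ B := by
        rw [← h, Finset.mem_sdiff]
        exact ⟨hT hx, hxA⟩
      exact (Finset.disjoint_left.1 hB this) hx
  · intro v hv
    simp only [Finset.coe_filter, Finset.mem_univ, true_and, Set.mem_ofPred_eq] at hv ⊢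
    rw [Finset.disjoint_left]
    intro x hx hxT
    rw [Finset.mem_sdiff] at hx
    exact hx.2 (hv hxT)

lemma val_trunc (K : SimpleGraph (Fin c)) (A : Fin r → Finset (Fin c)) (q D : ℕ)
    (hD : ∀ x : Fin c, (x : ℕ) < q → D ≤ dg A x) :
    ∃ err ≤ 2 ^ (c + r - D), val K A = Phi K q (nfun A q) + err := by
  classical
  refine ⟨∑ T ∈ ((univ : Finset (Finset (Fin c))).filter
      (fun T : Finset (Fin c) => K.IsClique (T : Set (Fin c)))).filter (fun T => ¬ T ⊆ Iq c q),
      2 ^ ((univ : Finset (Fin r)).filter (fun v => T ⊆ A v)).card, ?_, ?_⟩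
  · have hterm : ∀ T ∈ ((univ : Finset (Finset (Fin c))).filter
      (fun T : Finset (Fin c) => K.IsClique (T : Set (Fin c)))).filter (fun T => ¬ T ⊆ Iq c q),
      (2 ^ ((univ : Finset (Fin r)).filter (fun v => T ⊆ A v)).card : ℕ) * 2 ^ c ≤
        2 ^ (c + r - D) := by
      intro T hT
      rw [Finset.mem_filter] at hT
      obtain ⟨_, hT⟩ := hT
      rw [Finset.subset_iff] at hT
      push Not at hT
      obtain ⟨x, hxT, hx⟩ := hT
      have hxq : (x : ℕ) < q := by
        by_contra h
        apply hx
        simp only [Iq, Finset.mem_filter, Finset.mem_univ, true_and]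
        omega
      have h1 := hD x hxq
      have h2 : dg A x + ((univ : Finset (Fin r)).filter (fun v => x ∈ A v)).card = r := by
        unfold dg
        rw [add_comm, Finset.card_filter_add_card_filter_not, Finset.card_univ, Fintype.card_fin]
      have h3 : ((univ : Finset (Fin r)).filter (fun v => T ⊆ A v)).card ≤
          ((univ : Finset (Fin r)).filter (fun v => x ∈ A v)).card := by
        apply Finset.card_le_card
        intro v hv
        simp only [Finset.mem_filter, Finset.mem_univ, true_and] at hv ⊢
        exact hv hxT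
      rw [← pow_add]
      apply Nat.pow_le_pow_right (by norm_num)
      omega
    set 𝒯 := ((univ : Finset (Finset (Fin c))).filter
      (fun T : Finset (Fin c) => K.IsClique (T : Set (Fin c)))).filter (fun T => ¬ T ⊆ Iq c q)
    have hcard : 𝒯.card ≤ 2 ^ c := by
      calc 𝒯.card ≤ (univ : Finset (Finset (Fin c))).card := Finset.card_le_univ _
        _ = 2 ^ c := by simp
    have h5 : (∑ T ∈ 𝒯, 2 ^ ((univ : Finset (Fin r)).filter (fun v => T ⊆ A v)).card) * 2 ^ c ≤
        𝒯.card * 2 ^ (c + r - D) := by
      rw [Finset.sum_mul, ← smul_eq_mul (a := 𝒯.card)]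
      exact Finset.sum_le_card_nsmul _ _ _ hterm
    have h6 : (∑ T ∈ 𝒯, 2 ^ ((univ : Finset (Fin r)).filter (fun v => T ⊆ A v)).card) * 2 ^ c ≤
        2 ^ (c + r - D) * 2 ^ c := by
      calc _ ≤ 𝒯.card * 2 ^ (c + r - D) := h5
        _ ≤ 2 ^ c * 2 ^ (c + r - D) := Nat.mul_le_mul_right _ hcard
        _ = _ := mul_comm _ _
    exact Nat.le_of_mul_le_mul_right h6 (by positivity)
  · rw [val_unfold]
    unfold Phi
    rw [← Finset.sum_filter_add_sum_filter_not _ (fun T : Finset (Fin c) => T ⊆ Iq c q)]
    refine congrArg₂ (· + ·) ?_ rfl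
    rw [Finset.filter_filter]
    apply Finset.sum_congr
    · ext T
      simp
    · intro T hT
      rw [Finset.mem_filter] at hT
      rw [nfun_sum A q T hT.2.2]

/-- admissible multiplicity functions -/
def admis (c q κ S r : ℕ) : Finset (Finset (Fin c) → ℕ) :=
  (Fintype.piFinset (fun B : Finset (Fin c) =>
    if B ⊆ Iq c q then range (r + 1) else {0})).filter
    (fun nf => ∑ B, nf B * (B ∩ Iq c (q + κ)).card ≤ S)

lemma nfun_mem (A : Fin r → Finset (Fin c)) (q κ S : ℕ)
    (hS : ∑ x ∈ Iq c (q + κ), dg A x ≤ S) : nfun A q ∈ admis c q κ S r := by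
  unfold admis
  rw [Finset.mem_filter, Fintype.mem_piFinset]
  constructor
  · intro B
    split_ifs with hB
    · rw [Finset.mem_range]
      unfold nfun
      have : ((univ : Finset (Fin r)).filter (fun v => Iq c q \ A v = B)).card ≤ r := by
        calc _ ≤ (univ : Finset (Fin r)).card := Finset.card_filter_le _ _
          _ = r := by simp
      omega
    · rw [Finset.mem_singleton]
      unfold nfun
      rw [Finset.card_eq_zero, Finset.filter_eq_empty_iff]
      intro v _ h
      apply hB
      rw [← h]
      exact Finset.sdiff_subset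
  · refine le_trans (le_of_eq ?_) hS
    have h1 : ∀ B : Finset (Fin c), nfun A q B * (B ∩ Iq c (q + κ)).card =
        ∑ v ∈ (univ : Finset (Fin r)).filter (fun v => Iq c q \ A v = B),
          ((Iq c q \ A v) ∩ Iq c (q + κ)).card := by
      intro B
      unfold nfun
      rw [← smul_eq_mul, ← Finset.sum_const]
      apply Finset.sum_congr rfl
      intro v hv
      rw [Finset.mem_filter] at hv
      rw [hv.2]
    simp_rw [h1]
    rw [Finset.sum_fiberwise]
    have h2 : ∀ v : Fin r, ((Iq c q \ A v) ∩ Iq c (q + κ)).card =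
        ∑ x ∈ Iq c (q + κ), if x ∉ A v then 1 else 0 := by
      intro v
      rw [← Finset.card_filter]
      apply congrArg Finset.card
      ext x
      simp only [Finset.mem_inter, Finset.mem_sdiff, Finset.mem_filter, Iq, Finset.mem_univ,
        true_and]
      constructor
      · rintro ⟨⟨_, h⟩, h'⟩
        exact ⟨h', h⟩
      · rintro ⟨h', h⟩
        exact ⟨⟨by omega, h⟩, h'⟩
    simp_rw [h2]
    rw [Finset.sum_comm]
    apply Finset.sum_congr rfl
    intro x _
    unfold dg
    rw [Finset.card_filter]

end Count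

end Pool.Agent.Helper949.CC
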