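import Pool.Agent.Helper949.CC7

namespace Pool.Agent.Helper949.CC

open Finset

lemma geom_bound (z : ℝ) (hz0 : 0 ≤ z) (hz : z ≤ 1 / 2) (n : ℕ) :
    ∑ m ∈ range n, z ^ m ≤ Real.exp (2 * z) := by
  have h1 : (∑ m ∈ range n, z ^ m) * (1 - z) ≤ 1 := by
    have h := geom_sum_mul_neg z n
    rw [h]
    have : 0 ≤ z ^ n := by positivity
    linarith
  have h2 : (1 + 2 * z) * (1 - z) ≥ 1 := by nlinarith
  have h3 : ∑ m ∈ range n, z ^ m ≤ 1 + 2 * z := by
    by_contra hcon
    push Not at hcon
    have : 0 < 1 - z := by linarith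
    nlinarith
  have h4 := Real.add_one_le_exp (2 * z)
  linarith

lemma exp_six : Real.exp 6 ≤ 512 := by
  have h1 := Real.exp_one_lt_d9
  have h2 : Real.exp 6 = Real.exp 1 ^ 6 := by
    rw [← Real.exp_nat_mul]
    norm_num
  rw [h2]
  have h3 : (0 : ℝ) ≤ Real.exp 1 := (Real.exp_pos 1).le
  calc Real.exp 1 ^ 6 ≤ (2.7182818286 : ℝ) ^ 6 := pow_le_pow_left₀ h3 h1.le 6
    _ ≤ 512 := by norm_num

lemma card_low (c q κ : ℕ) : (Iq c q \ Iq c (q + κ)).card ≤ κ := by
  have h : ((Iq c q \ Iq c (q + κ)).image (fun x : Fin c => (x : ℕ))) ⊆ Finset.Ico q (q + κ) := by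
    intro y hy
    rw [Finset.mem_image] at hy
    obtain ⟨x, hx, rfl⟩ := hy
    simp only [Iq, Finset.mem_sdiff, Finset.mem_filter, Finset.mem_univ, true_and] at hx
    rw [Finset.mem_Ico]
    omega
  have h2 := Finset.card_le_card h
  rw [Finset.card_image_of_injective _ Fin.val_injective, Nat.card_Ico] at h2
  omega

lemma admis_card (c q κ S r w : ℕ) (hcw : c ≤ w) (hw : 2 ≤ w) :
    (admis c q κ S r).card ≤ w ^ S * ((r + 1) * 512) ^ (2 ^ κ) := by
  have hwpos : (0 : ℝ) < w := by
    have : 0 < w := by omega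
    exact_mod_cast this
  set z : ℝ := (w : ℝ)⁻¹ with hz
  have hz0 : 0 < z := by rw [hz]; positivity
  have hz2 : z ≤ 1 / 2 := by
    rw [hz, one_div]
    apply inv_anti₀ (by norm_num)
    exact_mod_cast hw
  have hz1 : z ≤ 1 := by linarith
  set b : Finset (Fin c) → ℕ := fun B => (B ∩ Iq c (q + κ)).card with hb
  set t : Finset (Fin c) → Finset ℕ :=
    fun B => if B ⊆ Iq c q then range (r + 1) else {0} with ht
  -- step 1
  have h1 : ((admis c q κ S r).card : ℝ) ≤
      (w : ℝ) ^ S * ∏ B : Finset (Fin c), ∑ m ∈ t B, z ^ (m * b B) := by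
    have e1 : ((admis c q κ S r).card : ℝ) = ∑ nf ∈ admis c q κ S r, (1 : ℝ) := by simp
    rw [e1, Finset.prod_univ_sum, Finset.mul_sum]
    have h2 : ∀ nf ∈ admis c q κ S r,
        (1 : ℝ) ≤ (w : ℝ) ^ S * ∏ B : Finset (Fin c), z ^ (nf B * b B) := by
      intro nf hnf
      unfold admis at hnf
      rw [Finset.mem_filter] at hnf
      rw [Finset.prod_pow_eq_pow_sum]
      have h3 : ∑ B, nf B * b B ≤ S := hnf.2
      have h4 : z ^ S ≤ z ^ (∑ B, nf B * b B) := pow_le_pow_of_le_one hz0.le hz1 h3
      have h5 : (w : ℝ) ^ S * z ^ S = 1 := by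
        rw [← mul_pow, hz, mul_inv_cancel₀ hwpos.ne', one_pow]
      calc (1 : ℝ) = (w : ℝ) ^ S * z ^ S := h5.symm
        _ ≤ _ := by gcongr
    calc ∑ nf ∈ admis c q κ S r, (1 : ℝ)
        ≤ ∑ nf ∈ admis c q κ S r, (w : ℝ) ^ S * ∏ B : Finset (Fin c), z ^ (nf B * b B) :=
          Finset.sum_le_sum h2
      _ ≤ ∑ nf ∈ Fintype.piFinset t, (w : ℝ) ^ S * ∏ B : Finset (Fin c), z ^ (nf B * b B) := by
          apply Finset.sum_le_sum_of_subset_of_nonneg
          · exact Finset.filter_subset _ _
          · intro nf _ _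
            positivity
  -- step 2
  have h2 : ∀ B : Finset (Fin c), ∑ m ∈ t B, z ^ (m * b B) ≤
      (if B ∈ (Iq c q \ Iq c (q + κ)).powerset then ((r : ℝ) + 1) else 1) *
        Real.exp (2 * (if B ∈ (Iq c q).powerset then z ^ (b B) else 0)) := by
    intro B
    by_cases hB : B ⊆ Iq c q
    · have htB : t B = range (r + 1) := by simp [ht, hB]
      rw [htB, if_pos (Finset.mem_powerset.2 hB)]
      by_cases hB2 : b B = 0
      · have hB3 : B ∈ (Iq c q \ Iq c (q + κ)).powerset := by
          rw [Finset.mem_powerset]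
          intro x hx
          rw [Finset.mem_sdiff]
          refine ⟨hB hx, fun hx' => ?_⟩
          have : x ∈ B ∩ Iq c (q + κ) := Finset.mem_inter.2 ⟨hx, hx'⟩
          rw [hb] at hB2
          simp only [Finset.card_eq_zero] at hB2
          rw [hB2] at this
          simp at this
        rw [if_pos hB3, hB2]
        simp only [mul_zero, pow_zero, Finset.sum_const, Finset.card_range,
          mul_one, nsmul_eq_mul]
        push_cast
        have h3 : (1 : ℝ) ≤ Real.exp 2 := Real.one_le_exp (by norm_num)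
        have h4 : (0 : ℝ) ≤ (r : ℝ) + 1 := by positivity
        nlinarith
      · have h3 : ∑ m ∈ range (r + 1), z ^ (m * b B) ≤ Real.exp (2 * z ^ (b B)) := by
          have : ∀ m ∈ range (r + 1), z ^ (m * b B) = (z ^ b B) ^ m := by
            intro m _
            rw [← pow_mul, mul_comm]
          rw [Finset.sum_congr rfl this]
          apply geom_bound
          · positivity
          · calc z ^ b B ≤ z ^ 1 := pow_le_pow_of_le_one hz0.le hz1 (by omega)
              _ ≤ 1 / 2 := by rw [pow_one]; exact hz2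
        refine h3.trans ?_
        have h4 : (1 : ℝ) ≤ (if B ∈ (Iq c q \ Iq c (q + κ)).powerset then ((r : ℝ) + 1) else 1) := by
          split_ifs
          · have : (0 : ℝ) ≤ r := by positivity
            linarith
          · exact le_refl _
        have h5 := Real.exp_pos (2 * z ^ b B)
        nlinarith
    · have htB : t B = {0} := by simp [ht, hB]
      have hB' : B ∉ (Iq c q).powerset := by rwa [Finset.mem_powerset]
      have hB3 : B ∉ (Iq c q \ Iq c (q + κ)).powerset := by
        rw [Finset.mem_powerset]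
        exact fun h => hB (h.trans Finset.sdiff_subset)
      rw [htB, if_neg hB', if_neg hB3]
      simp
  -- step 3
  have h3 : ∏ B : Finset (Fin c), ∑ m ∈ t B, z ^ (m * b B) ≤
      (((r : ℝ) + 1) * 512) ^ (2 ^ κ) := by
    have h31 : ∏ B : Finset (Fin c), ∑ m ∈ t B, z ^ (m * b B) ≤
        ∏ B : Finset (Fin c),
        ((if B ∈ (Iq c q \ Iq c (q + κ)).powerset then ((r : ℝ) + 1) else 1) *
        Real.exp (2 * (if B ∈ (Iq c q).powerset then z ^ (b B) else 0))) := by
      apply Finset.prod_le_prod
      · intro B _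
        positivity
      · intro B _
        exact h2 B
    rw [Finset.prod_mul_distrib, Finset.prod_ite_mem, Finset.univ_inter, Finset.prod_const,
      ← Real.exp_sum, ← Finset.mul_sum, Finset.sum_ite_mem, Finset.univ_inter,
      Finset.card_powerset] at h31
    have hlow := card_low c q κ
    have h32 : ((r : ℝ) + 1) ^ (2 ^ (Iq c q \ Iq c (q + κ)).card) ≤ ((r : ℝ) + 1) ^ (2 ^ κ) := by
      apply pow_le_pow_right₀
      · have : (0 : ℝ) ≤ r := by positivity
        linarith
      · exact Nat.pow_le_pow_right (by norm_num) hlow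
    have h33 : ∑ B ∈ (Iq c q).powerset, z ^ (b B) ≤ 2 ^ κ * 3 := by
      have e : ∀ B ∈ (Iq c q).powerset, z ^ (b B) =
          ∏ x ∈ B, (if x ∈ Iq c (q + κ) then z else 1) := by
        intro B _
        rw [Finset.prod_ite_mem, Finset.prod_const]
      rw [Finset.sum_congr rfl e, ← Finset.prod_one_add]
      have e2 : ∏ x ∈ Iq c q, (1 + (if x ∈ Iq c (q + κ) then z else 1)) =
          (∏ x ∈ Iq c q \ Iq c (q + κ), (2 : ℝ)) * ∏ x ∈ Iq c (q + κ), (1 + z) := by
        have hsub : Iq c (q + κ) ⊆ Iq c q := by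
          intro x hx
          simp only [Iq, Finset.mem_filter, Finset.mem_univ, true_and] at hx ⊢
          omega
        rw [← Finset.prod_sdiff hsub]
        congr 1
        · apply Finset.prod_congr rfl
          intro x hx
          rw [Finset.mem_sdiff] at hx
          rw [if_neg hx.2]
          norm_num
        · apply Finset.prod_congr rfl
          intro x hx
          rw [if_pos hx]
      rw [e2, Finset.prod_const, Finset.prod_const]
      apply mul_le_mul
      · exact pow_le_pow_right₀ (by norm_num) hlow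
      · have h5 : (1 + z) ^ (Iq c (q + κ)).card ≤ (1 + z) ^ w := by
          apply pow_le_pow_right₀ (by linarith)
          calc (Iq c (q + κ)).card ≤ (univ : Finset (Fin c)).card := Finset.card_filter_le _ _
            _ = c := by simp
            _ ≤ w := hcw
        have h6 : (1 + z) ^ w ≤ Real.exp 1 := by
          have h7 : 1 + z ≤ Real.exp z := by
            have := Real.add_one_le_exp z
            linarith
          calc (1 + z) ^ w ≤ (Real.exp z) ^ w := pow_le_pow_left₀ (by linarith) h7 w
            _ = Real.exp (w * z) := by rw [← Real.exp_nat_mul]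
            _ = Real.exp 1 := by rw [hz, mul_inv_cancel₀ hwpos.ne']
        have h8 := Real.exp_one_lt_d9
        linarith
      · positivity
      · positivity
    have h34 : Real.exp (2 * ∑ B ∈ (Iq c q).powerset, z ^ (b B)) ≤ (512 : ℝ) ^ (2 ^ κ) := by
      calc Real.exp (2 * ∑ B ∈ (Iq c q).powerset, z ^ (b B)) ≤ Real.exp (2 * (2 ^ κ * 3)) := by
            apply Real.exp_le_exp.2
            linarith
        _ = (Real.exp 6) ^ (2 ^ κ) := by
            rw [← Real.exp_nat_mul]
            congr 1
            push_cast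
            ring
        _ ≤ 512 ^ (2 ^ κ) := pow_le_pow_left₀ (Real.exp_pos 6).le exp_six _
    calc _ ≤ _ := h31
      _ ≤ ((r : ℝ) + 1) ^ (2 ^ κ) * 512 ^ (2 ^ κ) := by
          apply mul_le_mul h32 h34 (Real.exp_pos _).le
          positivity
      _ = _ := by rw [mul_pow]
  have h4 : ((admis c q κ S r).card : ℝ) ≤ (w : ℝ) ^ S * (((r : ℝ) + 1) * 512) ^ (2 ^ κ) := by
    refine h1.trans ?_
    gcongr
  exact_mod_cast h4

end Pool.Agent.Helper949.CC
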