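import Pool.Agent.Helper949.CC8

namespace Pool.Agent.Helper949.CC

open Finset

open Classical in
/-- a finite set containing all values of a given bad class -/
noncomputable def badVals (n c q D κ S : ℕ) : Finset ℕ :=
  ((univ : Finset (SimpleGraph (Fin c))) ×ˢ
    (admis c q κ S (n - c) ×ˢ range (2 ^ (n - D) + 1))).image
      (fun p => Phi p.1 q p.2.1 + p.2.2)

lemma card_graphs (c : ℕ) : Fintype.card (SimpleGraph (Fin c)) ≤ 2 ^ (c * c) := by
  classical
  have h : Function.Injective (fun (G : SimpleGraph (Fin c)) =>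
      (fun (i : Fin c) (j : Fin c) => decide (G.Adj i j))) := by
    intro G H hGH
    ext i j
    have := congrFun (congrFun hGH i) j
    simpa using this
  have h2 := Fintype.card_le_of_injective _ h
  refine h2.trans ?_
  rw [Fintype.card_fun, Fintype.card_fun, Fintype.card_bool, Fintype.card_fin, ← pow_mul]

lemma badVals_card {n c q D κ S w : ℕ} (hcw : c ≤ w) (hw : 2 ≤ w) :
    (badVals n c q D κ S).card ≤
      2 ^ (c * c) * ((w ^ S * ((n + 1) * 512) ^ (2 ^ κ)) * (2 ^ (n - D) + 1)) := by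
  classical
  unfold badVals
  refine Finset.card_image_le.trans ?_
  rw [Finset.card_product, Finset.card_product, Finset.card_range, Finset.card_univ]
  apply Nat.mul_le_mul (card_graphs c)
  apply Nat.mul_le_mul_right
  refine (admis_card c q κ S (n - c) w hcw hw).trans ?_
  apply Nat.mul_le_mul_left
  apply Nat.pow_le_pow_left
  apply Nat.mul_le_mul_right
  omega

lemma mem_badVals {n c q D κ S : ℕ} (hc : c ≤ n) (K : SimpleGraph (Fin c))
    (A : Fin (n - c) → Finset (Fin c))
    (hD : ∀ x : Fin c, (x : ℕ) < q → D ≤ dg A x)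
    (hS : ∑ x ∈ Iq c (q + κ), dg A x ≤ S) : val K A ∈ badVals n c q D κ S := by
  classical
  obtain ⟨err, h1, h2⟩ := val_trunc K A q D hD
  rw [h2]
  unfold badVals
  rw [Finset.mem_image]
  refine ⟨(K, nfun A q, err), ?_, rfl⟩
  rw [Finset.mem_product, Finset.mem_product]
  refine ⟨Finset.mem_univ _, nfun_mem A q κ S hS, ?_⟩
  rw [Finset.mem_range]
  have : c + (n - c) - D = n - D := by omega
  rw [this] at h1
  simp only
  omega

lemma Phi_le {c r : ℕ} (K : SimpleGraph (Fin c)) (A : Fin r → Finset (Fin c)) (q : ℕ) :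
    Phi K q (nfun A q) ≤ 2 ^ (c - q) * 2 ^ r := by
  classical
  unfold Phi
  have h1 : ∀ T ∈ (univ : Finset (Finset (Fin c))).filter
      (fun T : Finset (Fin c) => K.IsClique (T : Set (Fin c)) ∧ T ⊆ Iq c q),
      2 ^ (∑ B ∈ (univ : Finset (Finset (Fin c))).filter (fun B => Disjoint B T), nfun A q B) ≤
        2 ^ r := by
    intro T hT
    rw [Finset.mem_filter] at hT
    rw [← nfun_sum A q T hT.2.2]
    apply Nat.pow_le_pow_right (by norm_num)
    calc _ ≤ (univ : Finset (Fin r)).card := Finset.card_filter_le _ _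
      _ = r := by simp
  have h2 := Finset.sum_le_card_nsmul _ _ _ h1
  refine le_trans (le_of_eq ?_) (h2.trans ?_)
  · apply Finset.sum_congr
    · ext T
      simp
    · intro T _
      rfl
  · rw [smul_eq_mul]
    apply Nat.mul_le_mul_right
    have h3 : (univ : Finset (Finset (Fin c))).filter
      (fun T : Finset (Fin c) => K.IsClique (T : Set (Fin c)) ∧ T ⊆ Iq c q) ⊆
      (Iq c q).powerset := by
      intro T hT
      rw [Finset.mem_filter] at hT
      rw [Finset.mem_powerset]
      exact hT.2.2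
    refine (Finset.card_le_card h3).trans ?_
    rw [Finset.card_powerset]
    apply Nat.pow_le_pow_right (by norm_num)
    have h4 : ((Iq c q).image (fun x : Fin c => (x : ℕ))) ⊆ Finset.Ico q c := by
      intro y hy
      rw [Finset.mem_image] at hy
      obtain ⟨x, hx, rfl⟩ := hy
      simp only [Iq, Finset.mem_filter, Finset.mem_univ, true_and] at hx
      rw [Finset.mem_Ico]
      exact ⟨hx, x.isLt⟩
    have h5 := Finset.card_le_card h4
    rw [Finset.card_image_of_injective _ Fin.val_injective, Nat.card_Ico] at h5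
    exact h5

/-- there is no sequence of degrees compatible with a value that is not bad -/
def NoChain (n k μ ℓ : ℕ) : Prop :=
  ∀ (c : ℕ) (d : ℕ → ℕ), c < 6 * k → Antitone d → (∀ x, c ≤ x → d x = 0) → (∀ x, d x ≤ n) →
    d k ≤ k →
    (∀ j < c, 200 * k ^ 2 ≤ d j →
      d j / (4 * μ) < ∑ x ∈ Finset.Ico (j + 1 + Nat.log 2 (d j / (4 * ℓ))) c, d x) →
    n / (4 * μ) < ∑ x ∈ Finset.Ico (Nat.log 2 (n / (4 * ℓ))) c, d x → False

lemma sum_Iq {c : ℕ} (f : Fin c → ℕ) (a : ℕ) :
    ∑ x ∈ Iq c a, f x = ∑ x ∈ Finset.Ico a c, (if h : x < c then f ⟨x, h⟩ else 0) := by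
  symm
  refine Finset.sum_bij' (fun x hx => (⟨x, (Finset.mem_Ico.1 hx).2⟩ : Fin c))
    (fun x _ => (x : ℕ)) ?_ ?_ ?_ ?_ ?_
  · intro x hx
    simp only [Iq, Finset.mem_filter, Finset.mem_univ, true_and]
    exact (Finset.mem_Ico.1 hx).1
  · intro x hx
    simp only [Iq, Finset.mem_filter, Finset.mem_univ, true_and] at hx
    exact Finset.mem_Ico.2 ⟨hx, x.isLt⟩
  · intro x hx
    rfl
  · intro x hx
    rfl
  · intro x hx
    rw [dif_pos (Finset.mem_Ico.1 hx).2]

lemma graph_dichotomy {n k μ ℓ : ℕ} (hkn : k ≤ n) (hD : 200 * k ^ 2 ≤ n)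
    (hno : NoChain n k μ ℓ) (G : SimpleGraph (Fin n)) (hG : 2 ^ (n - k) < allCount G) :
    ∃ c < 6 * k, ∃ q ≤ c, ∃ D, 200 * k ^ 2 ≤ D ∧ D ≤ n ∧
      allCount G ∈ badVals n c q D (Nat.log 2 (D / (4 * ℓ))) (D / (4 * μ)) := by
  classical
  obtain ⟨W, ν, h1, h2, h3, h4⟩ := exists_cover G _ univ rfl
  rw [cl_univ, Finset.card_univ, Fintype.card_fin] at h4
  have hν : ν < 3 * k := by
    by_contra hcon
    push Not at hcon
    obtain ⟨j, rfl⟩ := Nat.exists_eq_add_of_le hcon
    have e1 : 2 ^ n = 2 ^ k * 2 ^ (n - k) := by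
      rw [← pow_add]
      congr 1
      omega
    have h5 : 4 ^ (3 * k + j) * 2 ^ (n - k) < 3 ^ (3 * k + j) * (2 ^ k * 2 ^ (n - k)) := by
      rw [← e1]
      refine lt_of_lt_of_le ?_ h4
      apply Nat.mul_lt_mul_of_pos_left hG
      positivity
    have h6 : 4 ^ (3 * k + j) < 3 ^ (3 * k + j) * 2 ^ k := by
      rw [← mul_assoc] at h5
      exact Nat.lt_of_mul_lt_mul_right h5
    have h7 : 3 ^ (3 * k + j) * 2 ^ k = 54 ^ k * 3 ^ j := by
      rw [pow_add, pow_mul]
      have : (54 : ℕ) ^ k = 27 ^ k * 2 ^ k := by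
        rw [← mul_pow]
        norm_num
      rw [this]
      norm_num
      ring
    have h8 : 4 ^ (3 * k + j) = 64 ^ k * 4 ^ j := by
      rw [pow_add, pow_mul]
      norm_num
    rw [h7, h8] at h6
    have h9 : 54 ^ k * 3 ^ j ≤ 64 ^ k * 4 ^ j :=
      Nat.mul_le_mul (Nat.pow_le_pow_left (by norm_num) _) (Nat.pow_le_pow_left (by norm_num) _)
    omega
  obtain ⟨c, hc⟩ : ∃ c, W.card = c := ⟨_, rfl⟩
  obtain ⟨K, A, hA, hval⟩ := exists_repr G W hc (fun x hx y hy hxy =>
    h3 (by simpa using hx) (by simpa using hy) hxy)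
  have hcn : c ≤ n := by
    have := Finset.card_le_univ W
    rwa [Fintype.card_fin, hc] at this
  have hc6 : c < 6 * k := by omega
  set d : ℕ → ℕ := fun x => if h : x < c then dg A ⟨x, h⟩ else 0 with hd
  have hdanti : Antitone d := by
    intro x y hxy
    simp only [hd]
    by_cases hy : y < c
    · have hx : x < c := by omega
      rw [dif_pos hy, dif_pos hx]
      exact hA (by simpa using hxy)
    · rw [dif_neg hy]
      omega
  have hd0 : ∀ x, c ≤ x → d x = 0 := by
    intro x hx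
    simp only [hd]
    rw [dif_neg (by omega)]
  have hdn : ∀ x, d x ≤ n := by
    intro x
    simp only [hd]
    split_ifs with h
    · unfold dg
      calc _ ≤ (univ : Finset (Fin (n - c))).card := Finset.card_filter_le _ _
        _ = n - c := by simp
        _ ≤ n := Nat.sub_le _ _
    · omega
  have hdk : d k ≤ k := by
    by_contra hcon
    push Not at hcon
    have hkc : k < c := by
      by_contra h
      rw [hd0 k (by omega)] at hcon
      omega
    obtain ⟨err, g1, g2⟩ := val_trunc K A (k + 1) (k + 1) (by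
      intro x hx
      have g3 : d k = dg A ⟨k, hkc⟩ := by simp [hd, hkc]
      have g4 : dg A ⟨k, hkc⟩ ≤ dg A x := hA (by
        rw [Fin.le_def]
        simp only
        omega)
      omega)
    have g5 := Phi_le K A (k + 1)
    have g6 : 2 ^ (c - (k + 1)) * 2 ^ (n - c) = 2 ^ (n - (k + 1)) := by
      rw [← pow_add]
      congr 1
      omega
    have g7 : c + (n - c) - (k + 1) = n - (k + 1) := by omega
    rw [g6] at g5
    rw [g7] at g1
    have g8 : 2 ^ (n - k) = 2 ^ (n - (k + 1)) * 2 := by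
      rw [← pow_succ]
      congr 1
      omega
    rw [hval] at g2
    omega
  have hsum : ∀ a, ∑ x ∈ Finset.Ico a c, d x = ∑ x ∈ Iq c a, dg A x := by
    intro a
    rw [sum_Iq]
  by_cases hB : ∀ j < c, 200 * k ^ 2 ≤ d j →
      d j / (4 * μ) < ∑ x ∈ Finset.Ico (j + 1 + Nat.log 2 (d j / (4 * ℓ))) c, d x
  · have hA0 : ¬ n / (4 * μ) < ∑ x ∈ Finset.Ico (Nat.log 2 (n / (4 * ℓ))) c, d x :=
      fun h => hno c d hc6 hdanti hd0 hdn hdk hB h
    push Not at hA0
    refine ⟨c, hc6, 0, Nat.zero_le _, n, hD, le_refl _, ?_⟩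
    rw [← hval]
    apply mem_badVals hcn
    · intro x hx
      omega
    · rw [← hsum, zero_add]
      exact hA0
  · push Not at hB
    obtain ⟨j, hj, hDj, hle⟩ := hB
    refine ⟨c, hc6, j + 1, hj, d j, hDj, hdn j, ?_⟩
    rw [← hval]
    apply mem_badVals hcn
    · intro x hx
      have g3 : d j = dg A ⟨j, hj⟩ := by simp [hd, hj]
      rw [g3]
      apply hA
      rw [Fin.le_def]
      simp only
      omega
    · rw [← hsum]
      exact hle

lemma upper_of_noChain {n k μ ℓ : ℕ} (hk : 1 ≤ k) (hμ : 6 * k ≤ 2 ^ μ)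
    (hℓ : (n + 1) * 512 ≤ 2 ^ ℓ) (hnk : n + 1 ≤ 2 ^ k) (hℓk : 4 * ℓ ≤ 200 * k ^ 2)
    (hD : 200 * k ^ 2 ≤ n) (hno : NoChain n k μ ℓ) : numCounts n ≤ 2 ^ (n - k + 1) := by
  classical
  have hkk : k ≤ k ^ 2 := by nlinarith
  have hkn : k ≤ n := by omega
  set big : Finset ℕ := (range (6 * k)).biUnion (fun c => (range (c + 1)).biUnion (fun q =>
    (Finset.Icc (200 * k ^ 2) n).biUnion (fun D =>
      badVals n c q D (Nat.log 2 (D / (4 * ℓ))) (D / (4 * μ))))) with hbig
  have hsub : possibleCounts n ⊆ ((range (2 ^ (n - k)) ∪ big.image (fun x => x - 1) :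
      Finset ℕ) : Set ℕ) := by
    rintro m ⟨G, rfl⟩
    have h1 := completeCount_add_one G
    rw [Finset.mem_coe, Finset.mem_union, Finset.mem_range, Finset.mem_image]
    by_cases hG : 2 ^ (n - k) < allCount G
    · right
      refine ⟨allCount G, ?_, by omega⟩
      obtain ⟨c, hc, q, hq, D, hD1, hD2, hmem⟩ := graph_dichotomy hkn hD hno G hG
      rw [hbig, Finset.mem_biUnion]
      refine ⟨c, Finset.mem_range.2 hc, ?_⟩
      rw [Finset.mem_biUnion]
      refine ⟨q, Finset.mem_range.2 (by omega), ?_⟩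
      rw [Finset.mem_biUnion]
      exact ⟨D, Finset.mem_Icc.2 ⟨hD1, hD2⟩, hmem⟩
    · left
      omega
  have hcard1 : numCounts n ≤ 2 ^ (n - k) + big.card := by
    unfold numCounts
    have h1 := Set.ncard_le_ncard hsub (Finset.finite_toSet _)
    rw [Set.ncard_coe_finset] at h1
    refine h1.trans ((Finset.card_union_le _ _).trans ?_)
    rw [Finset.card_range]
    exact Nat.add_le_add_left Finset.card_image_le _
  have hone : ∀ c < 6 * k, ∀ q, ∀ D, 200 * k ^ 2 ≤ D → D ≤ n →
      (badVals n c q D (Nat.log 2 (D / (4 * ℓ))) (D / (4 * μ))).card ≤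
        2 ^ (n + 1 - 64 * k ^ 2) := by
    intro c hc q D hD1 hD2
    have hw2 : 2 ≤ 2 ^ μ := by omega
    refine (badVals_card (w := 2 ^ μ) (by omega) hw2).trans ?_
    have e1 : (2 ^ μ) ^ (D / (4 * μ)) ≤ 2 ^ (D / 4) := by
      rw [← pow_mul]
      apply Nat.pow_le_pow_right (by norm_num)
      have : D / (4 * μ) = D / 4 / μ := by rw [Nat.div_div_eq_div_mul]
      rw [this]
      exact Nat.mul_div_le _ _
    have e2 : ((n + 1) * 512) ^ (2 ^ Nat.log 2 (D / (4 * ℓ))) ≤ 2 ^ (D / 4) := by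
      calc ((n + 1) * 512) ^ (2 ^ Nat.log 2 (D / (4 * ℓ)))
          ≤ (2 ^ ℓ) ^ (2 ^ Nat.log 2 (D / (4 * ℓ))) := Nat.pow_le_pow_left hℓ _
        _ = 2 ^ (ℓ * 2 ^ Nat.log 2 (D / (4 * ℓ))) := by rw [← pow_mul]
        _ ≤ 2 ^ (D / 4) := by
          apply Nat.pow_le_pow_right (by norm_num)
          have hℓpos : 0 < ℓ := by
            rcases Nat.eq_zero_or_pos ℓ with h | h
            · subst h
              simp at hℓ
              omega
            · exact h
          have h0 : D / (4 * ℓ) ≠ 0 := by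
            apply Nat.ne_of_gt
            apply Nat.div_pos _ (by omega)
            omega
          have h1 : 2 ^ Nat.log 2 (D / (4 * ℓ)) ≤ D / (4 * ℓ) := Nat.pow_log_le_self 2 h0
          calc ℓ * 2 ^ Nat.log 2 (D / (4 * ℓ)) ≤ ℓ * (D / (4 * ℓ)) := Nat.mul_le_mul_left _ h1
            _ = ℓ * (D / 4 / ℓ) := by rw [Nat.div_div_eq_div_mul]
            _ ≤ D / 4 := Nat.mul_div_le _ _
    have e3 : 2 ^ (n - D) + 1 ≤ 2 ^ (n - D + 1) := by
      rw [pow_succ]
      have : 1 ≤ 2 ^ (n - D) := Nat.one_le_two_pow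
      omega
    calc 2 ^ (c * c) * (((2 ^ μ) ^ (D / (4 * μ)) *
          ((n + 1) * 512) ^ (2 ^ Nat.log 2 (D / (4 * ℓ)))) * (2 ^ (n - D) + 1))
        ≤ 2 ^ (c * c) * ((2 ^ (D / 4) * 2 ^ (D / 4)) * 2 ^ (n - D + 1)) := by
          apply Nat.mul_le_mul_left
          exact Nat.mul_le_mul (Nat.mul_le_mul e1 e2) e3
      _ = 2 ^ (c * c + (D / 4 + D / 4 + (n - D + 1))) := by
          rw [← pow_add, ← pow_add, ← pow_add]
      _ ≤ 2 ^ (n + 1 - 64 * k ^ 2) := by
          apply Nat.pow_le_pow_right (by norm_num)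
          have hcc : c * c ≤ 36 * k ^ 2 := by
            have : c * c ≤ (6 * k) * (6 * k) := Nat.mul_le_mul (by omega) (by omega)
            calc c * c ≤ (6 * k) * (6 * k) := this
              _ = 36 * k ^ 2 := by ring
          omega
  have hcard2 : big.card ≤ (6 * k) * ((6 * k + 1) * ((n + 1) * 2 ^ (n + 1 - 64 * k ^ 2))) := by
    rw [hbig]
    have hb : (range (6 * k)).card = 6 * k := Finset.card_range _
    conv_rhs => rw [← hb]
    apply Finset.card_biUnion_le_card_mul
    intro c hc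
    rw [Finset.mem_range] at hc
    calc _ ≤ (range (c + 1)).card * ((n + 1) * 2 ^ (n + 1 - 64 * k ^ 2)) := by
          apply Finset.card_biUnion_le_card_mul
          intro q _
          calc _ ≤ (Finset.Icc (200 * k ^ 2) n).card * 2 ^ (n + 1 - 64 * k ^ 2) := by
                apply Finset.card_biUnion_le_card_mul
                intro D hDm
                rw [Finset.mem_Icc] at hDm
                exact hone c hc q D hDm.1 hDm.2
            _ ≤ _ := by
                apply Nat.mul_le_mul_right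
                rw [Nat.card_Icc]
                omega
      _ ≤ _ := by
          apply Nat.mul_le_mul_right
          rw [Finset.card_range, hb]
          omega
  have h6k : ∀ k : ℕ, 1 ≤ k → 6 * k + 1 ≤ 2 ^ (3 * k) := by
    intro k hk
    induction k, hk using Nat.le_induction with
    | base => norm_num
    | succ k hk ih =>
      have : 2 ^ (3 * (k + 1)) = 2 ^ (3 * k) * 8 := by
        rw [mul_add, pow_add]
        norm_num
      omega
  have hcard3 : big.card ≤ 2 ^ (n - k) := by
    refine hcard2.trans ?_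
    calc (6 * k) * ((6 * k + 1) * ((n + 1) * 2 ^ (n + 1 - 64 * k ^ 2)))
        ≤ 2 ^ (3 * k) * (2 ^ (3 * k) * (2 ^ k * 2 ^ (n + 1 - 64 * k ^ 2))) := by
          have := h6k k hk
          apply Nat.mul_le_mul (by omega)
          apply Nat.mul_le_mul this
          exact Nat.mul_le_mul_right _ hnk
      _ = 2 ^ (3 * k + (3 * k + (k + (n + 1 - 64 * k ^ 2)))) := by
          rw [← pow_add, ← pow_add, ← pow_add]
      _ ≤ 2 ^ (n - k) := by
          apply Nat.pow_le_pow_right (by norm_num)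
          omega
  calc numCounts n ≤ 2 ^ (n - k) + big.card := hcard1
    _ ≤ 2 ^ (n - k) + 2 ^ (n - k) := Nat.add_le_add_left hcard3 _
    _ = 2 ^ (n - k + 1) := by rw [pow_succ]; ring

end Pool.Agent.Helper949.CC
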