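import Mathlib
import Pool.Agent.Helper949.DD

set_option autoImplicit false

namespace Pool.Agent.Helper949.DD

open Finset

/-- integer version of the lattice step -/
lemma lattice_step {k : ℕ} (hk : 0 < k) (e n : ℕ)
    (hn : ∀ L : ℕ, e < 2 * (k + 3) ^ 2 * (L + 1) ^ 2 → n ≤ (L + 1) ^ k) (hF : F k e + 1 ≤ n) :
    F k e ∈ D k n := by
  set M := 2 * (k + 3) ^ 2 with hM
  have hMpos : 0 < M := by positivity
  refine lattice_main hk e n (Nat.sqrt (e / M)) ?_ ?_ hF
  · rw [← hM]
    have h1 : Nat.sqrt (e / M) ^ 2 ≤ e / M := Nat.sqrt_le' _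
    calc M * Nat.sqrt (e / M) ^ 2 ≤ M * (e / M) := Nat.mul_le_mul_left _ h1
      _ ≤ e := Nat.mul_div_le _ _
  · apply hn
    have h1 : e / M < (Nat.sqrt (e / M) + 1) ^ 2 := by
      have := Nat.lt_succ_sqrt' (e / M)
      simpa using this
    calc e < M * (e / M + 1) := by
          have := Nat.lt_mul_div_succ e hMpos
          linarith
      _ ≤ M * (Nat.sqrt (e / M) + 1) ^ 2 := Nat.mul_le_mul_left _ h1

lemma lattice_range {k : ℕ} (hk : 0 < k) (n m : ℕ)
    (hm : 2 * ((k : ℝ) + 3) ^ 2 * (n : ℝ) ^ ((2 : ℝ) / k) ≤ m) (hmn : m + 1 ≤ n) : m ∈ D k n := by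
  obtain ⟨e, he⟩ := exists_F_eq hk m
  rw [← he]
  apply lattice_step hk e n _ (by omega)
  intro L hL
  have h1 : m ≤ e := by rw [← he]; exact F_le k e
  have h2 : (n : ℝ) ^ ((2 : ℝ) / k) < ((L : ℝ) + 1) ^ 2 := by
    have h3 : (e : ℝ) < 2 * ((k : ℝ) + 3) ^ 2 * ((L : ℝ) + 1) ^ 2 := by exact_mod_cast hL
    have h4 : (m : ℝ) ≤ e := by exact_mod_cast h1
    have h5 : 2 * ((k : ℝ) + 3) ^ 2 * (n : ℝ) ^ ((2 : ℝ) / k)
        < 2 * ((k : ℝ) + 3) ^ 2 * ((L : ℝ) + 1) ^ 2 := by linarith
    exact lt_of_mul_lt_mul_left h5 (by positivity)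
  have hk' : (0 : ℝ) < k := by exact_mod_cast hk
  have h6 : (n : ℝ) ≤ ((L : ℝ) + 1) ^ k := by
    have h7 : ((n : ℝ) ^ ((2 : ℝ) / k)) ^ ((k : ℝ) / 2) ≤ (((L : ℝ) + 1) ^ 2) ^ ((k : ℝ) / 2) :=
      Real.rpow_le_rpow (by positivity) h2.le (by positivity)
    rw [← Real.rpow_mul (by positivity)] at h7
    have h8 : (2 : ℝ) / k * (k / 2) = 1 := by field_simp
    rw [h8, Real.rpow_one] at h7
    have h9 : (((L : ℝ) + 1) ^ 2) ^ ((k : ℝ) / 2) = ((L : ℝ) + 1) ^ k := by
      rw [← Real.rpow_natCast (((L : ℝ) + 1)) 2, ← Real.rpow_mul (by positivity)]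
      have : ((2 : ℕ) : ℝ) * ((k : ℝ) / 2) = k := by push_cast; ring
      rw [this, Real.rpow_natCast]
    rw [h9] at h7
    exact h7
  exact_mod_cast h6

/-- number of differences of a set of naturals -/
noncomputable def diffs (A : Finset ℕ) : Set ℕ := {d | ∃ a ∈ A, ∃ b ∈ A, a < b ∧ d = b - a}

lemma diffs_finite (A : Finset ℕ) : (diffs A).Finite := by
  classical
  apply Set.Finite.subset (Finset.finite_toSet ((A ×ˢ A).image (fun p => p.2 - p.1)))
  rintro d ⟨a, ha, b, hb, _, rfl⟩
  simp only [Finset.coe_image, Set.mem_image, Finset.mem_coe, Finset.mem_product, Prod.exists]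
  exact ⟨a, b, ⟨ha, hb⟩, rfl⟩

/-- the line part -/
lemma line_sets (n : ℕ) : ∀ m : ℕ, n ≤ m → m ≤ (n + 1).choose 2 →
    ∃ A : Finset ℕ, A.card = n + 1 ∧ (diffs A).ncard = m := by
  classical
  induction n with
  | zero =>
    intro m _ hm
    have hm0 : m = 0 := by simpa using hm
    refine ⟨{0}, by simp, ?_⟩
    rw [hm0]
    have : diffs {0} = ∅ := by
      ext d
      simp only [diffs, Finset.mem_singleton, Set.mem_empty_iff_false, iff_false]
      rintro ⟨a, ha, b, hb, hab, _⟩
      omega
    rw [this, Set.ncard_empty]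
  | succ n ih =>
    intro m hm1 hm2
    rcases le_or_gt m (2 * n + 1) with h | h
    · -- AP plus a point
      refine ⟨insert m (Finset.range (n + 1)), ?_, ?_⟩
      · rw [Finset.card_insert_of_notMem (by simp; omega), Finset.card_range]
      · have : diffs (insert m (Finset.range (n + 1))) = (Finset.Icc 1 m : Finset ℕ) := by
          ext d
          simp only [diffs, Finset.mem_insert, Finset.mem_range, Finset.coe_Icc, Set.mem_Icc]
          constructor
          · rintro ⟨a, ha, b, hb, hab, rfl⟩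
            omega
          · rintro ⟨h1, h2⟩
            rcases le_or_gt d n with h3 | h3
            · exact ⟨0, Or.inr (by omega), d, Or.inr (by omega), h1, by omega⟩
            · exact ⟨m - d, Or.inr (by omega), m, Or.inl rfl, by omega, by omega⟩
        rw [this, Set.ncard_coe_finset]
        simp
    · -- far point
      have hch : (n + 1 + 1).choose 2 = (n + 1).choose 2 + (n + 1) := by
        rw [Nat.choose_succ_succ' (n + 1) 1, Nat.choose_one_right]
        ring
      obtain ⟨A, hA1, hA2⟩ := ih (m - (n + 1)) (by omega) (by omega)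
      set N := A.sup id with hN
      have hAN : ∀ a ∈ A, a ≤ N := fun a ha => Finset.le_sup (f := id) ha
      refine ⟨insert (2 * N + 1) A, ?_, ?_⟩
      · rw [Finset.card_insert_of_notMem, hA1]
        intro h'
        have := hAN _ h'
        omega
      · have h1 : diffs (insert (2 * N + 1) A) = diffs A ∪ (A.image (fun a => 2 * N + 1 - a) : Finset ℕ) := by
          ext d
          simp only [diffs, Finset.mem_insert, Finset.coe_image, Set.mem_union, Set.mem_image,
            Finset.mem_coe]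
          constructor
          · rintro ⟨a, ha, b, hb, hab, rfl⟩
            rcases ha with rfl | ha
            · rcases hb with rfl | hb
              · omega
              · have := hAN _ hb
                omega
            · rcases hb with rfl | hb
              · right
                exact ⟨a, ha, rfl⟩
              · left
                exact ⟨a, ha, b, hb, hab, rfl⟩
          · rintro (⟨a, ha, b, hb, hab, rfl⟩ | ⟨a, ha, rfl⟩)
            · exact ⟨a, Or.inr ha, b, Or.inr hb, hab, rfl⟩
            · exact ⟨a, Or.inr ha, 2 * N + 1, Or.inl rfl, by have := hAN _ ha; omega, rfl⟩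
        rw [h1, Set.ncard_union_eq _ (diffs_finite A) (Finset.finite_toSet _), hA2,
          Set.ncard_coe_finset, Finset.card_image_of_injOn, hA1]
        · omega
        · intro a ha b hb hab
          have h3 := hAN _ ha
          have h4 := hAN _ hb
          simp only at hab
          omega
        · rw [Set.disjoint_left]
          rintro d ⟨a, ha, b, hb, hab, rfl⟩ hd
          simp only [Finset.coe_image, Set.mem_image, Finset.mem_coe] at hd
          obtain ⟨c, hc, hc2⟩ := hd
          have h3 := hAN _ hb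
          have h4 := hAN _ hc
          omega

lemma line_range {k : ℕ} (hk : 0 < k) (n m : ℕ) (hn : 1 ≤ n) (h1 : n - 1 ≤ m)
    (h2 : m ≤ n.choose 2) : m ∈ D k n := by
  classical
  obtain ⟨n, rfl⟩ : ∃ n', n = n' + 1 := ⟨n - 1, by omega⟩
  obtain ⟨A, hA1, hA2⟩ := line_sets n m (by omega) h2
  let φ : ℕ → (Fin k → ℤ) := fun a => Pi.single ⟨0, hk⟩ (a : ℤ)
  have hφ : Function.Injective φ := by
    intro a b h
    have := congrFun h ⟨0, hk⟩
    simpa [φ] using this
  have hQ : ∀ a b, Q (φ a - φ b) = ((a : ℤ) - b) ^ 2 := by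
    intro a b
    unfold Q
    rw [Finset.sum_eq_single (⟨0, hk⟩ : Fin k)]
    · simp [φ]
    · intro i _ hi
      simp [φ, hi]
    · intro h; exact absurd (mem_univ _) h
  have hmem := mem_D (A.image φ) (by rw [Finset.card_image_of_injective _ hφ, hA1])
  have hset : {q : ℤ | ∃ x ∈ A.image φ, ∃ y ∈ A.image φ, x ≠ y ∧ q = Q (x - y)} =
      (fun d : ℕ => (d : ℤ) ^ 2) '' diffs A := by
    ext q
    constructor
    · rintro ⟨x, hx, y, hy, hxy, rfl⟩
      obtain ⟨a, ha, rfl⟩ := Finset.mem_image.mp hx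
      obtain ⟨b, hb, rfl⟩ := Finset.mem_image.mp hy
      rw [hQ]
      rcases lt_trichotomy a b with h | h | h
      · exact ⟨b - a, ⟨a, ha, b, hb, h, rfl⟩, by simp only; push_cast [h.le]; ring⟩
      · exact absurd (by rw [h]) hxy
      · exact ⟨a - b, ⟨b, hb, a, ha, h, rfl⟩, by simp only; push_cast [h.le]; ring⟩
    · rintro ⟨d, ⟨a, ha, b, hb, hab, rfl⟩, rfl⟩
      refine ⟨φ a, Finset.mem_image_of_mem _ ha, φ b, Finset.mem_image_of_mem _ hb, ?_, ?_⟩
      · intro h
        exact hab.ne (hφ h)
      · rw [hQ]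
        simp only
        push_cast [hab.le]
        ring
  rw [hset, Set.InjOn.ncard_image, hA2] at hmem
  · exact hmem
  · rintro a _ b _ h
    simp only at h
    have h3 : ((a ^ 2 : ℕ) : ℤ) = ((b ^ 2 : ℕ) : ℤ) := by push_cast; exact h
    exact Nat.pow_left_injective (by norm_num : 2 ≠ 0) (by exact_mod_cast h3)

/-- trivial upper bound -/
lemma numDist_le {k n : ℕ} (X : Fin n → EuclideanSpace ℝ (Fin k)) : numDist X ≤ n.choose 2 := by
  classical
  unfold numDist
  let P : Finset (Fin n × Fin n) := univ.filter (fun p => p.1 < p.2)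
  have h1 : {r : ℝ | ∃ i j : Fin n, i < j ∧ r = dist (X i) (X j)} =
      (P.image (fun p => dist (X p.1) (X p.2)) : Finset ℝ) := by
    ext r
    simp only [P, Finset.coe_image, Set.mem_image, Finset.mem_coe, Finset.mem_filter,
      Finset.mem_univ, true_and, Prod.exists]
    constructor
    · rintro ⟨i, j, h, rfl⟩; exact ⟨i, j, h, rfl⟩
    · rintro ⟨i, j, h, rfl⟩; exact ⟨i, j, h, rfl⟩
  rw [h1, Set.ncard_coe_finset]
  refine le_trans Finset.card_image_le ?_
  have h2 : P.card ≤ ((univ : Finset (Fin n)).powersetCard 2).card := by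
    apply Finset.card_le_card_of_injOn (fun p => ({p.1, p.2} : Finset (Fin n)))
    · intro p hp
      have hp' : p.1 < p.2 := by simpa [P] using hp
      have hg : ({p.1, p.2} : Finset (Fin n)) ∈ (univ : Finset (Fin n)).powersetCard 2 :=
        Finset.mem_powersetCard.mpr ⟨Finset.subset_univ _, Finset.card_pair hp'.ne⟩
      exact_mod_cast hg
    · intro p hp q hq hpq
      have hp : p.1 < p.2 := by simpa [P] using hp
      have hq : q.1 < q.2 := by simpa [P] using hq
      simp only at hpq
      have a1 : p.1 ∈ ({q.1, q.2} : Finset (Fin n)) := by rw [← hpq]; simp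
      have a2 : p.2 ∈ ({q.1, q.2} : Finset (Fin n)) := by rw [← hpq]; simp
      rw [Finset.mem_insert, Finset.mem_singleton] at a1 a2
      rcases a1 with a1 | a1 <;> rcases a2 with a2 | a2
      · rw [a1, a2] at hp; exact absurd hp (lt_irrefl _)
      · exact Prod.ext a1 a2
      · rw [a1, a2] at hp; exact absurd hp (not_lt.mpr hq.le)
      · rw [a1, a2] at hp; exact absurd hp (lt_irrefl _)
  rw [Finset.card_powersetCard, Finset.card_univ, Fintype.card_fin] at h2
  exact h2

/-- lower bound on the line -/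
lemma numDist_one_ge {n : ℕ} (X : Fin n → EuclideanSpace ℝ (Fin 1)) (hX : Function.Injective X) :
    n - 1 ≤ numDist X := by
  classical
  rcases Nat.eq_zero_or_pos n with hn | hn
  · omega
  have hne : (univ : Finset (Fin n)).Nonempty := ⟨⟨0, hn⟩, mem_univ _⟩
  -- leftmost point
  obtain ⟨i0, _, hi0⟩ := Finset.exists_min_image univ (fun i => X i 0) hne
  have hfin : {r : ℝ | ∃ i j : Fin n, i < j ∧ r = dist (X i) (X j)}.Finite := by
    apply Set.Finite.subset (Set.finite_range (fun p : Fin n × Fin n => dist (X p.1) (X p.2)))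
    rintro r ⟨i, j, _, rfl⟩
    exact ⟨(i, j), rfl⟩
  have hd : ∀ i, dist (X i0) (X i) = X i 0 - X i0 0 := by
    intro i
    rw [EuclideanSpace.dist_eq]
    simp only [Finset.univ_unique, Fin.default_eq_zero, Finset.sum_singleton]
    rw [Real.dist_eq, sq_abs, Real.sqrt_sq_eq_abs, abs_sub_comm, abs_of_nonneg]
    have := hi0 i (mem_univ _)
    linarith
  have hsub : ((univ.erase i0).image (fun i => dist (X i0) (X i)) : Finset ℝ) ⊆
      hfin.toFinset := by
    intro r hr
    obtain ⟨i, hi, rfl⟩ := Finset.mem_image.mp hr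
    rw [Set.Finite.mem_toFinset]
    rcases lt_or_gt_of_ne (Finset.ne_of_mem_erase hi) with h | h
    · exact ⟨i, i0, h, dist_comm _ _⟩
    · exact ⟨i0, i, h, rfl⟩
  have h1 := Finset.card_le_card hsub
  rw [Finset.card_image_of_injOn, Finset.card_erase_of_mem (mem_univ _), Finset.card_univ,
    Fintype.card_fin] at h1
  · unfold numDist
    rw [Set.ncard_eq_toFinset_card _ hfin]
    exact h1
  · intro i _ j _ hij
    simp only at hij
    rw [hd, hd] at hij
    apply hX
    ext a
    have : a = 0 := Subsingleton.elim _ _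
    rw [this]
    linarith

lemma D_one (n : ℕ) (hn : 1 ≤ n) : D 1 n = Set.Icc (n - 1) (n.choose 2) := by
  ext m
  rw [Set.mem_Icc]
  constructor
  · rintro ⟨X, hX, rfl⟩
    exact ⟨numDist_one_ge X hX, numDist_le X⟩
  · rintro ⟨h1, h2⟩
    exact line_range one_pos n m hn h1 h2

end Pool.Agent.Helper949.DD
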