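import Mathlib
import Pool.Agent.Helper949.DD2

set_option autoImplicit false

namespace Pool.Agent.Helper949.DD

open Finset

/-- padding with zeros -/
lemma D_mono {a b : ℕ} (hab : a ≤ b) (n : ℕ) : D a n ⊆ D b n := by
  rintro m ⟨X, hX, rfl⟩
  let Φ : EuclideanSpace ℝ (Fin a) → EuclideanSpace ℝ (Fin b) :=
    fun x => WithLp.toLp 2 (fun j : Fin b => if h : j.val < a then x ⟨j.val, h⟩ else 0)
  have hdist : ∀ x y, dist (Φ x) (Φ y) = dist x y := by
    intro x y
    rw [EuclideanSpace.dist_eq, EuclideanSpace.dist_eq]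
    congr 1
    have h1 : ∀ j : Fin b, dist ((Φ x) j) ((Φ y) j) ^ 2 =
        (fun t : ℕ => if h : t < a then dist (x ⟨t, h⟩) (y ⟨t, h⟩) ^ 2 else 0) j.val := by
      intro j
      simp only [Φ]
      split_ifs with h
      · rfl
      · simp
    rw [Finset.sum_congr rfl (fun j _ => h1 j), Fin.sum_univ_eq_sum_range
      (fun t : ℕ => if h : t < a then dist (x ⟨t, h⟩) (y ⟨t, h⟩) ^ 2 else 0) b,
      ← Finset.sum_subset (Finset.range_mono hab), Finset.sum_range]
    · apply Finset.sum_congr rfl
      intro i _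
      simp
    · intro j _ hj
      have : ¬ j < a := by simpa using hj
      simp [this]
  refine ⟨fun i => Φ (X i), ?_, ?_⟩
  · intro i j h
    apply hX
    rw [← dist_eq_zero, ← hdist]
    simp only at h
    rw [h, dist_self]
  · unfold numDist
    simp only [hdist]

open scoped MatrixOrder in
/-- almost regular simplices with prescribed squared distances `1 + δ w i j` -/
lemma exists_simplex (N T : ℕ) (w : Fin (N + 1) → Fin (N + 1) → ℕ) (hsymm : ∀ i j, w i j = w j i)
    (hw : ∀ i j, w i j ≤ T) :
    ∃ δ : ℝ, 0 < δ ∧ ∃ X : Fin (N + 1) → EuclideanSpace ℝ (Fin N),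
      ∀ i j, i ≠ j → dist (X i) (X j) ^ 2 = 1 + δ * w i j := by
  classical
  set δ : ℝ := 1 / (2 * (T * N + 1)) with hδ
  have hδ0 : 0 < δ := by positivity
  have hδ1 : δ * T * N ≤ 1 / 2 := by
    rw [hδ]
    have : (0 : ℝ) < 2 * (T * N + 1) := by positivity
    rw [one_div, mul_assoc, inv_mul_le_iff₀ this]
    linarith
  refine ⟨δ, hδ0, ?_⟩
  let u : Fin N → Fin N → ℝ := fun i j =>
    (w 0 i.succ : ℝ) + w 0 j.succ - (if i = j then 0 else (w i.succ j.succ : ℝ))
  have hwT : ∀ i j, (w i j : ℝ) ≤ T := fun i j => by exact_mod_cast hw i j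
  have hw0 : ∀ i j, (0 : ℝ) ≤ w i j := fun i j => by positivity
  have hu1 : ∀ i j, u i j ≤ 2 * T := by
    intro i j
    simp only [u]
    have h1 := hwT 0 i.succ
    have h2 := hwT 0 j.succ
    have h3 := hw0 i.succ j.succ
    split_ifs <;> linarith
  have hu2 : ∀ i j, -(2 * T) ≤ u i j := by
    intro i j
    simp only [u]
    have h1 := hw0 0 i.succ
    have h2 := hw0 0 j.succ
    have h3 := hwT i.succ j.succ
    have h4 : (0 : ℝ) ≤ T := by positivity
    split_ifs <;> linarith
  have husymm : ∀ i j, u i j = u j i := by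
    intro i j
    simp only [u]
    by_cases h : i = j
    · rw [h]
    · rw [if_neg h, if_neg (Ne.symm h), hsymm i.succ j.succ]
      ring
  let G : Matrix (Fin N) (Fin N) ℝ := Matrix.of fun i j =>
    1 / 2 + (if i = j then 1 / 2 else 0) + δ / 2 * u i j
  have hG : G.PosSemidef := by
    apply Matrix.PosSemidef.of_dotProduct_mulVec_nonneg
    · ext i j
      simp only [G, Matrix.conjTranspose_apply, Matrix.of_apply, star_trivial, husymm j i, eq_comm]
    · intro x
      simp only [dotProduct, Matrix.mulVec, star_trivial, Pi.star_apply, G, Matrix.of_apply]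
      have key : ∀ i j, x i * ((1 / 2 + (if i = j then 1 / 2 else 0) + δ / 2 * u i j) * x j) ≥
          1 / 2 * (x i * x j) + (if i = j then 1 / 2 * x i ^ 2 else 0)
            - δ / 2 * T * (x i ^ 2 + x j ^ 2) := by
        intro i j
        have h1 : u i j * (x i * x j) ≥ - (T * (x i ^ 2 + x j ^ 2)) := by
          have hT : (0 : ℝ) ≤ T := by positivity
          have h2 : |u i j * (x i * x j)| ≤ T * (x i ^ 2 + x j ^ 2) := by
            rw [abs_mul]
            have h3 : |u i j| ≤ 2 * T := abs_le.mpr ⟨hu2 i j, hu1 i j⟩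
            have h4 : |x i * x j| ≤ (x i ^ 2 + x j ^ 2) / 2 := by
              rw [abs_le]
              constructor <;> nlinarith [sq_nonneg (x i + x j), sq_nonneg (x i - x j)]
            calc |u i j| * |x i * x j| ≤ (2 * T) * ((x i ^ 2 + x j ^ 2) / 2) :=
                  mul_le_mul h3 h4 (abs_nonneg _) (by positivity)
              _ = _ := by ring
          have := neg_abs_le (u i j * (x i * x j))
          linarith
        have h2 : δ / 2 * (u i j * (x i * x j)) ≥ δ / 2 * (-(T * (x i ^ 2 + x j ^ 2))) :=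
          mul_le_mul_of_nonneg_left h1 (by positivity)
        by_cases h : i = j
        · subst h
          simp only [if_true]
          nlinarith
        · simp only [if_neg h]
          nlinarith
      have h1 : ∑ i, x i * ∑ j, (1 / 2 + (if i = j then 1 / 2 else 0) + δ / 2 * u i j) * x j ≥
          ∑ i, ∑ j, (1 / 2 * (x i * x j) + (if i = j then 1 / 2 * x i ^ 2 else 0)
            - δ / 2 * T * (x i ^ 2 + x j ^ 2)) := by
        apply Finset.sum_le_sum
        intro i _
        rw [Finset.mul_sum]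
        apply Finset.sum_le_sum
        intro j _
        exact key i j
      have h2 : ∑ i, ∑ j, (1 / 2 * (x i * x j) + (if i = j then 1 / 2 * x i ^ 2 else 0)
            - δ / 2 * T * (x i ^ 2 + x j ^ 2)) =
          1 / 2 * (∑ i, x i) ^ 2 + (1 / 2 - δ * T * N) * ∑ i, x i ^ 2 := by
        simp only [Finset.sum_sub_distrib, Finset.sum_add_distrib, ← Finset.mul_sum,
          Finset.sum_ite_eq, Finset.mem_univ, if_true, Finset.sum_const, Finset.card_univ,
          Fintype.card_fin, nsmul_eq_mul]
        rw [← Finset.sum_mul]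
        ring
      have h3 : 0 ≤ ∑ i, x i ^ 2 := Finset.sum_nonneg (fun i _ => sq_nonneg _)
      have h4 : 0 ≤ (1 / 2 - δ * T * N) * ∑ i, x i ^ 2 := mul_nonneg (by linarith) h3
      have h5 := sq_nonneg (∑ i, x i)
      linarith
  obtain ⟨B, hB⟩ := CStarAlgebra.nonneg_iff_eq_star_mul_self.mp hG.nonneg
  have hBG : ∀ i j, G i j = ∑ l, B l i * B l j := by
    intro i j
    rw [hB, Matrix.star_eq_conjTranspose, Matrix.mul_apply]
    simp
  let X : Fin (N + 1) → EuclideanSpace ℝ (Fin N) :=
    Fin.cons 0 (fun i => WithLp.toLp 2 (fun l => B l i))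
  refine ⟨X, ?_⟩
  have hsq : ∀ x y : EuclideanSpace ℝ (Fin N), dist x y ^ 2 = ∑ l, (x l - y l) ^ 2 := by
    intro x y
    rw [EuclideanSpace.dist_eq, Real.sq_sqrt (Finset.sum_nonneg (fun _ _ => sq_nonneg _))]
    simp only [Real.dist_eq, sq_abs]
  have hdiag : ∀ i, ∑ l, B l i ^ 2 = 1 + δ * w 0 i.succ := by
    intro i
    have h1 := hBG i i
    simp only [G, Matrix.of_apply, u, if_true] at h1
    simp only [← pow_two] at h1
    rw [← h1]
    ring
  have h0 : ∀ i : Fin N, dist (X 0) (X i.succ) ^ 2 = 1 + δ * w 0 i.succ := by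
    intro i
    rw [hsq, ← hdiag]
    apply Finset.sum_congr rfl
    intro l _
    simp [X]
  intro i j
  induction i using Fin.cases with
  | zero =>
    induction j using Fin.cases with
    | zero => intro h; exact absurd rfl h
    | succ j => intro _; exact h0 j
  | succ i =>
    induction j using Fin.cases with
    | zero => intro _; rw [dist_comm, hsymm]; exact h0 i
    | succ j =>
      intro hij
      have hij' : i ≠ j := fun h => hij (by rw [h])
      rw [hsq]
      have h1 : ∑ l, ((X i.succ) l - (X j.succ) l) ^ 2 =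
          ∑ l, B l i ^ 2 + ∑ l, B l j ^ 2 - 2 * ∑ l, B l i * B l j := by
        rw [Finset.mul_sum, ← Finset.sum_add_distrib, ← Finset.sum_sub_distrib]
        apply Finset.sum_congr rfl
        intro l _
        simp only [X, Fin.cons_succ]
        ring
      rw [h1, hdiag, hdiag, ← hBG]
      simp only [G, Matrix.of_apply, u, if_neg hij']
      ring

lemma exists_pair (n t : ℕ) (ht : t < n.choose 2) :
    ∃ i j : ℕ, i < j ∧ j < n ∧ j.choose 2 + i = t := by
  induction n with
  | zero => simp at ht
  | succ n ih =>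
    rcases lt_or_ge t (n.choose 2) with h | h
    · obtain ⟨i, j, h1, h2, h3⟩ := ih h
      exact ⟨i, j, h1, by omega, h3⟩
    · have h2 : (n + 1).choose 2 = n.choose 2 + n := by
        rw [Nat.choose_succ_succ' n 1, Nat.choose_one_right]
        ring
      exact ⟨t - n.choose 2, n, by omega, by omega, by omega⟩

lemma simplex_range (N m : ℕ) (h1 : 1 ≤ m) (h2 : m ≤ (N + 1).choose 2) : m ∈ D N (N + 1) := by
  classical
  let w : Fin (N + 1) → Fin (N + 1) → ℕ := fun i j =>
    min ((max i.val j.val).choose 2 + min i.val j.val) (m - 1)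
  obtain ⟨δ, hδ, X, hX⟩ := exists_simplex N (m - 1) w
    (fun i j => by simp only [w, max_comm i.val, min_comm i.val]) (fun i j => min_le_right _ _)
  refine ⟨X, ?_, ?_⟩
  · intro i j hij
    by_contra hne
    have := hX i j hne
    rw [hij, dist_self] at this
    have h3 : 0 ≤ δ * w i j := by positivity
    norm_num at this
    linarith
  · unfold numDist
    have hset : {r : ℝ | ∃ i j : Fin (N + 1), i < j ∧ r = dist (X i) (X j)} =
        (fun t : ℕ => √(1 + δ * t)) '' ((Finset.range m : Finset ℕ) : Set ℕ) := by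
      have hd : ∀ i j, i ≠ j → dist (X i) (X j) = √(1 + δ * (w i j : ℕ)) := by
        intro i j hij
        rw [← hX i j hij, Real.sqrt_sq dist_nonneg]
      ext r
      constructor
      · rintro ⟨i, j, hij, rfl⟩
        refine ⟨w i j, ?_, (hd i j hij.ne).symm⟩
        rw [Finset.mem_coe, Finset.mem_range]
        have : w i j ≤ m - 1 := min_le_right _ _
        omega
      · rintro ⟨t, ht, rfl⟩
        rw [Finset.mem_coe, Finset.mem_range] at ht
        obtain ⟨i, j, hij, hj, hijt⟩ := exists_pair (N + 1) t (by omega)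
        refine ⟨⟨i, by omega⟩, ⟨j, hj⟩, hij, ?_⟩
        rw [hd _ _ (by intro h; simp at h; omega)]
        have : w ⟨i, by omega⟩ ⟨j, hj⟩ = t := by
          simp only [w]
          rw [max_eq_right hij.le, min_eq_left hij.le, hijt]
          omega
        rw [this]
    rw [hset, Set.InjOn.ncard_image, Set.ncard_coe_finset, Finset.card_range]
    intro a _ b _ hab
    simp only at hab
    have h3 := (Real.sqrt_inj (by positivity) (by positivity)).mp hab
    have h4 : δ * (a : ℝ) = δ * b := by linarith
    have h5 := mul_left_cancel₀ hδ.ne' h4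
    exact_mod_cast h5

lemma D_high (k n : ℕ) (hn : 2 ≤ n) (hk : n ≤ k + 1) : D k n = Set.Icc 1 (n.choose 2) := by
  ext m
  rw [Set.mem_Icc]
  constructor
  · rintro ⟨X, hX, rfl⟩
    refine ⟨?_, numDist_le X⟩
    unfold numDist
    have hfin : {r : ℝ | ∃ i j : Fin n, i < j ∧ r = dist (X i) (X j)}.Finite := by
      apply Set.Finite.subset (Set.finite_range (fun p : Fin n × Fin n => dist (X p.1) (X p.2)))
      rintro r ⟨i, j, _, rfl⟩
      exact ⟨(i, j), rfl⟩
    rw [Nat.one_le_iff_ne_zero, ← Nat.pos_iff_ne_zero, Set.ncard_pos hfin]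
    exact ⟨_, ⟨0, by omega⟩, ⟨1, by omega⟩, by simp [Fin.lt_def], rfl⟩
  · rintro ⟨h1, h2⟩
    obtain ⟨N, rfl⟩ : ∃ N, n = N + 1 := ⟨n - 1, by omega⟩
    exact D_mono (by omega) _ (simplex_range N m h1 h2)

end Pool.Agent.Helper949.DD
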