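import Mathlib

set_option autoImplicit false

namespace Pool.Agent.Helper949.Digits

/-! ### Two digit functions

`dx t` reads the hexadecimal digits of `t` in base 32, `dy t` reads them in base 64. -/

/-- hexadecimal digits of `t` read in base 32 -/
def dx (t : ℕ) : ℤ := ((Nat.ofDigits 32 (Nat.digits 16 t) : ℕ) : ℤ)

/-- hexadecimal digits of `t` read in base 64 -/
def dy (t : ℕ) : ℤ := ((Nat.ofDigits 64 (Nat.digits 16 t) : ℕ) : ℤ)

lemma dx_zero : dx 0 = 0 := by simp [dx]

lemma dy_zero : dy 0 = 0 := by simp [dy]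

lemma dx_step (q r : ℕ) (hr : r < 16) : dx (16 * q + r) = 32 * dx q + r := by
  rcases Nat.eq_zero_or_pos (16 * q + r) with h | h
  · have hq : q = 0 := by omega
    have hr0 : r = 0 := by omega
    subst hq; subst hr0; simp [dx_zero]
  · unfold dx
    rw [Nat.digits_def' (by norm_num) h]
    have h1 : (16 * q + r) % 16 = r := by omega
    have h2 : (16 * q + r) / 16 = q := by omega
    rw [h1, h2, Nat.ofDigits_cons]
    push_cast
    ring

lemma dy_step (q r : ℕ) (hr : r < 16) : dy (16 * q + r) = 64 * dy q + r := by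
  rcases Nat.eq_zero_or_pos (16 * q + r) with h | h
  · have hq : q = 0 := by omega
    have hr0 : r = 0 := by omega
    subst hq; subst hr0; simp [dy_zero]
  · unfold dy
    rw [Nat.digits_def' (by norm_num) h]
    have h1 : (16 * q + r) % 16 = r := by omega
    have h2 : (16 * q + r) / 16 = q := by omega
    rw [h1, h2, Nat.ofDigits_cons]
    push_cast
    ring

/-- the linear form -/
def D (b w : ℤ) (t : ℕ) : ℤ := b * dx t - w * dy t

lemma D_succ_lt (b w : ℤ) (q r : ℕ) (hr : r < 15) :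
    D b w (16 * q + r + 1) - D b w (16 * q + r) = b - w := by
  have h1 : 16 * q + r + 1 = 16 * q + (r + 1) := by ring
  unfold D
  rw [h1, dx_step q (r + 1) (by omega), dy_step q (r + 1) (by omega), dx_step q r (by omega),
    dy_step q r (by omega)]
  push_cast
  ring

lemma D_succ_eq (b w : ℤ) (q : ℕ) :
    D b w (16 * q + 15 + 1) - D b w (16 * q + 15)
      = 32 * (D b (2 * w) (q + 1) - D b (2 * w) q) - 15 * (b - w) := by
  have h1 : 16 * q + 15 + 1 = 16 * (q + 1) + 0 := by ring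
  unfold D
  rw [h1, dx_step (q + 1) 0 (by omega), dy_step (q + 1) 0 (by omega), dx_step q 15 (by omega),
    dy_step q 15 (by omega)]
  push_cast
  ring

lemma D_inc : ∀ (J : ℕ) (b w : ℤ), 0 ≤ w → 2 ^ J * w ≤ b → 0 ≤ b → ∀ t : ℕ, t + 1 < 16 ^ J →
    b ≤ 2 * (D b w (t + 1) - D b w t) := by
  intro J
  induction J with
  | zero => intro b w _ _ _ t ht; simp at ht
  | succ J ih =>
    intro b w hw hb hb0 t ht
    obtain ⟨q, r, hr, rfl⟩ : ∃ q r, r < 16 ∧ t = 16 * q + r :=
      ⟨t / 16, t % 16, Nat.mod_lt _ (by norm_num), (Nat.div_add_mod t 16).symm⟩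
    rcases Nat.lt_or_ge r 15 with h | h
    · rw [D_succ_lt b w q r h]
      have : 2 * w ≤ 2 ^ (J + 1) * w := by
        apply mul_le_mul_of_nonneg_right _ hw
        calc (2 : ℤ) = 2 ^ 1 := by norm_num
          _ ≤ 2 ^ (J + 1) := by
            apply pow_le_pow_right₀ (by norm_num); omega
      linarith
    · have h15 : r = 15 := by omega
      subst h15
      rw [D_succ_eq b w q]
      have h3 : q + 1 < 16 ^ J := by
        have : 16 ^ (J + 1) = 16 * 16 ^ J := by ring
        omega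
      have := ih b (2 * w) (by linarith) (by rw [pow_succ] at hb; linarith) hb0 q h3
      linarith

lemma D_dec : ∀ (t : ℕ) (b w : ℤ), 0 ≤ w → b ≤ w → D b w (t + 1) - D b w t ≤ b - w := by
  intro t
  induction t using Nat.strong_induction_on with
  | _ t ih =>
    intro b w hw hb
    obtain ⟨q, r, hr, rfl⟩ : ∃ q r, r < 16 ∧ t = 16 * q + r :=
      ⟨t / 16, t % 16, Nat.mod_lt _ (by norm_num), (Nat.div_add_mod t 16).symm⟩
    rcases Nat.lt_or_ge r 15 with h | h
    · rw [D_succ_lt b w q r h]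
    · have h15 : r = 15 := by omega
      subst h15
      rw [D_succ_eq b w q]
      have := ih q (by omega) b (2 * w) (by linarith) (by linarith)
      linarith

lemma D_dec' (b w : ℤ) (hw : 0 ≤ w) (hb : b ≤ w) (t : ℕ) (n : ℕ) :
    D b w (t + n) - D b w t ≤ n * (b - w) := by
  induction n with
  | zero => simp
  | succ n ih =>
    have := D_dec (t + n) b w hw hb
    have h2 : t + (n + 1) = t + n + 1 := by ring
    rw [h2]
    push_cast
    linarith

lemma dx_bound : ∀ (s t : ℕ), t < 16 ^ s → 0 ≤ dx t ∧ 2 * dx t ≤ 32 ^ s - 1 := by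
  intro s
  induction s with
  | zero => intro t ht; have : t = 0 := by simpa using ht
            subst this; simp [dx_zero]
  | succ s ih =>
    intro t ht
    obtain ⟨q, r, hr, rfl⟩ : ∃ q r, r < 16 ∧ t = 16 * q + r :=
      ⟨t / 16, t % 16, Nat.mod_lt _ (by norm_num), (Nat.div_add_mod t 16).symm⟩
    have h3 : q < 16 ^ s := by
      have : 16 ^ (s + 1) = 16 * 16 ^ s := by ring
      omega
    obtain ⟨h4, h5⟩ := ih q h3
    rw [dx_step q r hr]
    have hr' : (r : ℤ) ≤ 15 := by exact_mod_cast (by omega : r ≤ 15)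
    have hr0 : (0 : ℤ) ≤ r := by positivity
    have h6 : (32 : ℤ) ^ (s + 1) = 32 * 32 ^ s := by ring
    constructor
    · linarith
    · rw [h6]; linarith

lemma dy_bound : ∀ (s t : ℕ), t < 16 ^ s → 0 ≤ dy t ∧ 4 * dy t ≤ 64 ^ s - 1 := by
  intro s
  induction s with
  | zero => intro t ht; have : t = 0 := by simpa using ht
            subst this; simp [dy_zero]
  | succ s ih =>
    intro t ht
    obtain ⟨q, r, hr, rfl⟩ : ∃ q r, r < 16 ∧ t = 16 * q + r :=
      ⟨t / 16, t % 16, Nat.mod_lt _ (by norm_num), (Nat.div_add_mod t 16).symm⟩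
    have h3 : q < 16 ^ s := by
      have : 16 ^ (s + 1) = 16 * 16 ^ s := by ring
      omega
    obtain ⟨h4, h5⟩ := ih q h3
    rw [dy_step q r hr]
    have hr' : (r : ℤ) ≤ 15 := by exact_mod_cast (by omega : r ≤ 15)
    have hr0 : (0 : ℤ) ≤ r := by positivity
    have h6 : (64 : ℤ) ^ (s + 1) = 64 * 64 ^ s := by ring
    constructor
    · linarith
    · rw [h6]; linarith

lemma dx_split : ∀ (s Q t : ℕ), t < 16 ^ s → dx (16 ^ s * Q + t) = 32 ^ s * dx Q + dx t := by
  intro s
  induction s with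
  | zero => intro Q t ht; have : t = 0 := by simpa using ht
            subst this; simp [dx_zero]
  | succ s ih =>
    intro Q t ht
    obtain ⟨q, r, hr, rfl⟩ : ∃ q r, r < 16 ∧ t = 16 * q + r :=
      ⟨t / 16, t % 16, Nat.mod_lt _ (by norm_num), (Nat.div_add_mod t 16).symm⟩
    have h3 : q < 16 ^ s := by
      have : 16 ^ (s + 1) = 16 * 16 ^ s := by ring
      omega
    have h7 : 16 ^ (s + 1) * Q + (16 * q + r) = 16 * (16 ^ s * Q + q) + r := by ring
    rw [h7, dx_step _ r hr, dx_step _ r hr, ih Q q h3]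
    ring

lemma dy_split : ∀ (s Q t : ℕ), t < 16 ^ s → dy (16 ^ s * Q + t) = 64 ^ s * dy Q + dy t := by
  intro s
  induction s with
  | zero => intro Q t ht; have : t = 0 := by simpa using ht
            subst this; simp [dy_zero]
  | succ s ih =>
    intro Q t ht
    obtain ⟨q, r, hr, rfl⟩ : ∃ q r, r < 16 ∧ t = 16 * q + r :=
      ⟨t / 16, t % 16, Nat.mod_lt _ (by norm_num), (Nat.div_add_mod t 16).symm⟩
    have h3 : q < 16 ^ s := by
      have : 16 ^ (s + 1) = 16 * 16 ^ s := by ring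
      omega
    have h7 : 16 ^ (s + 1) * Q + (16 * q + r) = 16 * (16 ^ s * Q + q) + r := by ring
    rw [h7, dy_step _ r hr, dy_step _ r hr, ih Q q h3]
    ring

lemma D_split (b w : ℤ) (s Q t : ℕ) (ht : t < 16 ^ s) :
    D b w (16 ^ s * Q + t) = 32 ^ s * D b (2 ^ s * w) Q + D b w t := by
  unfold D
  rw [dx_split s Q t ht, dy_split s Q t ht]
  have : (64 : ℤ) ^ s = 32 ^ s * 2 ^ s := by rw [← mul_pow]; norm_num
  rw [this]
  ring

/-- domination between different long blocks -/
lemma D_dom (b w : ℤ) (hw : 0 < w) (hb : 0 ≤ b) (s : ℕ) (hs : 2 * b ≤ 2 ^ s * w)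
    (t₁ t₂ : ℕ) (h : t₁ / 16 ^ s < t₂ / 16 ^ s) : D b w t₂ < D b w t₁ := by
  have hp : 0 < 16 ^ s := by positivity
  set Q₁ := t₁ / 16 ^ s with hQ₁
  set Q₂ := t₂ / 16 ^ s with hQ₂
  have e₁ : t₁ = 16 ^ s * Q₁ + t₁ % 16 ^ s := (Nat.div_add_mod t₁ _).symm
  have e₂ : t₂ = 16 ^ s * Q₂ + t₂ % 16 ^ s := (Nat.div_add_mod t₂ _).symm
  have l₁ : t₁ % 16 ^ s < 16 ^ s := Nat.mod_lt _ hp
  have l₂ : t₂ % 16 ^ s < 16 ^ s := Nat.mod_lt _ hp
  rw [e₁, e₂, D_split b w s Q₁ _ l₁, D_split b w s Q₂ _ l₂]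
  obtain ⟨n, hn⟩ : ∃ n, Q₂ = Q₁ + (n + 1) := ⟨Q₂ - Q₁ - 1, by omega⟩
  have hW : 0 ≤ 2 ^ s * w := by positivity
  have hbW : b ≤ 2 ^ s * w := by linarith
  have h1 := D_dec' b (2 ^ s * w) hW hbW Q₁ (n + 1)
  rw [← hn] at h1
  have h2 : ((n + 1 : ℕ) : ℤ) * (b - 2 ^ s * w) ≤ b - 2 ^ s * w := by
    have h3 : b - 2 ^ s * w ≤ 0 := by linarith
    have h4 : (1 : ℤ) ≤ ((n + 1 : ℕ) : ℤ) := by push_cast; linarith [Int.natCast_nonneg n]
    nlinarith
  obtain ⟨x1, x2⟩ := dx_bound s _ l₁
  obtain ⟨x3, x4⟩ := dx_bound s _ l₂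
  obtain ⟨y1, y2⟩ := dy_bound s _ l₁
  obtain ⟨y3, y4⟩ := dy_bound s _ l₂
  have h32 : (0 : ℤ) < 32 ^ s := by positivity
  have h64 : (64 : ℤ) ^ s = 32 ^ s * 2 ^ s := by rw [← mul_pow]; norm_num
  have h5 : (32 : ℤ) ^ s * (D b (2 ^ s * w) Q₂ - D b (2 ^ s * w) Q₁) ≤ 32 ^ s * (b - 2 ^ s * w) :=
    mul_le_mul_of_nonneg_left (by linarith) h32.le
  have h6 : 2 * D b w (t₂ % 16 ^ s) ≤ b * (32 ^ s - 1) := by
    unfold D
    nlinarith [mul_le_mul_of_nonneg_left x4 hb, mul_nonneg hw.le y3]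
  have h7 : -(w * (64 ^ s - 1)) ≤ 4 * D b w (t₁ % 16 ^ s) := by
    unfold D
    nlinarith [mul_le_mul_of_nonneg_left y2 hw.le, mul_nonneg hb x1]
  have h8 : (32 : ℤ) ^ s * (2 * b) ≤ 32 ^ s * (2 ^ s * w) := mul_le_mul_of_nonneg_left hs h32.le
  rw [h64] at h7
  nlinarith

/-- In a strictly increasing stretch there are at most two sign events. -/
lemma card_inc (h : ℕ → ℤ) (u v : ℕ) (hinc : ∀ t, u ≤ t → t < v → h t < h (t + 1))
    (S : Finset ℕ) (hS : ∀ t ∈ S, u ≤ t ∧ t < v ∧ h t * h (t + 1) ≤ 0) : S.card ≤ 2 := by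
  rcases S.eq_empty_or_nonempty with rfl | hne
  · simp
  · have hm := S.min'_mem hne
    set m := S.min' hne with hmdef
    have key : ∀ t ∈ S, h t ≤ 0 ∧ 0 ≤ h (t + 1) := by
      intro t ht
      obtain ⟨a1, a2, a3⟩ := hS t ht
      have := hinc t a1 a2
      constructor
      · by_contra hc
        push Not at hc
        nlinarith
      · by_contra hc
        push Not at hc
        nlinarith
    have mono : ∀ n t, u ≤ t → t + n < v → h t ≤ h (t + n) := by
      intro n
      induction n with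
      | zero => intro t _ _; simp
      | succ n ih =>
        intro t h1 h2
        have := ih t h1 (by omega)
        have h3 := hinc (t + n) (by omega) (by omega)
        have : t + (n + 1) = t + n + 1 := by ring
        rw [this]; linarith
    have hsub : S ⊆ {m, m + 1} := by
      intro t ht
      have hmt : m ≤ t := S.min'_le t ht
      by_contra hc
      simp only [Finset.mem_insert, Finset.mem_singleton] at hc
      push Not at hc
      obtain ⟨b1, b2, _⟩ := hS m hm
      obtain ⟨c1, c2, _⟩ := hS t ht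
      obtain ⟨n, hn⟩ : ∃ n, t = m + 2 + n := ⟨t - m - 2, by omega⟩
      have k1 := (key m hm).2
      have k2 := (key t ht).1
      have k3 := hinc (m + 1) (by omega) (by omega)
      have k4 := mono n (m + 2) (by omega) (by omega)
      rw [← hn] at k4
      have : m + 1 + 1 = m + 2 := by ring
      rw [this] at k3
      linarith
    calc S.card ≤ ({m, m + 1} : Finset ℕ).card := Finset.card_le_card hsub
      _ ≤ 2 := Finset.card_le_two

/-- main combinatorial bound, nonnegative `w` -/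
lemma card_sign_aux (a b w : ℤ) (hw : 0 ≤ w) (hne : ¬ (a = 0 ∧ b = 0 ∧ w = 0))
    (S : Finset ℕ) (hS : ∀ t ∈ S, (a + D b w t) * (a + D b w (t + 1)) ≤ 0) : S.card ≤ 771 := by
  rcases lt_or_ge b w with hbw | hbw
  · -- strictly decreasing
    have hdec : ∀ t, D b w (t + 1) < D b w t := by
      intro t; have := D_dec t b w hw hbw.le; linarith
    have := card_inc (fun t => -(a + D b w t)) 0 ((S.sup id) + 1)
      (by intro t _ _; have := hdec t; linarith) S
      (by
        intro t ht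
        refine ⟨Nat.zero_le _, Nat.lt_succ_of_le (Finset.le_sup (f := id) ht), ?_⟩
        have := hS t ht
        linarith [this, neg_mul_neg (a + D b w t) (a + D b w (t + 1))])
    omega
  · rcases hw.eq_or_lt with hw0 | hw0
    · -- w = 0
      subst hw0
      rcases hbw.eq_or_lt with hb0 | hb0
      · subst hb0
        have ha : a ≠ 0 := by
          intro h; exact hne ⟨h, rfl, rfl⟩
        have : S = ∅ := by
          rw [Finset.eq_empty_iff_forall_notMem]
          intro t ht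
          have := hS t ht
          simp only [D, zero_mul, sub_zero, add_zero] at this
          have : 0 < a * a := mul_self_pos.mpr ha
          linarith
        simp [this]
      · have hinc : ∀ t, D b 0 t < D b 0 (t + 1) := by
          intro t
          have := D_inc (t + 2) b 0 le_rfl (by simp; exact hb0.le) hb0.le t (by
            have h2 : t + 2 < 2 ^ (t + 2) := Nat.lt_two_pow_self
            have h3 : 2 ^ (t + 2) ≤ 16 ^ (t + 2) := Nat.pow_le_pow_left (by norm_num) _
            omega)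
          linarith
        have := card_inc (fun t => (a + D b 0 t)) 0 ((S.sup id) + 1)
          (by intro t _ _; have := hinc t; linarith) S
          (by
            intro t ht
            refine ⟨Nat.zero_le _, Nat.lt_succ_of_le (Finset.le_sup (f := id) ht), ?_⟩
            exact hS t ht)
        omega
    · -- w ≥ 1, b ≥ w
      obtain ⟨m, hm1, hm2⟩ : ∃ m : ℕ, 2 ^ m * w ≤ b ∧ b < 2 ^ (m + 1) * w := by
        have hex : ∃ n : ℕ, b < 2 ^ n * w := by
          refine ⟨b.toNat, ?_⟩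
          have h1 : (b.toNat : ℤ) = b := Int.toNat_of_nonneg (by linarith)
          have h2 : b.toNat < 2 ^ b.toNat := Nat.lt_two_pow_self
          have h3 : (b.toNat : ℤ) < 2 ^ b.toNat := by exact_mod_cast h2
          have h4 : (2 : ℤ) ^ b.toNat * 1 ≤ 2 ^ b.toNat * w :=
            mul_le_mul_of_nonneg_left (by linarith) (by positivity)
          linarith
        classical
        have hf := Nat.find_spec hex
        have hpos : Nat.find hex ≠ 0 := by
          intro h0
          rw [h0] at hf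
          simp at hf
          linarith
        obtain ⟨m, hm⟩ := Nat.exists_eq_succ_of_ne_zero hpos
        refine ⟨m, ?_, ?_⟩
        · have := Nat.find_min hex (m := m) (by omega)
          push Not at this
          exact this
        · rw [hm] at hf; exact hf
      have hb0 : 0 < b := by linarith
      by_cases hall : ∀ t, 0 < a + D b w t
      · have : S = ∅ := by
          rw [Finset.eq_empty_iff_forall_notMem]
          intro t ht
          have h1 := hS t ht
          have h2 := mul_pos (hall t) (hall (t + 1))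
          linarith
        simp [this]
      · push Not at hall
        classical
        have hf := Nat.find_spec hall
        have hmin : ∀ t, t < Nat.find hall → 0 < a + D b w t := by
          intro t ht
          have := Nat.find_min hall ht
          push Not at this
          exact this
        set t₀ := Nat.find hall with ht₀
        set ℓ := 16 ^ m with hℓ
        have hℓpos : 0 < ℓ := by positivity
        have hL : 16 ^ (m + 2) = 256 * ℓ := by rw [hℓ, pow_add]; ring
        set Q := t₀ / (16 ^ (m + 2)) with hQ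
        have hneg : ∀ t, (Q + 1) * (256 * ℓ) ≤ t → a + D b w t < 0 := by
          intro t ht
          have h1 : t₀ / 16 ^ (m + 2) < t / 16 ^ (m + 2) := by
            rw [← hQ]
            apply Nat.lt_of_succ_le
            rw [Nat.le_div_iff_mul_le (by positivity), hL]
            exact ht
          have h2 := D_dom b w hw0 hb0.le (m + 2) (by
            have : (2 : ℤ) ^ (m + 2) * w = 2 * (2 ^ (m + 1) * w) := by ring
            rw [this]; linarith) t₀ t h1
          linarith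
        have hQt : Q * (256 * ℓ) ≤ t₀ := by
          rw [← hL, hQ]; exact Nat.div_mul_le_self _ _
        -- location of S
        have hloc : ∀ t ∈ S, t / ℓ ∈ Finset.Icc (256 * Q - 1) (256 * Q + 255) := by
          intro t ht
          have h1 := hS t ht
          have h2 : t₀ ≤ t + 1 := by
            by_contra hc
            push Not at hc
            have := mul_pos (hmin t (by omega)) (hmin (t + 1) hc)
            linarith
          have h3 : t < (Q + 1) * (256 * ℓ) := by
            by_contra hc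
            push Not at hc
            have := mul_pos_of_neg_of_neg (hneg t hc) (hneg (t + 1) (by omega))
            linarith
          rw [Finset.mem_Icc]
          constructor
          · rw [Nat.le_div_iff_mul_le hℓpos, Nat.sub_mul]
            have : 256 * Q * ℓ = Q * (256 * ℓ) := by ring
            omega
          · have h4 : t / ℓ < 256 * Q + 256 := by
              rw [Nat.div_lt_iff_lt_mul hℓpos]
              have : (256 * Q + 256) * ℓ = (Q + 1) * (256 * ℓ) := by ring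
              omega
            omega
        have hfib : ∀ j ∈ Finset.Icc (256 * Q - 1) (256 * Q + 255),
            (S.filter (fun t => t / ℓ = j)).card ≤ 3 := by
          intro j _
          have hinc : ∀ t, ℓ * j ≤ t → t < ℓ * j + (ℓ - 1) →
              a + D b w t < a + D b w (t + 1) := by
            intro t h1 h2
            obtain ⟨i, hi⟩ : ∃ i, t = ℓ * j + i := ⟨t - ℓ * j, by omega⟩
            subst hi
            have hi1 : i + 1 < 16 ^ m := by omega
            have e1 := D_split b w m j i (by omega)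
            have e2 := D_split b w m j (i + 1) hi1
            have e3 : ℓ * j + i + 1 = 16 ^ m * j + (i + 1) := by rw [hℓ]; ring
            have e4 : ℓ * j + i = 16 ^ m * j + i := by rw [hℓ]
            rw [e3, e4, e1, e2]
            have := D_inc m b w hw hm1 hb0.le i hi1
            linarith
          have hsub : S.filter (fun t => t / ℓ = j) ⊆
              insert (ℓ * j + (ℓ - 1))
                ((S.filter (fun t => t / ℓ = j)).filter (fun t => t < ℓ * j + (ℓ - 1))) := by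
            intro t ht
            rw [Finset.mem_insert]
            by_cases h5 : t < ℓ * j + (ℓ - 1)
            · right; rw [Finset.mem_filter]; exact ⟨ht, h5⟩
            · left
              have h6 := (Finset.mem_filter.mp ht).2
              have h7 : t < ℓ * (t / ℓ) + ℓ := Nat.lt_mul_div_succ t hℓpos
              rw [h6] at h7
              omega
          have hc2 : ((S.filter (fun t => t / ℓ = j)).filter
              (fun t => t < ℓ * j + (ℓ - 1))).card ≤ 2 := by
            apply card_inc (fun t => a + D b w t) (ℓ * j) (ℓ * j + (ℓ - 1))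
            · intro t h1 h2; exact hinc t h1 h2
            · intro t ht
              rw [Finset.mem_filter, Finset.mem_filter] at ht
              refine ⟨?_, ht.2, hS t ht.1.1⟩
              have h6 := ht.1.2
              have := Nat.mul_div_le t ℓ
              rw [h6] at this
              exact this
          calc (S.filter (fun t => t / ℓ = j)).card ≤ _ := Finset.card_le_card hsub
            _ ≤ _ + 1 := Finset.card_insert_le _ _
            _ ≤ 3 := by omega
        have := Finset.card_le_mul_card_image_of_maps_to hloc 3 hfib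
        rw [Nat.card_Icc] at this
        omega

lemma card_sign (a b w : ℤ) (hne : ¬ (a = 0 ∧ b = 0 ∧ w = 0))
    (S : Finset ℕ) (hS : ∀ t ∈ S, (a + D b w t) * (a + D b w (t + 1)) ≤ 0) : S.card ≤ 771 := by
  rcases le_or_gt 0 w with hw | hw
  · exact card_sign_aux a b w hw hne S hS
  · apply card_sign_aux (-a) (-b) (-w) (by linarith)
    · intro ⟨h1, h2, h3⟩; exact hne ⟨by linarith, by linarith, by linarith⟩
    · intro t ht
      have h1 := hS t ht
      have h2 : ∀ t, D (-b) (-w) t = - D b w t := by intro t; unfold D; ring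
      rw [h2, h2]
      linarith [neg_mul_neg (a + D b w t) (a + D b w (t + 1))]

/-! ### The curves -/

/-- clamp to the unit interval -/
noncomputable def cl (x : ℝ) : ℝ := max 0 (min 1 x)

lemma cl_cont : Continuous cl := by unfold cl; fun_prop

lemma cl_of_le {x : ℝ} (h : x ≤ 0) : cl x = 0 := by
  unfold cl
  rw [min_eq_right (by linarith), max_eq_left h]

lemma cl_of_ge {x : ℝ} (h : 1 ≤ x) : cl x = 1 := by
  unfold cl
  rw [min_eq_left h, max_eq_right (by norm_num)]

lemma cl_of_mem {x : ℝ} (h0 : 0 ≤ x) (h1 : x ≤ 1) : cl x = x := by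
  unfold cl
  rw [min_eq_right h1, max_eq_right h0]

lemma sum_cl (g : ℝ → ℝ) (hg : ∀ x, x ≤ 0 → g x = 0) (A : ℕ → ℝ) (T t : ℕ) (ht : t < T) (s : ℝ)
    (h2 : s ≤ t + 1) :
    ∑ j ∈ Finset.range T, A j * g (s - j)
      = ∑ j ∈ Finset.range t, A j * g (s - j) + A t * g (s - t) := by
  obtain ⟨k, rfl⟩ : ∃ k, T = t + 1 + k := ⟨T - t - 1, by omega⟩
  rw [Finset.sum_range_add, Finset.sum_range_succ]
  have : ∑ x ∈ Finset.range k, A (t + 1 + x) * g (s - ((t + 1 + x : ℕ) : ℝ)) = 0 := by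
    apply Finset.sum_eq_zero
    intro x _
    rw [hg _ (by push_cast; linarith [Nat.cast_nonneg (α := ℝ) x]), mul_zero]
  rw [this, add_zero]

/-- the height function of a curve: an interpolation of `t ↦ a + D b w t` -/
noncomputable def F (T : ℕ) (ε : ℝ) (a b w : ℤ) (s : ℝ) : ℝ :=
  a + ∑ j ∈ Finset.range T, ((D b w (j + 1) - D b w j : ℤ) : ℝ) * cl (s - j)
    - w * ε * ∑ j ∈ Finset.range T, (1 : ℝ) * (cl (s - j) * (1 - cl (s - j)))

lemma F_cont (T : ℕ) (ε : ℝ) (a b w : ℤ) : Continuous (F T ε a b w) := by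
  unfold F
  have := cl_cont
  fun_prop

lemma F_eval (T : ℕ) (ε : ℝ) (a b w : ℤ) (t : ℕ) (ht : t < T) (s : ℝ)
    (h1 : (t : ℝ) ≤ s) (h2 : s ≤ t + 1) :
    F T ε a b w s = ((a + D b w t : ℤ) : ℝ)
      + (((a + D b w (t + 1)) - (a + D b w t) : ℤ) : ℝ) * (s - t)
      - w * ε * ((s - t) * (1 - (s - t))) := by
  unfold F
  rw [sum_cl cl (fun x hx => cl_of_le hx) _ T t ht s h2,
    sum_cl (fun x => cl x * (1 - cl x)) (fun x hx => by rw [cl_of_le hx]; ring) _ T t ht
      s h2]
  have e1 : ∑ j ∈ Finset.range t, ((D b w (j + 1) - D b w j : ℤ) : ℝ) * cl (s - j)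
      = ((D b w t : ℤ) : ℝ) := by
    have : ∀ j ∈ Finset.range t, ((D b w (j + 1) - D b w j : ℤ) : ℝ) * cl (s - j)
        = ((D b w (j + 1) : ℤ) : ℝ) - ((D b w j : ℤ) : ℝ) := by
      intro j hj
      have hj' : j + 1 ≤ t := Finset.mem_range.mp hj
      have : ((j : ℝ) + 1) ≤ t := by exact_mod_cast hj'
      rw [cl_of_ge (by linarith)]
      push_cast; ring
    rw [Finset.sum_congr rfl this, Finset.sum_range_sub (fun j => ((D b w j : ℤ) : ℝ))]
    simp [D, dx_zero, dy_zero]
  have e2 : ∑ j ∈ Finset.range t, (1 : ℝ) * (cl (s - j) * (1 - cl (s - j))) = 0 := by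
    apply Finset.sum_eq_zero
    intro j hj
    have hj' : j + 1 ≤ t := Finset.mem_range.mp hj
    have : ((j : ℝ) + 1) ≤ t := by exact_mod_cast hj'
    rw [cl_of_ge (by linarith)]
    ring
  rw [e1, e2, cl_of_mem (by linarith) (by linarith)]
  push_cast
  ring

lemma F_sub (T : ℕ) (ε : ℝ) (a b w a' b' w' : ℤ) (s : ℝ) :
    F T ε a b w s - F T ε a' b' w' s = F T ε (a - a') (b - b') (w - w') s := by
  unfold F
  have e1 : ∀ j : ℕ, ((D (b - b') (w - w') (j + 1) - D (b - b') (w - w') j : ℤ) : ℝ) * cl (s - j)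
      = ((D b w (j + 1) - D b w j : ℤ) : ℝ) * cl (s - j)
        - ((D b' w' (j + 1) - D b' w' j : ℤ) : ℝ) * cl (s - j) := by
    intro j
    unfold D
    push_cast
    ring
  simp only [e1, Finset.sum_sub_distrib]
  push_cast
  ring

lemma dx_lt (t : ℕ) : dx t < dx (t + 1) := by
  have := D_inc (t + 2) 1 0 le_rfl (by simp) (by norm_num) t (by
    have h2 : t + 2 < 2 ^ (t + 2) := Nat.lt_two_pow_self
    have h3 : 2 ^ (t + 2) ≤ 16 ^ (t + 2) := Nat.pow_le_pow_left (by norm_num) _
    omega)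
  unfold D at this
  linarith

/-- the quadratic polynomial describing a height difference on one unit interval -/
noncomputable def pol (ε : ℝ) (a b w : ℤ) (t : ℕ) : Polynomial ℝ :=
  Polynomial.C ((a + D b w t : ℤ) : ℝ)
    + Polynomial.C ((((a + D b w (t + 1)) - (a + D b w t) : ℤ)) : ℝ)
        * (Polynomial.X - Polynomial.C (t : ℝ))
    - Polynomial.C ((w : ℝ) * ε) * ((Polynomial.X - Polynomial.C (t : ℝ))
        * (1 - (Polynomial.X - Polynomial.C (t : ℝ))))

lemma pol_eval (ε : ℝ) (a b w : ℤ) (t : ℕ) (s : ℝ) :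
    (pol ε a b w t).eval s = ((a + D b w t : ℤ) : ℝ)
      + (((a + D b w (t + 1)) - (a + D b w t) : ℤ) : ℝ) * (s - t)
      - w * ε * ((s - t) * (1 - (s - t))) := by
  simp [pol]

lemma pol_deg (ε : ℝ) (a b w : ℤ) (t : ℕ) : (pol ε a b w t).natDegree ≤ 2 := by
  unfold pol
  compute_degree

lemma pol_ne (ε : ℝ) (hε : 0 < ε) (a b w : ℤ) (hne : ¬ (a = 0 ∧ b = 0 ∧ w = 0)) (t : ℕ) :
    pol ε a b w t ≠ 0 := by
  intro h0
  have h1 := pol_eval ε a b w t t
  have h2 := pol_eval ε a b w t (t + 1)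
  have h3 := pol_eval ε a b w t (t + 1 / 2)
  rw [h0] at h1 h2 h3
  simp only [Polynomial.eval_zero] at h1 h2 h3
  have e1 : ((a + D b w t : ℤ) : ℝ) = 0 := by linarith
  rw [e1] at h2 h3
  have e2 : (((a + D b w (t + 1)) - (a + D b w t) : ℤ) : ℝ) = 0 := by linarith
  rw [e2] at h3
  have e3 : (w : ℝ) * ε = 0 := by linarith
  have e4 : w = 0 := by
    rcases mul_eq_zero.mp e3 with h | h
    · exact_mod_cast h
    · exact absurd h hε.ne'
  subst e4
  have e5 : a + D b 0 t = 0 := by exact_mod_cast e1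
  have e6 : (a + D b 0 (t + 1)) - (a + D b 0 t) = 0 := by exact_mod_cast e2
  have e7 : b * (dx (t + 1) - dx t) = 0 := by
    unfold D at e6; linarith
  have e8 : b = 0 := by
    rcases mul_eq_zero.mp e7 with h | h
    · exact h
    · have := dx_lt t; omega
  subst e8
  apply hne
  refine ⟨?_, rfl, rfl⟩
  unfold D at e5
  linarith

lemma zero_encard (T : ℕ) (hT : 0 < T) (ε : ℝ) (hε : 0 < ε) (a b w : ℤ)
    (hw : |(w : ℝ)| * ε ≤ 1) (hne : ¬ (a = 0 ∧ b = 0 ∧ w = 0)) :
    {s : ℝ | s ∈ Set.Icc (0 : ℝ) T ∧ F T ε a b w s = 0}.encard ≤ (1542 : ℕ) := by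
  classical
  set S := (Finset.range T).filter (fun t => (a + D b w t) * (a + D b w (t + 1)) ≤ 0) with hS
  have hcard : S.card ≤ 771 := card_sign a b w hne S (by
    intro t ht; exact (Finset.mem_filter.mp ht).2)
  have hsub : {s : ℝ | s ∈ Set.Icc (0 : ℝ) T ∧ F T ε a b w s = 0} ⊆
      ((S.biUnion (fun t => (pol ε a b w t).roots.toFinset) : Finset ℝ) : Set ℝ) := by
    rintro s ⟨⟨hs0, hsT⟩, hs⟩
    obtain ⟨t, htT, ht1, ht2⟩ : ∃ t : ℕ, t < T ∧ (t : ℝ) ≤ s ∧ s ≤ t + 1 := by
      rcases lt_or_ge ⌊s⌋₊ T with h | h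
      · exact ⟨⌊s⌋₊, h, Nat.floor_le hs0, (Nat.lt_floor_add_one s).le⟩
      · refine ⟨T - 1, by omega, ?_, ?_⟩
        · have h1 : (T : ℝ) ≤ ⌊s⌋₊ := by exact_mod_cast h
          have h2 := Nat.floor_le hs0
          have h3 : ((T - 1 : ℕ) : ℝ) ≤ T := by exact_mod_cast Nat.sub_le _ _
          linarith
        · have h3 : ((T - 1 : ℕ) : ℝ) + 1 = T := by
            have : T - 1 + 1 = T := by omega
            exact_mod_cast this
          linarith
    have hev := F_eval T ε a b w t htT s ht1 ht2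
    rw [hs] at hev
    rw [Finset.mem_coe, Finset.mem_biUnion]
    refine ⟨t, ?_, ?_⟩
    · rw [hS, Finset.mem_filter]
      refine ⟨Finset.mem_range.mpr htT, ?_⟩
      by_contra hc
      push Not at hc
      set p := a + D b w t with hp
      set q := a + D b w (t + 1) with hq
      set τ := s - t with hτ
      have τ0 : 0 ≤ τ := by linarith
      have τ1 : τ ≤ 1 := by linarith
      have hwb1 : (w : ℝ) * ε ≤ 1 := by
        have := le_abs_self (w : ℝ)
        nlinarith
      have hwb2 : -1 ≤ (w : ℝ) * ε := by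
        have := neg_abs_le (w : ℝ)
        nlinarith
      have τ2 : τ * (1 - τ) ≤ 1 / 4 := by nlinarith [sq_nonneg (τ - 1 / 2)]
      have τ3 : 0 ≤ τ * (1 - τ) := mul_nonneg τ0 (by linarith)
      rcases (mul_pos_iff.mp hc) with ⟨h1, h2⟩ | ⟨h1, h2⟩
      · have p1 : (1 : ℝ) ≤ p := by exact_mod_cast h1
        have q1 : (1 : ℝ) ≤ q := by exact_mod_cast h2
        push_cast at hev
        nlinarith [mul_nonneg (by linarith : (0 : ℝ) ≤ 1 - τ) (by linarith : (0 : ℝ) ≤ (p : ℝ) - 1),
          mul_nonneg τ0 (by linarith : (0 : ℝ) ≤ (q : ℝ) - 1),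
          mul_nonneg τ3 (by linarith : (0 : ℝ) ≤ 1 - (w : ℝ) * ε)]
      · have p1 : (p : ℝ) ≤ -1 := by exact_mod_cast (by omega : p ≤ -1)
        have q1 : (q : ℝ) ≤ -1 := by exact_mod_cast (by omega : q ≤ -1)
        push_cast at hev
        nlinarith [mul_nonneg (by linarith : (0 : ℝ) ≤ 1 - τ) (by linarith : (0 : ℝ) ≤ -(p : ℝ) - 1),
          mul_nonneg τ0 (by linarith : (0 : ℝ) ≤ -(q : ℝ) - 1),
          mul_nonneg τ3 (by linarith : (0 : ℝ) ≤ 1 + (w : ℝ) * ε)]
    · rw [Multiset.mem_toFinset, Polynomial.mem_roots (pol_ne ε hε a b w hne t), Polynomial.IsRoot,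
        pol_eval]
      linarith
  calc _ ≤ ((S.biUnion (fun t => (pol ε a b w t).roots.toFinset) : Finset ℝ) : Set ℝ).encard :=
        Set.encard_le_encard hsub
    _ = ((S.biUnion (fun t => (pol ε a b w t).roots.toFinset)).card : ℕ∞) :=
        Set.encard_coe_eq_coe_finsetCard _
    _ ≤ ((S.card * 2 : ℕ) : ℕ∞) := by
        apply Nat.cast_le.mpr
        apply Finset.card_biUnion_le_card_mul
        intro t _
        calc _ ≤ Multiset.card (pol ε a b w t).roots := Multiset.toFinset_card_le _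
          _ ≤ (pol ε a b w t).natDegree := Polynomial.card_roots' _
          _ ≤ 2 := pol_deg ε a b w t
    _ ≤ ((1542 : ℕ) : ℕ∞) := by
        apply Nat.cast_le.mpr
        omega

/-- the curve with parameters `a b w` -/
def curve (T : ℕ) (ε : ℝ) (a b w : ℤ) : Set (ℝ × ℝ) :=
  (fun s : ℝ => (s, F T ε a b w s)) '' Set.Icc (0 : ℝ) T

lemma curve_arc (T : ℕ) (hT : 0 < T) (ε : ℝ) (a b w : ℤ) :
    ∃ f : unitInterval → ℝ × ℝ, Continuous f ∧ Function.Injective f ∧
      Set.range f = curve T ε a b w := by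
  have hT' : (0 : ℝ) < T := by exact_mod_cast hT
  refine ⟨fun u => ((T : ℝ) * u, F T ε a b w ((T : ℝ) * u)), ?_, ?_, ?_⟩
  · have := F_cont T ε a b w
    fun_prop
  · intro u v huv
    have h1 : (T : ℝ) * u = T * v := congrArg Prod.fst huv
    exact Subtype.ext (mul_left_cancel₀ hT'.ne' h1)
  · ext x
    constructor
    · rintro ⟨u, rfl⟩
      refine ⟨(T : ℝ) * u, ⟨mul_nonneg hT'.le u.2.1, ?_⟩, rfl⟩
      calc (T : ℝ) * u ≤ T * 1 := mul_le_mul_of_nonneg_left u.2.2 hT'.le
        _ = T := mul_one _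
    · rintro ⟨s, ⟨h0, h1⟩, rfl⟩
      refine ⟨⟨s / T, div_nonneg h0 hT'.le, (div_le_one hT').mpr h1⟩, ?_⟩
      have : (T : ℝ) * (s / T) = s := by field_simp
      simp only [this]

lemma curve_infinite (T : ℕ) (hT : 0 < T) (ε : ℝ) (a b w : ℤ) : (curve T ε a b w).Infinite := by
  have hT' : (0 : ℝ) < T := by exact_mod_cast hT
  apply Set.Infinite.image
  · intro s _ s' _ h
    exact congrArg Prod.fst h
  · exact Set.Icc_infinite hT'

lemma curve_inter (T : ℕ) (hT : 0 < T) (ε : ℝ) (hε : 0 < ε) (a b w a' b' w' : ℤ)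
    (hw : |((w - w' : ℤ) : ℝ)| * ε ≤ 1) (hne : ¬ (a = a' ∧ b = b' ∧ w = w')) :
    (curve T ε a b w ∩ curve T ε a' b' w').encard ≤ (1542 : ℕ) := by
  have hsub : curve T ε a b w ∩ curve T ε a' b' w' ⊆ (fun s : ℝ => (s, F T ε a b w s)) ''
      {s : ℝ | s ∈ Set.Icc (0 : ℝ) T ∧ F T ε (a - a') (b - b') (w - w') s = 0} := by
    rintro x ⟨⟨s, hs, rfl⟩, ⟨s', hs', h⟩⟩
    have h1 : s' = s := congrArg Prod.fst h
    have h2 : F T ε a' b' w' s' = F T ε a b w s := congrArg Prod.snd h
    rw [h1] at h2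
    exact ⟨s, ⟨hs, by rw [← F_sub]; linarith⟩, rfl⟩
  calc _ ≤ _ := Set.encard_le_encard hsub
    _ ≤ _ := Set.encard_image_le _ _
    _ ≤ _ := zero_encard T hT ε hε _ _ _ hw (by
      intro ⟨h1, h2, h3⟩; exact hne ⟨by linarith, by linarith, by linarith⟩)

lemma mem_curve (T : ℕ) (ε : ℝ) (a b w : ℤ) (t : ℕ) (ht : t < T) :
    (((t : ℕ) : ℝ), ((a + D b w t : ℤ) : ℝ)) ∈ curve T ε a b w := by
  refine ⟨(t : ℝ), ⟨Nat.cast_nonneg _, by exact_mod_cast ht.le⟩, ?_⟩
  have := F_eval T ε a b w t ht t le_rfl (by linarith)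
  simp only [this]
  simp

lemma config (κ : ℕ) : ∃ (P : Finset (ℝ × ℝ)) (Γ : Finset (Set (ℝ × ℝ))),
    (∀ γ ∈ Γ, ∃ f : unitInterval → ℝ × ℝ,
      Continuous f ∧ Function.Injective f ∧ Set.range f = γ) ∧
    (∀ γ ∈ Γ, ∀ x ∈ γ, 0 ≤ x.1 ∧ x.1 ≤ 2 ^ (24 * κ)) ∧
    (∀ γ₁ ∈ Γ, ∀ γ₂ ∈ Γ, γ₁ ≠ γ₂ → (γ₁ ∩ γ₂).encard ≤ (1542 : ℕ)) ∧
    P.card = 2 ^ (69 * κ + 3) ∧ Γ.card = 2 ^ (69 * κ + 3) ∧
    2 ^ (69 * κ + 3) * 2 ^ (24 * κ) ≤
      {x : (ℝ × ℝ) × Set (ℝ × ℝ) | x.1 ∈ P ∧ x.2 ∈ Γ ∧ x.1 ∈ x.2}.ncard := by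
  classical
  obtain ⟨J, hJ⟩ : ∃ J, J = 6 * κ := ⟨_, rfl⟩
  obtain ⟨T, hT⟩ : ∃ T, T = 16 ^ J := ⟨_, rfl⟩
  obtain ⟨W, hW⟩ : ∃ W, W = 2 * 512 ^ κ := ⟨_, rfl⟩
  have hTpos : 0 < T := by rw [hT]; positivity
  have hWpos : 0 < W := by rw [hW]; positivity
  have hWR : (0 : ℝ) < W := by exact_mod_cast hWpos
  obtain ⟨ε, hε⟩ : ∃ ε : ℝ, ε = 1 / W := ⟨_, rfl⟩
  have hεpos : 0 < ε := by rw [hε]; positivity
  -- powers of two
  have eW : W = 2 ^ (9 * κ + 1) := by
    rw [hW, pow_add, pow_mul]; norm_num [mul_comm]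
  have eT : T = 2 ^ (24 * κ) := by
    rw [hT, hJ, pow_mul, pow_mul]; norm_num
  have e64 : (64 : ℕ) ^ J = 2 ^ (36 * κ) := by
    rw [hJ, pow_mul, pow_mul]; norm_num
  have e2 : (2 : ℕ) ^ J = 2 ^ (6 * κ) := by
    rw [hJ]
  set I : Finset (ℕ × ℕ × ℕ) :=
    Finset.range (W * 64 ^ J) ×ˢ (Finset.range (W * 2 ^ J) ×ˢ Finset.range W) with hI
  have hIcard : I.card = 2 ^ (69 * κ + 3) := by
    rw [hI, Finset.card_product, Finset.card_product, Finset.card_range, Finset.card_range,
      Finset.card_range, eW, e64, e2]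
    rw [← pow_add, ← pow_add, ← pow_add, ← pow_add]
    congr 1
    ring
  let cv : ℕ × ℕ × ℕ → Set (ℝ × ℝ) := fun p => curve T ε (p.1 : ℤ) (p.2.1 : ℤ) (p.2.2 : ℤ)
  have hinter : ∀ p ∈ I, ∀ q ∈ I, p ≠ q → (cv p ∩ cv q).encard ≤ (1542 : ℕ) := by
    intro p hp q hq hpq
    apply curve_inter T hTpos ε hεpos
    · rw [hI, Finset.mem_product, Finset.mem_product, Finset.mem_range, Finset.mem_range,
        Finset.mem_range] at hp hq
      have h1 : ((p.2.2 : ℕ) : ℝ) ≤ W := by exact_mod_cast hp.2.2.le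
      have h2 : ((q.2.2 : ℕ) : ℝ) ≤ W := by exact_mod_cast hq.2.2.le
      have h3 : (0 : ℝ) ≤ ((p.2.2 : ℕ) : ℝ) := Nat.cast_nonneg _
      have h4 : (0 : ℝ) ≤ ((q.2.2 : ℕ) : ℝ) := Nat.cast_nonneg _
      have h5 : |(((p.2.2 : ℤ) - (q.2.2 : ℤ) : ℤ) : ℝ)| ≤ W := by
        push_cast
        rw [abs_le]
        constructor <;> linarith
      calc _ ≤ (W : ℝ) * ε := mul_le_mul_of_nonneg_right h5 hεpos.le
        _ = 1 := by rw [hε]; field_simp
    · rintro ⟨h1, h2, h3⟩
      apply hpq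
      have h1' : p.1 = q.1 := by exact_mod_cast h1
      have h2' : p.2.1 = q.2.1 := by exact_mod_cast h2
      have h3' : p.2.2 = q.2.2 := by exact_mod_cast h3
      exact Prod.ext h1' (Prod.ext h2' h3')
  have hinj : Set.InjOn cv (I : Set (ℕ × ℕ × ℕ)) := by
    intro p hp q hq hpq
    by_contra hne
    have h1 := hinter p hp q hq hne
    rw [← hpq, Set.inter_self] at h1
    have h2 : (cv p).encard = ⊤ := (curve_infinite T hTpos ε _ _ _).encard_eq
    rw [h2] at h1
    exact absurd h1 (by simp)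
  set Γ := I.image cv with hΓ
  have hΓcard : Γ.card = 2 ^ (69 * κ + 3) := by
    rw [hΓ, Finset.card_image_of_injOn hinj, hIcard]
  set P₀ : Finset (ℝ × ℝ) := (Finset.range T ×ˢ
    Finset.Ico (-(W * 64 ^ J : ℤ)) (2 * (W * 64 ^ J : ℤ))).image
      (fun x : ℕ × ℤ => ((x.1 : ℝ), (x.2 : ℝ))) with hP₀
  have hP₀card : P₀.card ≤ 2 ^ (69 * κ + 3) := by
    calc P₀.card ≤ _ := Finset.card_image_le
      _ = T * (3 * (W * 64 ^ J)) := by
        rw [Finset.card_product, Finset.card_range, Int.card_Ico]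
        congr 1
        have : (2 * (W * 64 ^ J : ℤ) - -(W * 64 ^ J : ℤ)) = ((3 * (W * 64 ^ J) : ℕ) : ℤ) := by
          push_cast; ring
        rw [this, Int.toNat_natCast]
      _ ≤ 2 ^ (69 * κ + 3) := by
        rw [eT, eW, e64]
        have : 2 ^ (24 * κ) * (3 * (2 ^ (9 * κ + 1) * 2 ^ (36 * κ))) = 3 * 2 ^ (69 * κ + 1) := by
          rw [show 69 * κ + 1 = 24 * κ + (9 * κ + 1) + 36 * κ by ring, pow_add, pow_add]
          ring
        rw [this, show 69 * κ + 3 = (69 * κ + 1) + 2 by ring, pow_add 2 (69 * κ + 1) 2]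
        nlinarith [pow_pos (show (0 : ℕ) < 2 by norm_num) (69 * κ + 1)]
  obtain ⟨P, hPsub, hPcard⟩ := Infinite.exists_superset_card_eq P₀ _ hP₀card
  refine ⟨P, Γ, ?_, ?_, ?_, hPcard, hΓcard, ?_⟩
  · intro γ hγ
    rw [hΓ, Finset.mem_image] at hγ
    obtain ⟨p, _, rfl⟩ := hγ
    exact curve_arc T hTpos ε _ _ _
  · intro γ hγ x hx
    rw [hΓ, Finset.mem_image] at hγ
    obtain ⟨p, _, rfl⟩ := hγ
    obtain ⟨s, ⟨h0, h1⟩, rfl⟩ := hx
    refine ⟨h0, h1.trans ?_⟩
    rw [eT]; push_cast; exact le_rfl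
  · intro γ₁ h₁ γ₂ h₂ hne
    rw [hΓ, Finset.mem_image] at h₁ h₂
    obtain ⟨p, hp, rfl⟩ := h₁
    obtain ⟨q, hq, rfl⟩ := h₂
    exact hinter p hp q hq (fun h => hne (by rw [h]))
  · let g : (ℕ × ℕ × ℕ) × ℕ → (ℝ × ℝ) × Set (ℝ × ℝ) := fun x =>
      (((x.2 : ℝ), (((x.1.1 : ℤ) + D (x.1.2.1 : ℤ) (x.1.2.2 : ℤ) x.2 : ℤ) : ℝ)), cv x.1)
    have hginj : Set.InjOn g ((I ×ˢ Finset.range T : Finset _) : Set ((ℕ × ℕ × ℕ) × ℕ)) := by
      intro x hx y hy hxy
      rw [Finset.mem_coe, Finset.mem_product] at hx hy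
      have h1 : cv x.1 = cv y.1 := congrArg Prod.snd hxy
      have h2 : (x.2 : ℝ) = (y.2 : ℝ) := congrArg (fun z => z.1.1) hxy
      exact Prod.ext (hinj hx.1 hy.1 h1) (by exact_mod_cast h2)
    have hcard : ((I ×ˢ Finset.range T).image g).card = 2 ^ (69 * κ + 3) * 2 ^ (24 * κ) := by
      rw [Finset.card_image_of_injOn hginj, Finset.card_product, hIcard, Finset.card_range, eT]
    rw [← hcard, ← Set.ncard_coe_finset]
    apply Set.ncard_le_ncard
    · intro z hz
      rw [Finset.mem_coe, Finset.mem_image] at hz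
      obtain ⟨x, hx, rfl⟩ := hz
      rw [Finset.mem_product, Finset.mem_range] at hx
      refine ⟨hPsub ?_, ?_, ?_⟩
      · rw [hP₀, Finset.mem_image]
        refine ⟨(x.2, (x.1.1 : ℤ) + D (x.1.2.1 : ℤ) (x.1.2.2 : ℤ) x.2), ?_, rfl⟩
        rw [Finset.mem_product, Finset.mem_range, Finset.mem_Ico]
        refine ⟨hx.2, ?_⟩
        have h1 := hx.1
        rw [hI, Finset.mem_product, Finset.mem_product, Finset.mem_range, Finset.mem_range,
          Finset.mem_range] at h1
        obtain ⟨a1, b1, w1⟩ := h1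
        obtain ⟨x1, x2⟩ := dx_bound J x.2 (by rw [← hT]; exact hx.2)
        obtain ⟨y1, y2⟩ := dy_bound J x.2 (by rw [← hT]; exact hx.2)
        have a1' : (x.1.1 : ℤ) < W * 64 ^ J := by exact_mod_cast a1
        have b1' : (x.1.2.1 : ℤ) < W * 2 ^ J := by exact_mod_cast b1
        have w1' : (x.1.2.2 : ℤ) < W := by exact_mod_cast w1
        have a0 : (0 : ℤ) ≤ (x.1.1 : ℤ) := Int.natCast_nonneg _
        have b0 : (0 : ℤ) ≤ (x.1.2.1 : ℤ) := Int.natCast_nonneg _
        have w0 : (0 : ℤ) ≤ (x.1.2.2 : ℤ) := Int.natCast_nonneg _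
        have W0 : (0 : ℤ) < W := by exact_mod_cast hWpos
        have k1 : (x.1.2.1 : ℤ) * dx x.2 ≤ W * 64 ^ J := by
          have h64 : (64 : ℤ) ^ J = 2 ^ J * 32 ^ J := by rw [← mul_pow]; norm_num
          calc (x.1.2.1 : ℤ) * dx x.2 ≤ (W * 2 ^ J) * 32 ^ J :=
                mul_le_mul b1'.le (by linarith) x1 (by positivity)
            _ = W * 64 ^ J := by rw [h64]; ring
        have k2 : (x.1.2.2 : ℤ) * dy x.2 ≤ W * 64 ^ J :=
          mul_le_mul w1'.le (by linarith) y1 W0.le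
        have k3 : 0 ≤ (x.1.2.1 : ℤ) * dx x.2 := mul_nonneg b0 x1
        have k4 : 0 ≤ (x.1.2.2 : ℤ) * dy x.2 := mul_nonneg w0 y1
        unfold D
        constructor <;> linarith
      · rw [hΓ]; exact Finset.mem_image_of_mem _ hx.1
      · exact mem_curve T ε _ _ _ _ hx.2
    · apply Set.Finite.subset ((P ×ˢ Γ).finite_toSet)
      rintro x ⟨h1, h2, _⟩
      rw [Finset.mem_coe, Finset.mem_product]
      exact ⟨h1, h2⟩

end Pool.Agent.Helper949.Digits
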