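import Mathlib
import Pool.Agent.Helper949.DD2
import Pool.Agent.Helper949.BBS

set_option autoImplicit false

namespace Pool.Agent.Helper949.DD

open Finset

/-- absolute differences of a finite set of integers -/
def adiff (A : Finset ℤ) : Set ℕ := {d | ∃ a ∈ A, ∃ b ∈ A, a ≠ b ∧ d = (a - b).natAbs}

lemma adiff_finite (A : Finset ℤ) : (adiff A).Finite := by
  classical
  apply Set.Finite.subset (Finset.finite_toSet ((A ×ˢ A).image (fun p => (p.1 - p.2).natAbs)))
  rintro d ⟨a, ha, b, hb, _, rfl⟩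
  simp only [Finset.coe_image, Set.mem_image, Finset.mem_coe, Finset.mem_product, Prod.exists]
  exact ⟨a, b, ⟨ha, hb⟩, rfl⟩

lemma adiff_pos {A : Finset ℤ} {d : ℕ} (hd : d ∈ adiff A) : 1 ≤ d := by
  obtain ⟨a, _, b, _, hab, rfl⟩ := hd
  have : a - b ≠ 0 := sub_ne_zero.mpr hab
  omega

/-- shifted sets of naturals as axis sets -/
lemma axis_of_nat (j d : ℕ) (hj : 1 ≤ j) (h1 : j - 1 ≤ d) (h2 : d ≤ j.choose 2) :
    ∃ A : Finset ℤ, 0 ∉ A ∧ A.card = j ∧ (A.image Int.natAbs).card + (adiff A).ncard = j + d := by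
  classical
  obtain ⟨n, rfl⟩ : ∃ n, j = n + 1 := ⟨j - 1, by omega⟩
  obtain ⟨B, hB1, hB2⟩ := line_sets n d (by omega) h2
  have hinj : Function.Injective (fun x : ℕ => (x : ℤ) + 1) := by
    intro x y h
    simp only at h
    omega
  refine ⟨B.image (fun x : ℕ => (x : ℤ) + 1), ?_, ?_, ?_⟩
  · simp only [Finset.mem_image, not_exists, not_and]
    intro x _
    omega
  · rw [Finset.card_image_of_injective _ hinj, hB1]
  · have h3 : ((B.image (fun x : ℕ => (x : ℤ) + 1)).image Int.natAbs).card = n + 1 := by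
      rw [Finset.image_image, Finset.card_image_of_injOn, hB1]
      intro x _ y _ h
      simp only [Function.comp_apply] at h
      omega
    have h4 : adiff (B.image (fun x : ℕ => (x : ℤ) + 1)) = diffs B := by
      ext d
      constructor
      · rintro ⟨a, ha, b, hb, hab, rfl⟩
        obtain ⟨x, hx, rfl⟩ := Finset.mem_image.mp ha
        obtain ⟨y, hy, rfl⟩ := Finset.mem_image.mp hb
        rcases lt_trichotomy x y with h | h | h
        · exact ⟨x, hx, y, hy, h, by omega⟩
        · exact absurd (by rw [h]) hab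
        · exact ⟨y, hy, x, hx, h, by omega⟩
      · rintro ⟨x, hx, y, hy, hxy, rfl⟩
        exact ⟨_, Finset.mem_image_of_mem _ hx, _, Finset.mem_image_of_mem _ hy, by omega, by omega⟩
    rw [h3, h4, hB2]

/-- axis sets with prescribed number of new distances -/
lemma exists_axis (q : ℕ) (hq : 1 ≤ q) :
    ∃ A : Finset ℤ, 0 ∉ A ∧ A.card ≤ q ∧ (A.image Int.natAbs).card + (adiff A).ncard = q := by
  classical
  rcases Nat.even_or_odd' q with ⟨c, hc | hc⟩
  · -- q = 2 c
    rcases Nat.lt_or_ge c 3 with h3 | h3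
    · have : c = 1 ∨ c = 2 := by omega
      rcases this with rfl | rfl
      · refine ⟨{-1, 1}, by decide, by rw [hc]; decide, ?_⟩
        have h4 : adiff {-1, 1} = {2} := by
          ext d
          simp only [adiff, Finset.mem_insert, Finset.mem_singleton, Set.mem_singleton_iff]
          constructor
          · rintro ⟨a, ha, b, hb, hab, rfl⟩
            rcases ha with rfl | rfl <;> rcases hb with rfl | rfl <;> simp_all
          · rintro rfl
            exact ⟨-1, by simp, 1, by simp, by decide, by decide⟩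
        rw [h4, Set.ncard_singleton, hc]
        decide
      · refine ⟨{-1, 1, 3}, by decide, by rw [hc]; decide, ?_⟩
        have h4 : adiff {-1, 1, 3} = {2, 4} := by
          ext d
          simp only [adiff, Finset.mem_insert, Finset.mem_singleton, Set.mem_insert_iff,
            Set.mem_singleton_iff]
          constructor
          · rintro ⟨a, ha, b, hb, hab, rfl⟩
            rcases ha with rfl | rfl | rfl <;> rcases hb with rfl | rfl | rfl <;> simp_all
          · rintro (rfl | rfl)
            · exact ⟨-1, by simp, 1, by simp, by decide, by decide⟩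
            · exact ⟨-1, by simp, 3, by simp, by decide, by decide⟩
        rw [h4, Set.ncard_pair (by decide), hc]
        decide
    · have h5 : c ≤ c.choose 2 := by
        have := Nat.choose_two_right c
        rw [this, Nat.le_div_iff_mul_le (by norm_num)]
        exact Nat.mul_le_mul_left _ (by omega)
      obtain ⟨A, hA1, hA2, hA3⟩ := axis_of_nat c c (by omega) (by omega) h5
      exact ⟨A, hA1, by omega, by omega⟩
  · have h5 : c ≤ (c + 1).choose 2 := by
      have := Nat.choose_two_right (c + 1)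
      rw [this, Nat.le_div_iff_mul_le (by norm_num), Nat.add_sub_cancel]
      rcases Nat.eq_zero_or_pos c with h | h
      · simp [h]
      · nlinarith
    obtain ⟨A, hA1, hA2, hA3⟩ := axis_of_nat (c + 1) c (by omega) (by omega) h5
    exact ⟨A, hA1, by omega, by omega⟩

/-- scaled indicator vector -/
def ind {k : ℕ} (S : Finset (Fin k)) : Fin k → ℤ := fun i => if i ∈ S then (k : ℤ) else 0

lemma ind_injective {k : ℕ} (hk : 0 < k) : Function.Injective (ind (k := k)) := by
  intro S T h
  ext i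
  have := congrFun h i
  simp only [ind] at this
  have hk' : (k : ℤ) ≠ 0 := by exact_mod_cast hk.ne'
  by_cases h1 : i ∈ S <;> by_cases h2 : i ∈ T <;> simp_all

lemma Q_ind_sub {k t : ℕ} (S T : Finset (Fin k)) (hS : S.card = t) (hT : T.card = t) :
    Q (ind S - ind T) = 2 * (k : ℤ) ^ 2 * ((S \ T).card : ℤ) := by
  classical
  unfold Q
  have h1 : ∀ i, (ind S - ind T) i ^ 2 =
      (if i ∈ S \ T then (k : ℤ) ^ 2 else 0) + (if i ∈ T \ S then (k : ℤ) ^ 2 else 0) := by
    intro i
    simp only [Pi.sub_apply, ind, Finset.mem_sdiff]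
    by_cases h1 : i ∈ S <;> by_cases h2 : i ∈ T <;> simp [h1, h2]
  rw [Finset.sum_congr rfl (fun i _ => h1 i), Finset.sum_add_distrib, Finset.sum_ite_mem,
    Finset.sum_ite_mem, Finset.univ_inter, Finset.univ_inter, Finset.sum_const, Finset.sum_const]
  have h2 : (S \ T).card = (T \ S).card := by
    have := Finset.card_sdiff_add_card_inter S T
    have := Finset.card_sdiff_add_card_inter T S
    rw [Finset.inter_comm T S] at this
    omega
  rw [← h2, nsmul_eq_mul]
  ring

/-- axis vector -/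
def ax (k t : ℕ) (a : ℤ) : Fin k → ℤ := fun _ => (t : ℤ) + 2 * k * a

lemma ax_injective {k t : ℕ} (hk : 0 < k) : Function.Injective (ax k t) := by
  intro a b h
  have := congrFun h ⟨0, hk⟩
  simp only [ax] at this
  have hk' : (2 * (k : ℤ)) ≠ 0 := by have : (k : ℤ) ≠ 0 := by exact_mod_cast hk.ne'
                                     simpa using this
  have h2 : 2 * (k : ℤ) * a = 2 * k * b := by linarith
  exact mul_left_cancel₀ hk' h2

lemma Q_ax_sub {k t : ℕ} (a b : ℤ) : Q (ax k t a - ax k t b) = 4 * (k : ℤ) ^ 3 * (a - b) ^ 2 := by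
  unfold Q
  have h1 : ∀ i, (ax k t a - ax k t b) i ^ 2 = 4 * (k : ℤ) ^ 2 * (a - b) ^ 2 := by
    intro i
    simp only [Pi.sub_apply, ax]
    ring
  rw [Finset.sum_congr rfl (fun i _ => h1 i), Finset.sum_const, Finset.card_univ, Fintype.card_fin,
    nsmul_eq_mul]
  ring

lemma Q_ind_ax {k t : ℕ} (S : Finset (Fin k)) (hS : S.card = t) (a : ℤ) :
    Q (ind S - ax k t a) = (k : ℤ) * t * (k - t) + 4 * (k : ℤ) ^ 3 * a ^ 2 := by
  classical
  unfold Q
  have h1 : ∀ i, (ind S - ax k t a) i ^ 2 =
      ((t : ℤ) + 2 * k * a) ^ 2 + (if i ∈ S then (k : ℤ) ^ 2 - 2 * k * (t + 2 * k * a) else 0) := by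
    intro i
    simp only [Pi.sub_apply, ax, ind]
    by_cases h1 : i ∈ S <;> simp [h1] <;> ring
  rw [Finset.sum_congr rfl (fun i _ => h1 i), Finset.sum_add_distrib, Finset.sum_ite_mem,
    Finset.univ_inter, Finset.sum_const, Finset.sum_const, Finset.card_univ, Fintype.card_fin, hS,
    nsmul_eq_mul, nsmul_eq_mul]
  ring

/-- the chain of sets -/
lemma exists_chain {k t : ℕ} (htk : 2 * t ≤ k) :
    ∃ c : ℕ → Finset (Fin k), (∀ i ≤ t, (c i).card = t) ∧ ∀ i ≤ t, (c 0 \ c i).card = i := by
  classical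
  let c : ℕ → Finset (Fin k) := fun i => univ.filter (fun j => i ≤ j.val ∧ j.val < i + t)
  have hcard : ∀ a b : ℕ, a ≤ b → b ≤ k →
      (univ.filter (fun j : Fin k => a ≤ j.val ∧ j.val < b)).card = b - a := by
    intro a b hab hbk
    have : (univ.filter (fun j : Fin k => a ≤ j.val ∧ j.val < b)).image (fun j => j.val) =
        Finset.Ico a b := by
      ext x
      simp only [Finset.mem_image, Finset.mem_filter, Finset.mem_univ, true_and, Finset.mem_Ico]
      constructor
      · rintro ⟨j, h, rfl⟩; exact h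
      · intro h; exact ⟨⟨x, by omega⟩, h, rfl⟩
    rw [← Nat.card_Ico, ← this, Finset.card_image_of_injective _ Fin.val_injective]
  refine ⟨c, ?_, ?_⟩
  · intro i hi
    have := hcard i (i + t) (by omega) (by omega)
    simp only [c]
    rw [this]; omega
  · intro i hi
    have h1 : c 0 \ c i = univ.filter (fun j : Fin k => 0 ≤ j.val ∧ j.val < i) := by
      ext j
      simp only [c, Finset.mem_sdiff, Finset.mem_filter, Finset.mem_univ, true_and]
      omega
    rw [h1, hcard 0 i (by omega) (by omega)]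
    omega

lemma johnson {k t n : ℕ} (ht : 1 ≤ t) (htk : 2 * t ≤ k) (hn : n ≤ k.choose t) (A : Finset ℤ)
    (hA0 : 0 ∉ A) (hcard : A.card + t + 1 ≤ n) :
    t + ((A.image Int.natAbs).card + (adiff A).ncard) ∈ D k n := by
  classical
  have hk : 0 < k := by omega
  obtain ⟨c, hc1, hc2⟩ := exists_chain htk
  -- the slice
  let J : Finset (Fin k → ℤ) := ((univ : Finset (Fin k)).powersetCard t).image ind
  have hJcard : J.card = k.choose t := by
    rw [Finset.card_image_of_injective _ (ind_injective hk), Finset.card_powersetCard,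
      Finset.card_univ, Fintype.card_fin]
  have hJ : ∀ x, x ∈ J ↔ ∃ S : Finset (Fin k), S.card = t ∧ ind S = x := by
    intro x
    simp only [J, Finset.mem_image, Finset.mem_powersetCard, Finset.subset_univ, true_and]
  let C : Finset (Fin k → ℤ) := (Finset.range (t + 1)).image (fun i => ind (c i))
  have hCJ : C ⊆ J := by
    intro x hx
    obtain ⟨i, hi, rfl⟩ := Finset.mem_image.mp hx
    rw [Finset.mem_range] at hi
    exact (hJ _).mpr ⟨c i, hc1 i (by omega), rfl⟩
  have hCcard : C.card ≤ t + 1 := by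
    have := Finset.card_image_le (s := Finset.range (t + 1)) (f := fun i => ind (c i))
    rwa [Finset.card_range] at this
  obtain ⟨S, hS1, hS2, hS3⟩ := Finset.exists_subsuperset_card_eq (n := n - A.card) hCJ
    (by omega) (by omega)
  let Z : Finset (Fin k → ℤ) := A.image (ax k t)
  have hZcard : Z.card = A.card := Finset.card_image_of_injective _ (ax_injective hk)
  have hkz : (1 : ℤ) ≤ k := by exact_mod_cast hk
  have htz : (1 : ℤ) ≤ t := by exact_mod_cast ht
  have htkz : 2 * (t : ℤ) ≤ k := by exact_mod_cast htk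
  have hA0' : ∀ a ∈ A, 1 ≤ a ^ 2 := by
    intro a ha
    have : a ≠ 0 := fun h => hA0 (h ▸ ha)
    have := pow_pos (lt_of_le_of_ne (sq_nonneg a) (Ne.symm (pow_ne_zero 2 this))) 1
    rw [pow_one] at this
    omega
  have hdisj : Disjoint S Z := by
    rw [Finset.disjoint_left]
    intro x hx hz
    obtain ⟨T, hT, rfl⟩ := (hJ x).mp (hS2 hx)
    obtain ⟨a, ha, h⟩ := Finset.mem_image.mp hz
    have h1 := Q_ind_ax T hT a
    have h2 : ind T - ax k t a = 0 := by rw [h]; exact sub_self _
    rw [h2] at h1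
    have h3 : Q (0 : Fin k → ℤ) = 0 := by simp [Q]
    rw [h3] at h1
    have h4 := hA0' a ha
    have h5 : 0 ≤ (k : ℤ) * t * (k - t) := by
      apply mul_nonneg (by positivity); linarith
    have h6 : 0 < 4 * (k : ℤ) ^ 3 * a ^ 2 := by positivity
    linarith
  have hUcard : (S ∪ Z).card = n := by
    rw [Finset.card_union_of_disjoint hdisj, hS3, hZcard]
    omega
  have hmem := mem_D (S ∪ Z) hUcard
  -- the values
  let V1 : Finset ℤ := (Finset.Icc 1 t).image (fun i : ℕ => 2 * (k : ℤ) ^ 2 * i)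
  let V2 : Finset ℤ := (A.image Int.natAbs).image
    (fun a : ℕ => (k : ℤ) * t * (k - t) + 4 * (k : ℤ) ^ 3 * (a : ℤ) ^ 2)
  let V3 : Finset ℤ := (adiff_finite A).toFinset.image (fun d : ℕ => 4 * (k : ℤ) ^ 3 * (d : ℤ) ^ 2)
  have hset : {q : ℤ | ∃ x ∈ S ∪ Z, ∃ y ∈ S ∪ Z, x ≠ y ∧ q = Q (x - y)} =
      ((V1 ∪ (V2 ∪ V3) : Finset ℤ) : Set ℤ) := by
    ext q
    simp only [Finset.coe_union, Set.mem_union, Finset.mem_coe]
    constructor
    · rintro ⟨x, hx, y, hy, hxy, rfl⟩
      rw [Finset.mem_union] at hx hy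
      have key : ∀ x ∈ S, ∀ z ∈ Z, Q (x - z) ∈ V2 := by
        intro x hx z hz
        obtain ⟨T, hT, rfl⟩ := (hJ x).mp (hS2 hx)
        obtain ⟨a, ha, rfl⟩ := Finset.mem_image.mp hz
        rw [Q_ind_ax T hT]
        simp only [V2, Finset.mem_image]
        exact ⟨a.natAbs, ⟨a, ha, rfl⟩, by rw [Int.natAbs_sq]⟩
      rcases hx with hx | hx <;> rcases hy with hy | hy
      · left
        obtain ⟨T, hT, rfl⟩ := (hJ x).mp (hS2 hx)
        obtain ⟨T', hT', rfl⟩ := (hJ y).mp (hS2 hy)
        rw [Q_ind_sub T T' hT hT']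
        simp only [V1, Finset.mem_image, Finset.mem_Icc]
        refine ⟨(T \ T').card, ⟨?_, ?_⟩, rfl⟩
        · rw [Nat.one_le_iff_ne_zero, Ne, Finset.card_eq_zero, Finset.sdiff_eq_empty_iff_subset]
          intro h
          exact hxy (by rw [Finset.eq_of_subset_of_card_le h (by rw [hT, hT'])])
        · rw [← hT]
          exact Finset.card_le_card Finset.sdiff_subset
      · right; left
        exact key x hx y hy
      · right; left
        rw [Q_sub_comm]
        exact key y hy x hx
      · right; right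
        obtain ⟨a, ha, rfl⟩ := Finset.mem_image.mp hx
        obtain ⟨b, hb, rfl⟩ := Finset.mem_image.mp hy
        rw [Q_ax_sub]
        simp only [V3, Finset.mem_image, Set.Finite.mem_toFinset]
        exact ⟨(a - b).natAbs, ⟨a, ha, b, hb, fun h => hxy (by rw [h]), rfl⟩, by rw [Int.natAbs_sq]⟩
    · rintro (h | h | h)
      · simp only [V1, Finset.mem_image, Finset.mem_Icc] at h
        obtain ⟨i, ⟨hi1, hi2⟩, rfl⟩ := h
        have h0 : ind (c 0) ∈ S := hS1 (Finset.mem_image.mpr ⟨0, by simp, rfl⟩)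
        have hi : ind (c i) ∈ S := hS1 (Finset.mem_image.mpr ⟨i, by simp; omega, rfl⟩)
        refine ⟨_, Finset.mem_union_left _ h0, _, Finset.mem_union_left _ hi, ?_, ?_⟩
        · intro h
          have h2 := ind_injective hk h
          have h3 := hc2 i hi2
          rw [← h2, Finset.sdiff_self, Finset.card_empty] at h3
          omega
        · rw [Q_ind_sub _ _ (hc1 0 (by omega)) (hc1 i hi2), hc2 i hi2]
      · simp only [V2, Finset.mem_image] at h
        obtain ⟨_, ⟨a, ha, rfl⟩, rfl⟩ := h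
        have h0 : ind (c 0) ∈ S := hS1 (Finset.mem_image.mpr ⟨0, by simp, rfl⟩)
        have hz : ax k t a ∈ Z := Finset.mem_image_of_mem _ ha
        refine ⟨_, Finset.mem_union_left _ h0, _, Finset.mem_union_right _ hz, ?_, ?_⟩
        · intro h
          exact (Finset.disjoint_left.mp hdisj h0) (h ▸ hz)
        · rw [Q_ind_ax _ (hc1 0 (by omega)), Int.natAbs_sq]
      · simp only [V3, Finset.mem_image, Set.Finite.mem_toFinset] at h
        obtain ⟨_, ⟨a, ha, b, hb, hab, rfl⟩, rfl⟩ := h
        refine ⟨_, Finset.mem_union_right _ (Finset.mem_image_of_mem _ ha), _,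
          Finset.mem_union_right _ (Finset.mem_image_of_mem _ hb), ?_, ?_⟩
        · intro h
          exact hab (ax_injective hk h)
        · rw [Q_ax_sub, Int.natAbs_sq]
  have h4k : (0 : ℤ) < 4 * (k : ℤ) ^ 3 := by positivity
  have hkt : 0 ≤ (k : ℤ) * t * (k - t) := by
    apply mul_nonneg (by positivity); linarith
  have hkt1 : 0 < (k : ℤ) * t * (k - t) := by
    apply mul_pos (by positivity); linarith
  have hkt2 : (k : ℤ) * t * (k - t) < 4 * (k : ℤ) ^ 3 := by
    have h1 : (t : ℤ) * (k - t) ≤ k * k := by nlinarith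
    have h2 : (k : ℤ) * (t * (k - t)) ≤ k * (k * k) := mul_le_mul_of_nonneg_left h1 (by linarith)
    nlinarith [pow_pos (show (0 : ℤ) < k by linarith) 3]
  have hV1le : ∀ v ∈ V1, v < 4 * (k : ℤ) ^ 3 := by
    intro v hv
    simp only [V1, Finset.mem_image, Finset.mem_Icc] at hv
    obtain ⟨i, ⟨_, hi⟩, rfl⟩ := hv
    have hi' : (i : ℤ) ≤ t := by exact_mod_cast hi
    have h1 : 2 * (k : ℤ) ^ 2 * i ≤ 2 * (k : ℤ) ^ 2 * t := mul_le_mul_of_nonneg_left hi' (by positivity)
    have h2 : 2 * (k : ℤ) ^ 2 * t ≤ (k : ℤ) ^ 2 * k := by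
      have : 0 ≤ (k : ℤ) ^ 2 := sq_nonneg _
      nlinarith
    nlinarith [pow_pos (show (0 : ℤ) < k by linarith) 3]
  have hV2ge : ∀ v ∈ V2, 4 * (k : ℤ) ^ 3 ≤ v := by
    intro v hv
    simp only [V2, Finset.mem_image] at hv
    obtain ⟨_, ⟨a, ha, rfl⟩, rfl⟩ := hv
    have h1 := hA0' a ha
    rw [Int.natAbs_sq]
    nlinarith
  have hV3ge : ∀ v ∈ V3, 4 * (k : ℤ) ^ 3 ≤ v := by
    intro v hv
    simp only [V3, Finset.mem_image, Set.Finite.mem_toFinset] at hv
    obtain ⟨d, hd, rfl⟩ := hv
    have h1 : (1 : ℤ) ≤ d := by exact_mod_cast adiff_pos hd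
    have h2 : (1 : ℤ) ≤ (d : ℤ) ^ 2 := by nlinarith
    nlinarith
  have hd23 : Disjoint V2 V3 := by
    rw [Finset.disjoint_left]
    intro v hv2 hv3
    simp only [V2, Finset.mem_image] at hv2
    obtain ⟨_, ⟨a, ha, rfl⟩, rfl⟩ := hv2
    simp only [V3, Finset.mem_image, Set.Finite.mem_toFinset] at hv3
    obtain ⟨d, hd, hd2⟩ := hv3
    rw [Int.natAbs_sq] at hd2
    rcases le_or_gt ((d : ℤ) ^ 2) (a ^ 2) with h | h
    · have := mul_le_mul_of_nonneg_left h h4k.le
      linarith
    · have h1 : a ^ 2 + 1 ≤ (d : ℤ) ^ 2 := h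
      have := mul_le_mul_of_nonneg_left h1 h4k.le
      linarith
  have hd1 : Disjoint V1 (V2 ∪ V3) := by
    rw [Finset.disjoint_left]
    intro v hv1 hv
    rw [Finset.mem_union] at hv
    have h1 := hV1le v hv1
    rcases hv with hv | hv
    · exact absurd (hV2ge v hv) (not_le.mpr h1)
    · exact absurd (hV3ge v hv) (not_le.mpr h1)
  have hc1' : V1.card = t := by
    rw [Finset.card_image_of_injOn, Nat.card_Icc]
    · omega
    · intro a _ b _ h
      simp only at h
      have h2 : (2 * (k : ℤ) ^ 2) ≠ 0 := by positivity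
      exact_mod_cast mul_left_cancel₀ h2 h
  have hc2' : V2.card = (A.image Int.natAbs).card := by
    rw [Finset.card_image_of_injOn]
    intro a _ b _ h
    simp only at h
    have h2 : 4 * (k : ℤ) ^ 3 * (a : ℤ) ^ 2 = 4 * (k : ℤ) ^ 3 * (b : ℤ) ^ 2 := by linarith
    have h3 := mul_left_cancel₀ h4k.ne' h2
    exact Nat.pow_left_injective (by norm_num : 2 ≠ 0) (by exact_mod_cast h3)
  have hc3' : V3.card = (adiff A).ncard := by
    rw [Set.ncard_eq_toFinset_card _ (adiff_finite A)]
    apply Finset.card_image_of_injOn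
    intro a _ b _ h
    simp only at h
    have h3 := mul_left_cancel₀ h4k.ne' h
    exact Nat.pow_left_injective (by norm_num : 2 ≠ 0) (by exact_mod_cast h3)
  rw [hset, Set.ncard_coe_finset, Finset.card_union_of_disjoint hd1,
    Finset.card_union_of_disjoint hd23, hc1', hc2', hc3'] at hmem
  exact hmem

lemma johnson_range {k t n m : ℕ} (ht : 1 ≤ t) (htk : 2 * t ≤ k) (hn2 : 2 ≤ n)
    (hn : n ≤ k.choose t) (h1 : t ≤ m) (h2 : m ≤ n.choose 2) : m ∈ D k n := by
  classical
  rcases le_or_gt (n - 1) m with h | h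
  · exact line_range (by omega) n m (by omega) h h2
  · rcases Nat.eq_or_lt_of_le h1 with h3 | h3
    · have := johnson ht htk hn ∅ (by simp) (by simp; omega)
      have h4 : adiff ∅ = ∅ := by
        ext d
        simp [adiff]
      simp only [Finset.image_empty, Finset.card_empty, h4, Set.ncard_empty, Nat.add_zero] at this
      rwa [h3] at this
    · obtain ⟨A, hA0, hA1, hA2⟩ := exists_axis (m - t) (by omega)
      have := johnson ht htk hn A hA0 (by omega)
      rw [hA2] at this
      have h4 : t + (m - t) = m := by omega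
      rwa [h4] at this

end Pool.Agent.Helper949.DD
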