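import Mathlib
import Pool.Agent.Helper949.Johnson
import Pool.Agent.Helper949.DD4

set_option autoImplicit false

namespace Pool.Agent.Helper949.DD

open Finset

lemma asc_desc (k j : ℕ) : (k + 1).ascFactorial j * (k - j * (j + 1)) ≤ k.descFactorial (j + 1) := by
  induction j with
  | zero => simp
  | succ j ih =>
    rw [Nat.ascFactorial_succ, Nat.descFactorial_succ k (j + 1)]
    rcases Nat.le_total k ((j + 1) * (j + 1 + 1)) with h | h
    · rw [Nat.sub_eq_zero_of_le h]
      simp
    · have h0 : j * (j + 1) ≤ (j + 1) * (j + 1 + 1) := by nlinarith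
      have h1 : (k + 1 + j) * (k - (j + 1) * (j + 1 + 1)) ≤ (k - (j + 1)) * (k - j * (j + 1)) := by
        have h2 : j + 1 ≤ k := by nlinarith
        have h3 : j * (j + 1) ≤ k := h0.trans h
        zify [h, h2, h3]
        nlinarith [mul_nonneg (sq_nonneg ((j : ℤ) + 1)) (show (0 : ℤ) ≤ 2 * j + 2 by positivity)]
      calc (k + 1 + j) * (k + 1).ascFactorial j * (k - (j + 1) * (j + 1 + 1))
          = (k + 1).ascFactorial j * ((k + 1 + j) * (k - (j + 1) * (j + 1 + 1))) := by ring
        _ ≤ (k + 1).ascFactorial j * ((k - (j + 1)) * (k - j * (j + 1))) := Nat.mul_le_mul_left _ h1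
        _ = (k - (j + 1)) * ((k + 1).ascFactorial j * (k - j * (j + 1))) := by ring
        _ ≤ (k - (j + 1)) * k.descFactorial (j + 1) := Nat.mul_le_mul_left _ ih

lemma choose_ineq (k j : ℕ) (h : (j + 1) ^ 2 ≤ k) : (k + j).choose j ≤ k.choose (j + 1) := by
  have h1 := asc_desc k j
  have h2 : j + 1 ≤ k - j * (j + 1) := by
    have : j * (j + 1) + (j + 1) ≤ k := by nlinarith
    omega
  have h3 : (k + 1).ascFactorial j * (j + 1) ≤ k.descFactorial (j + 1) :=
    (Nat.mul_le_mul_left _ h2).trans h1
  rw [Nat.ascFactorial_eq_factorial_mul_choose, Nat.descFactorial_eq_factorial_mul_choose] at h3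
  have h4 : (j + 1).factorial * (k + j).choose j ≤ (j + 1).factorial * k.choose (j + 1) := by
    calc (j + 1).factorial * (k + j).choose j = j.factorial * (k + j).choose j * (j + 1) := by
          rw [Nat.factorial_succ]; ring
      _ ≤ _ := by
          have : k + 1 + j - 1 = k + j := by omega
          first
            | exact h3
            | (rw [this] at h3; exact h3)
  exact Nat.le_of_mul_le_mul_left h4 (Nat.factorial_pos _)

/-- lower bound for the elements of the value set -/
lemma D_lower {k n m : ℕ} (h : m ∈ D k n) : n ≤ (k + m).choose m := by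
  obtain ⟨X, hX, rfl⟩ := h
  exact bbs X hX le_rfl

lemma D_upper {k n m : ℕ} (h : m ∈ D k n) : m ≤ n.choose 2 := by
  obtain ⟨X, hX, rfl⟩ := h
  exact numDist_le X

lemma choose_mono_sum {k a b : ℕ} (h : a ≤ b) : (k + a).choose a ≤ (k + b).choose b := by
  induction b, h using Nat.le_induction with
  | base => exact le_rfl
  | succ b _ ih =>
    refine ih.trans ?_
    rw [show k + (b + 1) = (k + b) + 1 from rfl, Nat.choose_succ_succ' (k + b) b]
    exact Nat.le_add_right _ _

theorem D_exact {k t n : ℕ} (htk : 2 * t ≤ k) (ht : 1 ≤ t)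
    (h1 : (k + (t - 1)).choose (t - 1) < n) (h2 : n ≤ k.choose t) :
    D k n = Set.Icc t (n.choose 2) := by
  have hn2 : 2 ≤ n := by
    have : 1 ≤ (k + (t - 1)).choose (t - 1) := Nat.choose_pos (by omega)
    omega
  ext m
  rw [Set.mem_Icc]
  constructor
  · intro hm
    refine ⟨?_, D_upper hm⟩
    by_contra hcon
    push Not at hcon
    have h3 := D_lower hm
    have h4 := choose_mono_sum (k := k) (show m ≤ t - 1 by omega)
    omega
  · rintro ⟨h3, h4⟩
    exact johnson_range ht htk hn2 h2 h3 h4

theorem D_upclosed {k t n : ℕ} (htk : 2 * t ≤ k) (htk2 : (t - 1) ^ 2 ≤ k) (hn2 : 2 ≤ n)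
    (hn : n ≤ k.choose t) {m m' : ℕ} (hm : m ∈ D k n) (hmm : m ≤ m') (hm' : m' ≤ n.choose 2) :
    m' ∈ D k n := by
  classical
  have hex : ∃ s, n ≤ k.choose s := ⟨t, hn⟩
  have hmin : ∀ s, s < Nat.find hex → ¬ n ≤ k.choose s := fun s hs => Nat.find_min hex hs
  have hspec : n ≤ k.choose (Nat.find hex) := Nat.find_spec hex
  have hle : Nat.find hex ≤ t := Nat.find_min' hex hn
  generalize Nat.find hex = s at hmin hspec hle
  have hs1 : 1 ≤ s := by
    rcases Nat.eq_zero_or_pos s with h | h
    · rw [h, Nat.choose_zero_right] at hspec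
      omega
    · exact h
  rcases le_or_gt s m' with h | h
  · exact johnson_range hs1 (by omega) hn2 hspec h hm'
  · -- m ≤ m' ≤ s - 1, and m ≥ s - 1
    have h3 : s - 1 ≤ m := by
      by_contra hcon
      push Not at hcon
      have h4 : m ≤ s - 2 := by omega
      have h5 := D_lower hm
      have h6 := choose_mono_sum (k := k) h4
      have h7 : (s - 2 + 1) ^ 2 ≤ k := by
        have : s - 2 + 1 ≤ t - 1 := by omega
        exact (Nat.pow_le_pow_left this 2).trans htk2
      have h8 := choose_ineq k (s - 2) h7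
      have h9 := hmin (s - 2 + 1) (by omega)
      omega
    have : m' = m := by omega
    rw [this]
    exact hm

theorem D_interval {k t n : ℕ} (htk : 2 * t ≤ k) (htk2 : (t - 1) ^ 2 ≤ k) (hn2 : 2 ≤ n)
    (hn : n ≤ k.choose t) : D k n = Set.Icc (sInf (D k n)) (n.choose 2) := by
  have hne : (D k n).Nonempty := by
    have hk : 0 < k := by
      rcases Nat.eq_zero_or_pos k with h | h
      · have : t = 0 := by omega
        rw [h, this] at hn
        simp at hn
        omega
      · exact h
    refine ⟨n.choose 2, line_range hk n _ (by omega) ?_ le_rfl⟩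
    rw [Nat.choose_two_right, Nat.le_div_iff_mul_le (by norm_num)]
    rw [mul_comm]
    exact Nat.mul_le_mul_right _ hn2
  have hmem := Nat.sInf_mem hne
  ext m
  rw [Set.mem_Icc]
  constructor
  · intro hm
    exact ⟨Nat.sInf_le hm, D_upper hm⟩
  · rintro ⟨h1, h2⟩
    exact D_upclosed htk htk2 hn2 hn hmem h1 h2

end Pool.Agent.Helper949.DD
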