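import Mathlib

set_option autoImplicit false

/-! Landau-type upper bound for the number of sums of two squares up to `N`
(adapted from helper338's file for `x^2+2y^2`). -/

namespace Pool.Agent.Helper949.Landau

section Helpers

open Finset

/-- the character (-1/.) on naturals -/
def chi (n : ℕ) : ℤ := ZMod.χ₄ (n : ZMod 4)

lemma chi_mul (a b : ℕ) : chi (a * b) = chi a * chi b := by
  simp only [chi, Nat.cast_mul, map_mul]

lemma chi_one : chi 1 = 1 := by
  simp [chi]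

/-- all divisors have character value one -/
def T (t : ℕ) : Prop := t ≠ 0 ∧ ∀ d, d ∣ t → chi d = 1

lemma T_of_dvd {t m : ℕ} (ht : T t) (h : m ∣ t) : T m := by
  refine ⟨fun h0 => ht.1 ?_, fun d hd => ht.2 d (hd.trans h)⟩
  subst h0
  exact zero_dvd_iff.mp h

lemma T_mul {s t : ℕ} (hs : T s) (ht : T t) : T (s * t) := by
  refine ⟨mul_ne_zero hs.1 ht.1, fun d hd => ?_⟩
  obtain ⟨a, b, ha, hb, rfl⟩ := (Nat.dvd_mul).mp hd
  rw [chi_mul, hs.2 a ha, ht.2 b hb, one_mul]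

lemma T_of_primes {t : ℕ} (h0 : t ≠ 0) (h : ∀ p, p.Prime → p ∣ t → chi p = 1) : T t := by
  refine ⟨h0, ?_⟩
  intro d
  induction d using Nat.recOnMul with
  | zero => intro hd; exact absurd (zero_dvd_iff.mp hd) h0
  | one => intro _; exact chi_one
  | prime p hp => intro hd; exact h p hp hd
  | mul a b ha hb =>
    intro hd
    rw [chi_mul, ha (dvd_of_mul_right_dvd hd), hb (dvd_of_mul_left_dvd hd), one_mul]

/-- table of partial sums of chi -/
def tab : Fin 4 → ℤ := ![0, 0, 1, 1]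

lemma tab_step : ∀ a : ZMod 4, tab a + ZMod.χ₄ a = tab (a + 1 : ZMod 4) := by decide

lemma tab_le : ∀ a : Fin 4, tab a ≤ 2 := by decide

lemma chi_sum_eq (n : ℕ) :
    ∑ i ∈ range n, chi (i + 1) = tab ((n : ZMod 4) + 1 : ZMod 4) := by
  induction n with
  | zero => simp [tab]
  | succ n ih =>
    rw [sum_range_succ, ih]
    have := tab_step ((n : ZMod 4) + 1)
    rw [chi]
    push_cast
    exact this

lemma chi_sum_le (n : ℕ) : ∑ i ∈ range n, chi (i + 1) ≤ 2 := by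
  rw [chi_sum_eq]
  exact tab_le _

/-- Abel summation bound -/
lemma abel_bound (c a : ℕ → ℝ) (B : ℝ) (hS : ∀ n, ∑ i ∈ range n, c i ≤ B)
    (ha : Antitone a) (hpos : ∀ n, 0 ≤ a n) (n : ℕ) :
    ∑ i ∈ range n, c i * a i ≤ B * a 0 := by
  have key : ∀ n, ∑ i ∈ range n, c i * a i + (B - ∑ i ∈ range n, c i) * a n ≤ B * a 0 := by
    intro n
    induction n with
    | zero => simp
    | succ n ih =>
      have h1 : (B - ∑ i ∈ range (n + 1), c i) * a (n + 1) ≤ (B - ∑ i ∈ range (n + 1), c i) * a n :=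
        mul_le_mul_of_nonneg_left (ha (Nat.le_succ n)) (by linarith [hS (n + 1)])
      have h2 : ∑ i ∈ range (n + 1), c i * a i = ∑ i ∈ range n, c i * a i + c n * a n :=
        sum_range_succ _ _
      have h3 : ∑ i ∈ range (n + 1), c i = ∑ i ∈ range n, c i + c n := sum_range_succ _ _
      rw [h3] at h1 ⊢
      rw [h2]
      nlinarith [h1, ih]
  have h := key n
  have h' : 0 ≤ (B - ∑ i ∈ range n, c i) * a n :=
    mul_nonneg (by linarith [hS n]) (hpos n)
  linarith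

/-- divisor sum of chi -/
noncomputable def r (n : ℕ) : ℝ := ∑ d ∈ n.divisors, (chi d : ℝ)

lemma r_nonneg (n : ℕ) : 0 ≤ r n := by
  have hq : (ZMod.χ₄.ringHomComp (Int.castRingHom ℂ)) ^ 2 = 1 := by
    rw [← MulChar.isQuadratic_iff_sq_eq_one]
    exact ZMod.isQuadratic_χ₄.comp _
  have h := DirichletCharacter.zetaMul_nonneg (N := 4) hq n
  have h2 : DirichletCharacter.zetaMul (N := 4) (ZMod.χ₄.ringHomComp (Int.castRingHom ℂ)) n
      = ((r n : ℝ) : ℂ) := by
    rw [DirichletCharacter.zetaMul, ArithmeticFunction.coe_zeta_mul_apply, r]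
    push_cast
    refine sum_congr rfl fun d hd => ?_
    have hd0 : d ≠ 0 := (Nat.pos_of_mem_divisors hd).ne'
    simp [toArithmeticFunction, hd0, chi]
  rw [h2] at h
  exact_mod_cast h

lemma r_eq_of_T {n : ℕ} (h : T n) : r n = (n.divisors.card : ℝ) := by
  rw [r, sum_congr rfl (g := fun _ => (1 : ℝ)), sum_const, nsmul_eq_mul, mul_one]
  intro d hd
  rw [h.2 d (Nat.dvd_of_mem_divisors hd)]
  norm_num

/-- harmonic-type sum -/
noncomputable def H (n : ℕ) : ℝ := ∑ m ∈ Ioc 0 n, (1 : ℝ) / m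

lemma H_nonneg (n : ℕ) : 0 ≤ H n := sum_nonneg fun i _ => by positivity

lemma H_mono {m n : ℕ} (h : m ≤ n) : H m ≤ H n := by
  refine sum_le_sum_of_subset_of_nonneg (Ioc_subset_Ioc_right h) fun i _ _ => by positivity

lemma H_le (n : ℕ) : H n ≤ 1 + Real.log n := by
  have h := harmonic_le_one_add_log n
  have : (harmonic n : ℝ) = H n := by
    rw [H, harmonic_eq_sum_Icc]
    push_cast
    have : Finset.Icc 1 n = Finset.Ioc 0 n := by ext; simp [Nat.succ_le_iff]
    rw [this]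
    refine sum_congr rfl fun i _ => by simp
  rw [← this]
  exact h

/-- the arithmetic function chi(n)/n -/
noncomputable def fchi : ArithmeticFunction ℝ := ⟨fun n => (chi n : ℝ) / n, by simp⟩

/-- the arithmetic function 1/n -/
noncomputable def finv : ArithmeticFunction ℝ := ⟨fun n => (1 : ℝ) / n, by simp⟩

lemma fchi_mul_finv (n : ℕ) : (fchi * finv) n = r n / n := by
  rw [ArithmeticFunction.mul_apply, r,
    Nat.sum_divisorsAntidiagonal (fun a b => fchi a * finv b), sum_div]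
  refine sum_congr rfl fun d hd => ?_
  obtain ⟨e, he⟩ := Nat.dvd_of_mem_divisors hd
  have hn0 : n ≠ 0 := (Nat.mem_divisors.mp hd).2
  have hd0 : 0 < d := Nat.pos_of_mem_divisors hd
  have he0 : e ≠ 0 := by rintro rfl; simp at he; exact hn0 he
  have : n / d = e := by rw [he]; exact Nat.mul_div_cancel_left e hd0
  rw [this]
  simp only [fchi, finv, ArithmeticFunction.coe_mk]
  rw [he]
  push_cast
  have hd1 : (d : ℝ) ≠ 0 := by exact_mod_cast hd0.ne'
  have he1 : (e : ℝ) ≠ 0 := by exact_mod_cast he0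
  field_simp

lemma sum_Ioc_eq_range (f : ℕ → ℝ) (M : ℕ) : ∑ n ∈ Ioc 0 M, f n = ∑ i ∈ range M, f (i + 1) := by
  induction M with
  | zero => simp
  | succ n ih => rw [sum_Ioc_succ_top (Nat.zero_le n), ih, sum_range_succ]

lemma sum_r_le (M : ℕ) : ∑ n ∈ Ioc 0 M, r n / n ≤ 2 * H M := by
  have h1 : ∑ n ∈ Ioc 0 M, r n / n = ∑ n ∈ Ioc 0 M, (fchi * finv) n :=
    sum_congr rfl fun n _ => (fchi_mul_finv n).symm
  rw [h1, ArithmeticFunction.sum_Ioc_mul_eq_sum_sum, sum_Ioc_eq_range]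
  have h2 : ∀ i ∈ range M, fchi (i + 1) * ∑ m ∈ Ioc 0 (M / (i + 1)), finv m
      = (chi (i + 1) : ℝ) * (H (M / (i + 1)) / ((i : ℝ) + 1)) := by
    intro i _
    simp only [fchi, finv, ArithmeticFunction.coe_mk, H]
    push_cast
    ring
  rw [sum_congr rfl h2]
  have h3 := abel_bound (fun i => (chi (i + 1) : ℝ)) (fun i => H (M / (i + 1)) / ((i : ℝ) + 1)) 2
    (fun n => by have := chi_sum_le n; exact_mod_cast this)
    (by
      intro i j hij
      have hd : M / (j + 1) ≤ M / (i + 1) := Nat.div_le_div_left (by omega) (by omega)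
      have hij' : (i : ℝ) ≤ j := by exact_mod_cast hij
      exact div_le_div₀ (H_nonneg _) (H_mono hd) (by positivity) (by linarith))
    (fun n => div_nonneg (H_nonneg _) (by positivity)) M
  simpa using h3

open Classical in
/-- indicator of T -/
noncomputable def gT : ArithmeticFunction ℝ := ⟨fun n => if T n then 1 else 0, by simp [T]⟩

open Classical in
/-- indicator of T over n -/
noncomputable def fT : ArithmeticFunction ℝ := ⟨fun n => if T n then (1 : ℝ) / n else 0, by simp⟩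

lemma gT_apply_of {n : ℕ} (h : T n) : gT n = 1 := by simp [gT, h]
lemma gT_apply_not {n : ℕ} (h : ¬ T n) : gT n = 0 := by simp [gT, h]
lemma fT_apply_of {n : ℕ} (h : T n) : fT n = 1 / n := by simp [fT, h]
lemma fT_apply_not {n : ℕ} (h : ¬ T n) : fT n = 0 := by simp [fT, h]
lemma gT_nonneg (n : ℕ) : 0 ≤ gT n := by
  by_cases h : T n
  · rw [gT_apply_of h]; norm_num
  · rw [gT_apply_not h]
lemma fT_nonneg (n : ℕ) : 0 ≤ fT n := by
  by_cases h : T n
  · rw [fT_apply_of h]; positivity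
  · rw [fT_apply_not h]

/-- the logarithmic sum over T -/
noncomputable def L (N : ℕ) : ℝ := ∑ n ∈ Ioc 0 N, fT n

lemma L_nonneg (N : ℕ) : 0 ≤ L N := sum_nonneg fun i _ => fT_nonneg i

lemma fT_mul_fT_le (n : ℕ) : (fT * fT) n ≤ r n / n := by
  rcases Nat.eq_zero_or_pos n with rfl | hn
  · simp
  by_cases h : T n
  · rw [r_eq_of_T h, ArithmeticFunction.mul_apply,
      Nat.sum_divisorsAntidiagonal (fun a b => fT a * fT b)]
    have : ∀ d ∈ n.divisors, fT d * fT (n / d) ≤ 1 / n := by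
      intro d hd
      obtain ⟨e, he⟩ := Nat.dvd_of_mem_divisors hd
      have hd0 : 0 < d := Nat.pos_of_mem_divisors hd
      have he0 : e ≠ 0 := by rintro rfl; simp at he; omega
      have hde : n / d = e := by rw [he]; exact Nat.mul_div_cancel_left e hd0
      have hTd : T d := T_of_dvd h ⟨e, he⟩
      have hTe : T e := T_of_dvd h ⟨d, by rw [he, mul_comm]⟩
      rw [hde, fT_apply_of hTd, fT_apply_of hTe, he]
      push_cast
      rw [div_mul_div_comm, one_mul]
    calc ∑ d ∈ n.divisors, fT d * fT (n / d) ≤ ∑ _d ∈ n.divisors, (1 : ℝ) / n := sum_le_sum this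
      _ = (n.divisors.card : ℝ) / n := by rw [sum_const, nsmul_eq_mul]; ring
  · have h0 : (fT * fT) n = 0 := by
      rw [ArithmeticFunction.mul_apply]
      refine sum_eq_zero fun x hx => ?_
      have hx' := (Nat.mem_divisorsAntidiagonal.mp hx).1
      by_cases h1 : T x.1
      · by_cases h2 : T x.2
        · exact absurd (hx' ▸ T_mul h1 h2) h
        · rw [fT_apply_not h2, mul_zero]
      · rw [fT_apply_not h1, zero_mul]
    rw [h0]
    exact div_nonneg (r_nonneg n) (by positivity)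

lemma L_sq_le (N : ℕ) : L N ^ 2 ≤ ∑ n ∈ Ioc 0 (N * N), r n / n := by
  have h1 : L N ^ 2 = ∑ x ∈ Ioc 0 N ×ˢ Ioc 0 N, fT x.1 * fT x.2 := by
    rw [pow_two, L, sum_mul_sum, sum_product]
  have h2 : ∑ x ∈ Ioc 0 N ×ˢ Ioc 0 N, fT x.1 * fT x.2
      ≤ ∑ x ∈ Ioc 0 (N * N) ×ˢ Ioc 0 (N * N) with x.1 * x.2 ≤ N * N, fT x.1 * fT x.2 := by
    refine sum_le_sum_of_subset_of_nonneg ?_ fun x _ _ => mul_nonneg (fT_nonneg _) (fT_nonneg _)
    intro x hx
    simp only [mem_product, mem_Ioc, mem_filter] at hx ⊢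
    obtain ⟨⟨ha, hb⟩, hc, hd⟩ := hx
    have hN : 1 ≤ N := le_trans ha hb
    exact ⟨⟨⟨ha, le_trans hb (Nat.le_mul_of_pos_left N hN)⟩,
      ⟨hc, le_trans hd (Nat.le_mul_of_pos_left N hN)⟩⟩, Nat.mul_le_mul hb hd⟩
  rw [h1]
  refine h2.trans ?_
  rw [← ArithmeticFunction.sum_Ioc_mul_eq_sum_prod_filter]
  exact sum_le_sum fun n _ => fT_mul_fT_le n

lemma L_sq_le' {N : ℕ} (hN : 1 ≤ N) : L N ^ 2 ≤ 4 * (1 + Real.log N) := by
  have h1 := (L_sq_le N).trans (sum_r_le (N * N))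
  have h2 := H_le (N * N)
  have hN' : (N : ℝ) ≠ 0 := by positivity
  have h3 : Real.log ((N * N : ℕ) : ℝ) = 2 * Real.log N := by
    push_cast
    rw [Real.log_mul hN' hN']
    ring
  rw [h3] at h2
  linarith

lemma sum_log_le (N : ℕ) : ∑ t ∈ Ioc 0 N, gT t * Real.log t ≤ (Real.log 4 + 4) * (N * L N) := by
  have h1 : ∑ t ∈ Ioc 0 N, gT t * Real.log t
      ≤ ∑ t ∈ Ioc 0 N, (gT * ArithmeticFunction.vonMangoldt) t := by
    refine sum_le_sum fun t _ => ?_
    rw [← ArithmeticFunction.vonMangoldt_sum, ArithmeticFunction.mul_apply,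
      Nat.sum_divisorsAntidiagonal' (fun a b => gT a * ArithmeticFunction.vonMangoldt b),
      mul_sum]
    refine sum_le_sum fun d hd => ?_
    refine mul_le_mul_of_nonneg_right ?_ ArithmeticFunction.vonMangoldt_nonneg
    by_cases h : T t
    · rw [gT_apply_of h, gT_apply_of (T_of_dvd h (Nat.div_dvd_of_dvd (Nat.dvd_of_mem_divisors hd)))]
    · rw [gT_apply_not h]; exact gT_nonneg _
  refine h1.trans ?_
  rw [ArithmeticFunction.sum_Ioc_mul_eq_sum_sum, L, mul_sum, mul_sum]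
  refine sum_le_sum fun n hn => ?_
  have hn0 : 0 < n := (mem_Ioc.mp hn).1
  by_cases h : T n
  · rw [gT_apply_of h, fT_apply_of h, one_mul]
    have h2 : ∑ m ∈ Ioc 0 (N / n), ArithmeticFunction.vonMangoldt m
        = Chebyshev.psi ((N : ℝ) / n) := by
      rw [Chebyshev.psi, Nat.floor_div_eq_div]
    rw [h2]
    have h3 := Chebyshev.psi_le_const_mul_self (x := (N : ℝ) / n) (by positivity)
    calc _ ≤ _ := h3
      _ = _ := by ring
  · rw [gT_apply_not h, fT_apply_not h]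
    simp

/-- counting function -/
noncomputable def B (N : ℕ) : ℝ := ∑ n ∈ Ioc 0 N, gT n

lemma B_nonneg (N : ℕ) : 0 ≤ B N := sum_nonneg fun i _ => gT_nonneg i

lemma B_bound {y : ℝ} (hy : 1 ≤ y) :
    B ⌊y⌋₊ ≤ 2 * (Real.log 4 + 6) * (y / Real.sqrt (1 + Real.log y)) := by
  set N := ⌊y⌋₊ with hN
  have hNy : (N : ℝ) ≤ y := Nat.floor_le (by linarith)
  have hN1 : 1 ≤ N := Nat.le_floor (by simpa using hy)
  have hlogy : 0 ≤ Real.log y := Real.log_nonneg hy
  have hL := L_nonneg N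
  have h4 : 0 ≤ Real.log 4 := Real.log_nonneg (by norm_num)
  have h1 : ∑ t ∈ Ioc 0 N, gT t * Real.log y ≤ (Real.log 4 + 5) * (y * L N) := by
    have ha : ∑ t ∈ Ioc 0 N, gT t * Real.log y
        ≤ ∑ t ∈ Ioc 0 N, gT t * Real.log t + y * L N := by
      rw [L, mul_sum, ← sum_add_distrib]
      refine sum_le_sum fun t ht => ?_
      have ht0 : 0 < t := (mem_Ioc.mp ht).1
      have ht1 : (0 : ℝ) < t := by exact_mod_cast ht0
      by_cases h : T t
      · rw [gT_apply_of h, fT_apply_of h, one_mul, one_mul]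
        have : Real.log y = Real.log t + Real.log (y / t) := by
          rw [Real.log_div (by linarith) ht1.ne']
          ring
        rw [this]
        have h5 : Real.log (y / t) ≤ y / t := (Real.log_le_self (by positivity))
        have h6 : y * (1 / (t : ℝ)) = y / t := by ring
        rw [h6]
        linarith
      · rw [gT_apply_not h, fT_apply_not h]
        simp
    have hb := sum_log_le N
    have hc : (Real.log 4 + 4) * ((N : ℝ) * L N) ≤ (Real.log 4 + 4) * (y * L N) := by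
      gcongr
    linarith
  have h2 : B N ≤ y * L N := by
    rw [B, L, mul_sum]
    refine sum_le_sum fun t ht => ?_
    have ht0 : 0 < t := (mem_Ioc.mp ht).1
    have ht1 : (0 : ℝ) < t := by exact_mod_cast ht0
    have ht2 : (t : ℝ) ≤ y := le_trans (by exact_mod_cast (mem_Ioc.mp ht).2) hNy
    by_cases h : T t
    · rw [gT_apply_of h, fT_apply_of h, mul_one_div, le_div_iff₀ ht1]
      linarith
    · rw [gT_apply_not h, fT_apply_not h]
      simp
  have h3 : B N * (1 + Real.log y) ≤ (Real.log 4 + 6) * (y * L N) := by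
    have : B N * Real.log y = ∑ t ∈ Ioc 0 N, gT t * Real.log y := by rw [B, sum_mul]
    rw [mul_add, mul_one, this]
    linarith
  have h5 : L N ≤ 2 * Real.sqrt (1 + Real.log y) := by
    have h6 := L_sq_le' hN1
    have h7 : Real.log N ≤ Real.log y := Real.log_le_log (by exact_mod_cast hN1) hNy
    have h8 : L N ^ 2 ≤ (2 * Real.sqrt (1 + Real.log y)) ^ 2 := by
      rw [mul_pow, Real.sq_sqrt (by linarith)]
      linarith
    exact le_of_sq_le_sq h8 (by positivity)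
  set s := Real.sqrt (1 + Real.log y) with hs
  have hs2 : s * s = 1 + Real.log y := Real.mul_self_sqrt (by linarith)
  have hspos : 0 < s := Real.sqrt_pos.mpr (by linarith)
  rw [← hs2] at h3
  have h9 : B N * (s * s) ≤ (Real.log 4 + 6) * (y * (2 * s)) := by
    refine h3.trans ?_
    gcongr
  rw [mul_div_assoc', le_div_iff₀ hspos]
  have h10 : (B N * s) * s ≤ (2 * (Real.log 4 + 6) * y) * s := by
    calc (B N * s) * s = B N * (s * s) := by ring
      _ ≤ _ := h9
      _ = _ := by ring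
  exact le_of_mul_le_mul_right h10 hspos

/-- a nonzero value of x^2+y^2 is a power of two times a square times an element of T -/
lemma form_decomp {x y : ℤ} {m : ℕ} (hm : m ≠ 0) (h : (m : ℤ) = x ^ 2 + y ^ 2) :
    ∃ a g t : ℕ, g ≠ 0 ∧ T t ∧ m = 2 ^ a * g ^ 2 * t := by
  have hxy : x ≠ 0 ∨ y ≠ 0 := by
    by_contra hcon
    push Not at hcon
    rw [hcon.1, hcon.2] at h
    simp at h
    exact hm h
  set g := Int.gcd x y with hg
  have hg0 : 0 < g := by
    rcases hxy with h1 | h1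
    · exact Int.gcd_pos_of_ne_zero_left _ h1
    · exact Int.gcd_pos_of_ne_zero_right _ h1
  obtain ⟨x', hx'⟩ : (g : ℤ) ∣ x := Int.gcd_dvd_left ..
  obtain ⟨y', hy'⟩ : (g : ℤ) ∣ y := Int.gcd_dvd_right ..
  have hcop : Int.gcd x' y' = 1 := by
    have h1 : Int.gcd ((g : ℤ) * x') ((g : ℤ) * y') = g * Int.gcd x' y' := by
      rw [Int.gcd_mul_left]; simp
    rw [← hx', ← hy', ← hg] at h1
    have h2 : g * 1 = g * Int.gcd x' y' := by rw [mul_one]; exact h1
    exact (Nat.eq_of_mul_eq_mul_left hg0 h2).symm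
  have hdiv : (g ^ 2 : ℕ) ∣ m := by
    have : ((g ^ 2 : ℕ) : ℤ) ∣ (m : ℤ) := by
      refine ⟨x' ^ 2 + y' ^ 2, ?_⟩
      rw [h]
      nth_rewrite 1 [hx']
      nth_rewrite 1 [hy']
      push_cast
      ring
    exact_mod_cast this
  obtain ⟨m', hm'⟩ := hdiv
  have hm'0 : m' ≠ 0 := by rintro rfl; simp at hm'; exact hm hm'
  have hm'eq : (m' : ℤ) = x' ^ 2 + y' ^ 2 := by
    have h1 : ((g : ℤ) ^ 2) * (m' : ℤ) = (g : ℤ) ^ 2 * (x' ^ 2 + y' ^ 2) := by
      have h2 : ((m : ℕ) : ℤ) = (g : ℤ) ^ 2 * m' := by rw [hm']; push_cast; ring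
      rw [← h2, h]
      nth_rewrite 1 [hx']
      nth_rewrite 1 [hy']
      ring
    have h3 : ((g : ℤ) ^ 2) ≠ 0 := by positivity
    exact mul_left_cancel₀ h3 h1
  obtain ⟨a, t, ht, hat⟩ := Nat.exists_eq_two_pow_mul_odd hm'0
  refine ⟨a, g, t, hg0.ne', ?_, ?_⟩
  · have ht0 : t ≠ 0 := by rintro rfl; simp at hat; exact hm'0 hat
    refine T_of_primes ht0 fun p hp hpt => ?_
    have : Fact p.Prime := ⟨hp⟩
    have hp2 : p ≠ 2 := by
      rintro rfl
      exact (Nat.not_even_iff_odd.mpr ht) (even_iff_two_dvd.mpr hpt)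
    have hpm : (p : ℤ) ∣ x' ^ 2 + y' ^ 2 := by
      rw [← hm'eq]
      exact_mod_cast hpt.trans ⟨2 ^ a, by rw [hat]; ring⟩
    have hz : (x' : ZMod p) ^ 2 + (y' : ZMod p) ^ 2 = 0 := by
      have := (ZMod.intCast_zmod_eq_zero_iff_dvd (x' ^ 2 + y' ^ 2) p).mpr hpm
      push_cast at this
      exact this
    have hy0 : (y' : ZMod p) ≠ 0 := by
      intro hy0
      rw [hy0] at hz
      have hx0 : (x' : ZMod p) = 0 := by
        have : (x' : ZMod p) ^ 2 = 0 := by simpa using hz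
        exact pow_eq_zero_iff (two_ne_zero) |>.mp this
      have h1 := (ZMod.intCast_zmod_eq_zero_iff_dvd x' p).mp hx0
      have h2 := (ZMod.intCast_zmod_eq_zero_iff_dvd y' p).mp hy0
      have h3 : (p : ℤ) ∣ (Int.gcd x' y' : ℤ) := Int.dvd_coe_gcd h1 h2
      rw [hcop] at h3
      have h4 : p ∣ 1 := by exact_mod_cast h3
      exact hp.one_lt.ne' (Nat.dvd_one.mp h4)
    have hsq : IsSquare (-1 : ZMod p) := by
      refine ⟨(x' : ZMod p) / y', ?_⟩
      have : (x' : ZMod p) ^ 2 = -1 * (y' : ZMod p) ^ 2 := by linear_combination hz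
      field_simp
      rw [this]
      ring
    rw [ZMod.exists_sq_eq_neg_one_iff] at hsq
    have hodd : p % 2 ≠ 0 := by
      rcases hp.eq_two_or_odd with h1 | h1
      · exact absurd h1 hp2
      · omega
    rw [chi, ZMod.χ₄_nat_one_mod_four]
    omega
  · rw [hm', hat]; ring

/-- values of the form up to N -/
noncomputable def V (N : ℕ) : Finset ℕ := by
  classical
  exact (Ioc 0 N).filter (fun m => ∃ x y : ℤ, (m : ℤ) = x ^ 2 + y ^ 2)

/-- elements of T up to N -/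
noncomputable def TS (N : ℕ) : Finset ℕ := by
  classical
  exact (Ioc 0 N).filter T

lemma TS_card (N : ℕ) : ((TS N).card : ℝ) = B N := by
  classical
  rw [TS, B, card_filter]
  push_cast
  exact sum_congr rfl fun n _ => by simp [gT]

lemma V_subset (N : ℕ) : V N ⊆ (range N ×ˢ Ioc 0 N).biUnion
    (fun x => (TS (N / (2 ^ x.1 * x.2 ^ 2))).image (fun t => 2 ^ x.1 * x.2 ^ 2 * t)) := by
  classical
  intro m hm
  rw [V, mem_filter] at hm
  obtain ⟨hm1, x, y, hxy⟩ := hm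
  rw [mem_Ioc] at hm1
  obtain ⟨a, g, t, hg, hT, hmt⟩ := form_decomp hm1.1.ne' hxy
  have ht0 : 0 < t := Nat.pos_of_ne_zero hT.1
  have hk0 : 0 < 2 ^ a * g ^ 2 := by positivity
  have hle : 2 ^ a * g ^ 2 * t ≤ N := hmt ▸ hm1.2
  have ha : a < N := by
    calc a < 2 ^ a := Nat.lt_two_pow_self
      _ ≤ 2 ^ a * (g ^ 2 * t) := Nat.le_mul_of_pos_right _ (by positivity)
      _ ≤ N := by rw [← mul_assoc]; exact hle
  have hgN : g ≤ N := by
    calc g ≤ g * (g * (2 ^ a * t)) := Nat.le_mul_of_pos_right _ (by positivity)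
      _ = 2 ^ a * g ^ 2 * t := by ring
      _ ≤ N := hle
  rw [mem_biUnion]
  refine ⟨(a, g), ?_, ?_⟩
  · simp only [mem_product, mem_range, mem_Ioc]
    exact ⟨ha, Nat.pos_of_ne_zero hg, hgN⟩
  · rw [mem_image]
    refine ⟨t, ?_, hmt.symm⟩
    rw [TS, mem_filter, mem_Ioc]
    refine ⟨⟨ht0, ?_⟩, hT⟩
    rw [Nat.le_div_iff_mul_le hk0]
    rw [mul_comm]
    exact hle

lemma V_card_le (N : ℕ) : ((V N).card : ℝ) ≤
    ∑ x ∈ range N ×ˢ Ioc 0 N, B (N / (2 ^ x.1 * x.2 ^ 2)) := by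
  classical
  have h1 := card_le_card (V_subset N)
  have h2 : (V N).card ≤ ∑ x ∈ range N ×ˢ Ioc 0 N, (TS (N / (2 ^ x.1 * x.2 ^ 2))).card := by
    refine h1.trans (card_biUnion_le.trans (sum_le_sum fun x _ => card_image_le))
  calc ((V N).card : ℝ)
      ≤ ((∑ x ∈ range N ×ˢ Ioc 0 N, (TS (N / (2 ^ x.1 * x.2 ^ 2))).card : ℕ) : ℝ) := by
        exact_mod_cast h2
    _ = _ := by
        push_cast
        exact sum_congr rfl fun x _ => TS_card _

lemma term_bound {N k : ℕ} (hN : 1 ≤ N) (hk : 1 ≤ k) :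
    B (N / k) ≤ 2 * (Real.log 4 + 6) * (N / Real.sqrt (1 + Real.log N))
      * (2 * (1 / (k : ℝ) ^ (3 / 4 : ℝ))) := by
  have h4 : 0 ≤ Real.log 4 := Real.log_nonneg (by norm_num)
  have hk' : (1 : ℝ) ≤ k := by exact_mod_cast hk
  have hN' : (1 : ℝ) ≤ N := by exact_mod_cast hN
  have hlogN : 0 ≤ Real.log N := Real.log_nonneg hN'
  have hlogk : 0 ≤ Real.log k := Real.log_nonneg hk'
  rcases lt_or_ge N k with hlt | hge
  · rw [Nat.div_eq_of_lt hlt]
    have : B 0 = 0 := by simp [B]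
    rw [this]
    positivity
  · have hy : (1 : ℝ) ≤ (N : ℝ) / k := by
      rw [le_div_iff₀ (by linarith), one_mul]
      exact_mod_cast hge
    have h1 := B_bound hy
    rw [Nat.floor_div_eq_div] at h1
    refine h1.trans ?_
    have hlogy : Real.log ((N : ℝ) / k) = Real.log N - Real.log k :=
      Real.log_div (by linarith) (by linarith)
    have hlogy0 : 0 ≤ Real.log ((N : ℝ) / k) := Real.log_nonneg hy
    rw [mul_assoc (2 * (Real.log 4 + 6))]
    refine mul_le_mul_of_nonneg_left ?_ (by positivity)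
    have hs1 : 0 < Real.sqrt (1 + Real.log ((N : ℝ) / k)) := Real.sqrt_pos.mpr (by linarith)
    have hs2 : 0 < Real.sqrt (1 + Real.log N) := Real.sqrt_pos.mpr (by linarith)
    have hs3 : Real.sqrt (1 + Real.log N)
        ≤ Real.sqrt (1 + Real.log ((N : ℝ) / k)) * Real.sqrt (1 + Real.log k) := by
      rw [← Real.sqrt_mul (by linarith)]
      refine Real.sqrt_le_sqrt ?_
      rw [hlogy] at hlogy0 ⊢
      nlinarith
    have hs4 : Real.sqrt (1 + Real.log k) ≤ 2 * (k : ℝ) ^ (1 / 4 : ℝ) := by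
      rw [Real.sqrt_le_left (by positivity), mul_pow, ← Real.rpow_natCast ((k : ℝ) ^ (1 / 4 : ℝ)),
        ← Real.rpow_mul (by linarith)]
      have h5 := Real.log_le_rpow_div (x := (k : ℝ)) (ε := 1 / 2) (by linarith) (by norm_num)
      have h6 : (1 : ℝ) ≤ (k : ℝ) ^ (1 / 2 : ℝ) := Real.one_le_rpow hk' (by norm_num)
      have h7 : (1 / 4 : ℝ) * ((2 : ℕ) : ℝ) = 1 / 2 := by norm_num
      rw [h7]
      have h8 : (k : ℝ) ^ (1 / 2 : ℝ) / (1 / 2) = 2 * (k : ℝ) ^ (1 / 2 : ℝ) := by ring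
      rw [h8] at h5
      linarith
    have hkpos : (0 : ℝ) < k := by linarith
    have hsplit : (k : ℝ) = (k : ℝ) ^ (3 / 4 : ℝ) * (k : ℝ) ^ (1 / 4 : ℝ) := by
      rw [← Real.rpow_add hkpos]
      norm_num
    have hk34 : 0 < (k : ℝ) ^ (3 / 4 : ℝ) := Real.rpow_pos_of_pos hkpos _
    have hk14 : 0 < (k : ℝ) ^ (1 / 4 : ℝ) := Real.rpow_pos_of_pos hkpos _
    generalize Real.sqrt (1 + Real.log ((N : ℝ) / k)) = S1 at hs1 hs3 ⊢
    rw [div_le_iff₀ hs1]
    have h9 : (N : ℝ) / k = N / Real.sqrt (1 + Real.log N) * (Real.sqrt (1 + Real.log N) / k) := by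
      field_simp
    rw [h9]
    have hNs : 0 ≤ (N : ℝ) / Real.sqrt (1 + Real.log N) := by positivity
    rw [mul_assoc]
    refine mul_le_mul_of_nonneg_left ?_ hNs
    rw [div_le_iff₀ hkpos]
    calc Real.sqrt (1 + Real.log N)
        ≤ S1 * Real.sqrt (1 + Real.log k) := hs3
      _ ≤ S1 * (2 * (k : ℝ) ^ (1 / 4 : ℝ)) := by gcongr
      _ = _ := by
        have h10 : (k : ℝ) ^ (1 / 4 : ℝ) = (k : ℝ) / (k : ℝ) ^ (3 / 4 : ℝ) := by
          rw [eq_div_iff hk34.ne', mul_comm]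
          exact hsplit.symm
        rw [h10]
        ring

lemma V_bound : ∃ K : ℝ, 0 ≤ K ∧ ∀ N : ℕ, 1 ≤ N →
    ((V N).card : ℝ) ≤ K * (N / Real.sqrt (1 + Real.log N)) := by
  have h4 : 0 ≤ Real.log 4 := Real.log_nonneg (by norm_num)
  set q : ℝ := (2 : ℝ) ^ (-(3 / 4) : ℝ) with hq
  have hq0 : 0 ≤ q := Real.rpow_nonneg (by norm_num) _
  have hq1 : q < 1 := Real.rpow_lt_one_of_one_lt_of_neg (by norm_num) (by norm_num)
  have hs1 : Summable (fun a : ℕ => q ^ a) := summable_geometric_of_lt_one hq0 hq1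
  have hs2 : Summable (fun g : ℕ => 1 / (g : ℝ) ^ (3 / 2 : ℝ)) :=
    Real.summable_one_div_nat_rpow.mpr (by norm_num)
  refine ⟨2 * (Real.log 4 + 6) * 2 * ((∑' a : ℕ, q ^ a) * ∑' g : ℕ, 1 / (g : ℝ) ^ (3 / 2 : ℝ)),
    by positivity, fun N hN => ?_⟩
  have hN' : (1 : ℝ) ≤ N := by exact_mod_cast hN
  have hlogN : 0 ≤ Real.log N := Real.log_nonneg hN'
  have h1 : ∑ x ∈ range N ×ˢ Ioc 0 N, B (N / (2 ^ x.1 * x.2 ^ 2))
      ≤ ∑ x ∈ range N ×ˢ Ioc 0 N, 2 * (Real.log 4 + 6) * (N / Real.sqrt (1 + Real.log N)) * 2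
        * (q ^ x.1 * (1 / (x.2 : ℝ) ^ (3 / 2 : ℝ))) := by
    refine sum_le_sum fun x hx => ?_
    simp only [mem_product, mem_range, mem_Ioc] at hx
    have hx2 : 0 < x.2 := hx.2.1
    have hk : 1 ≤ 2 ^ x.1 * x.2 ^ 2 := Nat.one_le_iff_ne_zero.mpr (by positivity)
    refine (term_bound hN hk).trans (le_of_eq ?_)
    have hx2' : (0 : ℝ) < x.2 := by exact_mod_cast hx2
    have h2 : ((2 ^ x.1 * x.2 ^ 2 : ℕ) : ℝ) ^ (3 / 4 : ℝ)
        = (q ^ x.1)⁻¹ * (x.2 : ℝ) ^ (3 / 2 : ℝ) := by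
      push_cast
      rw [Real.mul_rpow (by positivity) (by positivity), ← Real.rpow_natCast (x.2 : ℝ) 2,
        ← Real.rpow_mul hx2'.le, ← Real.rpow_natCast (2 : ℝ), ← Real.rpow_mul (by norm_num),
        hq, ← Real.rpow_natCast, ← Real.rpow_mul (by norm_num), ← Real.rpow_neg (by norm_num)]
      congr 2
      · ring
      · norm_num
    rw [h2]
    have hqx : q ^ x.1 ≠ 0 := by
      have : 0 < q := Real.rpow_pos_of_pos (by norm_num) _
      positivity
    field_simp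
  refine (V_card_le N).trans (h1.trans ?_)
  rw [← mul_sum, sum_product]
  have h3 : ∑ a ∈ range N, ∑ g ∈ Ioc 0 N, q ^ a * (1 / (g : ℝ) ^ (3 / 2 : ℝ))
      ≤ (∑' a : ℕ, q ^ a) * ∑' g : ℕ, 1 / (g : ℝ) ^ (3 / 2 : ℝ) := by
    rw [← sum_mul_sum]
    refine mul_le_mul (hs1.sum_le_tsum _ fun i _ => by positivity)
      (hs2.sum_le_tsum _ fun i _ => by positivity) (sum_nonneg fun i _ => by positivity)
      (tsum_nonneg fun i => by positivity)
  have h5 : 0 ≤ 2 * (Real.log 4 + 6) * ((N : ℝ) / Real.sqrt (1 + Real.log N)) * 2 := by positivity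
  calc _ ≤ 2 * (Real.log 4 + 6) * ((N : ℝ) / Real.sqrt (1 + Real.log N)) * 2 *
        ((∑' a : ℕ, q ^ a) * ∑' g : ℕ, 1 / (g : ℝ) ^ (3 / 2 : ℝ)) :=
        mul_le_mul_of_nonneg_left h3 h5
    _ = _ := by ring


end Helpers

end Pool.Agent.Helper949.Landau
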