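import Mathlib
import Pool.Agent.Helper949.DD2
import Pool.Agent.Helper949.Landau

set_option autoImplicit false

/-! Lattice sets with a box shifted by about `√k L` along the first coordinate. -/

namespace Pool.Agent.Helper949.DD

open Finset

/-- the shifted box -/
def InBoxM {k : ℕ} (hk : 0 < k) (M L : ℤ) (x : Fin k → ℤ) : Prop :=
  (∀ i, 0 ≤ x i) ∧ M * L ≤ x ⟨0, hk⟩ ∧ x ⟨0, hk⟩ ≤ M * L + L ∧ ∀ i, i ≠ ⟨0, hk⟩ → x i ≤ L

lemma boxM_Q {k : ℕ} (hk : 0 < k) (M L : ℤ) (x : Fin k → ℤ) (hL : 0 ≤ L) (hM : 1 ≤ M)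
    (hkM : (k : ℤ) ≤ M ^ 2) (hx : InBoxM hk M L x) : Q x ≤ 4 * M ^ 2 * L ^ 2 := by
  classical
  unfold Q
  rw [← Finset.add_sum_erase _ _ (mem_univ (⟨0, hk⟩ : Fin k))]
  have h1 : ∀ i ∈ univ.erase (⟨0, hk⟩ : Fin k), x i ^ 2 ≤ L ^ 2 := by
    intro i hi
    have := hx.2.2.2 i (Finset.ne_of_mem_erase hi)
    have := hx.1 i
    nlinarith
  have h2 := Finset.sum_le_card_nsmul _ _ _ h1
  rw [nsmul_eq_mul, Finset.card_erase_of_mem (mem_univ _), Finset.card_univ, Fintype.card_fin] at h2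
  have h3 : ((k - 1 : ℕ) : ℤ) = k - 1 := by
    rw [Nat.cast_sub hk]; norm_num
  rw [h3] at h2
  have h4 := hx.2.2.1
  have h5 := hx.1 ⟨0, hk⟩
  have h6 : x ⟨0, hk⟩ ^ 2 ≤ (M * L + L) ^ 2 := pow_le_pow_left₀ h5 h4 2
  have h7 : ((k : ℤ) - 1) * L ^ 2 ≤ (M ^ 2 - 1) * L ^ 2 :=
    mul_le_mul_of_nonneg_right (by linarith) (sq_nonneg _)
  have h8 : M * L ^ 2 ≤ M ^ 2 * L ^ 2 :=
    mul_le_mul_of_nonneg_right (by nlinarith) (sq_nonneg _)
  nlinarith

lemma boxM_sub_sorted {k : ℕ} (hk : 0 < k) (M L e : ℤ) (x y : Fin k → ℤ) (hL : 0 ≤ L) (hM : 1 ≤ M)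
    (hkM : (k : ℤ) ≤ M ^ 2) (hLe : 20 * M ^ 2 * L ^ 2 ≤ e) (hx : InBoxM hk M L x) (hy : Sorted y)
    (hye : Q y ≤ e) : Q (x - y) ≤ e := by
  rw [Q_sub]
  have h1 := boxM_Q hk M L x hL hM hkM hx
  have h2 := inner_ge hk x y hx.1 hy.2.1
  have h3 := sorted_Q_le4 hk y hy
  have hx0 := hx.1 ⟨0, hk⟩
  have hy0 := hy.2.1 ⟨0, hk⟩
  have hML : 0 ≤ M * L := mul_nonneg (by linarith) hL
  rcases le_total ((4 * (M * L)) ^ 2) (Q y) with h | h
  · have h4 : (4 * (M * L)) ^ 2 ≤ (2 * y ⟨0, hk⟩) ^ 2 := by nlinarith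
    have h5 : 4 * (M * L) ≤ 2 * y ⟨0, hk⟩ := abs_le_of_sq_le_sq' h4 (by linarith) |>.2
    have h6 := hx.2.1
    have h7 : (M * L) * (4 * (M * L)) ≤ x ⟨0, hk⟩ * (2 * y ⟨0, hk⟩) :=
      mul_le_mul h6 h5 (by positivity) hx0
    nlinarith
  · have h4 : 0 ≤ ∑ i, x i * y i := le_trans (mul_nonneg hx0 hy0) h2
    nlinarith

lemma boxM_sub_box {k : ℕ} (hk : 0 < k) (M L e : ℤ) (x y : Fin k → ℤ) (hL : 0 ≤ L) (hM : 1 ≤ M)
    (hkM : (k : ℤ) ≤ M ^ 2) (hLe : 20 * M ^ 2 * L ^ 2 ≤ e) (hx : InBoxM hk M L x)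
    (hy : InBoxM hk M L y) : Q (x - y) ≤ e := by
  rw [Q_sub]
  have h1 := boxM_Q hk M L x hL hM hkM hx
  have h1' := boxM_Q hk M L y hL hM hkM hy
  have h2 := inner_ge hk x y hx.1 hy.1
  have h4 : 0 ≤ ∑ i, x i * y i := le_trans (mul_nonneg (hx.1 _) (hy.1 _)) h2
  have h5 : 0 ≤ M ^ 2 * L ^ 2 := by positivity
  nlinarith

lemma lattice_mainM {k : ℕ} (hk : 0 < k) (e n L M : ℕ) (hM : 1 ≤ M) (hkM : k ≤ M ^ 2)
    (hL : 20 * M ^ 2 * L ^ 2 ≤ e)
    (hn : n ≤ (L + 1) ^ k) (hF : F k e + 1 ≤ n) : F k e ∈ D k n := by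
  classical
  set V : Finset ℕ := (Finset.Icc 1 e).filter (fun j => j ∈ E k) with hV
  have hFV : F k e = V.card := by
    unfold F
    rw [hV]
  have hLz : 20 * (M : ℤ) ^ 2 * (L : ℤ) ^ 2 ≤ (e : ℤ) := by exact_mod_cast hL
  have hL0 : (0 : ℤ) ≤ L := by positivity
  have hMz : (1 : ℤ) ≤ M := by exact_mod_cast hM
  have hkMz : (k : ℤ) ≤ (M : ℤ) ^ 2 := by exact_mod_cast hkM
  let B : Finset (Fin k → ℤ) :=
    Fintype.piFinset (fun i => if i = ⟨0, hk⟩ then Finset.Icc ((M : ℤ) * L) (M * L + L)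
      else Finset.Icc 0 (L : ℤ))
  have hB : ∀ x ∈ B, InBoxM hk M L x := by
    intro x hx
    have h := Fintype.mem_piFinset.mp hx
    have h0 := h ⟨0, hk⟩
    simp only [if_true, Finset.mem_Icc] at h0
    have h1 : ∀ i, i ≠ ⟨0, hk⟩ → 0 ≤ x i ∧ x i ≤ L := by
      intro i hi
      have := h i
      simpa [hi] using this
    have hML : 0 ≤ (M : ℤ) * L := by positivity
    refine ⟨?_, h0.1, h0.2, fun i hi => (h1 i hi).2⟩
    intro i
    by_cases hi : i = ⟨0, hk⟩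
    · rw [hi]; linarith [h0.1]
    · exact (h1 i hi).1
  have hBcard : B.card = (L + 1) ^ k := by
    rw [Fintype.card_piFinset]
    have : ∀ i : Fin k, (if i = ⟨0, hk⟩ then Finset.Icc ((M : ℤ) * L) (M * L + L)
        else Finset.Icc 0 (L : ℤ)).card = L + 1 := by
      intro i
      split_ifs
      · rw [Int.card_Icc]; omega
      · rw [Int.card_Icc]; omega
    rw [Finset.prod_congr rfl (fun i _ => this i)]
    simp
  let G : Finset (Fin k → ℤ) :=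
    (Fintype.piFinset (fun _ => Finset.Icc (0 : ℤ) e)).filter (fun x => Sorted x ∧ Q x ≤ e)
  have hG : ∀ x, x ∈ G ↔ Sorted x ∧ Q x ≤ e := by
    intro x
    simp only [G, Finset.mem_filter, Fintype.mem_piFinset, Finset.mem_Icc, and_iff_right_iff_imp]
    rintro ⟨h1, h2⟩ i
    refine ⟨h1.2.1 i, ?_⟩
    have h3 : x i ^ 2 ≤ Q x := Finset.single_le_sum (f := fun i => x i ^ 2)
      (fun i _ => sq_nonneg _) (mem_univ i)
    have h4 := h1.2.1 i
    nlinarith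
  have hrep : ∀ j ∈ V, ∃ x : Fin k → ℤ, Sorted x ∧ Q x = j := by
    intro j hj
    exact exists_sorted_of_mem_E j (Finset.mem_filter.mp hj).2
  choose! y hy using hrep
  have hVle : ∀ j ∈ V, 1 ≤ j ∧ j ≤ e := fun j hj => Finset.mem_Icc.mp (Finset.mem_filter.mp hj).1
  have hsub : insert 0 (V.image y) ⊆ B ∪ G := by
    intro x hx
    rw [Finset.mem_insert] at hx
    apply Finset.mem_union_right
    rw [hG]
    rcases hx with rfl | hx
    · refine ⟨sorted_zero, ?_⟩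
      have : Q (0 : Fin k → ℤ) = 0 := by simp [Q]
      rw [this]; positivity
    · obtain ⟨j, hj, rfl⟩ := Finset.mem_image.mp hx
      refine ⟨(hy j hj).1, ?_⟩
      rw [(hy j hj).2]
      exact_mod_cast (hVle j hj).2
  have hc1 : (insert 0 (V.image y)).card ≤ n := by
    have h1 := Finset.card_insert_le (0 : Fin k → ℤ) (V.image y)
    have h2 : (V.image y).card ≤ V.card := Finset.card_image_le
    omega
  have hc2 : n ≤ (B ∪ G).card := by
    have := Finset.card_le_card (Finset.subset_union_left (s₁ := B) (s₂ := G))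
    omega
  obtain ⟨S, hS1, hS2, hS3⟩ := Finset.exists_subsuperset_card_eq hsub hc1 hc2
  have hmem := mem_D S hS3
  have hdiam : ∀ x ∈ S, ∀ z ∈ S, Q (x - z) ≤ e := by
    intro x hx z hz
    have hx' := hS2 hx
    have hz' := hS2 hz
    rw [Finset.mem_union, hG] at hx' hz'
    rcases hx' with hx' | hx' <;> rcases hz' with hz' | hz'
    · exact boxM_sub_box hk M L e x z hL0 hMz hkMz hLz (hB x hx') (hB z hz')
    · exact boxM_sub_sorted hk M L e x z hL0 hMz hkMz hLz (hB x hx') hz'.1 hz'.2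
    · rw [Q_sub_comm]
      exact boxM_sub_sorted hk M L e z x hL0 hMz hkMz hLz (hB z hz') hx'.1 hx'.2
    · exact sorted_sub hk x z hx'.1 hz'.1 e hx'.2 hz'.2
  have hset : {q : ℤ | ∃ x ∈ S, ∃ z ∈ S, x ≠ z ∧ q = Q (x - z)} = (fun j : ℕ => (j : ℤ)) '' (V : Set ℕ) := by
    ext q
    constructor
    · rintro ⟨x, hx, z, hz, hxz, rfl⟩
      have h1 : 0 < Q (x - z) := Q_pos _ (sub_ne_zero.mpr hxz)
      have h2 := hdiam x hx z hz
      refine ⟨(Q (x - z)).toNat, ?_, Int.toNat_of_nonneg h1.le⟩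
      rw [Finset.mem_coe, hV, Finset.mem_filter, Finset.mem_Icc]
      refine ⟨by omega, x - z, sub_ne_zero.mpr hxz, (Int.toNat_of_nonneg h1.le).symm⟩
    · rintro ⟨j, hj, rfl⟩
      refine ⟨y j, hS1 (Finset.mem_insert_of_mem (Finset.mem_image_of_mem y hj)), 0,
        hS1 (Finset.mem_insert_self _ _), ?_, ?_⟩
      · intro h0
        have h1 := (hy j hj).2
        rw [h0] at h1
        have : Q (0 : Fin k → ℤ) = 0 := by simp [Q]
        rw [this] at h1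
        have h2 := (hVle j hj).1
        have h3 : j = 0 := by exact_mod_cast h1.symm
        omega
      · rw [sub_zero]
        exact (hy j hj).2.symm
  rw [hset, Set.InjOn.ncard_image (fun a _ b _ h => by exact_mod_cast h), Set.ncard_coe_finset] at hmem
  rw [hFV]
  exact hmem

lemma exists_M (k : ℕ) (hk : 0 < k) : ∃ M : ℕ, 1 ≤ M ∧ k ≤ M ^ 2 ∧ M ^ 2 ≤ 2 * k := by
  have h1 := Nat.sqrt_le' k
  have h2 := Nat.lt_succ_sqrt' k
  simp only [Nat.succ_eq_add_one] at h2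
  set r := Nat.sqrt k with hr
  have hr1 : 1 ≤ r := by
    rw [hr]
    exact Nat.sqrt_pos.mpr hk
  rcases Nat.eq_or_lt_of_le h1 with h | h
  · exact ⟨r, hr1, h.ge, by omega⟩
  · rcases Nat.lt_or_ge r 3 with h3 | h3
    · -- small cases
      have : r = 1 ∨ r = 2 := by omega
      rcases this with h4 | h4
      · rw [h4] at h h2
        exact ⟨2, by norm_num, by omega, by omega⟩
      · rw [h4] at h h2
        exact ⟨3, by norm_num, by omega, by omega⟩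
    · refine ⟨r + 1, by omega, h2.le, ?_⟩
      nlinarith

/-- integer version of the lattice step -/
lemma lattice_stepM {k : ℕ} (hk : 0 < k) (e n : ℕ)
    (hn : ∀ L : ℕ, e < 40 * k * (L + 1) ^ 2 → n ≤ (L + 1) ^ k) (hF : F k e + 1 ≤ n) :
    F k e ∈ D k n := by
  obtain ⟨M, hM1, hM2, hM3⟩ := exists_M k hk
  have hMpos : 0 < 20 * M ^ 2 := by positivity
  refine lattice_mainM hk e n (Nat.sqrt (e / (20 * M ^ 2))) M hM1 hM2 ?_ ?_ hF
  · have h1 : Nat.sqrt (e / (20 * M ^ 2)) ^ 2 ≤ e / (20 * M ^ 2) := Nat.sqrt_le' _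
    calc 20 * M ^ 2 * Nat.sqrt (e / (20 * M ^ 2)) ^ 2 ≤ 20 * M ^ 2 * (e / (20 * M ^ 2)) :=
          Nat.mul_le_mul_left _ h1
      _ ≤ e := Nat.mul_div_le _ _
  · apply hn
    have h1 : e / (20 * M ^ 2) < (Nat.sqrt (e / (20 * M ^ 2)) + 1) ^ 2 := by
      have := Nat.lt_succ_sqrt' (e / (20 * M ^ 2))
      simpa using this
    calc e < 20 * M ^ 2 * (e / (20 * M ^ 2) + 1) := by
          have := Nat.lt_mul_div_succ e hMpos
          linarith
      _ ≤ 20 * M ^ 2 * (Nat.sqrt (e / (20 * M ^ 2)) + 1) ^ 2 := Nat.mul_le_mul_left _ h1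
      _ ≤ 40 * k * (Nat.sqrt (e / (20 * M ^ 2)) + 1) ^ 2 := Nat.mul_le_mul_right _ (by omega)

lemma lattice_rangeM {k : ℕ} (hk : 0 < k) (n m : ℕ)
    (hm : 40 * (k : ℝ) * (n : ℝ) ^ ((2 : ℝ) / k) ≤ m) (hmn : m + 1 ≤ n) : m ∈ D k n := by
  obtain ⟨e, he⟩ := exists_F_eq hk m
  rw [← he]
  apply lattice_stepM hk e n _ (by omega)
  intro L hL
  have hk' : (0 : ℝ) < k := by exact_mod_cast hk
  have h1 : m ≤ e := by rw [← he]; exact F_le k e
  have h2 : (n : ℝ) ^ ((2 : ℝ) / k) < ((L : ℝ) + 1) ^ 2 := by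
    have h3 : (e : ℝ) < 40 * (k : ℝ) * ((L : ℝ) + 1) ^ 2 := by exact_mod_cast hL
    have h4 : (m : ℝ) ≤ e := by exact_mod_cast h1
    have h5 : 40 * (k : ℝ) * (n : ℝ) ^ ((2 : ℝ) / k)
        < 40 * (k : ℝ) * ((L : ℝ) + 1) ^ 2 := by linarith
    exact lt_of_mul_lt_mul_left h5 (by positivity)
  have h6 : (n : ℝ) ≤ ((L : ℝ) + 1) ^ k := by
    have h7 : ((n : ℝ) ^ ((2 : ℝ) / k)) ^ ((k : ℝ) / 2) ≤ (((L : ℝ) + 1) ^ 2) ^ ((k : ℝ) / 2) :=
      Real.rpow_le_rpow (by positivity) h2.le (by positivity)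
    rw [← Real.rpow_mul (by positivity)] at h7
    have h8 : (2 : ℝ) / k * (k / 2) = 1 := by field_simp
    rw [h8, Real.rpow_one] at h7
    have h9 : (((L : ℝ) + 1) ^ 2) ^ ((k : ℝ) / 2) = ((L : ℝ) + 1) ^ k := by
      rw [← Real.rpow_natCast (((L : ℝ) + 1)) 2, ← Real.rpow_mul (by positivity)]
      have : ((2 : ℕ) : ℝ) * ((k : ℝ) / 2) = k := by push_cast; ring
      rw [this, Real.rpow_natCast]
    rw [h9] at h7
    exact h7
  exact_mod_cast h6

lemma F_two_le' (N : ℕ) : F 2 N ≤ (Landau.V N).card := by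
  classical
  unfold F Landau.V
  apply Finset.card_le_card
  intro j hj
  rw [Finset.mem_filter, Finset.mem_Icc] at hj
  rw [Finset.mem_filter, Finset.mem_Ioc]
  obtain ⟨⟨h1, h2⟩, v, _, hv⟩ := hj
  refine ⟨⟨h1, h2⟩, v 0, v 1, ?_⟩
  rw [← hv]
  simp [Q, Fin.sum_univ_two]

lemma plane_rangeM : ∃ C : ℝ, 0 < C ∧ ∀ n : ℕ, 2 ≤ n → ∀ m : ℕ,
    C * (n / √(Real.log n)) ≤ m → m + 1 ≤ n → m ∈ D 2 n := by
  obtain ⟨K, hK0, hK⟩ := Landau.V_bound
  refine ⟨80 * K + 1, by positivity, ?_⟩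
  intro n hn m hm hmn
  have hn' : (2 : ℝ) ≤ n := by exact_mod_cast hn
  have hlog : 0 < Real.log n := Real.log_pos (by linarith)
  have hs : 0 < √(Real.log n) := Real.sqrt_pos.mpr hlog
  obtain ⟨e, he⟩ := exists_F_eq (k := 2) two_pos m
  rw [← he]
  apply lattice_stepM two_pos e n _ (by omega)
  intro L hL
  by_contra hcon
  push Not at hcon
  have h1 : e ≤ 80 * n := by
    have : 40 * 2 * (L + 1) ^ 2 < 80 * n := by omega
    omega
  have h2 : m ≤ (Landau.V (80 * n)).card := by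
    rw [← he]
    exact (F_mono 2 h1).trans (F_two_le' _)
  have h3 := hK (80 * n) (by omega)
  have h4 : (m : ℝ) ≤ K * (((80 * n : ℕ) : ℝ) / √(1 + Real.log ((80 * n : ℕ) : ℝ))) :=
    le_trans (by exact_mod_cast h2) h3
  have h5 : √(Real.log n) ≤ √(1 + Real.log ((80 * n : ℕ) : ℝ)) := by
    apply Real.sqrt_le_sqrt
    have : Real.log n ≤ Real.log ((80 * n : ℕ) : ℝ) := by
      apply Real.log_le_log (by linarith)
      push_cast
      linarith
    linarith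
  have h6 : K * (((80 * n : ℕ) : ℝ) / √(1 + Real.log ((80 * n : ℕ) : ℝ))) ≤
      80 * K * (n / √(Real.log n)) := by
    have : ((80 * n : ℕ) : ℝ) / √(1 + Real.log ((80 * n : ℕ) : ℝ)) ≤ ((80 * n : ℕ) : ℝ) / √(Real.log n) :=
      div_le_div_of_nonneg_left (by positivity) hs h5
    calc K * (((80 * n : ℕ) : ℝ) / √(1 + Real.log ((80 * n : ℕ) : ℝ)))
        ≤ K * (((80 * n : ℕ) : ℝ) / √(Real.log n)) := mul_le_mul_of_nonneg_left this hK0
      _ = 80 * K * (n / √(Real.log n)) := by push_cast; ring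
  have h7 : 0 < (n : ℝ) / √(Real.log n) := by positivity
  nlinarith

end Pool.Agent.Helper949.DD
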