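import Mathlib

/-! Elementary facts on power series with all coefficients absolutely convergent on `[0,ρ)`. -/

namespace Pool.Agent.Helper949.SP

open Finset Filter Topology

variable {𝕜 : Type*} [RCLike 𝕜]

def Conv (f : ℕ → 𝕜) (ρ : ℝ) : Prop := ∀ x : ℝ, 0 ≤ x → x < ρ → Summable fun n => ‖f n‖ * x ^ n

noncomputable def ev (f : ℕ → 𝕜) (z : 𝕜) : 𝕜 := ∑' n, f n * z ^ n

/-- Cauchy product -/
def cv (f g : ℕ → 𝕜) (n : ℕ) : 𝕜 := ∑ j ∈ range (n + 1), f j * g (n - j)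

/-- derivative -/
def dv (f : ℕ → 𝕜) (n : ℕ) : 𝕜 := ((n : 𝕜) + 1) * f (n + 1)

lemma pow_diff_ge (x r : ℝ) (hr : 0 ≤ r) (hx : r ≤ x) (n : ℕ) :
    ((n : ℝ) + 1) * r ^ n * (x - r) ≤ x ^ (n + 1) - r ^ (n + 1) := by
  induction n with
  | zero => simp
  | succ n ih =>
    have h1 : x ^ (n + 1 + 1) - r ^ (n + 1 + 1) =
        x * (x ^ (n + 1) - r ^ (n + 1)) + r ^ (n + 1) * (x - r) := by ring
    rw [h1]
    have h2 : r * (((n : ℝ) + 1) * r ^ n * (x - r)) ≤ x * (x ^ (n + 1) - r ^ (n + 1)) := by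
      have h3 : 0 ≤ ((n : ℝ) + 1) * r ^ n * (x - r) := by
        have : 0 ≤ x - r := by linarith
        positivity
      calc r * (((n : ℝ) + 1) * r ^ n * (x - r)) ≤ x * (((n : ℝ) + 1) * r ^ n * (x - r)) :=
            mul_le_mul_of_nonneg_right hx h3
        _ ≤ _ := mul_le_mul_of_nonneg_left ih (hr.trans hx)
    push_cast
    have h4 : ((n : ℝ) + 1 + 1) * r ^ (n + 1) * (x - r) =
        r * (((n : ℝ) + 1) * r ^ n * (x - r)) + r ^ (n + 1) * (x - r) := by ring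
    rw [h4]
    linarith

lemma Conv.summable_norm {f : ℕ → 𝕜} {ρ : ℝ} (hf : Conv f ρ) {z : 𝕜} (hz : ‖z‖ < ρ) :
    Summable fun n => ‖f n * z ^ n‖ := by
  simpa [norm_mul, norm_pow] using hf ‖z‖ (norm_nonneg _) hz

lemma Conv.summable {f : ℕ → 𝕜} {ρ : ℝ} (hf : Conv f ρ) {z : 𝕜} (hz : ‖z‖ < ρ) :
    Summable fun n => f n * z ^ n := (hf.summable_norm hz).of_norm

lemma norm_nat_succ (n : ℕ) : ‖((n : 𝕜) + 1)‖ = (n : ℝ) + 1 := by
  have : ((n : 𝕜) + 1) = ((n + 1 : ℕ) : 𝕜) := by push_cast; rfl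
  rw [this, RCLike.norm_natCast]; push_cast; rfl

lemma dv_tsum_le {f : ℕ → 𝕜} {x r : ℝ} (hr : 0 ≤ r) (hx : r < x)
    (hf : Summable fun n => ‖f n‖ * x ^ n) :
    Summable (fun n => ‖dv f n‖ * r ^ n) ∧
      ∑' n, ‖dv f n‖ * r ^ n ≤ (x - r)⁻¹ * ∑' n, ‖f n‖ * x ^ n := by
  have hpos : 0 < x - r := by linarith
  have hshift : Summable fun n => ‖f (n + 1)‖ * x ^ (n + 1) :=
    (summable_nat_add_iff 1).mpr hf
  have hbound : ∀ n, ‖dv f n‖ * r ^ n ≤ (x - r)⁻¹ * (‖f (n + 1)‖ * x ^ (n + 1)) := by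
    intro n
    unfold dv
    rw [norm_mul, norm_nat_succ]
    have h1 := pow_diff_ge x r hr hx.le n
    have h2 : ((n : ℝ) + 1) * r ^ n ≤ (x - r)⁻¹ * x ^ (n + 1) := by
      rw [inv_mul_eq_div, le_div_iff₀ hpos]
      have : 0 ≤ r ^ (n + 1) := by positivity
      linarith
    calc ((n : ℝ) + 1) * ‖f (n + 1)‖ * r ^ n = ‖f (n + 1)‖ * (((n : ℝ) + 1) * r ^ n) := by ring
      _ ≤ ‖f (n + 1)‖ * ((x - r)⁻¹ * x ^ (n + 1)) := mul_le_mul_of_nonneg_left h2 (norm_nonneg _)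
      _ = _ := by ring
  have hs : Summable fun n => (x - r)⁻¹ * (‖f (n + 1)‖ * x ^ (n + 1)) := hshift.mul_left _
  have hsum : Summable (fun n => ‖dv f n‖ * r ^ n) :=
    Summable.of_nonneg_of_le (fun n => by positivity) hbound hs
  refine ⟨hsum, ?_⟩
  calc ∑' n, ‖dv f n‖ * r ^ n ≤ ∑' n, (x - r)⁻¹ * (‖f (n + 1)‖ * x ^ (n + 1)) :=
        hsum.tsum_le_tsum hbound hs
    _ = (x - r)⁻¹ * ∑' n, ‖f (n + 1)‖ * x ^ (n + 1) := tsum_mul_left
    _ ≤ (x - r)⁻¹ * ∑' n, ‖f n‖ * x ^ n := by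
        apply mul_le_mul_of_nonneg_left _ (by positivity)
        rw [hf.tsum_eq_zero_add]
        have : 0 ≤ ‖f 0‖ * x ^ 0 := by positivity
        linarith

lemma Conv.dv {f : ℕ → 𝕜} {ρ : ℝ} (hf : Conv f ρ) : Conv (dv f) ρ := by
  intro r hr hrρ
  obtain ⟨x, h1, h2⟩ := exists_between hrρ
  exact (dv_tsum_le hr h1 (hf x (hr.trans h1.le) h2)).1

lemma Conv.add {f g : ℕ → 𝕜} {ρ : ℝ} (hf : Conv f ρ) (hg : Conv g ρ) :
    Conv (fun n => f n + g n) ρ := by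
  intro x hx hxρ
  refine Summable.of_nonneg_of_le (fun n => by positivity) (fun n => ?_)
    ((hf x hx hxρ).add (hg x hx hxρ))
  have := norm_add_le (f n) (g n)
  have hxn : 0 ≤ x ^ n := by positivity
  nlinarith

lemma Conv.const_mul {f : ℕ → 𝕜} {ρ : ℝ} (a : 𝕜) (hf : Conv f ρ) :
    Conv (fun n => a * f n) ρ := by
  intro x hx hxρ
  have := (hf x hx hxρ).mul_left ‖a‖
  refine this.congr (fun n => ?_)
  rw [norm_mul]; ring

lemma Conv.of_le {f : ℕ → 𝕜} {g : ℕ → ℝ} {ρ : ℝ} (hg : Conv g ρ) (h : ∀ n, ‖f n‖ ≤ g n) :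
    Conv f ρ := by
  intro x hx hxρ
  refine Summable.of_nonneg_of_le (fun n => by positivity) (fun n => ?_) (hg x hx hxρ)
  have h2 : ‖f n‖ ≤ ‖g n‖ := (h n).trans (Real.le_norm_self _)
  exact mul_le_mul_of_nonneg_right h2 (by positivity)

lemma ev_add {f g : ℕ → 𝕜} {ρ : ℝ} (hf : Conv f ρ) (hg : Conv g ρ) {z : 𝕜} (hz : ‖z‖ < ρ) :
    ev (fun n => f n + g n) z = ev f z + ev g z := by
  unfold ev
  rw [← (hf.summable hz).tsum_add (hg.summable hz)]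
  apply tsum_congr; intro n; ring

lemma ev_const_mul {f : ℕ → 𝕜} (a : 𝕜) {z : 𝕜} :
    ev (fun n => a * f n) z = a * ev f z := by
  unfold ev
  rw [← tsum_mul_left]
  apply tsum_congr; intro n; ring

lemma cv_term (f g : ℕ → 𝕜) (z : 𝕜) (n : ℕ) :
    ∑ k ∈ range (n + 1), (f k * z ^ k) * (g (n - k) * z ^ (n - k)) = cv f g n * z ^ n := by
  unfold cv
  rw [Finset.sum_mul]
  apply Finset.sum_congr rfl
  intro k hk
  have hk' : k ≤ n := Nat.lt_succ_iff.mp (Finset.mem_range.mp hk)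
  have : z ^ n = z ^ k * z ^ (n - k) := by rw [← pow_add]; congr 1; omega
  rw [this]; ring

lemma ev_mul {f g : ℕ → 𝕜} {ρ : ℝ} (hf : Conv f ρ) (hg : Conv g ρ) {z : 𝕜} (hz : ‖z‖ < ρ) :
    ev (cv f g) z = ev f z * ev g z := by
  unfold ev
  rw [tsum_mul_tsum_eq_tsum_sum_range_of_summable_norm (hf.summable_norm hz) (hg.summable_norm hz)]
  apply tsum_congr; intro n
  rw [cv_term]

lemma Conv.mul {f g : ℕ → 𝕜} {ρ : ℝ} (hf : Conv f ρ) (hg : Conv g ρ) : Conv (cv f g) ρ := by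
  intro x hx hxρ
  have h1 : Summable fun n => ‖‖f n‖ * x ^ n‖ := by
    refine (hf x hx hxρ).congr (fun n => ?_)
    rw [Real.norm_of_nonneg]; positivity
  have h2 : Summable fun n => ‖‖g n‖ * x ^ n‖ := by
    refine (hg x hx hxρ).congr (fun n => ?_)
    rw [Real.norm_of_nonneg]; positivity
  have h3 := summable_norm_sum_mul_range_of_summable_norm h1 h2
  refine Summable.of_nonneg_of_le (fun n => by positivity) (fun n => ?_) h3
  rw [cv_term (𝕜 := ℝ) (fun n => ‖f n‖) (fun n => ‖g n‖) x n, norm_mul,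
    Real.norm_of_nonneg (by positivity : (0:ℝ) ≤ x ^ n)]
  apply mul_le_mul_of_nonneg_right _ (by positivity)
  unfold cv
  refine (norm_sum_le _ _).trans ?_
  rw [Real.norm_of_nonneg (Finset.sum_nonneg (fun i _ => by positivity))]
  apply Finset.sum_le_sum; intro i _
  rw [norm_mul]

lemma ev_hasDerivAt {f : ℕ → 𝕜} {ρ : ℝ} (hf : Conv f ρ) {z : 𝕜} (hz : ‖z‖ < ρ) :
    HasDerivAt (ev f) (ev (dv f) z) z := by
  obtain ⟨r, h1, h2⟩ := exists_between hz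
  have hr0 : 0 ≤ r := (norm_nonneg z).trans h1.le
  have hD := hf.dv r hr0 h2
  -- derivative of the terms
  have hz0 : (0:𝕜) ∈ Metric.ball (0:𝕜) r := by
    simp [lt_of_le_of_lt (norm_nonneg z) h1]
  have hu : Summable (fun n : ℕ => ‖(n : 𝕜)‖ * ‖f n‖ * r ^ (n - 1)) := by
    rw [← summable_nat_add_iff 1]
    refine hD.congr (fun n => ?_)
    simp only [Pool.Agent.Helper949.SP.dv, norm_mul, Nat.add_sub_cancel]
    have : ‖(((n + 1 : ℕ) : 𝕜))‖ = ‖((n : 𝕜) + 1)‖ := by push_cast; rfl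
    rw [this]
  have key := hasDerivAt_tsum_of_isPreconnected (𝕜 := 𝕜) (g := fun n y => f n * y ^ n)
    (g' := fun n y => f n * ((n : 𝕜) * y ^ (n - 1))) hu Metric.isOpen_ball
    (convex_ball (0:𝕜) r).isPreconnected
    (fun n y _ => by
      have := (hasDerivAt_pow n y).const_mul (f n)
      simpa using this)
    (fun n y hy => by
      have hy' : ‖y‖ ≤ r := by simpa using (Metric.mem_ball.mp hy).le
      rw [norm_mul, norm_mul, norm_pow]
      calc ‖f n‖ * (‖(n : 𝕜)‖ * ‖y‖ ^ (n - 1)) = ‖(n : 𝕜)‖ * ‖f n‖ * ‖y‖ ^ (n - 1) := by ring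
        _ ≤ ‖(n : 𝕜)‖ * ‖f n‖ * r ^ (n - 1) := by gcongr)
    hz0 (by
      apply (hf.summable (z := 0) _)
      simpa using lt_of_le_of_lt (norm_nonneg z) hz)
    (show z ∈ Metric.ball (0:𝕜) r by simpa using h1)
  have heq : (∑' n, f n * ((n : 𝕜) * z ^ (n - 1))) = ev (dv f) z := by
    unfold ev Pool.Agent.Helper949.SP.dv
    have hsum : Summable fun n => f n * ((n : 𝕜) * z ^ (n - 1)) := by
      refine Summable.of_norm (Summable.of_nonneg_of_le (fun n => norm_nonneg _) (fun n => ?_) hu)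
      rw [norm_mul, norm_mul, norm_pow]
      calc ‖f n‖ * (‖(n : 𝕜)‖ * ‖z‖ ^ (n - 1)) = ‖(n : 𝕜)‖ * ‖f n‖ * ‖z‖ ^ (n - 1) := by ring
        _ ≤ ‖(n : 𝕜)‖ * ‖f n‖ * r ^ (n - 1) := by gcongr
    rw [hsum.tsum_eq_zero_add]
    simp only [Nat.cast_zero, zero_mul, mul_zero, zero_add, Nat.add_sub_cancel]
    apply tsum_congr; intro n
    push_cast; ring
  rw [heq] at key
  exact key

lemma ev_zero (f : ℕ → 𝕜) : ev f 0 = f 0 := by
  unfold ev
  rw [tsum_eq_single 0]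
  · simp
  · intro n hn; simp [hn]

end Pool.Agent.Helper949.SP
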