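import Mathlib
import Pool.Agent.Helper949.Srt.Count
set_option autoImplicit false
namespace Pool.Agent.Helper949.SQ
open Finset Pool.Agent.Helper949.StackSort
open scoped Classical

/-- number of proper nonempty sorted initial segments -/
noncomputable def dd (w : List ℕ) : ℕ := Nat.count (fun t => 0 < t ∧ Srt (w.take t)) w.length

/-- generating function of the statistic `dd` over nonempty sorted words on `A` -/
noncomputable def X (T : ℕ) (A : Finset ℕ) : ℕ := ∑ w ∈ (W A).filter S, T ^ dd w

/-- sum of truncated geometric series -/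
noncomputable def Z (T : ℕ) (A : Finset ℕ) : ℕ :=
  ∑ w ∈ (W A).filter S, ∑ i ∈ range (dd w), T ^ i

theorem count_geom (p : ℕ → Prop) [DecidablePred p] (T : ℕ) : ∀ n : ℕ,
    ∑ t ∈ (range n).filter p, T ^ Nat.count p t = ∑ i ∈ range (Nat.count p n), T ^ i := by
  intro n
  induction n with
  | zero => simp
  | succ n ih =>
    rw [Finset.range_add_one, Finset.filter_insert, Nat.count_succ]
    by_cases h : p n
    · rw [if_pos h, if_pos h, Finset.sum_insert (by simp), ih, Finset.sum_range_succ, add_comm]
    · rw [if_neg h, if_neg h, ih, add_zero]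

theorem count_congr' {p q : ℕ → Prop} [DecidablePred p] [DecidablePred q] {n : ℕ}
    (h : ∀ t < n, (p t ↔ q t)) : Nat.count p n = Nat.count q n := by
  rw [Nat.count_eq_card_filter_range, Nat.count_eq_card_filter_range]
  congr 1
  apply Finset.filter_congr
  intro t ht
  exact h t (Finset.mem_range.1 ht)

theorem dd_take (w : List ℕ) {t : ℕ} (ht : t ≤ w.length) :
    dd (w.take t) = Nat.count (fun s => 0 < s ∧ Srt (w.take s)) t := by
  unfold dd
  rw [List.length_take, min_eq_left ht]
  apply count_congr'
  intro s hs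
  rw [List.take_take, min_eq_left hs.le]

theorem Z_eq (T : ℕ) (A : Finset ℕ) :
    ∑ p ∈ BtSet A, T ^ dd p.1 = Z T A := by
  unfold Z
  have hmaps : ∀ p ∈ BtSet A, p.1 ++ p.2 ∈ (W A).filter S := by
    intro p hp
    unfold BtSet at hp
    rw [mem_filter, mem_PP] at hp
    rw [mem_filter]
    exact ⟨hp.1, fun h => hp.2.1.1.1 (List.append_eq_nil_iff.1 h).1, hp.2.2⟩
  rw [← Finset.sum_fiberwise_of_maps_to hmaps]
  apply sum_congr rfl
  intro w hw
  rw [mem_filter] at hw
  have hg := count_geom (fun t => 0 < t ∧ Srt (w.take t)) T w.length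
  unfold dd
  rw [← hg]
  symm
  apply Finset.sum_bij (fun t _ => (w.take t, w.drop t))
  · intro t ht
    simp only [mem_filter, mem_range] at ht
    rw [mem_filter]
    unfold BtSet
    rw [mem_filter, mem_PP]
    have h1 : w.take t ++ w.drop t = w := List.take_append_drop t w
    refine ⟨⟨?_, ⟨⟨?_, ht.2.2⟩, ⟨?_, ?_⟩⟩, ?_⟩, h1⟩
    · show w.take t ++ w.drop t ∈ W A
      rw [h1]; exact hw.1
    · intro h
      have := congrArg List.length h
      simp at this
      rcases this with h | h
      · omega
      · subst h; simp at ht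
    · intro h
      have := congrArg List.length h
      simp at this
      omega
    · apply srt_right (x := w.take t)
      rw [h1]; exact hw.2.2
    · show Srt (w.take t ++ w.drop t)
      rw [h1]; exact hw.2.2
  · intro t ht s hs h
    simp only [mem_filter, mem_range] at ht hs
    have := congrArg (fun p : List ℕ × List ℕ => p.1.length) h
    simp at this
    omega
  · intro p hp
    rw [mem_filter] at hp
    obtain ⟨hp, hpw⟩ := hp
    unfold BtSet at hp
    rw [mem_filter, mem_PP] at hp
    refine ⟨p.1.length, ?_, ?_⟩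
    · simp only [mem_filter, mem_range]
      have hl := congrArg List.length hpw
      rw [List.length_append] at hl
      have h1 : 0 < p.1.length := List.length_pos_iff.2 hp.2.1.1.1
      have h2 : 0 < p.2.length := List.length_pos_iff.2 hp.2.1.2.1
      refine ⟨by omega, h1, ?_⟩
      rw [← hpw, List.take_left']
      · exact hp.2.1.1.2
      · rfl
    · rw [← hpw]
      simp
  · intro t ht
    simp only [mem_filter, mem_range] at ht
    show T ^ Nat.count _ t = T ^ dd (w.take t)
    rw [dd_take w ht.1.le]

theorem X_eq_Z (T : ℕ) (A : Finset ℕ) : X (T + 1) A = T * Z (T + 1) A + cnt A := by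
  unfold X Z cnt
  rw [card_eq_sum_ones, mul_sum, ← sum_add_distrib]
  apply sum_congr rfl
  intro w _
  have := Nat.geomSum_eq (m := T + 1) (n := dd w)
  have h := geom_sum_mul_add T (dd w)
  rw [mul_comm, ← h]

theorem dd_append_singleton (u : List ℕ) (m : ℕ) :
    dd (u ++ [m]) = dd u + if S u then 1 else 0 := by
  unfold dd
  rw [List.length_append, List.length_singleton, Nat.count_succ]
  congr 1
  · apply count_congr'
    intro t ht
    rw [List.take_append_of_le_length ht.le]
  · rw [List.take_append_of_le_length le_rfl, List.take_length]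
    by_cases h : u = []
    · subst h; simp [S]
    · have : 0 < u.length := List.length_pos_iff.2 h
      simp [S, h, this]

theorem dd_append_not {p q : List ℕ} (hp : S p) (hq : S q) (h : ¬ Srt (p ++ q)) :
    dd (p ++ q) = dd p + 1 := by
  unfold dd
  have hlq : 0 < q.length := List.length_pos_iff.2 hq.1
  have hlp : 0 < p.length := List.length_pos_iff.2 hp.1
  -- counts up to |p|, at |p|, after
  have key : ∀ k, k < q.length →
      Nat.count (fun t => 0 < t ∧ Srt ((p ++ q).take t)) (p.length + 1 + k) =
        Nat.count (fun t => 0 < t ∧ Srt (p.take t)) p.length + 1 := by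
    intro k
    induction k with
    | zero =>
      intro _
      rw [add_zero, Nat.count_succ]
      congr 1
      · apply count_congr'
        intro t ht
        rw [List.take_append_of_le_length ht.le]
      · rw [List.take_append_of_le_length le_rfl, List.take_length, if_pos ⟨hlp, hp.2⟩]
    | succ k ih =>
      intro hk
      rw [← add_assoc, Nat.count_succ, ih (by omega), if_neg]
      rintro ⟨-, hs⟩
      have e : (p ++ q).take (p.length + 1 + k) = p ++ q.take (k + 1) := by
        rw [List.take_append, List.take_of_length_le (by omega)]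
        congr 2
        omega
      rw [e] at hs
      apply h
      have hne : q.take (k + 1) ≠ [] := by
        intro h0
        have := congrArg List.length h0
        simp at this
        exact hq.1 this
      have hq' : q.take (k + 1) ++ q.drop (k + 1) = q := List.take_append_drop _ _
      have := srt_glue _ p (q.take (k + 1)) (q.drop (k + 1)) le_rfl hne hs (by rw [hq']; exact hq.2)
      rw [List.append_assoc, hq'] at this
      exact this
  have h1 := key (q.length - 1) (by omega)
  rw [List.length_append]
  have e : p.length + q.length = p.length + 1 + (q.length - 1) := by omega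
  rw [e]
  exact h1

theorem sum_pairs (T : ℕ) (A : Finset ℕ) :
    ∑ p ∈ (PP A).filter (fun p => S p.1 ∧ S p.2), T ^ dd p.1 =
      ∑ Y ∈ A.powerset, X T Y * cnt (A \ Y) := by
  have hmaps : ∀ p ∈ (PP A).filter (fun p => S p.1 ∧ S p.2), p.1.toFinset ∈ A.powerset := by
    intro p hp
    rw [mem_filter, mem_PP] at hp
    rw [mem_powerset]
    exact (append_mem_W.1 hp.1).1
  rw [← Finset.sum_fiberwise_of_maps_to hmaps]
  apply sum_congr rfl
  intro Y hY
  rw [mem_powerset] at hY
  unfold X cnt
  rw [card_eq_sum_ones, Finset.sum_mul_sum, ← Finset.sum_product']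
  apply Finset.sum_congr
  · ext ⟨p, q⟩
    simp only [mem_filter, mem_PP, mem_product]
    rw [append_mem_W]
    constructor
    · rintro ⟨⟨⟨h1, h2, h3⟩, h4, h5⟩, h6⟩
      subst h6
      exact ⟨⟨h2, h4⟩, h3, h5⟩
    · rintro ⟨⟨h2, h4⟩, h3, h5⟩
      have h6 : p.toFinset = Y := (mem_W.1 h2).2
      subst h6
      exact ⟨⟨⟨hY, h2, h3⟩, h4, h5⟩, rfl⟩
  · intro p _
    rw [mul_one]

/-- the recursion for the weighted count -/
theorem X_insert (T : ℕ) {A : Finset ℕ} {m : ℕ} (hm : ∀ a ∈ A, a < m) :
    X T (insert m A) + T * Z T A =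
      (if A = ∅ then 1 else 0) + T * X T A + T * ∑ Y ∈ A.powerset, X T Y * cnt (A \ Y) := by
  -- step 1: words on insert m A
  have h1 : X T (insert m A) = ∑ u ∈ (W A).filter F2, T ^ dd (u ++ [m]) := by
    unfold X
    symm
    apply Finset.sum_bij (fun w _ => w ++ [m])
    · intro w hw
      rw [mem_filter] at hw ⊢
      refine ⟨(append_singleton_mem_W hm).2 hw.1, by simp, ?_⟩
      rw [srt_append_singleton_iff]
      refine ⟨?_, hw.2⟩
      intro a ha
      apply hm
      rw [← (mem_W.1 hw.1).2, List.mem_toFinset]; exact ha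
    · intro w _ w' _ h
      exact (List.append_inj' h rfl).1
    · intro w hw
      rw [mem_filter] at hw
      obtain ⟨v, h1, h2, h3⟩ := srt_mem_last hm hw.1 hw.2
      exact ⟨v, mem_filter.2 ⟨h2, h3⟩, h1.symm⟩
    · intro w _
      rfl
  -- step 2: split
  have h2 : ∑ u ∈ (W A).filter F2, T ^ dd (u ++ [m]) =
      ∑ u ∈ (W A).filter Srt, T ^ dd (u ++ [m]) +
        ∑ u ∈ (W A).filter (fun w => F2 w ∧ ¬ Srt w), T ^ dd (u ++ [m]) := by
    rw [← Finset.sum_filter_add_sum_filter_not ((W A).filter F2) Srt, filter_filter,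
      filter_filter]
    congr 1
    apply sum_congr _ (fun _ _ => rfl)
    apply filter_congr
    intro w _
    exact ⟨fun h => h.2, fun h => ⟨srt_imp_F2 h, h⟩⟩
  have h3 : ∑ u ∈ (W A).filter Srt, T ^ dd (u ++ [m]) =
      (if A = ∅ then 1 else 0) + T * X T A := by
    have hne : ∀ u ∈ W A, (u = [] ↔ A = ∅) := by
      intro u hu
      have := (mem_W.1 hu).2
      constructor
      · rintro rfl; simpa using this.symm
      · intro h; rw [h] at this; simpa using this
    by_cases hA : A = ∅
    · subst hA
      have hW : W ∅ = {[]} := by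
        ext w
        rw [mem_W, mem_singleton]
        constructor
        · rintro ⟨-, h⟩; simpa using h
        · rintro rfl; simp
      have hX : X T ∅ = 0 := by
        unfold X
        rw [hW, filter_singleton, if_neg (show ¬ S [] from fun h => h.1 rfl)]
        simp
      rw [hX, hW, filter_singleton, if_pos Srt.nil, sum_singleton, dd_append_singleton,
        if_neg (show ¬ S [] from fun h => h.1 rfl)]
      simp [dd]
    · rw [if_neg hA, zero_add]
      unfold X
      rw [mul_sum]
      apply sum_congr
      · apply filter_congr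
        intro w hw
        have : w ≠ [] := fun h => hA ((hne w hw).1 h)
        simp [S, this]
      · intro w hw
        rw [dd_append_singleton, if_pos (mem_filter.1 hw).2, pow_succ, mul_comm]
  have h4 : ∑ u ∈ (W A).filter (fun w => F2 w ∧ ¬ Srt w), T ^ dd (u ++ [m]) =
      ∑ p ∈ (PP A).filter (fun p => (S p.1 ∧ S p.2) ∧ ¬ Srt (p.1 ++ p.2)), T * T ^ dd p.1 := by
    symm
    apply Finset.sum_bij (fun p _ => p.1 ++ p.2)
    · intro p hp
      rw [mem_filter, mem_PP] at hp
      rw [mem_filter]
      exact ⟨hp.1, ⟨p.1, p.2, hp.2.1.1.2, hp.2.1.2.2, rfl⟩, hp.2.2⟩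
    · intro p hp p' hp' h
      rw [mem_filter, mem_PP] at hp hp'
      have := split_unique' hp.2.1.1.2 hp.2.1.2.2 hp'.2.1.1.2 hp'.2.1.2.2 h hp.2.2
      exact Prod.ext this.1 this.2
    · intro w hw
      rw [mem_filter] at hw
      obtain ⟨hw1, ⟨x, y, hx, hy, rfl⟩, hns⟩ := hw
      refine ⟨(x, y), ?_, rfl⟩
      rw [mem_filter, mem_PP]
      refine ⟨hw1, ⟨⟨?_, hx⟩, ?_, hy⟩, hns⟩
      · rintro rfl; exact hns hy
      · rintro rfl; exact hns (by simpa using hx)
    · intro p hp
      rw [mem_filter, mem_PP] at hp
      rw [dd_append_singleton, if_neg (fun h : S (p.1 ++ p.2) => hp.2.2 h.2), add_zero,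
        dd_append_not hp.2.1.1 hp.2.1.2 hp.2.2, pow_succ, mul_comm]
  have h5 : ∑ p ∈ (PP A).filter (fun p => S p.1 ∧ S p.2), T ^ dd p.1 =
      ∑ p ∈ BtSet A, T ^ dd p.1 +
      ∑ p ∈ (PP A).filter (fun p => (S p.1 ∧ S p.2) ∧ ¬ Srt (p.1 ++ p.2)), T ^ dd p.1 := by
    unfold BtSet
    rw [← Finset.sum_filter_add_sum_filter_not ((PP A).filter fun p => S p.1 ∧ S p.2)
      (fun p => Srt (p.1 ++ p.2)), filter_filter, filter_filter]
  rw [h1, h2, h3, h4, ← mul_sum, ← sum_pairs, h5, Z_eq]
  ring

end Pool.Agent.Helper949.SQ
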