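import Mathlib
import Pool.Agent.Helper949.SQ1
set_option autoImplicit false
namespace Pool.Agent.Helper949.SQ
open Finset Pool.Agent.Helper949.StackSort
open scoped Classical

theorem ordiso {A B : Finset ℕ} (h : A.card = B.card) : ∃ f g : ℕ → ℕ,
    StrictMonoOn f A ∧ StrictMonoOn g B ∧ (∀ a ∈ A, f a ∈ B ∧ g (f a) = a) ∧
      (∀ b ∈ B, g b ∈ A ∧ f (g b) = b) := by
  let e : A ≃o B := (A.orderIsoOfFin rfl).symm.trans (B.orderIsoOfFin h.symm)
  refine ⟨fun a => if ha : a ∈ A then e ⟨a, ha⟩ else 0,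
    fun b => if hb : b ∈ B then e.symm ⟨b, hb⟩ else 0, ?_, ?_, ?_, ?_⟩
  · intro a ha b hb hab
    have ha' : a ∈ A := ha
    have hb' : b ∈ A := hb
    simp only [ha', hb', dite_true]
    have : e ⟨a, ha'⟩ < e ⟨b, hb'⟩ := e.lt_iff_lt.2 hab
    exact this
  · intro a ha b hb hab
    have ha' : a ∈ B := ha
    have hb' : b ∈ B := hb
    simp only [ha', hb', dite_true]
    have : e.symm ⟨a, ha'⟩ < e.symm ⟨b, hb'⟩ := e.symm.lt_iff_lt.2 hab
    exact this
  · intro a ha
    have h1 : ((e ⟨a, ha⟩ : B) : ℕ) ∈ B := (e ⟨a, ha⟩).2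
    simp only [ha, dite_true, h1, true_and]
    have : (⟨((e ⟨a, ha⟩ : B) : ℕ), h1⟩ : B) = e ⟨a, ha⟩ := rfl
    rw [this, e.symm_apply_apply]
  · intro b hb
    have h1 : ((e.symm ⟨b, hb⟩ : A) : ℕ) ∈ A := (e.symm ⟨b, hb⟩).2
    simp only [hb, dite_true, h1, true_and]
    have : (⟨((e.symm ⟨b, hb⟩ : A) : ℕ), h1⟩ : A) = e.symm ⟨b, hb⟩ := rfl
    rw [this, e.apply_symm_apply]

theorem map_mem_WS {A B : Finset ℕ} {f g : ℕ → ℕ} (hf : StrictMonoOn f A)
    (hfB : ∀ a ∈ A, f a ∈ B ∧ g (f a) = a) (hgA : ∀ b ∈ B, g b ∈ A ∧ f (g b) = b)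
    {w : List ℕ} (hw : w ∈ (W A).filter S) : w.map f ∈ (W B).filter S := by
  rw [mem_filter, mem_W] at hw ⊢
  obtain ⟨⟨h1, h2⟩, h3, h4⟩ := hw
  have hmem : ∀ a ∈ w, a ∈ A := fun a ha => by rw [← h2]; exact List.mem_toFinset.2 ha
  refine ⟨⟨?_, ?_⟩, ?_, ?_⟩
  · apply List.Nodup.map_on _ h1
    intro a ha b hb hab
    exact hf.injOn (hmem a ha) (hmem b hb) hab
  · ext b
    rw [List.mem_toFinset, List.mem_map]
    constructor
    · rintro ⟨a, ha, rfl⟩
      exact (hfB a (hmem a ha)).1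
    · intro hb
      refine ⟨g b, ?_, (hgA b hb).2⟩
      have := (hgA b hb).1
      rw [← h2] at this
      exact List.mem_toFinset.1 this
  · simpa using h3
  · exact Srt.map hf h4 hmem

theorem map_map_id {A : Finset ℕ} {f g : ℕ → ℕ} (h : ∀ a ∈ A, g (f a) = a) {w : List ℕ}
    (hw : ∀ a ∈ w, a ∈ A) : (w.map f).map g = w := by
  rw [List.map_map]
  conv_rhs => rw [← List.map_id w]
  apply List.map_congr_left
  intro a ha
  exact h a (hw a ha)

theorem dd_map {A B : Finset ℕ} {f g : ℕ → ℕ} (hf : StrictMonoOn f A) (hg : StrictMonoOn g B)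
    (hfB : ∀ a ∈ A, f a ∈ B ∧ g (f a) = a)
    {w : List ℕ} (hw : ∀ a ∈ w, a ∈ A) : dd (w.map f) = dd w := by
  unfold dd
  rw [List.length_map]
  apply count_congr'
  intro t _
  have hw' : ∀ a ∈ w.take t, a ∈ A := fun a ha => hw a (List.mem_of_mem_take ha)
  rw [← List.map_take]
  constructor
  · rintro ⟨h1, h2⟩
    refine ⟨h1, ?_⟩
    have := Srt.map hg h2 (by
      intro b hb
      obtain ⟨a, ha, rfl⟩ := List.mem_map.1 hb
      exact (hfB a (hw' a ha)).1)
    rwa [map_map_id (fun a ha => (hfB a ha).2) hw'] at this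
  · rintro ⟨h1, h2⟩
    exact ⟨h1, Srt.map hf h2 hw'⟩

theorem X_card (T : ℕ) {A B : Finset ℕ} (h : A.card = B.card) : X T A = X T B := by
  obtain ⟨f, g, hf, hg, hfB, hgA⟩ := ordiso h
  unfold X
  have hmem : ∀ {C : Finset ℕ} {w : List ℕ}, w ∈ (W C).filter S → ∀ a ∈ w, a ∈ C := by
    intro C w hw a ha
    rw [mem_filter, mem_W] at hw
    rw [← hw.1.2]; exact List.mem_toFinset.2 ha
  refine Finset.sum_nbij' (fun w => w.map f) (fun w => w.map g) ?_ ?_ ?_ ?_ ?_
  · intro w hw; exact map_mem_WS hf hfB hgA hw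
  · intro w hw; exact map_mem_WS hg hgA hfB hw
  · intro w hw; exact map_map_id (fun a ha => (hfB a ha).2) (hmem hw)
  · intro w hw; exact map_map_id (fun a ha => (hgA a ha).2) (hmem hw)
  · intro w hw
    rw [dd_map hf hg hfB (hmem hw)]

theorem cnt_eq_X (A : Finset ℕ) : cnt A = X 1 A := by
  unfold cnt X
  simp

theorem cnt_card {A B : Finset ℕ} (h : A.card = B.card) : cnt A = cnt B := by
  rw [cnt_eq_X, cnt_eq_X, X_card 1 h]

/-- the number of nonempty sorted words on `n` letters -/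
noncomputable def c (n : ℕ) : ℕ := cnt (range n)

noncomputable def x (T n : ℕ) : ℕ := X T (range n)

theorem cnt_eq (A : Finset ℕ) : cnt A = c A.card := cnt_card (by rw [card_range])

theorem X_eq (T : ℕ) (A : Finset ℕ) : X T A = x T A.card := X_card T (by rw [card_range])

theorem W_card (A : Finset ℕ) : (W A).card ≤ A.card.factorial := by
  unfold W
  refine (List.toFinset_card_le _).trans ?_
  rw [List.length_permutations, Finset.length_toList]

theorem c_le (n : ℕ) : c n ≤ n.factorial := by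
  unfold c cnt
  refine (card_filter_le _ _).trans ?_
  have := W_card (range n)
  rwa [card_range] at this

theorem W_empty : W ∅ = {[]} := by
  ext w
  rw [mem_W, mem_singleton]
  constructor
  · rintro ⟨-, h⟩; simpa using h
  · rintro rfl; simp

theorem x_zero (T : ℕ) : x T 0 = 0 := by
  unfold x X
  rw [range_zero, W_empty, filter_singleton, if_neg (show ¬ S [] from fun h => h.1 rfl)]
  simp

theorem c_zero : c 0 = 0 := by
  have := x_zero 1
  unfold c; rw [cnt_eq_X]; exact this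

/-- the Kronecker recursion -/
theorem x_succ (T n : ℕ) (hT : n.factorial < T) : x (T + 1) (n + 1) =
    (if n = 0 then 1 else 0) + (T + 1) * (x (T + 1) n +
      (∑ j ∈ range (n + 1), n.choose j * (x (T + 1) j * c (n - j))) - x (T + 1) n / T) := by
  have h := X_insert (T + 1) (A := range n) (m := n) (by intro a ha; exact mem_range.1 ha)
  have h1 : insert n (range n) = range (n + 1) := (range_add_one).symm
  rw [h1] at h
  have h2 : ∑ Y ∈ (range n).powerset, X (T + 1) Y * cnt (range n \ Y) =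
      ∑ j ∈ range (n + 1), n.choose j * (x (T + 1) j * c (n - j)) := by
    have : ∀ Y ∈ (range n).powerset, X (T + 1) Y * cnt (range n \ Y) =
        (fun j => x (T + 1) j * c (n - j)) Y.card := by
      intro Y hY
      rw [mem_powerset] at hY
      show _ = x (T + 1) Y.card * c (n - Y.card)
      rw [X_eq, cnt_eq, card_sdiff_of_subset hY, card_range]
    rw [sum_congr rfl this]
    refine (Finset.sum_powerset_apply_card (x := range n) (fun j => x (T + 1) j * c (n - j))).trans ?_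
    rw [card_range]
    apply sum_congr rfl
    intro j _
    simp
  have h3 : x (T + 1) n / T = Z (T + 1) (range n) := by
    have h4 := X_eq_Z T (range n)
    have h5 : cnt (range n) < T := lt_of_le_of_lt (c_le n) hT
    unfold x
    rw [h4, Nat.mul_add_div (by omega), Nat.div_eq_of_lt h5, add_zero]
  have h6 : (range n = ∅) ↔ n = 0 := by simp
  rw [h2] at h
  simp only [h6] at h
  have h7 : X (T + 1) (range (n + 1)) = x (T + 1) (n + 1) := rfl
  have h8 : X (T + 1) (range n) = x (T + 1) n := rfl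
  rw [h7, h8, ← h3] at h
  have h9 : x (T + 1) n / T ≤ x (T + 1) n := Nat.div_le_self _ _
  rw [Nat.mul_sub]
  have h10 : (T + 1) * (x (T + 1) n / T) ≤ (T + 1) * (x (T + 1) n +
      ∑ j ∈ range (n + 1), n.choose j * (x (T + 1) j * c (n - j))) := by
    apply Nat.mul_le_mul_left
    omega
  rw [mul_add] at h10 ⊢
  omega

theorem c_eq_mod (T n : ℕ) (hT : n.factorial < T) : c n = x (T + 1) n % T := by
  have h4 := X_eq_Z T (range n)
  have h5 : cnt (range n) < T := lt_of_le_of_lt (c_le n) hT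
  unfold x c
  rw [h4, Nat.mul_add_mod, Nat.mod_eq_of_lt h5]

end Pool.Agent.Helper949.SQ
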