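import Mathlib
import Pool.Agent.Helper949.SQ2
set_option autoImplicit false
namespace Pool.Agent.Helper949.SQ
open Finset

def force (n : ℕ) (k : ℕ → Bool) : Bool := Nat.casesOn n (k 0) (fun m => k (m + 1))

theorem force_eq (n : ℕ) (k : ℕ → Bool) : force n k = k n := by
  cases n <;> rfl

def dot3 : List ℕ → List ℕ → List ℕ → ℕ
  | a :: r, b :: s, c :: t => a * (b * c) + dot3 r s t
  | _, _, _ => 0

def pas : ℕ → List ℕ → (List ℕ → Bool) → Bool
  | p, [], k => k [p]
  | p, a :: r, k => force (p + a) (fun v => pas a r (fun l => k (v :: l)))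

def pasL : ℕ → List ℕ → List ℕ
  | p, [] => [p]
  | p, a :: r => (p + a) :: pasL a r

theorem pas_eq : ∀ (l : List ℕ) (p : ℕ) (k : List ℕ → Bool), pas p l k = k (pasL p l) := by
  intro l
  induction l with
  | nil => intro p k; rfl
  | cons a r ih =>
    intro p k
    rw [pas, force_eq, ih]
    rfl

def iszero : ℕ → ℕ
  | 0 => 1
  | _ + 1 => 0

def go (T u v : ℕ) : List ℕ → ℕ → ℕ → ℕ → List ℕ → List ℕ → List ℕ → Bool
  | [], _, _, _, _, _, _ => true
  | d :: ds, n, f, g, xs, as, row =>
    force (iszero n + (T + 1) *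
      (xs.headD 0 + dot3 row xs (as.reverseAux []) - xs.headD 0 / T)) (fun x' =>
    force (x' % T) (fun a' =>
      force (f * (n + 1) * u) (fun f' =>
      force (g * v) (fun g' =>
      Nat.ble (d * f') (a' * g') && (Nat.blt (a' * g') ((d + 1) * f') &&
        pas 0 row (fun row' => go T u v ds (n + 1) f' g' (x' :: xs) (a' :: as) row'))))))

def xsL (x : ℕ → ℕ) : ℕ → List ℕ
  | 0 => [x 0]
  | n + 1 => x (n + 1) :: xsL x n

theorem xsL_head (x : ℕ → ℕ) (n : ℕ) : (xsL x n).headD 0 = x n := by
  cases n <;> rfl

theorem xsL_reverse (x : ℕ → ℕ) (n : ℕ) : (xsL x n).reverse = (List.range' 0 (n + 1)).map x := by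
  induction n with
  | zero => rfl
  | succ n ih =>
    have : List.range' 0 (n + 1 + 1) = List.range' 0 (n + 1) ++ [n + 1] := by
      rw [List.range'_concat]; simp
    rw [xsL, List.reverse_cons, ih, this, List.map_append]
    rfl

theorem dot3_eq (x f h : ℕ → ℕ) : ∀ n i : ℕ,
    dot3 ((List.range' i (n + 1)).map f) (xsL x n) ((List.range' i (n + 1)).map h) =
      ∑ j ∈ range (n + 1), f (i + j) * (x (n - j) * h (i + j)) := by
  intro n
  induction n with
  | zero =>
    intro i
    simp [List.range', dot3, xsL]
  | succ n ih =>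
    intro i
    rw [List.range'_succ, List.map_cons, List.map_cons, xsL, dot3, ih (i + 1),
      Finset.sum_range_succ' _ (n + 1), add_comm]
    congr 1
    apply Finset.sum_congr rfl
    intro j _
    have e1 : i + 1 + j = i + (j + 1) := by ring
    have e2 : n + 1 - (j + 1) = n - j := by omega
    rw [e1, e2]

theorem pasL_eq (n : ℕ) : ∀ k i p : ℕ, i + k = n + 1 → p + n.choose i = (n + 1).choose i →
    pasL p ((List.range' i k).map n.choose) = (List.range' i (k + 1)).map (n + 1).choose := by
  intro k
  induction k with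
  | zero =>
    intro i p h hp
    have : i = n + 1 := by omega
    subst this
    rw [Nat.choose_succ_self, add_zero] at hp
    simp [List.range', pasL, hp]
  | succ k ih =>
    intro i p h hp
    rw [List.range'_succ, List.map_cons, pasL, ih (i + 1) (n.choose i) (by omega)
      (Nat.choose_succ_succ n i).symm, hp, List.range'_succ (s := i) (n := k + 1), List.map_cons]

/-- correctness of the table checker -/
theorem go_correct (T u v E M : ℕ) (hT : M.factorial < T) : ∀ (ds : List ℕ) (n : ℕ),
    n + ds.length ≤ M →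
    go T u v ds n (n.factorial * u ^ n) (E * v ^ n) (xsL (x (T + 1)) n) (xsL c n)
      ((List.range' 0 (n + 1)).map n.choose) = true →
    ∀ i, (h : i < ds.length) →
      ds[i] * ((n + i + 1).factorial * u ^ (n + i + 1)) ≤ c (n + i + 1) * (E * v ^ (n + i + 1)) ∧
      c (n + i + 1) * (E * v ^ (n + i + 1)) <
        (ds[i] + 1) * ((n + i + 1).factorial * u ^ (n + i + 1)) := by
  intro ds
  induction ds with
  | nil => intro n _ _ i h; simp at h
  | cons d ds ih =>
    intro n hn hgo i hi
    rw [List.length_cons] at hn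
    have hTn : n.factorial < T := lt_of_le_of_lt (Nat.factorial_le (by omega)) hT
    have hTn1 : (n + 1).factorial < T := lt_of_le_of_lt (Nat.factorial_le (by omega)) hT
    have hz : iszero n = if n = 0 then 1 else 0 := by cases n <;> simp [iszero]
    have hrev : (xsL c n).reverseAux [] = (List.range' 0 (n + 1)).map c := by
      rw [List.reverseAux_eq, List.append_nil, xsL_reverse]
    have hsum : ∑ j ∈ range (n + 1), n.choose (0 + j) * (x (T + 1) (n - j) * c (0 + j)) =
        ∑ j ∈ range (n + 1), n.choose j * (x (T + 1) j * c (n - j)) := by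
      rw [← Finset.sum_range_reflect]
      apply Finset.sum_congr rfl
      intro j hj
      rw [Finset.mem_range] at hj
      have e1 : 0 + (n + 1 - 1 - j) = n - j := by omega
      have e2 : n - (n + 1 - 1 - j) = j := by omega
      rw [e1, e2, Nat.choose_symm (by omega : j ≤ n)]
    have hx : iszero n + (T + 1) * ((xsL (x (T + 1)) n).headD 0 +
        dot3 ((List.range' 0 (n + 1)).map n.choose) (xsL (x (T + 1)) n)
          ((xsL c n).reverseAux []) - (xsL (x (T + 1)) n).headD 0 / T) = x (T + 1) (n + 1) := by
      rw [hrev, dot3_eq, hsum, xsL_head, hz, x_succ T n hTn]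
    have hpas : pasL 0 ((List.range' 0 (n + 1)).map n.choose) =
        (List.range' 0 (n + 1 + 1)).map (n + 1).choose :=
      pasL_eq n (n + 1) 0 0 (by omega) (by simp)
    have hf : n.factorial * u ^ n * (n + 1) * u = (n + 1).factorial * u ^ (n + 1) := by
      rw [Nat.factorial_succ]; ring
    have hg : E * v ^ n * v = E * v ^ (n + 1) := by ring
    rw [go, force_eq, force_eq, force_eq, force_eq, pas_eq, hx, hpas, hf, hg,
      ← c_eq_mod T (n + 1) hTn1, Bool.and_eq_true, Bool.and_eq_true] at hgo
    obtain ⟨h1, h2, h3⟩ := hgo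
    have h1' := Nat.le_of_ble_eq_true h1
    have h2' : c (n + 1) * (E * v ^ (n + 1)) < (d + 1) * ((n + 1).factorial * u ^ (n + 1)) := by
      have := Nat.le_of_ble_eq_true h2
      omega
    cases i with
    | zero => exact ⟨h1', h2'⟩
    | succ i =>
      have := ih (n + 1) (by omega) h3 i (by simpa using hi)
      have e : n + 1 + i + 1 = n + (i + 1) + 1 := by ring
      rw [e] at this
      exact this

end Pool.Agent.Helper949.SQ
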