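import Mathlib
import Pool.Agent.Helper949.SP3
set_option autoImplicit false
namespace Pool.Agent.Helper949.SQ
open Finset Filter Topology Pool.Agent.Helper949.SP

structure Hyp (b B : ℕ → ℝ) : Prop where
  b0 : b 0 = 0
  bn : ∀ n, 0 ≤ b n
  Bn : ∀ n, 0 ≤ B n
  e1 : ∀ n : ℕ, ((n : ℝ) + 1) * b (n + 1) + B n =
    (if n = 0 then 1 else 0) + b n + ∑ k ∈ range (n + 1), b k * b (n - k)
  e2 : ∀ n : ℕ, ((n : ℝ) + 1) * B (n + 1) ≤ b n + ∑ k ∈ range (n + 1), b k * b (n - k) +
    ∑ k ∈ range (n + 1), B k * b (n - k)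

/-- coefficient induction: geometric upper bound -/
theorem upper_b {b B : ℕ → ℝ} (H : Hyp b B) {lam : ℝ} (hl : 0 < lam) (n0 : ℕ) (hn0 : 1 ≤ n0)
    (h1 : ∀ k, n0 ≤ k → k ≤ 2 * n0 → b k ≤ lam ^ (k + 1))
    (h2 : 1 / lam + 2 * ∑ k ∈ range n0, b k / lam ^ (k + 1) ≤ 2 * n0) :
    ∀ k, n0 ≤ k → b k ≤ lam ^ (k + 1) := by
  intro k
  induction k using Nat.strong_induction_on with
  | _ k ih =>
    intro hk
    by_cases hk2 : k ≤ 2 * n0
    · exact h1 k hk hk2
    obtain ⟨n, rfl⟩ : ∃ n, k = n + 1 := ⟨k - 1, by omega⟩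
    have hn : 2 * n0 ≤ n := by omega
    have he := H.e1 n
    rw [if_neg (by omega), zero_add] at he
    have hB := H.Bn n
    -- s k = b k / lam^(k+1)
    set s : ℕ → ℝ := fun k => b k / lam ^ (k + 1) with hs
    have hbs : ∀ k, b k = s k * lam ^ (k + 1) := by
      intro k; simp only [hs]; field_simp
    have hs0 : ∀ k, 0 ≤ s k := fun k => div_nonneg (H.bn k) (by positivity)
    have hs1 : ∀ k, n0 ≤ k → k ≤ n → s k ≤ 1 := by
      intro k h3 h4
      simp only [hs]
      rw [div_le_one (by positivity)]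
      exact ih k (by omega) h3
    have hterm : ∀ k ∈ range (n + 1), b k * b (n - k) ≤ lam ^ (n + 2) *
        ((if k < n0 then s k else 0) + (if n - k < n0 then s (n - k) else 0) +
          (1 - (if k < n0 then 1 else 0) - (if n - k < n0 then 1 else 0))) := by
      intro k hk
      rw [mem_range] at hk
      have e : b k * b (n - k) = lam ^ (n + 2) * (s k * s (n - k)) := by
        rw [hbs k, hbs (n - k)]
        have : lam ^ (n + 2) = lam ^ (k + 1) * lam ^ (n - k + 1) := by
          rw [← pow_add]; congr 1; omega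
        rw [this]; ring
      rw [e]
      apply mul_le_mul_of_nonneg_left _ (by positivity)
      by_cases h3 : k < n0
      · have h4 : ¬ n - k < n0 := by omega
        rw [if_pos h3, if_neg h4, if_pos h3, if_neg h4]
        have := hs1 (n - k) (by omega) (by omega)
        have := hs0 k
        nlinarith
      · by_cases h4 : n - k < n0
        · rw [if_neg h3, if_pos h4, if_neg h3, if_pos h4]
          have := hs1 k (by omega) (by omega)
          have := hs0 (n - k)
          nlinarith
        · rw [if_neg h3, if_neg h4, if_neg h3, if_neg h4]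
          have h5 := hs1 k (by omega) (by omega)
          have h6 := hs1 (n - k) (by omega) (by omega)
          have h7 := hs0 k
          have h8 := hs0 (n - k)
          nlinarith
    have hsum := Finset.sum_le_sum hterm
    rw [← Finset.mul_sum, Finset.sum_add_distrib, Finset.sum_add_distrib,
      Finset.sum_sub_distrib, Finset.sum_sub_distrib] at hsum
    have hf1 : ∑ k ∈ range (n + 1), (if k < n0 then s k else 0) = ∑ k ∈ range n0, s k := by
      rw [← Finset.sum_filter]
      apply Finset.sum_congr _ (fun _ _ => rfl)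
      ext k; simp only [mem_filter, mem_range]; omega
    have hf2 : ∑ k ∈ range (n + 1), (if n - k < n0 then s (n - k) else 0) =
        ∑ k ∈ range n0, s k := by
      rw [← hf1, ← Finset.sum_range_reflect]
      apply Finset.sum_congr rfl
      intro k hk
      rw [mem_range] at hk
      have : n - (n + 1 - 1 - k) = k := by omega
      rw [this]
    have hf3 : ∑ k ∈ range (n + 1), (if k < n0 then (1 : ℝ) else 0) = n0 := by
      rw [← Finset.sum_filter]
      have : (range (n + 1)).filter (fun k => k < n0) = range n0 := by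
        ext k; simp only [mem_filter, mem_range]; omega
      rw [this]; simp
    have hf4 : ∑ k ∈ range (n + 1), (if n - k < n0 then (1 : ℝ) else 0) = n0 := by
      rw [← hf3, ← Finset.sum_range_reflect]
      apply Finset.sum_congr rfl
      intro k hk
      rw [mem_range] at hk
      have : n - (n + 1 - 1 - k) = k := by omega
      rw [this]
    rw [hf1, hf2, hf3, hf4] at hsum
    simp only [sum_const, card_range, nsmul_eq_mul, mul_one] at hsum
    push_cast at hsum
    have hbn : b n ≤ lam ^ (n + 2) * (1 / lam) := by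
      have h3 := ih n (by omega) (by omega)
      have : lam ^ (n + 2) * (1 / lam) = lam ^ (n + 1) := by
        field_simp; ring
      rw [this]; exact h3
    have hlp : 0 < lam ^ (n + 2) := by positivity
    have h5 : ((n : ℝ) + 1) * b (n + 1) ≤ lam ^ (n + 2) * ((n : ℝ) + 1) := by
      have h6 : lam ^ (n + 2) * (1 / lam) + lam ^ (n + 2) *
          (∑ k ∈ range n0, s k + ∑ k ∈ range n0, s k + ((n : ℝ) + 1 - n0 - n0)) ≤
          lam ^ (n + 2) * ((n : ℝ) + 1) := by
        rw [← mul_add]
        apply mul_le_mul_of_nonneg_left _ hlp.le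
        linarith
      linarith
    have h7 : (0 : ℝ) < (n : ℝ) + 1 := by positivity
    have h8 : ((n : ℝ) + 1) * b (n + 1) ≤ ((n : ℝ) + 1) * lam ^ (n + 1 + 1) := by
      rw [mul_comm ((n : ℝ) + 1) (lam ^ (n + 1 + 1))]; exact h5
    exact le_of_mul_le_mul_left h8 h7

/-- consequence for the growth constant -/
theorem L_le {b : ℕ → ℝ} {L lam : ℝ} (hL : 0 < L) (hl : 0 < lam) (n0 : ℕ)
    (hb : ∀ k, n0 ≤ k → b k ≤ lam ^ (k + 1))
    (hlim : Tendsto (fun n => b n / L ^ (n + 1)) atTop (𝓝 1)) : L ≤ lam := by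
  by_contra hcon
  push Not at hcon
  have h1 : Tendsto (fun n : ℕ => (lam / L) ^ (n + 1)) atTop (𝓝 0) := by
    have := tendsto_pow_atTop_nhds_zero_of_lt_one (r := lam / L) (by positivity)
      (by rw [div_lt_one hL]; exact hcon)
    exact this.comp (tendsto_add_atTop_nat 1)
  have h2 : (1 : ℝ) ≤ 0 := by
    apply le_of_tendsto_of_tendsto hlim h1
    filter_upwards [eventually_ge_atTop n0] with n hn
    rw [div_pow]
    exact div_le_div_of_nonneg_right (hb n hn) (by positivity)
  linarith

theorem conv_of_lim {b : ℕ → ℝ} {L : ℝ} (hL : 0 < L) (hb : ∀ n, 0 ≤ b n)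
    (hlim : Tendsto (fun n => b n / L ^ (n + 1)) atTop (𝓝 1)) : Conv b (1 / L) := by
  intro x hx hx1
  obtain ⟨C, hC⟩ := hlim.bddAbove_range
  have hC' : ∀ n, b n ≤ C * L ^ (n + 1) := by
    intro n
    have := hC ⟨n, rfl⟩
    rwa [div_le_iff₀ (by positivity)] at this
  have hq : x * L < 1 := by
    rw [lt_div_iff₀ hL] at hx1; exact hx1
  have hs : Summable fun n : ℕ => (C * L) * (x * L) ^ n :=
    (summable_geometric_of_lt_one (by positivity) hq).mul_left _
  refine Summable.of_nonneg_of_le (fun n => by positivity) (fun n => ?_) hs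
  rw [Real.norm_of_nonneg (hb n)]
  calc b n * x ^ n ≤ (C * L ^ (n + 1)) * x ^ n :=
        mul_le_mul_of_nonneg_right (hC' n) (by positivity)
    _ = _ := by rw [mul_pow]; ring

end Pool.Agent.Helper949.SQ
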