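import Mathlib
import Pool.Agent.Helper949.SQ4
set_option autoImplicit false
namespace Pool.Agent.Helper949.SQ
open Finset Filter Topology Pool.Agent.Helper949.SP

theorem ev_mono {f g : ℕ → ℝ} {R z : ℝ} (hf : Conv f R) (hg : Conv g R) (hz : 0 ≤ z) (hzR : z < R)
    (h : ∀ n, f n ≤ g n) : ev f z ≤ ev g z := by
  have hz' : ‖z‖ < R := by rwa [Real.norm_of_nonneg hz]
  unfold ev
  exact (hf.summable hz').tsum_le_tsum (fun n => mul_le_mul_of_nonneg_right (h n) (by positivity))
    (hg.summable hz')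

def one : ℕ → ℝ := fun n => if n = 0 then 1 else 0

theorem conv_one (R : ℝ) : Conv one R := by
  intro x _ _
  apply summable_of_ne_finset_zero (s := {0})
  intro n hn
  have : n ≠ 0 := by simpa using hn
  simp [one, this]

theorem ev_one (z : ℝ) : ev one z = 1 := by
  unfold ev one
  rw [tsum_eq_single 0]
  · simp
  · intro n hn; simp [hn]

theorem ev_mono_arg {f : ℕ → ℝ} {R x y : ℝ} (hf : Conv f R) (h0 : ∀ n, 0 ≤ f n) (hx : 0 ≤ x)
    (hxy : x ≤ y) (hy : y < R) : ev f x ≤ ev f y := by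
  have hx' : ‖x‖ < R := by rw [Real.norm_of_nonneg hx]; linarith
  have hy' : ‖y‖ < R := by rw [Real.norm_of_nonneg (hx.trans hxy)]; exact hy
  unfold ev
  exact (hf.summable hx').tsum_le_tsum
    (fun n => mul_le_mul_of_nonneg_left (pow_le_pow_left₀ hx hxy n) (h0 n)) (hf.summable hy')

theorem B_eq {b B : ℕ → ℝ} (H : Hyp b B) (n : ℕ) :
    B n = ((one n + b n) + cv b b n) + (-1) * dv b n := by
  have := H.e1 n
  unfold cv dv one
  linarith

theorem conv_B {b B : ℕ → ℝ} (H : Hyp b B) {R : ℝ} (hR : Conv b R) : Conv B R := by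
  have : B = fun n => ((one n + b n) + cv b b n) + (-1) * dv b n := by
    funext n; exact B_eq H n
  rw [this]
  exact (((conv_one R).add hR).add (hR.mul hR)).add (hR.dv.const_mul (-1))

theorem ev_B {b B : ℕ → ℝ} (H : Hyp b B) {R z : ℝ} (hR : Conv b R) (hz : |z| < R) :
    ev B z = 1 + ev b z + ev b z * ev b z - ev (dv b) z := by
  have hz' : ‖z‖ < R := hz
  have : B = fun n => ((one n + b n) + cv b b n) + (-1) * dv b n := by
    funext n; exact B_eq H n
  conv_lhs => rw [this]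
  rw [ev_add (f := fun n => (one n + b n) + cv b b n) (g := fun n => (-1) * dv b n)
    (((conv_one R).add hR).add (hR.mul hR)) (hR.dv.const_mul (-1)) hz',
    ev_add (f := fun n => one n + b n) (g := cv b b) ((conv_one R).add hR) (hR.mul hR) hz',
    ev_add (conv_one R) hR hz', ev_const_mul, ev_mul hR hR hz', ev_one]
  ring

theorem ev_dB_le {b B : ℕ → ℝ} (H : Hyp b B) {R z : ℝ} (hR : Conv b R) (hz : 0 ≤ z) (hzR : z < R) :
    ev (dv B) z ≤ ev b z + ev b z * ev b z + ev B z * ev b z := by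
  have hz' : ‖z‖ < R := by rwa [Real.norm_of_nonneg hz]
  have hB := conv_B H hR
  rw [← ev_mul hR hR hz', ← ev_mul hB hR hz', ← ev_add hR (hR.mul hR) hz',
    ← ev_add (f := fun n => b n + cv b b n) (g := cv B b) (hR.add (hR.mul hR)) (hB.mul hR) hz']
  apply ev_mono hB.dv ((hR.add (hR.mul hR)).add (hB.mul hR)) hz hzR
  intro n
  exact H.e2 n

theorem blow {b B : ℕ → ℝ} (H : Hyp b B) {R : ℝ} (hR : Conv b R) {z0 z1 : ℝ} (hz0 : 0 ≤ z0)
    (h01 : z0 < z1) (h1R : z1 < R) {A0 A1 D0 α β η c1 : ℝ}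
    (hA0 : A0 ≤ ev b z0) (hA1 : ev b z0 ≤ A1) (hD0 : D0 ≤ ev (dv b) z0) (hA0p : 0 < A0)
    (hη : 0 ≤ η) (hc1 : 0 < c1)
    (hinit : 1 + (1 - β) * A1 + (1 - α) * A1 ^ 2 ≤ D0)
    (hmono : ∀ a, A0 ≤ a → a ≤ A1 →
      1 + (1 - β) * a + (1 - α) * a ^ 2 ≤ 1 + (1 - β) * A1 + (1 - α) * A1 ^ 2)
    (hbar : ∀ a, A0 ≤ a → a + a ^ 2 + (α * a ^ 2 + β * a) * a <
      (2 * α * a + β) * (1 + a + a ^ 2 - (α * a ^ 2 + β * a)))
    (hy : ∀ y, 0 < y → y ≤ 1 / A0 → c1 ≤ (1 + 2 * η * y) * (1 - α - (β - 1) * y + y ^ 2))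
    (hfin : z0 + (1 / A0 + η * (1 / A0) ^ 2) / c1 ≤ z1) : False := by
  have hB := conv_B H hR
  have hnorm : ∀ z, z0 ≤ z → z ≤ z1 → ‖z‖ < R := by
    intro z h1 h2
    rw [Real.norm_of_nonneg (hz0.trans h1)]; linarith
  have hda : ∀ z, z0 ≤ z → z ≤ z1 → HasDerivAt (ev b) (ev (dv b) z) z :=
    fun z h1 h2 => ev_hasDerivAt hR (hnorm z h1 h2)
  have hdB : ∀ z, z0 ≤ z → z ≤ z1 → HasDerivAt (ev B) (ev (dv B) z) z :=
    fun z h1 h2 => ev_hasDerivAt hB (hnorm z h1 h2)
  have ha : ∀ z, z0 ≤ z → z ≤ z1 → A0 ≤ ev b z := by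
    intro z h1 h2
    exact hA0.trans (ev_mono_arg hR H.bn hz0 h1 (by linarith))
  have hBe : ∀ z, z0 ≤ z → z ≤ z1 → ev B z = 1 + ev b z + ev b z * ev b z - ev (dv b) z := by
    intro z h1 h2
    exact ev_B H hR (hnorm z h1 h2)
  -- barrier
  have hbarrier : ∀ z ∈ Set.Icc z0 z1, ev B z - α * (ev b z) ^ 2 - β * ev b z ≤ 0 := by
    have hmain := image_le_of_deriv_right_lt_deriv_boundary'
      (f := fun z => ev B z - α * (ev b z) ^ 2 - β * ev b z)
      (f' := fun z => ev (dv B) z - α * (2 * ev b z * ev (dv b) z) - β * ev (dv b) z)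
      (a := z0) (b := z1) (B := fun _ => 0) (B' := fun _ => 0) ?_ ?_ ?_ continuousOn_const ?_ ?_
    · intro z hz; exact hmain hz
    · intro z hz
      apply ContinuousAt.continuousWithinAt
      have h1 := (hdB z hz.1 hz.2).continuousAt
      have h2 := (hda z hz.1 hz.2).continuousAt
      exact (h1.sub ((h2.pow 2).const_mul α)).sub (h2.const_mul β)
    · intro z hz
      have h1 := hdB z hz.1 hz.2.le
      have h2 := hda z hz.1 hz.2.le
      have h3 : HasDerivAt (fun z => (ev b z) ^ 2) (2 * ev b z * ev (dv b) z) z := by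
        have := h2.fun_pow 2
        simpa using this
      exact ((h1.sub (h3.const_mul α)).sub (h2.const_mul β)).hasDerivWithinAt
    · have h1 := hBe z0 le_rfl h01.le
      have h2 := hmono (ev b z0) hA0 hA1
      show ev B z0 - α * (ev b z0) ^ 2 - β * ev b z0 ≤ 0
      rw [h1]
      nlinarith
    · intro z _
      exact (hasDerivAt_const z (0 : ℝ)).hasDerivWithinAt
    · intro z hz heq
      have heq' : ev B z - α * (ev b z) ^ 2 - β * ev b z = 0 := heq
      have h1 := hBe z hz.1 hz.2.le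
      have h2 := ev_dB_le H hR (hz0.trans hz.1) (by linarith [hz.2] : z < R)
      have h3 := hbar (ev b z) (ha z hz.1 hz.2.le)
      have h4 : ev B z = α * (ev b z) ^ 2 + β * ev b z := by linarith
      have h5 : ev (dv b) z = 1 + ev b z + ev b z ^ 2 - (α * (ev b z) ^ 2 + β * ev b z) := by
        rw [← h4]; linarith
      rw [h4] at h2
      show ev (dv B) z - α * (2 * ev b z * ev (dv b) z) - β * ev (dv b) z < 0
      rw [h5]
      nlinarith
  -- final function
  have hF : AntitoneOn (fun z => z + (1 / ev b z + η * (1 / ev b z) ^ 2) / c1)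
      (Set.Icc z0 z1) := by
    have hder : ∀ z, z0 ≤ z → z ≤ z1 → HasDerivAt
        (fun z => z + (1 / ev b z + η * (1 / ev b z) ^ 2) / c1)
        (1 + (-(ev (dv b) z) / (ev b z) ^ 2 +
          η * (2 * (1 / ev b z) * (-(ev (dv b) z) / (ev b z) ^ 2))) / c1) z := by
      intro z h1 h2
      have h3 := hda z h1 h2
      have h4 : ev b z ≠ 0 := (lt_of_lt_of_le hA0p (ha z h1 h2)).ne'
      have h5 : HasDerivAt (fun z => 1 / ev b z) (-(ev (dv b) z) / (ev b z) ^ 2) z := by
        have := h3.fun_inv h4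
        simpa [one_div] using this
      have h6 : HasDerivAt (fun z => (1 / ev b z) ^ 2)
          (2 * (1 / ev b z) * (-(ev (dv b) z) / (ev b z) ^ 2)) z := by
        have := h5.fun_pow 2
        simpa using this
      exact (hasDerivAt_id z).add ((h5.add (h6.const_mul η)).div_const c1)
    apply antitoneOn_of_deriv_nonpos (convex_Icc _ _)
    · intro z hz
      exact (hder z hz.1 hz.2).continuousAt.continuousWithinAt
    · intro z hz
      rw [interior_Icc] at hz
      exact (hder z hz.1.le hz.2.le).differentiableAt.differentiableWithinAt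
    · intro z hz
      rw [interior_Icc] at hz
      rw [(hder z hz.1.le hz.2.le).deriv]
      have h1 := hbarrier z ⟨hz.1.le, hz.2.le⟩
      have h2 := hBe z hz.1.le hz.2.le
      have h3 := ha z hz.1.le hz.2.le
      have h4 : 0 < ev b z := lt_of_lt_of_le hA0p h3
      obtain ⟨y, hyd⟩ : ∃ y, y = 1 / ev b z := ⟨_, rfl⟩
      have hy0 : 0 < y := by rw [hyd]; positivity
      have hy1 : y ≤ 1 / A0 := by
        rw [hyd]; exact one_div_le_one_div_of_le hA0p h3
      have h5 := hy y hy0 hy1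
      -- (ev dv b)/(ev b)^2 ≥ 1 - α - (β-1) y + y^2
      have h6 : 1 - α - (β - 1) * y + y ^ 2 ≤ ev (dv b) z / (ev b z) ^ 2 := by
        rw [le_div_iff₀ (by positivity), hyd]
        have e : (1 - α - (β - 1) * (1 / ev b z) + (1 / ev b z) ^ 2) * (ev b z) ^ 2 =
            (1 - α) * (ev b z) ^ 2 - (β - 1) * ev b z + 1 := by
          field_simp
        rw [e]
        nlinarith
      have h7 : c1 ≤ (1 + 2 * η * y) * (ev (dv b) z / (ev b z) ^ 2) := by
        refine h5.trans (mul_le_mul_of_nonneg_left h6 ?_)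
        positivity
      rw [← hyd]
      have e2 : 1 + (-(ev (dv b) z) / (ev b z) ^ 2 + η * (2 * y * (-(ev (dv b) z) / (ev b z) ^ 2))) / c1
          = (c1 - (1 + 2 * η * y) * (ev (dv b) z / (ev b z) ^ 2)) / c1 := by
        field_simp
        ring
      rw [e2]
      exact div_nonpos_of_nonpos_of_nonneg (by linarith) hc1.le
  have hlast := hF (Set.left_mem_Icc.2 h01.le) (Set.right_mem_Icc.2 h01.le) h01.le
  have hz1pos : 0 < ev b z1 := lt_of_lt_of_le hA0p (ha z1 h01.le le_rfl)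
  have hz0pos : 0 < ev b z0 := lt_of_lt_of_le hA0p hA0
  have h1 : z1 < z1 + (1 / ev b z1 + η * (1 / ev b z1) ^ 2) / c1 := by
    have : 0 < (1 / ev b z1 + η * (1 / ev b z1) ^ 2) / c1 := by positivity
    linarith
  have h2 : z0 + (1 / ev b z0 + η * (1 / ev b z0) ^ 2) / c1 ≤
      z0 + (1 / A0 + η * (1 / A0) ^ 2) / c1 := by
    have h3 : 1 / ev b z0 ≤ 1 / A0 := one_div_le_one_div_of_le hA0p hA0
    gcongr
  have h3 : z1 + (1 / ev b z1 + η * (1 / ev b z1) ^ 2) / c1 ≤
      z0 + (1 / ev b z0 + η * (1 / ev b z0) ^ 2) / c1 := hlast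
  linarith

end Pool.Agent.Helper949.SQ
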