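import Mathlib
import Pool.Agent.Helper949.SQ5
import Pool.Agent.Helper949.SQ6
set_option autoImplicit false
namespace Pool.Agent.Helper949.SQ
open Finset Filter Topology Pool.Agent.Helper949.SP

/-- `b n = a_n / n!` -/
noncomputable def b (n : ℕ) : ℝ := (c n : ℝ) / n.factorial

theorem b_nonneg (n : ℕ) : 0 ≤ b n := by unfold b; positivity

theorem b_lo {n : ℕ} (hn : n ≤ 300) : (D n : ℝ) ≤ 10 ^ 12 * (b n * (7 / 5) ^ n) := by
  have h := (D_spec n hn).1
  have h' : (D n : ℝ) * ((n.factorial : ℝ) * 5 ^ n) ≤ (c n : ℝ) * (10 ^ 12 * 7 ^ n) := by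
    exact_mod_cast h
  have hf : (0 : ℝ) < n.factorial := by exact_mod_cast Nat.factorial_pos n
  have e : 10 ^ 12 * (b n * (7 / 5) ^ n) =
      ((c n : ℝ) * (10 ^ 12 * 7 ^ n)) / ((n.factorial : ℝ) * 5 ^ n) := by
    unfold b; rw [div_pow]; field_simp
  rw [e, le_div_iff₀ (by positivity)]
  exact h'

theorem b_hi {n : ℕ} (hn : n ≤ 300) : 10 ^ 12 * (b n * (7 / 5) ^ n) ≤ (D n : ℝ) + 1 := by
  have h := (D_spec n hn).2
  have h' : (c n : ℝ) * (10 ^ 12 * 7 ^ n) ≤ ((D n : ℝ) + 1) * ((n.factorial : ℝ) * 5 ^ n) := by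
    exact_mod_cast h
  have hf : (0 : ℝ) < n.factorial := by exact_mod_cast Nat.factorial_pos n
  have e : 10 ^ 12 * (b n * (7 / 5) ^ n) =
      ((c n : ℝ) * (10 ^ 12 * 7 ^ n)) / ((n.factorial : ℝ) * 5 ^ n) := by
    unfold b; rw [div_pow]; field_simp
  rw [e, div_le_iff₀ (by positivity)]
  exact h'

noncomputable def lam : ℝ := 34909 / 50000

theorem lam_pos : 0 < lam := by unfold lam; norm_num

theorem hN1 : ∀ k, 150 ≤ k → k ≤ 2 * 150 → b k ≤ lam ^ (k + 1) := by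
  intro k h1 h2
  have h3 := N1 (k - 150) (by rw [mem_range]; omega)
  have e : 150 + (k - 150) = k := by omega
  rw [e] at h3
  have h3' : ((D k : ℝ) + 1) * 5 ^ k * 50000 ^ (k + 1) ≤ 10 ^ 12 * 7 ^ k * 34909 ^ (k + 1) := by
    exact_mod_cast h3
  have h4 := b_hi (n := k) (by omega)
  have h5 : 10 ^ 12 * (b k * (7 / 5) ^ k) * (5 ^ k * 50000 ^ (k + 1)) ≤
      10 ^ 12 * 7 ^ k * 34909 ^ (k + 1) := by
    refine le_trans ?_ h3'
    rw [mul_assoc ((D k : ℝ) + 1)]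
    exact mul_le_mul_of_nonneg_right h4 (by positivity)
  have e2 : 10 ^ 12 * (b k * (7 / 5) ^ k) * (5 ^ k * 50000 ^ (k + 1)) =
      (10 ^ 12 * 7 ^ k) * (b k * 50000 ^ (k + 1)) := by
    rw [div_pow]; field_simp
  rw [e2] at h5
  have h6 : b k * 50000 ^ (k + 1) ≤ 34909 ^ (k + 1) :=
    le_of_mul_le_mul_left h5 (by positivity)
  unfold lam
  rw [div_pow, le_div_iff₀ (by positivity)]
  exact h6

theorem hN2 : 1 / lam + 2 * ∑ k ∈ range 150, b k / lam ^ (k + 1) ≤ 2 * (150 : ℕ) := by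
  have h2 : (2 : ℝ) * ∑ k ∈ range 150, ((D k : ℝ) + 1) * (5 ^ k * 7 ^ (150 - k)) *
      (50000 ^ (k + 1) * 34909 ^ (150 - (k + 1))) + 10 ^ 12 * 7 ^ 150 * (50000 * 34909 ^ 149) ≤
    300 * (10 ^ 12 * 7 ^ 150 * 34909 ^ 150) := by exact_mod_cast N2
  have hC : (0 : ℝ) < 10 ^ 12 * 7 ^ 150 * 34909 ^ 150 := by positivity
  refine le_of_mul_le_mul_left ?_ hC
  have h3 : ∀ k ∈ range 150, (10 ^ 12 * 7 ^ 150 * 34909 ^ 150) * (b k / lam ^ (k + 1)) ≤
      ((D k : ℝ) + 1) * (5 ^ k * 7 ^ (150 - k)) *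
        (50000 ^ (k + 1) * 34909 ^ (150 - (k + 1))) := by
    intro k hk
    rw [mem_range] at hk
    have h4 := b_hi (n := k) (by omega)
    have e7 : (7 : ℝ) ^ 150 = 7 ^ k * 7 ^ (150 - k) := by rw [← pow_add]; congr 1; omega
    have e3 : (34909 : ℝ) ^ 150 = 34909 ^ (k + 1) * 34909 ^ (150 - (k + 1)) := by
      rw [← pow_add]; congr 1; omega
    have e : (10 ^ 12 * 7 ^ 150 * 34909 ^ 150) * (b k / lam ^ (k + 1)) =
        (10 ^ 12 * (b k * (7 / 5) ^ k)) * ((5 ^ k * 7 ^ (150 - k)) *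
          (50000 ^ (k + 1) * 34909 ^ (150 - (k + 1)))) := by
      rw [e7, e3]
      unfold lam
      rw [div_pow, div_pow]
      field_simp
    rw [e, mul_assoc ((D k : ℝ) + 1)]
    exact mul_le_mul_of_nonneg_right h4 (by positivity)
  have h5 := Finset.sum_le_sum h3
  rw [← Finset.mul_sum] at h5
  have e6 : (10 ^ 12 * 7 ^ 150 * 34909 ^ 150) * (1 / lam) =
      10 ^ 12 * 7 ^ 150 * (50000 * 34909 ^ 149) := by
    unfold lam
    have : (34909 : ℝ) ^ 150 = 34909 ^ 149 * 34909 := by rw [← pow_succ]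
    rw [this]
    field_simp
  rw [mul_add, e6]
  push_cast
  linarith

/-- upper bound for the growth constant -/
theorem upper {B : ℕ → ℝ} (H : Hyp b B) : ∀ k, 150 ≤ k → b k ≤ lam ^ (k + 1) :=
  upper_b H lam_pos 150 (by norm_num) hN1 hN2

theorem ev_lo {R : ℝ} (hR : Conv b R) (h : (7 / 5 : ℝ) < R) : 32209 / 1000 ≤ ev b (7 / 5) := by
  have hs : Summable fun n => b n * (7 / 5 : ℝ) ^ n :=
    hR.summable (by rw [Real.norm_of_nonneg (by norm_num)]; exact h)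
  have h1 : ∑ n ∈ range 301, b n * (7 / 5 : ℝ) ^ n ≤ ev b (7 / 5) :=
    hs.sum_le_tsum _ (fun n _ => mul_nonneg (b_nonneg n) (by positivity))
  have h2 : ((∑ n ∈ range 301, D n : ℕ) : ℝ) ≤ 10 ^ 12 * ∑ n ∈ range 301, b n * (7 / 5 : ℝ) ^ n := by
    push_cast
    rw [Finset.mul_sum]
    apply Finset.sum_le_sum
    intro n hn
    rw [mem_range] at hn
    exact b_lo (by omega)
  have h3 : ((32209 * 10 ^ 9 : ℕ) : ℝ) ≤ ((∑ n ∈ range 301, D n : ℕ) : ℝ) := by exact_mod_cast N3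
  have h4 := h3.trans h2
  push_cast at h4
  have h5 : (32209 / 1000 : ℝ) ≤ ∑ n ∈ range 301, b n * (7 / 5 : ℝ) ^ n := by linarith
  exact h5.trans h1

theorem ev_d_lo {R : ℝ} (hR : Conv b R) (h : (7 / 5 : ℝ) < R) :
    931289 / 1000 ≤ ev (dv b) (7 / 5) := by
  have hs : Summable fun n => dv b n * (7 / 5 : ℝ) ^ n :=
    hR.dv.summable (by rw [Real.norm_of_nonneg (by norm_num)]; exact h)
  have h1 : ∑ n ∈ range 300, dv b n * (7 / 5 : ℝ) ^ n ≤ ev (dv b) (7 / 5) :=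
    hs.sum_le_tsum _ (fun n _ => mul_nonneg (mul_nonneg (by positivity) (b_nonneg _))
      (by positivity))
  have h2 : ((∑ n ∈ range 301, n * D n : ℕ) : ℝ) ≤
      10 ^ 12 * ((7 / 5) * ∑ n ∈ range 300, dv b n * (7 / 5 : ℝ) ^ n) := by
    rw [Finset.sum_range_succ' _ 300]
    push_cast
    rw [zero_mul, add_zero, Finset.mul_sum, Finset.mul_sum]
    apply Finset.sum_le_sum
    intro n hn
    rw [mem_range] at hn
    have h3 := b_lo (n := n + 1) (by omega)
    have h4 : ((n : ℝ) + 1) * (D (n + 1) : ℝ) ≤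
        ((n : ℝ) + 1) * (10 ^ 12 * (b (n + 1) * (7 / 5) ^ (n + 1))) :=
      mul_le_mul_of_nonneg_left h3 (by positivity)
    refine h4.trans (le_of_eq ?_)
    unfold dv
    rw [pow_succ]
    ring
  have h3 : ((931289 * 10 ^ 9 * 7 : ℕ) : ℝ) ≤ ((5 * ∑ n ∈ range 301, n * D n : ℕ) : ℝ) := by
    exact_mod_cast N5
  rw [Nat.cast_mul 5] at h3
  push_cast at h3 h2
  have h5 : (931289 / 1000 : ℝ) ≤ ∑ n ∈ range 300, dv b n * (7 / 5 : ℝ) ^ n := by
    linarith
  exact h5.trans h1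

theorem pow_num : (244363 / 250000 : ℝ) ^ 301 ≤ 106 / 100000 := by
  have h : 244363 ^ 301 * 100000 ≤ 106 * 250000 ^ 301 := by decide +kernel
  have h' : (244363 : ℝ) ^ 301 * 100000 ≤ 106 * 250000 ^ 301 := by exact_mod_cast h
  rw [div_pow, div_le_div_iff₀ (by positivity) (by positivity)]
  exact h'

theorem ev_hi {B : ℕ → ℝ} (H : Hyp b B) {R : ℝ} (hR : Conv b R) (h : (7 / 5 : ℝ) < R) :
    ev b (7 / 5) ≤ 32243 / 1000 := by
  have hs : Summable fun n => b n * (7 / 5 : ℝ) ^ n :=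
    hR.summable (by rw [Real.norm_of_nonneg (by norm_num)]; exact h)
  unfold ev
  rw [← hs.sum_add_tsum_nat_add 301]
  have h2 : 10 ^ 12 * ∑ n ∈ range 301, b n * (7 / 5 : ℝ) ^ n ≤
      ((∑ n ∈ range 301, (D n + 1) : ℕ) : ℝ) := by
    push_cast
    rw [Finset.mul_sum]
    apply Finset.sum_le_sum
    intro n hn
    rw [mem_range] at hn
    exact b_hi (by omega)
  have h3 : ((∑ n ∈ range 301, (D n + 1) : ℕ) : ℝ) ≤ ((322094 * 10 ^ 8 : ℕ) : ℝ) := by
    exact_mod_cast N4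
  have h4 := h2.trans h3
  push_cast at h4
  have h5 : ∑ n ∈ range 301, b n * (7 / 5 : ℝ) ^ n ≤ 322094 / 10000 := by linarith
  have hq : lam * (7 / 5) = 244363 / 250000 := by unfold lam; norm_num
  obtain ⟨Q, hQ⟩ : ∃ Q, Q = (244363 / 250000 : ℝ) ^ 301 := ⟨_, rfl⟩
  have hQ1 : Q ≤ 106 / 100000 := by rw [hQ]; exact pow_num
  have hgeo : Summable fun n : ℕ => (lam * Q) * (244363 / 250000 : ℝ) ^ n :=
    (summable_geometric_of_lt_one (by norm_num) (by norm_num)).mul_left _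
  have hle : ∀ n : ℕ, b (n + 301) * (7 / 5 : ℝ) ^ (n + 301) ≤
      (lam * Q) * (244363 / 250000 : ℝ) ^ n := by
    intro n
    have h6 := upper H (n + 301) (by omega)
    calc b (n + 301) * (7 / 5 : ℝ) ^ (n + 301) ≤ lam ^ (n + 301 + 1) * (7 / 5 : ℝ) ^ (n + 301) :=
          mul_le_mul_of_nonneg_right h6 (by positivity)
      _ = lam * (lam * (7 / 5)) ^ 301 * (lam * (7 / 5)) ^ n := by
          rw [mul_pow, mul_pow]; ring
      _ = _ := by rw [hq, hQ]
  have h7 : ∑' n, b (n + 301) * (7 / 5 : ℝ) ^ (n + 301) ≤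
      (lam * Q) * (1 - 244363 / 250000)⁻¹ := by
    rw [← tsum_geometric_of_lt_one (by norm_num) (by norm_num), ← tsum_mul_left]
    exact ((summable_nat_add_iff 301).2 hs).tsum_le_tsum hle hgeo
  have h8 : (lam * Q) * (1 - 244363 / 250000)⁻¹ ≤ 33 / 1000 := by
    have h10 : lam * Q ≤ lam * (106 / 100000) := mul_le_mul_of_nonneg_left hQ1 lam_pos.le
    have h11 : (lam * Q) * (1 - 244363 / 250000)⁻¹ ≤
        (lam * (106 / 100000)) * (1 - 244363 / 250000)⁻¹ :=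
      mul_le_mul_of_nonneg_right h10 (by norm_num)
    refine h11.trans ?_
    unfold lam
    norm_num
  have h12 := h7.trans h8
  linarith

/-- two-sided numerical enclosure of the growth constant -/
theorem L_bounds {B : ℕ → ℝ} (H : Hyp b B) {L : ℝ} (hL : 0 < L)
    (hlim : Tendsto (fun n => b n / L ^ (n + 1)) atTop (𝓝 1)) :
    0.6974 < L ∧ L < 0.6982 := by
  constructor
  · by_contra hcon
    push Not at hcon
    have hconv : Conv b (1 / L) := conv_of_lim hL b_nonneg hlim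
    have h1 : (1 / 0.6974 : ℝ) ≤ 1 / L := one_div_le_one_div_of_le hL hcon
    have h2 : (1.4338 : ℝ) < 1 / L := lt_of_lt_of_le (by norm_num) h1
    refine blow H hconv (z0 := 7 / 5) (z1 := 1.4338) (by norm_num) (by norm_num) h2
      (A0 := 32209 / 1000) (A1 := 32243 / 1000) (D0 := 931289 / 1000) (α := 13 / 250)
      (β := 1357 / 500) (η := 958 / 1000) (c1 := 237 / 250)
      (ev_lo hconv (by linarith)) (ev_hi H hconv (by linarith)) (ev_d_lo hconv (by linarith))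
      (by norm_num) (by norm_num) (by norm_num) (by norm_num) ?_ ?_ ?_ (by norm_num)
    · intro a h3 h4
      nlinarith
    · intro a h3
      have h4 : 0 ≤ a - 32209 / 1000 := by linarith
      have h5 : 0 ≤ (a - 32209 / 1000) ^ 2 := by positivity
      have h6 : 0 ≤ (a - 32209 / 1000) ^ 3 := by positivity
      nlinarith
    · intro y h3 h4
      have h5 : y ≤ 1000 / 32209 := by
        refine h4.trans (le_of_eq ?_); norm_num
      nlinarith [mul_pos h3 h3, mul_nonneg h3.le (sub_nonneg.2 h5)]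
  · have h1 := L_le hL lam_pos 150 (upper H) hlim
    refine lt_of_le_of_lt h1 ?_
    unfold lam
    norm_num

end Pool.Agent.Helper949.SQ
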