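import Mathlib
import Pool.Agent.Helper949.SQ7
set_option autoImplicit false
namespace Pool.Agent.Helper949.SQ
open Finset Filter Topology Pool.Agent.Helper949.SP Pool.Agent.Helper949.StackSort
open scoped Classical

theorem Bt_eq_Z (A : Finset ℕ) : Bt A = Z 1 A := by
  rw [← Z_eq]
  simp [Bt]

theorem Z_card (T : ℕ) {A B : Finset ℕ} (h : A.card = B.card) : Z T A = Z T B := by
  obtain ⟨f, g, hf, hg, hfB, hgA⟩ := ordiso h
  unfold Z
  have hmem : ∀ {C : Finset ℕ} {w : List ℕ}, w ∈ (W C).filter S → ∀ a ∈ w, a ∈ C := by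
    intro C w hw a ha
    rw [mem_filter, mem_W] at hw
    rw [← hw.1.2]; exact List.mem_toFinset.2 ha
  refine Finset.sum_nbij' (fun w => w.map f) (fun w => w.map g) ?_ ?_ ?_ ?_ ?_
  · intro w hw; exact map_mem_WS hf hfB hgA hw
  · intro w hw; exact map_mem_WS hg hgA hfB hw
  · intro w hw; exact map_map_id (fun a ha => (hfB a ha).2) (hmem hw)
  · intro w hw; exact map_map_id (fun a ha => (hgA a ha).2) (hmem hw)
  · intro w hw
    rw [dd_map hf hg hfB (hmem hw)]

/-- number of pairs of nonempty sorted words with sorted concatenation -/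
noncomputable def t (n : ℕ) : ℕ := Bt (range n)

theorem Bt_eq (A : Finset ℕ) : Bt A = t A.card := by
  unfold t
  rw [Bt_eq_Z, Bt_eq_Z]
  exact Z_card 1 (by rw [card_range])

theorem sum_pow (n : ℕ) (F G : Finset ℕ → ℕ) (f g : ℕ → ℕ) (hF : ∀ A, F A = f A.card)
    (hG : ∀ A, G A = g A.card) : ∑ Y ∈ (range n).powerset, F Y * G (range n \ Y) =
      ∑ j ∈ range (n + 1), n.choose j * (f j * g (n - j)) := by
  have : ∀ Y ∈ (range n).powerset, F Y * G (range n \ Y) = (fun j => f j * g (n - j)) Y.card := by
    intro Y hY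
    rw [mem_powerset] at hY
    show _ = f Y.card * g (n - Y.card)
    rw [hF, hG, card_sdiff_of_subset hY, card_range]
  rw [sum_congr rfl this]
  refine (Finset.sum_powerset_apply_card (x := range n) (fun j => f j * g (n - j))).trans ?_
  rw [card_range]
  apply sum_congr rfl
  intro j _
  simp

theorem Pr_range (n : ℕ) : Pr (range n) = ∑ j ∈ range (n + 1), n.choose j * (c j * c (n - j)) := by
  rw [Pr_eq]
  exact sum_pow n cnt cnt c c cnt_eq cnt_eq

theorem c_succ (n : ℕ) : c (n + 1) + t n = (if n = 0 then 1 else 0) + c n +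
    ∑ j ∈ range (n + 1), n.choose j * (c j * c (n - j)) := by
  have h := R1 (A := range n) (m := n) (by intro a ha; exact mem_range.1 ha)
  have h1 : insert n (range n) = range (n + 1) := (range_add_one).symm
  have h6 : (range n = ∅) ↔ n = 0 := by simp
  rw [h1, Pr_range] at h
  simp only [h6] at h
  exact h

theorem t_succ (n : ℕ) : t (n + 1) ≤ c n + ∑ j ∈ range (n + 1), n.choose j * (c j * c (n - j)) +
    ∑ j ∈ range (n + 1), n.choose j * (t j * c (n - j)) := by
  have h := R2 (A := range n) (m := n) (by intro a ha; exact mem_range.1 ha)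
  have h1 : insert n (range n) = range (n + 1) := (range_add_one).symm
  rw [h1, Pr_range, sum_pow n Bt cnt t c Bt_eq cnt_eq] at h
  exact h

noncomputable def Bc (n : ℕ) : ℝ := (t n : ℝ) / n.factorial

theorem choose_term {n j : ℕ} (hj : j ∈ range (n + 1)) (u v : ℝ) :
    (n.choose j : ℝ) * (u * v) / n.factorial =
      u / j.factorial * (v / (n - j).factorial) := by
  have hj' : j ≤ n := Nat.lt_succ_iff.1 (mem_range.1 hj)
  have h := Nat.choose_mul_factorial_mul_factorial hj'
  have h' : (n.choose j : ℝ) * j.factorial * (n - j).factorial = n.factorial := by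
    exact_mod_cast h
  have h1 : (j.factorial : ℝ) ≠ 0 := by exact_mod_cast Nat.factorial_ne_zero j
  have h2 : ((n - j).factorial : ℝ) ≠ 0 := by exact_mod_cast Nat.factorial_ne_zero _
  rw [← h']
  have h3 : (n.choose j : ℝ) ≠ 0 := by
    exact_mod_cast (Nat.choose_pos hj').ne'
  field_simp

theorem hyp : Hyp b Bc where
  b0 := by unfold b; rw [c_zero]; simp
  bn := b_nonneg
  Bn := fun n => by unfold Bc; positivity
  e1 := by
    intro n
    have h := c_succ n
    have hf : (0 : ℝ) < n.factorial := by exact_mod_cast Nat.factorial_pos n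
    have h' : (c (n + 1) : ℝ) + t n = (if n = 0 then 1 else 0) + c n +
        ∑ j ∈ range (n + 1), (n.choose j : ℝ) * ((c j : ℝ) * c (n - j)) := by exact_mod_cast h
    have e1 : ((n : ℝ) + 1) * b (n + 1) = (c (n + 1) : ℝ) / n.factorial := by
      unfold b
      rw [Nat.factorial_succ]
      push_cast
      field_simp
    have e2 : ∑ k ∈ range (n + 1), b k * b (n - k) =
        (∑ j ∈ range (n + 1), (n.choose j : ℝ) * ((c j : ℝ) * c (n - j))) / n.factorial := by
      rw [Finset.sum_div]
      apply Finset.sum_congr rfl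
      intro j hj
      rw [choose_term hj]
      rfl
    rw [e1, e2]
    unfold b Bc
    have e3 : ((if n = 0 then 1 else 0 : ℝ)) = (if n = 0 then 1 else 0 : ℝ) / n.factorial := by
      by_cases hn : n = 0
      · subst hn; simp
      · simp [hn]
    rw [e3, ← add_div, ← add_div, ← add_div, h']
  e2 := by
    intro n
    have h := t_succ n
    have hf : (0 : ℝ) < n.factorial := by exact_mod_cast Nat.factorial_pos n
    have h' : (t (n + 1) : ℝ) ≤ c n +
        ∑ j ∈ range (n + 1), (n.choose j : ℝ) * ((c j : ℝ) * c (n - j)) +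
        ∑ j ∈ range (n + 1), (n.choose j : ℝ) * ((t j : ℝ) * c (n - j)) := by exact_mod_cast h
    have e1 : ((n : ℝ) + 1) * Bc (n + 1) = (t (n + 1) : ℝ) / n.factorial := by
      unfold Bc
      rw [Nat.factorial_succ]
      push_cast
      field_simp
    have e2 : ∑ k ∈ range (n + 1), b k * b (n - k) =
        (∑ j ∈ range (n + 1), (n.choose j : ℝ) * ((c j : ℝ) * c (n - j))) / n.factorial := by
      rw [Finset.sum_div]
      apply Finset.sum_congr rfl
      intro j hj
      rw [choose_term hj]
      rfl
    have e3 : ∑ k ∈ range (n + 1), Bc k * b (n - k) =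
        (∑ j ∈ range (n + 1), (n.choose j : ℝ) * ((t j : ℝ) * c (n - j))) / n.factorial := by
      rw [Finset.sum_div]
      apply Finset.sum_congr rfl
      intro j hj
      rw [choose_term hj]
      rfl
    rw [e1, e2, e3]
    unfold b
    rw [← add_div, ← add_div]
    exact div_le_div_of_nonneg_right h' hf.le

/-- final form of the enclosure -/
theorem bounds {L : ℝ} (hL : 0 < L)
    (hlim : Tendsto (fun n : ℕ => (cnt (range n) : ℝ) / (n.factorial * L ^ (n + 1))) atTop (𝓝 1)) :
    0.6974 < L ∧ L < 0.6982 := by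
  refine L_bounds hyp hL (hlim.congr (fun n => ?_))
  unfold b c
  rw [div_div]

end Pool.Agent.Helper949.SQ
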