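import Mathlib
import Pool.Agent.Helper949.SQ8
set_option autoImplicit false
namespace Pool.Agent.Helper949.SR
open Finset Pool.Agent.Helper949.StackSort Pool.Agent.Helper949.SQ
open scoped Classical

/-- weighted count of nonempty sorted words on `A` -/
noncomputable def XX (φ : ℕ → ℕ) (A : Finset ℕ) : ℕ := ∑ w ∈ (W A).filter S, φ (dd w)

noncomputable def ZZ (φ : ℕ → ℕ) (A : Finset ℕ) : ℕ :=
  ∑ w ∈ (W A).filter S, ∑ i ∈ range (dd w), φ i

theorem count_sum (p : ℕ → Prop) [DecidablePred p] (φ : ℕ → ℕ) : ∀ n : ℕ,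
    ∑ t ∈ (range n).filter p, φ (Nat.count p t) = ∑ i ∈ range (Nat.count p n), φ i := by
  intro n
  induction n with
  | zero => simp
  | succ n ih =>
    rw [Finset.range_add_one, Finset.filter_insert, Nat.count_succ]
    by_cases h : p n
    · rw [if_pos h, if_pos h, Finset.sum_insert (by simp), ih, Finset.sum_range_succ, add_comm]
    · rw [if_neg h, if_neg h, ih, add_zero]

theorem ZZ_eq (φ : ℕ → ℕ) (A : Finset ℕ) :
    ∑ p ∈ BtSet A, φ (dd p.1) = ZZ φ A := by
  unfold ZZ
  have hmaps : ∀ p ∈ BtSet A, p.1 ++ p.2 ∈ (W A).filter S := by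
    intro p hp
    unfold BtSet at hp
    rw [mem_filter, mem_PP] at hp
    rw [mem_filter]
    exact ⟨hp.1, fun h => hp.2.1.1.1 (List.append_eq_nil_iff.1 h).1, hp.2.2⟩
  rw [← Finset.sum_fiberwise_of_maps_to hmaps]
  apply sum_congr rfl
  intro w hw
  rw [mem_filter] at hw
  have hg := count_sum (fun t => 0 < t ∧ Srt (w.take t)) φ w.length
  unfold dd
  rw [← hg]
  symm
  apply Finset.sum_bij (fun t _ => (w.take t, w.drop t))
  · intro t ht
    simp only [mem_filter, mem_range] at ht
    rw [mem_filter]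
    unfold BtSet
    rw [mem_filter, mem_PP]
    have h1 : w.take t ++ w.drop t = w := List.take_append_drop t w
    refine ⟨⟨?_, ⟨⟨?_, ht.2.2⟩, ⟨?_, ?_⟩⟩, ?_⟩, h1⟩
    · show w.take t ++ w.drop t ∈ W A
      rw [h1]; exact hw.1
    · intro h
      have := congrArg List.length h
      simp at this
      rcases this with h | h
      · omega
      · subst h; simp at ht
    · intro h
      have := congrArg List.length h
      simp at this
      omega
    · apply srt_right (x := w.take t)
      rw [h1]; exact hw.2.2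
    · show Srt (w.take t ++ w.drop t)
      rw [h1]; exact hw.2.2
  · intro t ht s hs h
    simp only [mem_filter, mem_range] at ht hs
    have := congrArg (fun p : List ℕ × List ℕ => p.1.length) h
    simp at this
    omega
  · intro p hp
    rw [mem_filter] at hp
    obtain ⟨hp, hpw⟩ := hp
    unfold BtSet at hp
    rw [mem_filter, mem_PP] at hp
    refine ⟨p.1.length, ?_, ?_⟩
    · simp only [mem_filter, mem_range]
      have hl := congrArg List.length hpw
      rw [List.length_append] at hl
      have h1 : 0 < p.1.length := List.length_pos_iff.2 hp.2.1.1.1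
      have h2 : 0 < p.2.length := List.length_pos_iff.2 hp.2.1.2.1
      refine ⟨by omega, h1, ?_⟩
      rw [← hpw, List.take_left']
      · exact hp.2.1.1.2
      · rfl
    · rw [← hpw]
      simp
  · intro t ht
    simp only [mem_filter, mem_range] at ht
    show φ (Nat.count _ t) = φ (dd (w.take t))
    rw [dd_take w ht.1.le]

theorem sum_pairs' (φ : ℕ → ℕ) (A : Finset ℕ) :
    ∑ p ∈ (PP A).filter (fun p => S p.1 ∧ S p.2), φ (dd p.1) =
      ∑ Y ∈ A.powerset, XX φ Y * cnt (A \ Y) := by
  have hmaps : ∀ p ∈ (PP A).filter (fun p => S p.1 ∧ S p.2), p.1.toFinset ∈ A.powerset := by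
    intro p hp
    rw [mem_filter, mem_PP] at hp
    rw [mem_powerset]
    exact (append_mem_W.1 hp.1).1
  rw [← Finset.sum_fiberwise_of_maps_to hmaps]
  apply sum_congr rfl
  intro Y hY
  rw [mem_powerset] at hY
  unfold XX cnt
  rw [card_eq_sum_ones, Finset.sum_mul_sum, ← Finset.sum_product']
  apply Finset.sum_congr
  · ext ⟨p, q⟩
    simp only [mem_filter, mem_PP, mem_product]
    rw [append_mem_W]
    constructor
    · rintro ⟨⟨⟨h1, h2, h3⟩, h4, h5⟩, h6⟩
      subst h6
      exact ⟨⟨h2, h4⟩, h3, h5⟩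
    · rintro ⟨⟨h2, h4⟩, h3, h5⟩
      have h6 : p.toFinset = Y := (mem_W.1 h2).2
      subst h6
      exact ⟨⟨⟨hY, h2, h3⟩, h4, h5⟩, rfl⟩
  · intro p _
    rw [mul_one]

/-- the recursion for weighted counts -/
theorem XX_insert (φ : ℕ → ℕ) {A : Finset ℕ} {m : ℕ} (hm : ∀ a ∈ A, a < m) :
    XX φ (insert m A) + ZZ (fun i => φ (i + 1)) A =
      (if A = ∅ then φ 0 else 0) + XX (fun i => φ (i + 1)) A +
        ∑ Y ∈ A.powerset, XX (fun i => φ (i + 1)) Y * cnt (A \ Y) := by
  have h1 : XX φ (insert m A) = ∑ u ∈ (W A).filter F2, φ (dd (u ++ [m])) := by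
    unfold XX
    symm
    apply Finset.sum_bij (fun w _ => w ++ [m])
    · intro w hw
      rw [mem_filter] at hw ⊢
      refine ⟨(append_singleton_mem_W hm).2 hw.1, by simp, ?_⟩
      rw [srt_append_singleton_iff]
      refine ⟨?_, hw.2⟩
      intro a ha
      apply hm
      rw [← (mem_W.1 hw.1).2, List.mem_toFinset]; exact ha
    · intro w _ w' _ h
      exact (List.append_inj' h rfl).1
    · intro w hw
      rw [mem_filter] at hw
      obtain ⟨v, h1, h2, h3⟩ := srt_mem_last hm hw.1 hw.2
      exact ⟨v, mem_filter.2 ⟨h2, h3⟩, h1.symm⟩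
    · intro w _
      rfl
  have h2 : ∑ u ∈ (W A).filter F2, φ (dd (u ++ [m])) =
      ∑ u ∈ (W A).filter Srt, φ (dd (u ++ [m])) +
        ∑ u ∈ (W A).filter (fun w => F2 w ∧ ¬ Srt w), φ (dd (u ++ [m])) := by
    rw [← Finset.sum_filter_add_sum_filter_not ((W A).filter F2) Srt, filter_filter,
      filter_filter]
    congr 1
    apply sum_congr _ (fun _ _ => rfl)
    apply filter_congr
    intro w _
    exact ⟨fun h => h.2, fun h => ⟨srt_imp_F2 h, h⟩⟩
  have h3 : ∑ u ∈ (W A).filter Srt, φ (dd (u ++ [m])) =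
      (if A = ∅ then φ 0 else 0) + XX (fun i => φ (i + 1)) A := by
    have hne : ∀ u ∈ W A, (u = [] ↔ A = ∅) := by
      intro u hu
      have := (mem_W.1 hu).2
      constructor
      · rintro rfl; simpa using this.symm
      · intro h; rw [h] at this; simpa using this
    by_cases hA : A = ∅
    · subst hA
      have hX : XX (fun i => φ (i + 1)) ∅ = 0 := by
        unfold XX
        rw [SQ.W_empty, filter_singleton, if_neg (show ¬ S [] from fun h => h.1 rfl)]
        simp
      rw [hX, SQ.W_empty, filter_singleton, if_pos Srt.nil, sum_singleton, dd_append_singleton,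
        if_neg (show ¬ S [] from fun h => h.1 rfl)]
      simp [dd]
    · rw [if_neg hA, zero_add]
      unfold XX
      apply sum_congr
      · apply filter_congr
        intro w hw
        have : w ≠ [] := fun h => hA ((hne w hw).1 h)
        simp [S, this]
      · intro w hw
        rw [dd_append_singleton, if_pos (mem_filter.1 hw).2]
  have h4 : ∑ u ∈ (W A).filter (fun w => F2 w ∧ ¬ Srt w), φ (dd (u ++ [m])) =
      ∑ p ∈ (PP A).filter (fun p => (S p.1 ∧ S p.2) ∧ ¬ Srt (p.1 ++ p.2)), φ (dd p.1 + 1) := by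
    symm
    apply Finset.sum_bij (fun p _ => p.1 ++ p.2)
    · intro p hp
      rw [mem_filter, mem_PP] at hp
      rw [mem_filter]
      exact ⟨hp.1, ⟨p.1, p.2, hp.2.1.1.2, hp.2.1.2.2, rfl⟩, hp.2.2⟩
    · intro p hp p' hp' h
      rw [mem_filter, mem_PP] at hp hp'
      have := split_unique' hp.2.1.1.2 hp.2.1.2.2 hp'.2.1.1.2 hp'.2.1.2.2 h hp.2.2
      exact Prod.ext this.1 this.2
    · intro w hw
      rw [mem_filter] at hw
      obtain ⟨hw1, ⟨x, y, hx, hy, rfl⟩, hns⟩ := hw
      refine ⟨(x, y), ?_, rfl⟩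
      rw [mem_filter, mem_PP]
      refine ⟨hw1, ⟨⟨?_, hx⟩, ?_, hy⟩, hns⟩
      · rintro rfl; exact hns hy
      · rintro rfl; exact hns (by simpa using hx)
    · intro p hp
      rw [mem_filter, mem_PP] at hp
      rw [dd_append_singleton, if_neg (fun h : S (p.1 ++ p.2) => hp.2.2 h.2), add_zero,
        dd_append_not hp.2.1.1 hp.2.1.2 hp.2.2]
  have h5 : ∑ p ∈ (PP A).filter (fun p => S p.1 ∧ S p.2), φ (dd p.1 + 1) =
      ∑ p ∈ BtSet A, φ (dd p.1 + 1) +
      ∑ p ∈ (PP A).filter (fun p => (S p.1 ∧ S p.2) ∧ ¬ Srt (p.1 ++ p.2)), φ (dd p.1 + 1) := by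
    unfold BtSet
    rw [← Finset.sum_filter_add_sum_filter_not ((PP A).filter fun p => S p.1 ∧ S p.2)
      (fun p => Srt (p.1 ++ p.2)), filter_filter, filter_filter]
  have h6 := sum_pairs' (fun i => φ (i + 1)) A
  have h7 := ZZ_eq (fun i => φ (i + 1)) A
  rw [h1, h2, h3, h4, ← h6, h5, h7]
  ring

theorem XX_card (φ : ℕ → ℕ) {A B : Finset ℕ} (h : A.card = B.card) : XX φ A = XX φ B := by
  obtain ⟨f, g, hf, hg, hfB, hgA⟩ := ordiso h
  unfold XX
  have hmem : ∀ {C : Finset ℕ} {w : List ℕ}, w ∈ (W C).filter S → ∀ a ∈ w, a ∈ C := by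
    intro C w hw a ha
    rw [mem_filter, mem_W] at hw
    rw [← hw.1.2]; exact List.mem_toFinset.2 ha
  refine Finset.sum_nbij' (fun w => w.map f) (fun w => w.map g) ?_ ?_ ?_ ?_ ?_
  · intro w hw; exact map_mem_WS hf hfB hgA hw
  · intro w hw; exact map_mem_WS hg hgA hfB hw
  · intro w hw; exact map_map_id (fun a ha => (hfB a ha).2) (hmem hw)
  · intro w hw; exact map_map_id (fun a ha => (hgA a ha).2) (hmem hw)
  · intro w hw
    rw [dd_map hf hg hfB (hmem hw)]

/-- number of pairs (sorted word on `A`, set of `j` proper sorted initial segments) -/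
noncomputable def gam (j : ℕ) (A : Finset ℕ) : ℕ := XX (fun d => d.choose j) A

noncomputable def gm (j n : ℕ) : ℕ := gam j (range n)

theorem gam_eq (j : ℕ) (A : Finset ℕ) : gam j A = gm j A.card := XX_card _ (by rw [card_range])

theorem gam_zero (A : Finset ℕ) : gam 0 A = cnt A := by
  unfold gam XX cnt
  simp

theorem gm_zero (n : ℕ) : gm 0 n = c n := gam_zero _

theorem gam_insert_zero {A : Finset ℕ} {m : ℕ} (hm : ∀ a ∈ A, a < m) :
    gam 0 (insert m A) + gam 1 A = (if A = ∅ then 1 else 0) + gam 0 A +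
      ∑ Y ∈ A.powerset, gam 0 Y * cnt (A \ Y) := by
  have h := XX_insert (fun d => d.choose 0) hm
  have h1 : ZZ (fun i => (i + 1).choose 0) A = gam 1 A := by
    unfold ZZ gam XX
    apply sum_congr rfl
    intro w _
    simp
  rw [h1] at h
  simpa [gam] using h

theorem gam_insert_succ (j : ℕ) {A : Finset ℕ} {m : ℕ} (hm : ∀ a ∈ A, a < m) :
    gam (j + 1) (insert m A) + gam (j + 2) A = gam j A +
      ∑ Y ∈ A.powerset, (gam (j + 1) Y + gam j Y) * cnt (A \ Y) := by
  have h := XX_insert (fun d => d.choose (j + 1)) hm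
  have h0 : ∀ A : Finset ℕ, XX (fun i => (i + 1).choose (j + 1)) A = gam (j + 1) A + gam j A := by
    intro A
    unfold gam XX
    rw [← sum_add_distrib]
    apply sum_congr rfl
    intro w _
    show (dd w + 1).choose (j + 1) = (dd w).choose (j + 1) + (dd w).choose j
    rw [Nat.choose_succ_succ, add_comm]
  have h1 : ZZ (fun i => (i + 1).choose (j + 1)) A = gam (j + 2) A + gam (j + 1) A := by
    unfold ZZ gam XX
    rw [← sum_add_distrib]
    apply sum_congr rfl
    intro w _
    have e1 : ∀ d : ℕ, ∑ i ∈ range d, (i + 1).choose (j + 1) = (d + 1).choose (j + 2) := by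
      intro d
      induction d with
      | zero => rw [Finset.sum_range_zero, Nat.choose_eq_zero_of_lt (by omega)]
      | succ d ih =>
        rw [sum_range_succ, ih, Nat.choose_succ_succ (d + 1) (j + 1), add_comm]
    rw [e1]
    show (dd w + 1).choose (j + 2) = (dd w).choose (j + 2) + (dd w).choose (j + 1)
    rw [Nat.choose_succ_succ, add_comm]
  rw [h1, h0] at h
  have h2 : ∑ Y ∈ A.powerset, XX (fun i => (i + 1).choose (j + 1)) Y * cnt (A \ Y) =
      ∑ Y ∈ A.powerset, (gam (j + 1) Y + gam j Y) * cnt (A \ Y) :=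
    sum_congr rfl (fun Y _ => by rw [h0])
  rw [h2] at h
  have h3 : (if A = ∅ then Nat.choose 0 (j + 1) else 0) = 0 := by simp
  rw [h3] at h
  have h4 : XX (fun d => d.choose (j + 1)) (insert m A) = gam (j + 1) (insert m A) := rfl
  rw [h4] at h
  omega

theorem dd_le (w : List ℕ) : dd w ≤ w.length := by
  unfold dd
  exact Nat.count_le _

theorem gam_le (j n : ℕ) : gm j n ≤ n.choose j * c n := by
  unfold gm gam XX c cnt
  rw [card_eq_sum_ones, mul_sum]
  apply sum_le_sum
  intro w hw
  rw [mem_filter, mem_W] at hw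
  rw [mul_one]
  apply Nat.choose_le_choose
  have h1 : w.length = n := by
    have := List.toFinset_card_of_nodup hw.1.1
    rw [hw.1.2, card_range] at this
    exact this.symm
  rw [← h1]
  exact dd_le w

/-- normalised coefficients; `Bk k` is the exponential generating sequence of chains of length `k` -/
noncomputable def Bk : ℕ → ℕ → ℝ
  | 0, n => if n = 0 then 1 else 0
  | j + 1, n => (gm j n : ℝ) / n.factorial

theorem Bk_z (n : ℕ) : Bk 0 n = if n = 0 then 1 else 0 := rfl

theorem Bk_s (j n : ℕ) : Bk (j + 1) n = (gm j n : ℝ) / n.factorial := rfl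

theorem Bk_one : Bk 1 = b := by
  funext n
  show (gm 0 n : ℝ) / n.factorial = (c n : ℝ) / n.factorial
  rw [gm_zero]

theorem Bk_nonneg (k n : ℕ) : 0 ≤ Bk k n := by
  cases k with
  | zero => rw [Bk_z]; split_ifs <;> norm_num
  | succ j => rw [Bk_s]; positivity

theorem Bk_le (j n : ℕ) : Bk (j + 1) n ≤ (n.choose j : ℝ) * b n := by
  rw [Bk_s]
  unfold b
  rw [← mul_div_assoc]
  apply div_le_div_of_nonneg_right _ (by positivity)
  exact_mod_cast gam_le j n

theorem gm_succ_zero (n : ℕ) : gm 0 (n + 1) + gm 1 n = (if n = 0 then 1 else 0) + gm 0 n +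
    ∑ i ∈ range (n + 1), n.choose i * (gm 0 i * c (n - i)) := by
  have h := gam_insert_zero (A := range n) (m := n) (by intro a ha; exact mem_range.1 ha)
  have h1 : insert n (range n) = range (n + 1) := (range_add_one).symm
  have h6 : (range n = ∅) ↔ n = 0 := by simp
  rw [h1, sum_pow n (gam 0) cnt (gm 0) c (gam_eq 0) cnt_eq] at h
  simp only [h6] at h
  exact h

theorem gm_succ_succ (j n : ℕ) : gm (j + 1) (n + 1) + gm (j + 2) n = gm j n +
    ∑ i ∈ range (n + 1), n.choose i * ((gm (j + 1) i + gm j i) * c (n - i)) := by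
  have h := gam_insert_succ j (A := range n) (m := n) (by intro a ha; exact mem_range.1 ha)
  have h1 : insert n (range n) = range (n + 1) := (range_add_one).symm
  rw [h1, sum_pow n (fun Y => gam (j + 1) Y + gam j Y) cnt (fun i => gm (j + 1) i + gm j i) c
    (fun A => by rw [gam_eq, gam_eq]) cnt_eq] at h
  exact h

/-- the linear recursion in the form used in the analysis -/
theorem Bk_rec (k n : ℕ) : ((n : ℝ) + 1) * Bk (k + 1) (n + 1) =
    -Bk (k + 2) n + Bk k n + ∑ i ∈ range (n + 1), (Bk (k + 1) i + Bk k i) * b (n - i) := by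
  have hf : (0 : ℝ) < n.factorial := by exact_mod_cast Nat.factorial_pos n
  have e1 : ∀ j : ℕ, ((n : ℝ) + 1) * Bk (j + 1) (n + 1) = (gm j (n + 1) : ℝ) / n.factorial := by
    intro j
    rw [Bk_s, Nat.factorial_succ]
    push_cast
    field_simp
  cases k with
  | zero =>
    have h := gm_succ_zero n
    have h' : (gm 0 (n + 1) : ℝ) + gm 1 n = (if n = 0 then 1 else 0) + gm 0 n +
        ∑ i ∈ range (n + 1), (n.choose i : ℝ) * ((gm 0 i : ℝ) * c (n - i)) := by exact_mod_cast h
    rw [e1 0]
    have e2 : ∑ i ∈ range (n + 1), (Bk (0 + 1) i + Bk 0 i) * b (n - i) =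
        (∑ i ∈ range (n + 1), (n.choose i : ℝ) * ((gm 0 i : ℝ) * c (n - i))) / n.factorial +
          b n := by
      simp only [add_mul]
      rw [sum_add_distrib, Finset.sum_div]
      congr 1
      · apply Finset.sum_congr rfl
        intro i hi
        rw [choose_term hi]
        rfl
      · rw [Finset.sum_eq_single 0]
        · simp [Bk_z]
        · intro i _ hi
          simp [Bk_z, hi]
        · intro h; simp at h
    rw [e2]
    have e3 : Bk 0 n = (if n = 0 then 1 else 0 : ℝ) / n.factorial := by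
      rw [Bk_z]
      by_cases hn : n = 0
      · subst hn; simp
      · simp [hn]
    rw [e3]
    show _ = -((gm 1 n : ℝ) / n.factorial) + _ + (_ + (c n : ℝ) / n.factorial)
    rw [gm_zero n] at h'
    rw [← neg_div, ← add_div, ← add_div, ← add_div]
    congr 1
    linarith
  | succ j =>
    have h := gm_succ_succ j n
    have h' : (gm (j + 1) (n + 1) : ℝ) + gm (j + 2) n = gm j n +
        ∑ i ∈ range (n + 1), (n.choose i : ℝ) * (((gm (j + 1) i : ℝ) + gm j i) * c (n - i)) := by
      exact_mod_cast h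
    rw [e1 (j + 1)]
    have e2 : ∑ i ∈ range (n + 1), (Bk (j + 1 + 1) i + Bk (j + 1) i) * b (n - i) =
        (∑ i ∈ range (n + 1), (n.choose i : ℝ) * (((gm (j + 1) i : ℝ) + gm j i) * c (n - i))) /
          n.factorial := by
      rw [Finset.sum_div]
      apply Finset.sum_congr rfl
      intro i hi
      rw [choose_term hi, Bk_s, Bk_s]
      unfold b
      rw [add_div]
    rw [e2]
    show _ = -((gm (j + 2) n : ℝ) / n.factorial) + (gm j n : ℝ) / n.factorial + _
    rw [← neg_div, ← add_div, ← add_div]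
    congr 1
    linarith

end Pool.Agent.Helper949.SR
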