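import Mathlib
import Pool.Agent.Helper949.SR1
set_option autoImplicit false
namespace Pool.Agent.Helper949.SR
open Finset Filter Topology Pool.Agent.Helper949.SP Pool.Agent.Helper949.SQ

theorem choose_le_pow (n j : ℕ) {ε : ℝ} (hε : 0 < ε) :
    (n.choose j : ℝ) * ε ^ j ≤ (1 + ε) ^ n := by
  by_cases h : n < j
  · rw [Nat.choose_eq_zero_of_lt h]
    simp only [Nat.cast_zero, zero_mul]
    positivity
  · rw [add_comm, add_pow]
    have h1 : (n.choose j : ℝ) * ε ^ j = ε ^ j * 1 ^ (n - j) * (n.choose j : ℝ) := by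
      rw [one_pow]; ring
    rw [h1]
    exact Finset.single_le_sum (f := fun i => ε ^ i * 1 ^ (n - i) * (n.choose i : ℝ))
      (fun i _ => by positivity) (Finset.mem_range.2 (by omega))

theorem Bk_bound (j n : ℕ) {ε x : ℝ} (hε : 0 < ε) (hx : 0 ≤ x) :
    Bk (j + 1) n * x ^ n ≤ (1 / ε) ^ j * (b n * (x * (1 + ε)) ^ n) := by
  have h1 := Bk_le j n
  have h2 := choose_le_pow n j hε
  have h3 : (n.choose j : ℝ) ≤ (1 / ε) ^ j * (1 + ε) ^ n := by
    rw [one_div, inv_pow, inv_mul_eq_div, le_div_iff₀ (by positivity)]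
    exact h2
  calc Bk (j + 1) n * x ^ n ≤ ((n.choose j : ℝ) * b n) * x ^ n :=
        mul_le_mul_of_nonneg_right h1 (by positivity)
    _ ≤ (((1 / ε) ^ j * (1 + ε) ^ n) * b n) * x ^ n := by
        have := b_nonneg n
        gcongr
    _ = _ := by rw [mul_pow]; ring

theorem conv_Bk {R : ℝ} (hR : Conv b R) (k : ℕ) : Conv (Bk k) R := by
  cases k with
  | zero =>
    have : Bk 0 = one := by funext n; rfl
    rw [this]; exact conv_one R
  | succ j =>
    intro x hx hxR
    obtain ⟨y, hy1, hy2⟩ := exists_between hxR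
    by_cases hx0 : x = 0
    · subst hx0
      apply summable_of_ne_finset_zero (s := {0})
      intro n hn
      have : n ≠ 0 := by simpa using hn
      simp [this]
    · have hxp : 0 < x := lt_of_le_of_ne hx (Ne.symm hx0)
      have hε : 0 < y / x - 1 := by
        rw [sub_pos, lt_div_iff₀ hxp]; linarith
      have hs := (hR y (hx.trans hy1.le) hy2).mul_left ((1 / (y / x - 1)) ^ j)
      refine Summable.of_nonneg_of_le (fun n => by positivity) (fun n => ?_) hs
      rw [Real.norm_of_nonneg (Bk_nonneg _ _), Real.norm_of_nonneg (b_nonneg n)]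
      have := Bk_bound j n hε hx
      have e : x * (1 + (y / x - 1)) = y := by field_simp; ring
      rw [e] at this
      exact this

/-- uniform geometric bound for the evaluations -/
theorem ev_Bk_bound {R x : ℝ} (hR : Conv b R) (hx : 0 ≤ x) (hxR : x < R) :
    ∃ K r : ℝ, 1 ≤ K ∧ 1 ≤ r ∧ ∀ k : ℕ, ∀ s : ℝ, 0 ≤ s → s ≤ x →
      0 ≤ ev (Bk k) s ∧ ev (Bk k) s ≤ K * r ^ k := by
  obtain ⟨y, hy1, hy2⟩ := exists_between hxR
  have hyp : 0 < y := lt_of_le_of_lt hx hy1
  -- choose ε with x (1+ε) ≤ y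
  obtain ⟨ε, hε, hε1, hxe⟩ : ∃ ε : ℝ, 0 < ε ∧ ε ≤ 1 ∧ x * (1 + ε) ≤ y := by
    refine ⟨min 1 ((y - x) / (x + 1)), ?_, min_le_left _ _, ?_⟩
    · apply lt_min one_pos
      apply div_pos <;> linarith
    · have h1 : min 1 ((y - x) / (x + 1)) ≤ (y - x) / (x + 1) := min_le_right _ _
      have h2 : x * min 1 ((y - x) / (x + 1)) ≤ x * ((y - x) / (x + 1)) :=
        mul_le_mul_of_nonneg_left h1 hx
      have h3 : x * ((y - x) / (x + 1)) ≤ y - x := by
        rw [← mul_div_assoc, div_le_iff₀ (by linarith)]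
        nlinarith
      linarith
  have hby := hR y hyp.le hy2
  have hby' : Summable fun n => b n * y ^ n := by
    refine hby.congr (fun n => ?_)
    rw [Real.norm_of_nonneg (b_nonneg n)]
  have hA0 : 0 ≤ ev b y := tsum_nonneg (fun n => mul_nonneg (b_nonneg n) (by positivity))
  refine ⟨1 + ev b y, 1 / ε, by linarith, by rw [le_div_iff₀ hε]; linarith, ?_⟩
  intro k s hs hsx
  have hsR : ‖s‖ < R := by rw [Real.norm_of_nonneg hs]; linarith
  refine ⟨tsum_nonneg (fun n => mul_nonneg (Bk_nonneg _ _) (by positivity)), ?_⟩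
  cases k with
  | zero =>
    have : Bk 0 = one := by funext n; rfl
    rw [this, ev_one]
    simp; exact hA0
  | succ j =>
    have h1 : ∀ n, Bk (j + 1) n * s ^ n ≤ (1 / ε) ^ j * (b n * y ^ n) := by
      intro n
      refine (Bk_bound j n hε hs).trans ?_
      have h2 : s * (1 + ε) ≤ y := by
        refine le_trans ?_ hxe
        exact mul_le_mul_of_nonneg_right hsx (by linarith)
      have := b_nonneg n
      gcongr
    have h2 : ev (Bk (j + 1)) s ≤ (1 / ε) ^ j * ev b y := by
      unfold ev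
      rw [← tsum_mul_left]
      exact ((conv_Bk hR (j + 1)).summable hsR).tsum_le_tsum h1 (hby'.mul_left _)
    refine h2.trans ?_
    have h3 : (1 : ℝ) ≤ 1 / ε := by rw [le_div_iff₀ hε]; linarith
    have h4 : (1 / ε) ^ j ≤ (1 / ε) ^ (j + 1) := pow_le_pow_right₀ h3 (by omega)
    calc (1 / ε) ^ j * ev b y ≤ (1 / ε) ^ (j + 1) * (1 + ev b y) := by
          apply mul_le_mul h4 (by linarith) hA0 (by positivity)
      _ = _ := by ring

/-- primitive of a power series -/
noncomputable def ig (f : ℕ → ℝ) : ℕ → ℝ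
  | 0 => 0
  | n + 1 => f n / ((n : ℝ) + 1)

theorem dv_ig (f : ℕ → ℝ) : dv (ig f) = f := by
  funext n
  show ((n : ℝ) + 1) * (f n / ((n : ℝ) + 1)) = f n
  have : ((n : ℝ) + 1) ≠ 0 := by positivity
  field_simp

theorem conv_ig {f : ℕ → ℝ} {R : ℝ} (hf : Conv f R) : Conv (ig f) R := by
  intro x hx hxR
  rw [← summable_nat_add_iff 1]
  refine Summable.of_nonneg_of_le (fun n => by positivity) (fun n => ?_)
    ((hf x hx hxR).mul_left x)
  show ‖f n / ((n : ℝ) + 1)‖ * x ^ (n + 1) ≤ _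
  rw [norm_div, Real.norm_of_nonneg (by positivity : (0 : ℝ) ≤ (n : ℝ) + 1), pow_succ]
  have h1 : ‖f n‖ / ((n : ℝ) + 1) ≤ ‖f n‖ :=
    div_le_self (norm_nonneg _) (by linarith [(Nat.cast_nonneg n : (0 : ℝ) ≤ n)])
  calc ‖f n‖ / ((n : ℝ) + 1) * (x ^ n * x) ≤ ‖f n‖ * (x ^ n * x) :=
        mul_le_mul_of_nonneg_right h1 (by positivity)
    _ = _ := by ring

/-- the function `alpha` -/
noncomputable def alpha (s : ℝ) : ℝ := ev (ig b) s

theorem alpha_deriv {R s : ℝ} (hR : Conv b R) (hs : |s| < R) : HasDerivAt alpha (ev b s) s := by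
  have := ev_hasDerivAt (conv_ig hR) (z := s) hs
  rw [dv_ig] at this
  exact this

theorem alpha_zero : alpha 0 = 0 := by
  unfold alpha
  rw [ev_zero]
  rfl

theorem alpha_nonneg {s : ℝ} (hs : 0 ≤ s) : 0 ≤ alpha s := by
  apply tsum_nonneg
  intro n
  cases n with
  | zero => simp [ig]
  | succ n => exact mul_nonneg (div_nonneg (b_nonneg n) (by positivity)) (by positivity)

/-- signed rescaled chain functions -/
noncomputable def v (k : ℕ) (s : ℝ) : ℝ := (-1) ^ k * (Real.exp (-alpha s) * ev (Bk k) s)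

theorem exp_deriv {R s : ℝ} (hR : Conv b R) (hs : |s| < R) :
    HasDerivAt (fun s => Real.exp (-alpha s)) (-(ev b s) * Real.exp (-alpha s)) s := by
  have := ((alpha_deriv hR hs).fun_neg).exp
  rw [mul_comm]
  exact this

theorem ev_dBk {R s : ℝ} (hR : Conv b R) (hs : |s| < R) (k : ℕ) :
    ev (dv (Bk (k + 1))) s = -ev (Bk (k + 2)) s + ev (Bk k) s +
      (ev (Bk (k + 1)) s + ev (Bk k) s) * ev b s := by
  have hs' : ‖s‖ < R := hs
  have e : dv (Bk (k + 1)) = fun n => ((-1) * Bk (k + 2) n + Bk k n) +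
      cv (fun i => Bk (k + 1) i + Bk k i) b n := by
    funext n
    have := Bk_rec k n
    unfold dv cv
    linarith
  have c0 := conv_Bk hR k
  have c1 := conv_Bk hR (k + 1)
  have c2 := conv_Bk hR (k + 2)
  rw [e, ev_add (f := fun n => (-1) * Bk (k + 2) n + Bk k n)
    (g := cv (fun i => Bk (k + 1) i + Bk k i) b) ((c2.const_mul (-1)).add c0)
    ((c1.add c0).mul hR) hs', ev_add (f := fun n => (-1) * Bk (k + 2) n) (g := Bk k)
    (c2.const_mul (-1)) c0 hs', ev_const_mul, ev_mul (c1.add c0) hR hs', ev_add c1 c0 hs']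
  ring

theorem v_deriv_zero {R s : ℝ} (hR : Conv b R) (hs : |s| < R) : HasDerivAt (v 0) (v 1 s) s := by
  have h := exp_deriv hR hs
  have e : v 0 = fun s => Real.exp (-alpha s) := by
    funext s
    have : Bk 0 = one := by funext n; rfl
    unfold v
    rw [this, ev_one]
    simp
  rw [e]
  have e1 : v 1 s = -(ev b s) * Real.exp (-alpha s) := by
    unfold v
    rw [Bk_one]
    ring
  rw [e1]
  exact h

theorem v_deriv_succ {R s : ℝ} (hR : Conv b R) (hs : |s| < R) (k : ℕ) :
    HasDerivAt (v (k + 1)) (v (k + 2) s - (1 + ev b s) * v k s) s := by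
  have h1 := exp_deriv hR hs
  have h2 := ev_hasDerivAt (conv_Bk hR (k + 1)) (z := s) hs
  rw [ev_dBk hR hs k] at h2
  have h3 := (h1.fun_mul h2).const_mul ((-1 : ℝ) ^ (k + 1))
  unfold v
  refine h3.congr_deriv ?_
  rw [pow_succ, pow_succ]
  ring

/-! ### Bessel-type functions -/

noncomputable def Jc (m : ℕ) (n : ℕ) : ℝ := 1 / ((n.factorial : ℝ) * ((n + m).factorial : ℝ))

noncomputable def J (m : ℕ) (w : ℝ) : ℝ := ev (Jc m) w

theorem Jc_nonneg (m n : ℕ) : 0 ≤ Jc m n := by unfold Jc; positivity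

theorem Jc_le (m n : ℕ) : Jc m n ≤ 1 / n.factorial := by
  unfold Jc
  have h1 : (1 : ℝ) ≤ (n + m).factorial := by exact_mod_cast Nat.succ_le_of_lt (Nat.factorial_pos _)
  have h2 : (0 : ℝ) < n.factorial := by exact_mod_cast Nat.factorial_pos _
  apply one_div_le_one_div_of_le h2
  nlinarith

theorem conv_Jc (m : ℕ) (R : ℝ) : Conv (Jc m) R := by
  intro x hx _
  refine Summable.of_nonneg_of_le (fun n => by positivity) (fun n => ?_)
    (Real.summable_pow_div_factorial x)
  rw [Real.norm_of_nonneg (Jc_nonneg m n)]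
  have := Jc_le m n
  calc Jc m n * x ^ n ≤ 1 / n.factorial * x ^ n := mul_le_mul_of_nonneg_right this (by positivity)
    _ = _ := by ring

theorem dv_Jc (m : ℕ) : dv (Jc m) = Jc (m + 1) := by
  funext n
  unfold dv Jc
  have h1 : (0 : ℝ) < n.factorial := by exact_mod_cast Nat.factorial_pos _
  have e : n + 1 + m = n + (m + 1) := by ring
  rw [e, Nat.factorial_succ n]
  have h2 : (0 : ℝ) < (n + (m + 1)).factorial := by exact_mod_cast Nat.factorial_pos _
  push_cast
  field_simp

theorem J_deriv (m : ℕ) (w : ℝ) : HasDerivAt (J m) (J (m + 1) w) w := by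
  have h := ev_hasDerivAt (conv_Jc m (|w| + 1)) (z := w) (by
    show |w| < |w| + 1
    linarith)
  rw [dv_Jc] at h
  exact h

theorem J_zero (m : ℕ) : J m 0 = 1 / m.factorial := by
  unfold J
  rw [ev_zero]
  simp [Jc]

/-- contiguity relation -/
theorem J_rel (m : ℕ) (w : ℝ) : ((m : ℝ) + 1) * J (m + 1) w + w * J (m + 2) w = J m w := by
  have hR : ∀ m, Conv (Jc m) (|w| + 1) := fun m => conv_Jc m _
  have hw : ‖w‖ < |w| + 1 := by show |w| < _; linarith
  have h1 := (hR (m + 1)).summable hw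
  have h2 := (hR (m + 2)).summable hw
  have h0 := (hR m).summable hw
  unfold J ev
  rw [← tsum_mul_left, ← tsum_mul_left]
  -- shift the second sum
  have hs : Summable fun n : ℕ => w * (Jc (m + 2) n * w ^ n) := h2.mul_left w
  let f : ℕ → ℝ := fun n => match n with
    | 0 => 0
    | k + 1 => w * (Jc (m + 2) k * w ^ k)
  have hf : Summable f := by
    rw [← summable_nat_add_iff 1]; exact hs
  have e2 : ∑' n, w * (Jc (m + 2) n * w ^ n) = ∑' n, f n := by
    rw [hf.tsum_eq_zero_add]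
    show _ = 0 + _
    rw [zero_add]
  rw [e2, ← (h1.mul_left _).tsum_add hf]
  apply tsum_congr
  intro n
  cases n with
  | zero =>
    show ((m : ℝ) + 1) * (Jc (m + 1) 0 * w ^ 0) + 0 = Jc m 0 * w ^ 0
    unfold Jc
    rw [zero_add, zero_add, Nat.factorial_succ]
    have h2 : (0 : ℝ) < m.factorial := by exact_mod_cast Nat.factorial_pos _
    push_cast
    field_simp
    simp
  | succ k =>
    show ((m : ℝ) + 1) * (Jc (m + 1) (k + 1) * w ^ (k + 1)) + w * (Jc (m + 2) k * w ^ k) =
      Jc m (k + 1) * w ^ (k + 1)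
    unfold Jc
    have ea : k + 1 + (m + 1) = (k + 1 + m) + 1 := by ring
    have eb : k + (m + 2) = (k + 1 + m) + 1 := by ring
    rw [ea, eb, Nat.factorial_succ (k + 1 + m), Nat.factorial_succ k]
    have h1 : (0 : ℝ) < (k + 1 + m).factorial := by exact_mod_cast Nat.factorial_pos _
    have h2 : (0 : ℝ) < k.factorial := by exact_mod_cast Nat.factorial_pos _
    push_cast
    field_simp
    ring

theorem J_mono {m : ℕ} {x y : ℝ} (hx : 0 ≤ x) (hxy : x ≤ y) : J m x ≤ J m y :=
  ev_mono_arg (conv_Jc m (y + 1)) (Jc_nonneg m) hx hxy (by linarith)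

theorem J_nonneg {m : ℕ} {x : ℝ} (hx : 0 ≤ x) : 0 ≤ J m x :=
  tsum_nonneg (fun n => mul_nonneg (Jc_nonneg m n) (by positivity))

theorem J_le {m : ℕ} {x : ℝ} (hx : 0 ≤ x) : J m x ≤ J 0 x / m.factorial := by
  unfold J
  rw [div_eq_inv_mul, ← ev_const_mul]
  apply ev_mono (conv_Jc m (x + 1)) ((conv_Jc 0 (x + 1)).const_mul _) hx (by linarith)
  intro n
  unfold Jc
  have h1 : n.factorial * m.factorial ≤ (n + m).factorial :=
    Nat.le_of_dvd (Nat.factorial_pos _) (Nat.factorial_mul_factorial_dvd_factorial_add n m)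
  have h1' : (n.factorial : ℝ) * m.factorial ≤ (n + m).factorial := by exact_mod_cast h1
  have h2 : (0 : ℝ) < n.factorial := by exact_mod_cast Nat.factorial_pos _
  have h3 : (0 : ℝ) < m.factorial := by exact_mod_cast Nat.factorial_pos _
  have e : (m.factorial : ℝ)⁻¹ * (1 / ((n.factorial : ℝ) * ((n + 0).factorial : ℝ))) =
      1 / ((n.factorial : ℝ) * (n.factorial * m.factorial)) := by
    rw [add_zero]; field_simp
  rw [e]
  apply one_div_le_one_div_of_le (by positivity)
  exact mul_le_mul_of_nonneg_left h1' h2.le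

end Pool.Agent.Helper949.SR
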