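import Mathlib
import Pool.Agent.Helper949.SR2
set_option autoImplicit false
namespace Pool.Agent.Helper949.SR
open Finset Filter Topology Pool.Agent.Helper949.SP Pool.Agent.Helper949.SQ

noncomputable def bm (m : ℕ) (x s : ℝ) : ℝ := (x - s) ^ m * J m ((s + alpha s) * (x - s))

theorem arg_deriv {R s : ℝ} (hR : Conv b R) (hs : |s| < R) (x : ℝ) :
    HasDerivAt (fun s => (s + alpha s) * (x - s))
      ((1 + ev b s) * (x - s) - (s + alpha s)) s := by
  have h1 : HasDerivAt (fun s => s + alpha s) (1 + ev b s) s :=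
    (hasDerivAt_id s).add (alpha_deriv hR hs)
  have h2 : HasDerivAt (fun s => x - s) (-1) s := (hasDerivAt_id s).const_sub x
  refine (h1.fun_mul h2).congr_deriv ?_
  ring

theorem bm_deriv_zero {R s : ℝ} (hR : Conv b R) (hs : |s| < R) (x : ℝ) :
    HasDerivAt (bm 0 x) ((1 + ev b s) * bm 1 x s -
      (s + alpha s) * J 1 ((s + alpha s) * (x - s))) s := by
  have h := (J_deriv 0 ((s + alpha s) * (x - s))).comp s (arg_deriv hR hs x)
  have e : bm 0 x = fun s => J 0 ((s + alpha s) * (x - s)) := by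
    funext s; unfold bm; ring
  rw [e]
  refine h.congr_deriv ?_
  unfold bm
  ring

theorem bm_deriv_succ {R s : ℝ} (hR : Conv b R) (hs : |s| < R) (x : ℝ) (m : ℕ) :
    HasDerivAt (bm (m + 1) x) (-bm m x s + (1 + ev b s) * bm (m + 2) x s) s := by
  have h := (J_deriv (m + 1) ((s + alpha s) * (x - s))).comp s (arg_deriv hR hs x)
  have h1 : HasDerivAt (fun s => (x - s) ^ (m + 1)) (-(((m : ℝ) + 1) * (x - s) ^ m)) s := by
    have h2 : HasDerivAt (fun s => x - s) (-1) s := (hasDerivAt_id s).const_sub x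
    have := h2.fun_pow (m + 1)
    refine this.congr_deriv ?_
    push_cast
    ring
  have h3 := h1.fun_mul h
  have hrel := J_rel m ((s + alpha s) * (x - s))
  unfold bm
  refine h3.congr_deriv ?_
  rw [← hrel]
  simp only [Function.comp]
  ring

theorem bm_self_zero (x : ℝ) : bm 0 x x = 1 := by
  unfold bm
  rw [sub_self, mul_zero, J_zero]
  simp

theorem bm_self_succ (m : ℕ) (x : ℝ) : bm (m + 1) x x = 0 := by
  unfold bm
  rw [sub_self, zero_pow (by omega), zero_mul]

theorem v_zero_at (k : ℕ) : v (k + 1) 0 = 0 := by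
  unfold v
  rw [ev_zero, Bk_s]
  have h : gm k 0 = 0 := by
    have := gam_le k 0
    rw [c_zero] at this
    omega
  rw [h]
  simp

theorem v0_eq (s : ℝ) : v 0 s = Real.exp (-alpha s) := by
  have : Bk 0 = one := by funext n; rfl
  unfold v
  rw [this, ev_one]
  simp

noncomputable def Psi (x : ℝ) (N : ℕ) (s : ℝ) : ℝ := ∑ k ∈ range (N + 1), v k s * bm k x s

/-- remainder term -/
noncomputable def Rem (x : ℝ) (N : ℕ) (s : ℝ) : ℝ :=
  v (N + 1) s * bm N x s + (1 + ev b s) * v N s * bm (N + 1) x s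

noncomputable def ker (x s : ℝ) : ℝ :=
  Real.exp (-alpha s) * (s + alpha s) * J 1 ((x - s) * (s + alpha s))

theorem Psi_deriv {R s : ℝ} (hR : Conv b R) (hs : |s| < R) (x : ℝ) (N : ℕ) :
    HasDerivAt (Psi x N) (-ker x s + Rem x N s) s := by
  induction N with
  | zero =>
    have e : Psi x 0 = fun s => v 0 s * bm 0 x s := by
      funext s; unfold Psi; simp
    rw [e]
    have h := (v_deriv_zero hR hs).fun_mul (bm_deriv_zero hR hs x)
    refine h.congr_deriv ?_
    unfold Rem ker
    rw [v0_eq, mul_comm (x - s) (s + alpha s)]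
    ring
  | succ N ih =>
    have e : Psi x (N + 1) = fun s => Psi x N s + v (N + 1) s * bm (N + 1) x s := by
      funext s; unfold Psi; rw [Finset.sum_range_succ]
    rw [e]
    have h := ih.fun_add ((v_deriv_succ hR hs N).fun_mul (bm_deriv_succ hR hs x N))
    refine h.congr_deriv ?_
    unfold Rem
    ring

theorem Psi_self (x : ℝ) (N : ℕ) : Psi x N x = Real.exp (-alpha x) := by
  unfold Psi
  rw [Finset.sum_range_succ', bm_self_zero, v0_eq, mul_one]
  have : ∑ k ∈ range N, v (k + 1) x * bm (k + 1) x x = 0 := by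
    apply Finset.sum_eq_zero
    intro k _
    rw [bm_self_succ, mul_zero]
  rw [this, zero_add]

theorem Psi_zero (x : ℝ) (N : ℕ) : Psi x N 0 = 1 := by
  unfold Psi
  rw [Finset.sum_range_succ', v0_eq]
  have : ∑ k ∈ range N, v (k + 1) 0 * bm (k + 1) x 0 = 0 := by
    apply Finset.sum_eq_zero
    intro k _
    rw [v_zero_at, zero_mul]
  rw [this, zero_add, alpha_zero]
  unfold bm
  rw [alpha_zero, add_zero, zero_mul, J_zero]
  simp

theorem v_continuousOn {R x : ℝ} (hR : Conv b R) (hxR : x < R) (k : ℕ) :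
    ContinuousOn (v k) (Set.Icc 0 x) := by
  intro s hs
  have hs' : |s| < R := by rw [abs_of_nonneg hs.1]; linarith [hs.2]
  apply ContinuousAt.continuousWithinAt
  cases k with
  | zero => exact (v_deriv_zero hR hs').continuousAt
  | succ k => exact (v_deriv_succ hR hs' k).continuousAt

theorem bm_continuousOn {R x : ℝ} (hR : Conv b R) (hxR : x < R) (k : ℕ) :
    ContinuousOn (bm k x) (Set.Icc 0 x) := by
  intro s hs
  have hs' : |s| < R := by rw [abs_of_nonneg hs.1]; linarith [hs.2]
  apply ContinuousAt.continuousWithinAt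
  cases k with
  | zero => exact (bm_deriv_zero hR hs' x).continuousAt
  | succ k => exact (bm_deriv_succ hR hs' x k).continuousAt

theorem ev_continuousOn {f : ℕ → ℝ} {R x : ℝ} (hR : Conv f R) (hxR : x < R) :
    ContinuousOn (ev f) (Set.Icc 0 x) := by
  intro s hs
  have hs' : ‖s‖ < R := by rw [Real.norm_of_nonneg hs.1]; linarith [hs.2]
  exact (ev_hasDerivAt hR hs').continuousAt.continuousWithinAt

theorem J_continuous (m : ℕ) : Continuous (J m) :=
  continuous_iff_continuousAt.2 (fun w => (J_deriv m w).continuousAt)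

theorem alpha_continuousOn {R x : ℝ} (hR : Conv b R) (hxR : x < R) :
    ContinuousOn alpha (Set.Icc 0 x) := by
  intro s hs
  have hs' : |s| < R := by rw [abs_of_nonneg hs.1]; linarith [hs.2]
  exact (alpha_deriv hR hs').continuousAt.continuousWithinAt

theorem ker_continuousOn {R x : ℝ} (hR : Conv b R) (hxR : x < R) :
    ContinuousOn (ker x) (Set.Icc 0 x) := by
  have ha := alpha_continuousOn hR hxR
  unfold ker
  have h1 : ContinuousOn (fun s => s + alpha s) (Set.Icc 0 x) := continuousOn_id.add ha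
  have h2 : ContinuousOn (fun s => (x - s) * (s + alpha s)) (Set.Icc 0 x) :=
    (continuousOn_const.sub continuousOn_id).mul h1
  exact ((Real.continuous_exp.comp_continuousOn ha.neg).mul h1).mul
    ((J_continuous 1).comp_continuousOn h2)

theorem Rem_continuousOn {R x : ℝ} (hR : Conv b R) (hxR : x < R) (N : ℕ) :
    ContinuousOn (Rem x N) (Set.Icc 0 x) := by
  unfold Rem
  exact ((v_continuousOn hR hxR (N + 1)).mul (bm_continuousOn hR hxR N)).add
    (((continuousOn_const.add (ev_continuousOn hR hxR)).mul (v_continuousOn hR hxR N)).mul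
      (bm_continuousOn hR hxR (N + 1)))

theorem Psi_int {R x : ℝ} (hR : Conv b R) (hx : 0 ≤ x) (hxR : x < R) (N : ℕ) :
    Real.exp (-alpha x) - 1 = -(∫ s in (0 : ℝ)..x, ker x s) + ∫ s in (0 : ℝ)..x, Rem x N s := by
  have hu : Set.uIcc 0 x = Set.Icc 0 x := Set.uIcc_of_le hx
  have hk : IntervalIntegrable (ker x) MeasureTheory.volume 0 x :=
    ContinuousOn.intervalIntegrable (by rw [hu]; exact ker_continuousOn hR hxR)
  have hr : IntervalIntegrable (Rem x N) MeasureTheory.volume 0 x :=
    ContinuousOn.intervalIntegrable (by rw [hu]; exact Rem_continuousOn hR hxR N)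
  have hk' : IntervalIntegrable (fun s => -ker x s) MeasureTheory.volume 0 x := hk.neg
  have h := intervalIntegral.integral_eq_sub_of_hasDerivAt (f := Psi x N)
    (f' := fun s => -ker x s + Rem x N s) (a := 0) (b := x) (by
      intro s hs
      rw [hu] at hs
      exact Psi_deriv hR (by rw [abs_of_nonneg hs.1]; linarith [hs.2]) x N) (hk'.add hr)
  have h2 : ∫ s in (0 : ℝ)..x, (-ker x s + Rem x N s) =
      -(∫ s in (0 : ℝ)..x, ker x s) + ∫ s in (0 : ℝ)..x, Rem x N s := by
    rw [intervalIntegral.integral_add hk' hr, intervalIntegral.integral_neg]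
  rw [← h2, h, Psi_self, Psi_zero]

theorem Rem_bound {R x : ℝ} (hR : Conv b R) (hx : 0 ≤ x) (hxR : x < R) :
    ∃ C q : ℝ, 0 ≤ C ∧ 0 ≤ q ∧ ∀ N : ℕ, ∀ s : ℝ, 0 ≤ s → s ≤ x →
      |Rem x N s| ≤ C * (q ^ N / N.factorial) := by
  obtain ⟨K, r, hK, hr, hb⟩ := ev_Bk_bound hR hx hxR
  have ha := alpha_nonneg hx
  set Jb : ℝ := J 0 ((x + alpha x) * x) with hJb
  have hJb0 : 0 ≤ Jb := J_nonneg (by positivity)
  have hA : ∀ s, 0 ≤ s → s ≤ x → 0 ≤ ev b s ∧ ev b s ≤ K * r := by
    intro s h0 h1
    have := hb 1 s h0 h1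
    rw [Bk_one, pow_one] at this
    exact this
  have halpha : ∀ s, 0 ≤ s → s ≤ x → 0 ≤ alpha s ∧ alpha s ≤ alpha x := by
    intro s h0 h1
    refine ⟨alpha_nonneg h0, ?_⟩
    apply ev_mono_arg (conv_ig hR) _ h0 h1 hxR
    intro n
    cases n with
    | zero => exact le_rfl
    | succ n => exact div_nonneg (b_nonneg n) (by positivity)
  have hv : ∀ k s, 0 ≤ s → s ≤ x → |v k s| ≤ K * r ^ k := by
    intro k s h0 h1
    unfold v
    rw [abs_mul, abs_pow, abs_neg, abs_one, one_pow, one_mul, abs_mul, abs_of_pos (Real.exp_pos _),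
      abs_of_nonneg (hb k s h0 h1).1]
    have h2 : Real.exp (-alpha s) ≤ 1 := Real.exp_le_one_iff.2 (by linarith [(halpha s h0 h1).1])
    calc Real.exp (-alpha s) * ev (Bk k) s ≤ 1 * ev (Bk k) s :=
          mul_le_mul_of_nonneg_right h2 (hb k s h0 h1).1
      _ ≤ _ := by rw [one_mul]; exact (hb k s h0 h1).2
  have hbm : ∀ m s, 0 ≤ s → s ≤ x → |bm m x s| ≤ x ^ m * (Jb / m.factorial) := by
    intro m s h0 h1
    unfold bm
    have h2 : 0 ≤ (s + alpha s) * (x - s) :=
      mul_nonneg (by linarith [(halpha s h0 h1).1]) (by linarith)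
    have h3 : (s + alpha s) * (x - s) ≤ (x + alpha x) * x := by
      apply mul_le_mul _ (by linarith) (by linarith) (by linarith)
      linarith [(halpha s h0 h1).2]
    have h4 : J m ((s + alpha s) * (x - s)) ≤ Jb / m.factorial := by
      refine (J_le h2).trans ?_
      apply div_le_div_of_nonneg_right _ (by positivity)
      exact J_mono h2 h3
    rw [abs_mul, abs_pow, abs_of_nonneg (by linarith : 0 ≤ x - s), abs_of_nonneg (J_nonneg h2)]
    apply mul_le_mul _ h4 (J_nonneg h2) (by positivity)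
    exact pow_le_pow_left₀ (by linarith) (by linarith) m
  refine ⟨K * r * Jb + (1 + K * r) * K * x * Jb, r * x, by positivity, by positivity, ?_⟩
  intro N s h0 h1
  have hr0 : 0 ≤ r := by linarith
  have hK0 : 0 ≤ K := by linarith
  unfold Rem
  have t1 : |v (N + 1) s * bm N x s| ≤ (K * r * Jb) * ((r * x) ^ N / N.factorial) := by
    rw [abs_mul]
    calc |v (N + 1) s| * |bm N x s| ≤ (K * r ^ (N + 1)) * (x ^ N * (Jb / N.factorial)) :=
          mul_le_mul (hv _ s h0 h1) (hbm _ s h0 h1) (abs_nonneg _) (by positivity)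
      _ = _ := by rw [mul_pow, pow_succ]; ring
  have t2 : |(1 + ev b s) * v N s * bm (N + 1) x s| ≤
      ((1 + K * r) * K * x * Jb) * ((r * x) ^ N / N.factorial) := by
    rw [abs_mul, abs_mul, abs_of_nonneg (by linarith [(hA s h0 h1).1] : 0 ≤ 1 + ev b s)]
    have h5 : x ^ (N + 1) * (Jb / (N + 1).factorial) ≤ x ^ (N + 1) * (Jb / N.factorial) := by
      apply mul_le_mul_of_nonneg_left _ (by positivity)
      apply div_le_div_of_nonneg_left hJb0
      · exact_mod_cast Nat.factorial_pos N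
      · exact_mod_cast Nat.factorial_le (by omega)
    calc (1 + ev b s) * |v N s| * |bm (N + 1) x s| ≤
          ((1 + K * r) * (K * r ^ N)) * (x ^ (N + 1) * (Jb / N.factorial)) := by
          apply mul_le_mul _ ((hbm _ s h0 h1).trans h5) (abs_nonneg _) (by positivity)
          apply mul_le_mul _ (hv _ s h0 h1) (abs_nonneg _) (by positivity)
          linarith [(hA s h0 h1).2]
      _ = _ := by rw [mul_pow, pow_succ]; ring
  calc |v (N + 1) s * bm N x s + (1 + ev b s) * v N s * bm (N + 1) x s| ≤ _ := abs_add_le _ _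
    _ ≤ _ := add_le_add t1 t2
    _ = _ := by ring

/-- the Volterra equation satisfied by `exp (-alpha)` -/
theorem volterra {R x : ℝ} (hR : Conv b R) (hx : 0 ≤ x) (hxR : x < R) :
    Real.exp (-alpha x) = 1 - ∫ s in (0 : ℝ)..x, ker x s := by
  obtain ⟨C, q, hC, hq, hb⟩ := Rem_bound hR hx hxR
  have h1 : ∀ N : ℕ, |Real.exp (-alpha x) - 1 + ∫ s in (0 : ℝ)..x, ker x s| ≤
      (C * x) * (q ^ N / N.factorial) := by
    intro N
    have h2 := Psi_int hR hx hxR N
    have e : Real.exp (-alpha x) - 1 + ∫ s in (0 : ℝ)..x, ker x s =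
        ∫ s in (0 : ℝ)..x, Rem x N s := by rw [h2]; ring
    rw [e, ← Real.norm_eq_abs]
    have h3 := intervalIntegral.norm_integral_le_of_norm_le_const (a := 0) (b := x)
      (C := C * (q ^ N / N.factorial)) (f := Rem x N) (by
        intro s hs
        rw [Set.uIoc_of_le hx] at hs
        exact hb N s hs.1.le hs.2)
    rw [sub_zero, abs_of_nonneg hx] at h3
    refine h3.trans (le_of_eq ?_)
    ring
  have h2 : Tendsto (fun N : ℕ => (C * x) * (q ^ N / N.factorial)) atTop (𝓝 ((C * x) * 0)) :=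
    (FloorSemiring.tendsto_pow_div_factorial_atTop q).const_mul _
  rw [mul_zero] at h2
  have h3 : |Real.exp (-alpha x) - 1 + ∫ s in (0 : ℝ)..x, ker x s| ≤ 0 :=
    ge_of_tendsto' h2 h1
  have h4 := abs_nonpos_iff.1 h3
  linarith

end Pool.Agent.Helper949.SR
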