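import Mathlib
import Pool.Agent.Helper949.SR3
set_option autoImplicit false
namespace Pool.Agent.Helper949.SR
open Finset Filter Topology Pool.Agent.Helper949.SP Pool.Agent.Helper949.SQ

theorem alpha_blow {L : ℝ} (hL : 0 < L)
    (hlim : Tendsto (fun n => b n / L ^ (n + 1)) atTop (𝓝 1)) :
    Tendsto alpha (𝓝[<] (1 / L)) atTop := by
  have hR := conv_of_lim hL b_nonneg hlim
  have hρ : 0 < 1 / L := by positivity
  -- terms at the critical point
  set t : ℕ → ℝ := fun n => b n / ((n : ℝ) + 1) * (1 / L) ^ (n + 1) with ht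
  have ht0 : ∀ n, 0 ≤ t n := fun n => by
    have := b_nonneg n
    simp only [ht]; positivity
  have hns : ¬ Summable t := by
    intro hs
    have h1 : ¬ Summable (fun n : ℕ => 1 / ((n : ℝ) + 1)) := by
      have := Real.not_summable_one_div_natCast
      intro h
      apply this
      rw [← summable_nat_add_iff 1]
      refine h.congr (fun n => ?_)
      push_cast; rfl
    apply h1
    have h2 : Summable (fun n => 2 * t n) := hs.mul_left 2
    refine Summable.of_norm_bounded_eventually_nat h2 ?_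
    have h3 := hlim.eventually (lt_mem_nhds (show (1 / 2 : ℝ) < 1 by norm_num))
    filter_upwards [h3] with n hn
    rw [Real.norm_of_nonneg (by positivity)]
    have e : t n = (b n / L ^ (n + 1)) * (1 / ((n : ℝ) + 1)) := by
      simp only [ht]
      rw [one_div_pow]; field_simp
    rw [e]
    have h4 : 0 < 1 / ((n : ℝ) + 1) := by positivity
    nlinarith
  have htend := (not_summable_iff_tendsto_nat_atTop_of_nonneg ht0).1 hns
  rw [tendsto_atTop]
  intro M
  obtain ⟨N, hN⟩ := (htend.eventually_gt_atTop M).exists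
  -- continuity of the finite sum
  have hcont : Continuous fun x : ℝ => ∑ n ∈ range N, b n / ((n : ℝ) + 1) * x ^ (n + 1) := by
    fun_prop
  have hnear : ∀ᶠ x in 𝓝[<] (1 / L),
      M < ∑ n ∈ range N, b n / ((n : ℝ) + 1) * x ^ (n + 1) := by
    apply (hcont.tendsto (1 / L)).mono_left nhdsWithin_le_nhds
    exact lt_mem_nhds hN
  have hpos : ∀ᶠ x in 𝓝[<] (1 / L), 0 < x ∧ x < 1 / L := by
    filter_upwards [Ioo_mem_nhdsLT hρ] with x hx
    exact hx
  filter_upwards [hnear, hpos] with x hx1 hx2
  refine hx1.le.trans ?_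
  have hs := (conv_ig hR).summable (z := x) (by
    rw [Real.norm_of_nonneg hx2.1.le]; exact hx2.2)
  have h5 : ∑ n ∈ range (N + 1), ig b n * x ^ n ≤ alpha x := by
    apply hs.sum_le_tsum
    intro n _
    cases n with
    | zero => simp [ig]
    | succ n =>
      exact mul_nonneg (div_nonneg (b_nonneg n) (by positivity)) (pow_nonneg hx2.1.le _)
  rw [Finset.sum_range_succ'] at h5
  have e0 : ig b 0 * x ^ 0 = 0 := by simp [ig]
  rw [e0, add_zero] at h5
  exact h5

/-- the Bessel type kernel function `sum_k w^k / (k! (k+1)!)` -/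
noncomputable def J1 (w : ℝ) : ℝ := ∑' k : ℕ, w ^ k / ((k.factorial : ℝ) * ((k + 1).factorial : ℝ))

theorem J1_eq (w : ℝ) : J1 w = J 1 w := by
  unfold J1 J ev Jc
  apply tsum_congr
  intro k
  ring

/-- solutions of the Volterra equation which blow up exactly at `ρ` -/
def IsSol (ρ : ℝ) (al : ℝ → ℝ) : Prop :=
  ContinuousOn al (Set.Ico 0 ρ) ∧ Tendsto al (𝓝[<] ρ) atTop ∧
    ∀ x ∈ Set.Ico 0 ρ, Real.exp (-(al x)) =
      1 - ∫ s in (0 : ℝ)..x, Real.exp (-(al s)) * (s + al s) * J1 ((x - s) * (s + al s))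

theorem exists_sol {L : ℝ} (hL : 0 < L)
    (hlim : Tendsto (fun n => b n / L ^ (n + 1)) atTop (𝓝 1)) : IsSol (1 / L) alpha := by
  have hR := conv_of_lim hL b_nonneg hlim
  refine ⟨?_, alpha_blow hL hlim, ?_⟩
  · intro s hs
    have hs' : |s| < 1 / L := by rw [abs_of_nonneg hs.1]; exact hs.2
    exact (alpha_deriv hR hs').continuousAt.continuousWithinAt
  · intro x hx
    have h := volterra hR hx.1 hx.2
    simp only [J1_eq]
    exact h

end Pool.Agent.Helper949.SR
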