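import Mathlib
import Pool.Agent.Helper949.SR4
set_option autoImplicit false
namespace Pool.Agent.Helper949.SR
open Finset Filter Topology Pool.Agent.Helper949.SP Pool.Agent.Helper949.SQ

noncomputable def gg (s t u : ℝ) : ℝ := Real.exp (-u) * (s + u) * J 1 (t * (s + u))

theorem gg_deriv (s t u : ℝ) : HasDerivAt (gg s t)
    (Real.exp (-u) * ((1 - (s + u)) * J 1 (t * (s + u)) + (s + u) * t * J 2 (t * (s + u)))) u := by
  have h1 : HasDerivAt (fun u : ℝ => Real.exp (-u)) (-Real.exp (-u)) u := by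
    have := ((hasDerivAt_id u).fun_neg).exp
    refine this.congr_deriv ?_
    simp
  have h2 : HasDerivAt (fun u : ℝ => s + u) 1 u := (hasDerivAt_id u).const_add s
  have h3 : HasDerivAt (fun u : ℝ => t * (s + u)) (t * 1) u := h2.const_mul t
  have h4 := (J_deriv 1 (t * (s + u))).comp u h3
  have h5 := (h1.fun_mul h2).fun_mul h4
  refine h5.congr_deriv ?_
  simp only [Function.comp]
  ring

theorem gg_lip {X M : ℝ} : ∃ C : ℝ, 0 ≤ C ∧ ∀ s ∈ Set.Icc 0 X, ∀ t ∈ Set.Icc 0 X,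
    ∀ u1 ∈ Set.Icc (-M) M, ∀ u2 ∈ Set.Icc (-M) M, |gg s t u1 - gg s t u2| ≤ C * |u1 - u2| := by
  have hK : IsCompact (Set.Icc (0 : ℝ) X ×ˢ (Set.Icc (0 : ℝ) X ×ˢ Set.Icc (-M) M)) :=
    isCompact_Icc.prod (isCompact_Icc.prod isCompact_Icc)
  have hJ1 := J_continuous 1
  have hJ2 := J_continuous 2
  have hc : Continuous fun p : ℝ × ℝ × ℝ => Real.exp (-p.2.2) *
      ((1 - (p.1 + p.2.2)) * J 1 (p.2.1 * (p.1 + p.2.2)) +
        (p.1 + p.2.2) * p.2.1 * J 2 (p.2.1 * (p.1 + p.2.2))) := by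
    have e1 : Continuous fun p : ℝ × ℝ × ℝ => p.2.1 * (p.1 + p.2.2) := by fun_prop
    have e2 : Continuous fun p : ℝ × ℝ × ℝ => J 1 (p.2.1 * (p.1 + p.2.2)) := hJ1.comp e1
    have e3 : Continuous fun p : ℝ × ℝ × ℝ => J 2 (p.2.1 * (p.1 + p.2.2)) := hJ2.comp e1
    have e4 : Continuous fun p : ℝ × ℝ × ℝ => Real.exp (-p.2.2) := by fun_prop
    have e5 : Continuous fun p : ℝ × ℝ × ℝ => 1 - (p.1 + p.2.2) := by fun_prop
    have e6 : Continuous fun p : ℝ × ℝ × ℝ => (p.1 + p.2.2) * p.2.1 := by fun_prop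
    exact e4.mul ((e5.mul e2).add (e6.mul e3))
  obtain ⟨C, hC⟩ := hK.exists_bound_of_continuousOn hc.continuousOn
  refine ⟨max C 0, le_max_right _ _, ?_⟩
  intro s hs t ht u1 hu1 u2 hu2
  have h := (convex_Icc (-M) M).norm_image_sub_le_of_norm_hasDerivWithin_le (f := gg s t)
    (f' := fun u => Real.exp (-u) * ((1 - (s + u)) * J 1 (t * (s + u)) +
      (s + u) * t * J 2 (t * (s + u)))) (C := max C 0)
    (fun u _ => (gg_deriv s t u).hasDerivWithinAt)
    (fun u hu => (hC (s, t, u) ⟨hs, ht, hu⟩).trans (le_max_left _ _)) hu2 hu1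
  simpa [Real.norm_eq_abs] using h

theorem exp_lip {M u1 u2 : ℝ} (h1 : u1 ≤ M) (h2 : u2 ≤ M) :
    |u1 - u2| ≤ Real.exp M * |Real.exp (-u1) - Real.exp (-u2)| := by
  wlog h : u1 ≤ u2 generalizing u1 u2
  · rw [abs_sub_comm, abs_sub_comm (Real.exp (-u1))]
    exact this h2 h1 (le_of_not_ge h)
  have h3 : Real.exp (-u2) ≤ Real.exp (-u1) := Real.exp_le_exp.2 (by linarith)
  rw [abs_sub_comm, abs_of_nonneg (by linarith), abs_of_nonneg (by linarith)]
  have h4 : Real.exp (-u1) = Real.exp (-u2) * Real.exp (u2 - u1) := by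
    rw [← Real.exp_add]; congr 1; ring
  have h5 := Real.add_one_le_exp (u2 - u1)
  have h6 : Real.exp (-u1) - Real.exp (-u2) = Real.exp (-u2) * (Real.exp (u2 - u1) - 1) := by
    rw [h4]; ring
  have h7 : Real.exp M * (Real.exp (-u2) * (Real.exp (u2 - u1) - 1)) =
      Real.exp (M - u2) * (Real.exp (u2 - u1) - 1) := by
    rw [← mul_assoc, ← Real.exp_add, sub_eq_add_neg M u2]
  rw [h6, h7]
  have h8 : 1 ≤ Real.exp (M - u2) := Real.one_le_exp (by linarith)
  nlinarith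

theorem int_gg {al : ℝ → ℝ} {X x : ℝ} (hc : ContinuousOn al (Set.Icc 0 X)) (hx : x ≤ X) :
    ContinuousOn (fun s => gg s (x - s) (al s)) (Set.Icc 0 x) := by
  have hc' : ContinuousOn al (Set.Icc 0 x) := hc.mono (Set.Icc_subset_Icc le_rfl hx)
  unfold gg
  have h1 : ContinuousOn (fun s => s + al s) (Set.Icc 0 x) := continuousOn_id.add hc'
  have h2 : ContinuousOn (fun s => (x - s) * (s + al s)) (Set.Icc 0 x) :=
    (continuousOn_const.sub continuousOn_id).mul h1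
  exact ((Real.continuous_exp.comp_continuousOn hc'.neg).mul h1).mul
    ((J_continuous 1).comp_continuousOn h2)

/-- local uniqueness for the Volterra equation -/
theorem eq_on {al1 al2 : ℝ → ℝ} {X : ℝ} (hX : 0 ≤ X)
    (hc1 : ContinuousOn al1 (Set.Icc 0 X)) (hc2 : ContinuousOn al2 (Set.Icc 0 X))
    (he1 : ∀ x ∈ Set.Icc 0 X, Real.exp (-(al1 x)) =
      1 - ∫ s in (0 : ℝ)..x, gg s (x - s) (al1 s))
    (he2 : ∀ x ∈ Set.Icc 0 X, Real.exp (-(al2 x)) =
      1 - ∫ s in (0 : ℝ)..x, gg s (x - s) (al2 s)) : al1 X = al2 X := by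
  obtain ⟨M1, hM1⟩ := isCompact_Icc.exists_bound_of_continuousOn hc1
  obtain ⟨M2, hM2⟩ := isCompact_Icc.exists_bound_of_continuousOn hc2
  set M := max M1 M2 with hM
  have hb1 : ∀ s ∈ Set.Icc 0 X, al1 s ∈ Set.Icc (-M) M := by
    intro s hs
    have := (hM1 s hs).trans (le_max_left M1 M2)
    rw [Real.norm_eq_abs] at this
    exact abs_le.1 this
  have hb2 : ∀ s ∈ Set.Icc 0 X, al2 s ∈ Set.Icc (-M) M := by
    intro s hs
    have := (hM2 s hs).trans (le_max_right M1 M2)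
    rw [Real.norm_eq_abs] at this
    exact abs_le.1 this
  obtain ⟨C, hC0, hC⟩ := gg_lip (X := X) (M := M)
  set Dd : ℝ → ℝ := fun s => |Real.exp (-(al1 s)) - Real.exp (-(al2 s))| with hDd
  have hDc : ContinuousOn Dd (Set.Icc 0 X) := by
    have e1 : ContinuousOn (fun s => Real.exp (-(al1 s))) (Set.Icc 0 X) :=
      Real.continuous_exp.comp_continuousOn hc1.neg
    have e2 : ContinuousOn (fun s => Real.exp (-(al2 s))) (Set.Icc 0 X) :=
      Real.continuous_exp.comp_continuousOn hc2.neg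
    exact (e1.sub e2).abs
  set K := C * Real.exp M with hK
  have hK0 : 0 ≤ K := by positivity
  -- integral inequality
  have hineq : ∀ x ∈ Set.Icc 0 X, Dd x ≤ K * ∫ s in (0 : ℝ)..x, Dd s := by
    intro x hx
    have hu : Set.uIcc 0 x = Set.Icc 0 x := Set.uIcc_of_le hx.1
    have i1 : IntervalIntegrable (fun s => gg s (x - s) (al1 s)) MeasureTheory.volume 0 x :=
      ContinuousOn.intervalIntegrable (by rw [hu]; exact int_gg hc1 hx.2)
    have i2 : IntervalIntegrable (fun s => gg s (x - s) (al2 s)) MeasureTheory.volume 0 x :=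
      ContinuousOn.intervalIntegrable (by rw [hu]; exact int_gg hc2 hx.2)
    have i3 : IntervalIntegrable Dd MeasureTheory.volume 0 x :=
      ContinuousOn.intervalIntegrable
        (by rw [hu]; exact hDc.mono (Set.Icc_subset_Icc le_rfl hx.2))
    have e : Real.exp (-(al1 x)) - Real.exp (-(al2 x)) =
        ∫ s in (0 : ℝ)..x, (gg s (x - s) (al2 s) - gg s (x - s) (al1 s)) := by
      rw [he1 x hx, he2 x hx, intervalIntegral.integral_sub i2 i1]
      ring
    show |Real.exp (-(al1 x)) - Real.exp (-(al2 x))| ≤ _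
    rw [e]
    calc |∫ s in (0 : ℝ)..x, (gg s (x - s) (al2 s) - gg s (x - s) (al1 s))| ≤
          ∫ s in (0 : ℝ)..x, |gg s (x - s) (al2 s) - gg s (x - s) (al1 s)| :=
          intervalIntegral.abs_integral_le_integral_abs hx.1
      _ ≤ ∫ s in (0 : ℝ)..x, K * Dd s := by
          apply intervalIntegral.integral_mono_on hx.1 (i2.sub i1).abs (i3.const_mul K)
          intro s hs
          have hsX : s ∈ Set.Icc 0 X := ⟨hs.1, hs.2.trans hx.2⟩
          have ht : x - s ∈ Set.Icc 0 X := ⟨by linarith [hs.2], by linarith [hs.1, hx.2]⟩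
          have h1 := hC s hsX (x - s) ht (al2 s) (hb2 s hsX) (al1 s) (hb1 s hsX)
          have h2 := exp_lip (hb2 s hsX).2 (hb1 s hsX).2
          refine h1.trans ?_
          rw [hK, mul_assoc]
          apply mul_le_mul_of_nonneg_left _ hC0
          refine h2.trans (le_of_eq ?_)
          rw [hDd]
          simp only
          rw [abs_sub_comm]
      _ = K * ∫ s in (0 : ℝ)..x, Dd s := intervalIntegral.integral_const_mul _ _
  -- Gronwall
  rcases hX.eq_or_lt with h0 | hXpos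
  · subst h0
    have h1 := hineq 0 ⟨le_rfl, le_rfl⟩
    rw [intervalIntegral.integral_same, mul_zero] at h1
    have h2 : Real.exp (-(al1 0)) - Real.exp (-(al2 0)) = 0 := abs_nonpos_iff.1 h1
    have h3 := Real.exp_injective (sub_eq_zero.1 h2)
    linarith
  have hIoo : ∀ x ∈ Set.Ioo 0 X, HasDerivAt (fun x => ∫ s in (0 : ℝ)..x, Dd s) (Dd x) x := by
    intro x hx
    have hnhds : Set.Icc 0 X ∈ 𝓝 x := Icc_mem_nhds hx.1 hx.2
    apply intervalIntegral.integral_hasDerivAt_right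
    · exact ContinuousOn.intervalIntegrable (by
        rw [Set.uIcc_of_le hx.1.le]; exact hDc.mono (Set.Icc_subset_Icc le_rfl hx.2.le))
    · exact ContinuousOn.stronglyMeasurableAtFilter_nhdsWithin hDc measurableSet_Icc x
        |>.filter_mono (by rw [nhdsWithin_eq_nhds.2 hnhds])
    · exact hDc.continuousAt hnhds
  have hH0 : ∀ x ∈ Set.Icc 0 X, 0 ≤ ∫ s in (0 : ℝ)..x, Dd s := by
    intro x hx
    exact intervalIntegral.integral_nonneg hx.1 (fun s _ => abs_nonneg _)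
  have hcontH : ContinuousOn (fun x => ∫ s in (0 : ℝ)..x, Dd s) (Set.Icc 0 X) := by
    have := intervalIntegral.continuousOn_primitive_interval (μ := MeasureTheory.volume)
      (f := Dd) (a := 0) (b := X) (by
        rw [Set.uIcc_of_le hX]
        exact hDc.integrableOn_Icc)
    rwa [Set.uIcc_of_le hX] at this
  have hanti : AntitoneOn (fun x => (∫ s in (0 : ℝ)..x, Dd s) * Real.exp (-(K * x)))
      (Set.Icc 0 X) := by
    have hexp : ∀ x : ℝ, HasDerivAt (fun x => Real.exp (-(K * x)))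
        (Real.exp (-(K * x)) * (-(K * 1))) x := fun x =>
      (((hasDerivAt_id x).const_mul K).fun_neg).exp
    apply antitoneOn_of_deriv_nonpos (convex_Icc _ _)
    · apply hcontH.mul
      exact (Continuous.continuousOn (by fun_prop))
    · intro x hx
      rw [interior_Icc] at hx
      exact ((hIoo x hx).fun_mul (hexp x)).differentiableAt.differentiableWithinAt
    · intro x hx
      rw [interior_Icc] at hx
      rw [((hIoo x hx).fun_mul (hexp x)).deriv]
      have h1 := hineq x ⟨hx.1.le, hx.2.le⟩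
      have h2 := Real.exp_pos (-(K * x))
      have h3 : Dd x * Real.exp (-(K * x)) +
          (∫ s in (0 : ℝ)..x, Dd s) * (Real.exp (-(K * x)) * (-(K * 1))) =
          (Dd x - K * ∫ s in (0 : ℝ)..x, Dd s) * Real.exp (-(K * x)) := by ring
      rw [h3]
      exact mul_nonpos_of_nonpos_of_nonneg (by linarith) h2.le
  have hXm : X ∈ Set.Icc 0 X := ⟨hX, le_rfl⟩
  have h1 := hanti (Set.left_mem_Icc.2 hX) hXm hX
  simp only [intervalIntegral.integral_same, zero_mul] at h1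
  have h2 : ∫ s in (0 : ℝ)..X, Dd s ≤ 0 := by
    by_contra hcon
    push Not at hcon
    have := mul_pos hcon (Real.exp_pos (-(K * X)))
    linarith
  have h3 := hineq X hXm
  have h4 : Dd X ≤ 0 := by
    have : K * ∫ s in (0 : ℝ)..X, Dd s ≤ 0 := mul_nonpos_of_nonneg_of_nonpos hK0 h2
    linarith
  have h5 : Real.exp (-(al1 X)) - Real.exp (-(al2 X)) = 0 := abs_nonpos_iff.1 h4
  have h6 := Real.exp_injective (sub_eq_zero.1 h5)
  linarith

theorem sol_eq {ρ1 ρ2 : ℝ} {al1 al2 : ℝ → ℝ} (h1 : IsSol ρ1 al1) (h2 : IsSol ρ2 al2) {x : ℝ}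
    (hx : 0 ≤ x) (hx1 : x < ρ1) (hx2 : x < ρ2) : al1 x = al2 x := by
  apply eq_on hx (h1.1.mono (fun y hy => ⟨hy.1, lt_of_le_of_lt hy.2 hx1⟩))
    (h2.1.mono (fun y hy => ⟨hy.1, lt_of_le_of_lt hy.2 hx2⟩))
  · intro y hy
    rw [h1.2.2 y ⟨hy.1, lt_of_le_of_lt hy.2 hx1⟩]
    simp only [J1_eq]
    rfl
  · intro y hy
    rw [h2.2.2 y ⟨hy.1, lt_of_le_of_lt hy.2 hx2⟩]
    simp only [J1_eq]
    rfl

theorem not_lt_sol {ρ1 ρ2 : ℝ} {al1 al2 : ℝ → ℝ} (hρ1 : 0 < ρ1) (h1 : IsSol ρ1 al1)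
    (h2 : IsSol ρ2 al2) : ¬ ρ1 < ρ2 := by
  intro hlt
  have hc : ContinuousAt al2 ρ1 := h2.1.continuousAt (Ico_mem_nhds hρ1 hlt)
  have ht : Tendsto al2 (𝓝[<] ρ1) (𝓝 (al2 ρ1)) := hc.tendsto.mono_left nhdsWithin_le_nhds
  have ht2 : Tendsto al2 (𝓝[<] ρ1) atTop := by
    refine h1.2.1.congr' ?_
    filter_upwards [Ioo_mem_nhdsLT hρ1] with x hx
    exact sol_eq h1 h2 hx.1.le hx.2 (hx.2.trans hlt)
  exact not_tendsto_nhds_of_tendsto_atTop ht2 _ ht

/-- uniqueness of the blow-up point and of the solution -/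
theorem sol_unique {ρ1 ρ2 : ℝ} {al1 al2 : ℝ → ℝ} (hρ1 : 0 < ρ1) (hρ2 : 0 < ρ2)
    (h1 : IsSol ρ1 al1) (h2 : IsSol ρ2 al2) : ρ1 = ρ2 ∧ Set.EqOn al1 al2 (Set.Ico 0 ρ1) := by
  have h3 := not_lt_sol hρ1 h1 h2
  have h4 := not_lt_sol hρ2 h2 h1
  have h5 : ρ1 = ρ2 := le_antisymm (not_lt.1 h4) (not_lt.1 h3)
  refine ⟨h5, ?_⟩
  intro x hx
  exact sol_eq h1 h2 hx.1 hx.2 (h5 ▸ hx.2)

end Pool.Agent.Helper949.SR
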